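import Mathlib

/-!
# Elements of a cyclic group whose order is divisible by `n`

`N = Nat.card A`, `n ^ r ∣ N`, `A` cyclic.  If `n ∤ orderOf a` then for some prime `p ∣ n`,
`v_p (orderOf a) < v_p n`, so `a` lies in the subgroup of the elements of order dividing
`N / p ^ (v_p N - v_p n + 1)`, which has that many elements (`IsCyclic.card_orderOf_eq...`,
`IsCyclic.card_pow_eq_one_le`).  As `v_p N ≥ r v_p n`, this is at most
`N / p ^ ((r - 1) v_p n + 1) ≤ N / 2 ^ r`.  There are at most `n` primes `p ∣ n`.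
-/

set_option autoImplicit false

noncomputable section

namespace Pool.Agent.Cheb

theorem Count_dvd {N o p k r : ℕ} (hN : N ≠ 0) (hp : p.Prime) (hk : 1 ≤ k) (hr : 0 < r)
    (hN2 : p ^ (k * r) ∣ N) (ho : o ∣ N) (hko : ¬ p ^ k ∣ o) : o ∣ N / p ^ r := by
  have ho0 : o ≠ 0 := fun h => hN (Nat.eq_zero_of_zero_dvd (h ▸ ho))
  have hpr : p ^ r ∣ N := (pow_dvd_pow p (Nat.le_mul_of_pos_left r hk)).trans hN2
  have hq0 : N / p ^ r ≠ 0 := by
    intro h
    have h1 := Nat.div_mul_cancel hpr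
    rw [h, zero_mul] at h1
    exact hN h1.symm
  rw [← Nat.factorization_prime_le_iff_dvd ho0 hq0]
  intro q hq
  rw [Nat.factorization_div hpr, Finsupp.tsub_apply, hp.factorization_pow]
  by_cases hqp : q = p
  · subst hqp
    rw [Finsupp.single_eq_same]
    have h1 : k * r ≤ N.factorization q := (hp.pow_dvd_iff_le_factorization hN).1 hN2
    have h2 : o.factorization q < k := by
      by_contra h3
      exact hko ((hp.pow_dvd_iff_le_factorization ho0).2 (not_lt.1 h3))
    have h3 : k - 1 + r ≤ k * r := by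
      obtain ⟨k', rfl⟩ : ∃ k', k = k' + 1 := ⟨k - 1, by omega⟩
      have h4 : k' ≤ k' * r := Nat.le_mul_of_pos_right k' hr
      rw [Nat.add_sub_cancel, add_mul, one_mul]
      omega
    omega
  · rw [Finsupp.single_eq_of_ne hqp, Nat.sub_zero]
    exact (Nat.factorization_prime_le_iff_dvd ho0 hN).2 ho q hq

theorem count_bad (A : Type) [CommGroup A] [Finite A] [IsCyclic A] (n r : ℕ) (hn : 0 < n)
    (hr : 0 < r) (h : n ^ r ∣ Nat.card A) :
    (Nat.card {a : A // ¬ n ∣ orderOf a} : ℝ) ≤ n * Nat.card A / 2 ^ r := by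
  classical
  have : Fintype A := Fintype.ofFinite A
  have hN : Nat.card A ≠ 0 := Nat.card_pos.ne'
  have hsub : (Finset.univ.filter fun a : A => ¬ n ∣ orderOf a) ⊆
      n.primeFactors.biUnion fun p => Finset.univ.filter fun a : A =>
        a ^ (Nat.card A / p ^ r) = 1 := by
    intro a ha
    have ha1 := (Finset.mem_filter.1 ha).2
    have ho0 : orderOf a ≠ 0 := (orderOf_pos a).ne'
    have h1 : ∃ p : ℕ, p.Prime ∧ ¬ n.factorization p ≤ (orderOf a).factorization p := by
      by_contra hno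
      push Not at hno
      exact ha1 ((Nat.factorization_prime_le_iff_dvd hn.ne' ho0).1 hno)
    obtain ⟨p, hp, hlt⟩ := h1
    have hk : 1 ≤ n.factorization p := by omega
    rw [Finset.mem_biUnion]
    refine ⟨p, ?_, Finset.mem_filter.2 ⟨Finset.mem_univ _, ?_⟩⟩
    · rw [Nat.mem_primeFactors]
      exact ⟨hp, Nat.dvd_of_factorization_pos (by omega), hn.ne'⟩
    · rw [← orderOf_dvd_iff_pow_eq_one]
      refine Count_dvd hN hp hk hr ?_ (orderOf_dvd_natCard a) ?_
      · refine dvd_trans ?_ h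
        rw [pow_mul]
        exact pow_dvd_pow_of_dvd (Nat.ordProj_dvd n p) r
      · intro h2
        exact hlt ((hp.pow_dvd_iff_le_factorization ho0).1 h2)
  have hcard : Nat.card {a : A // ¬ n ∣ orderOf a} =
      (Finset.univ.filter fun a : A => ¬ n ∣ orderOf a).card := by
    rw [Nat.card_eq_fintype_card, Fintype.card_subtype]
  rw [hcard]
  have hterm : ∀ p ∈ n.primeFactors, ((Finset.univ.filter fun a : A =>
      a ^ (Nat.card A / p ^ r) = 1).card : ℝ) ≤ Nat.card A / 2 ^ r := by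
    intro p hp
    have hpp := Nat.prime_of_mem_primeFactors hp
    have hpn := Nat.dvd_of_mem_primeFactors hp
    have hpr : p ^ r ∣ Nat.card A := (pow_dvd_pow_of_dvd hpn r).trans h
    have hpos : 0 < Nat.card A / p ^ r :=
      Nat.div_pos (Nat.le_of_dvd (Nat.pos_of_ne_zero hN) hpr) (pow_pos hpp.pos r)
    have h1 : (Finset.univ.filter fun a : A => a ^ (Nat.card A / p ^ r) = 1).card ≤
        Nat.card A / p ^ r := IsCyclic.card_pow_eq_one_le hpos
    calc ((Finset.univ.filter fun a : A => a ^ (Nat.card A / p ^ r) = 1).card : ℝ)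
        ≤ ((Nat.card A / p ^ r : ℕ) : ℝ) := by exact_mod_cast h1
      _ ≤ (Nat.card A : ℝ) / ((p ^ r : ℕ) : ℝ) := Nat.cast_div_le
      _ ≤ Nat.card A / 2 ^ r := by
          push_cast
          have h2 : (2 : ℝ) ≤ p := by exact_mod_cast hpp.two_le
          gcongr
  have hprimes : n.primeFactors.card ≤ n := by
    have h1 : n.primeFactors ⊆ Finset.Icc 1 n := by
      intro p hp
      exact Finset.mem_Icc.2 ⟨(Nat.prime_of_mem_primeFactors hp).one_lt.le,
        Nat.le_of_mem_primeFactors hp⟩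
    have h2 := Finset.card_le_card h1
    rwa [Nat.card_Icc, Nat.add_sub_cancel] at h2
  calc ((Finset.univ.filter fun a : A => ¬ n ∣ orderOf a).card : ℝ)
      ≤ ((n.primeFactors.biUnion fun p => Finset.univ.filter fun a : A =>
        a ^ (Nat.card A / p ^ r) = 1).card : ℝ) := by exact_mod_cast Finset.card_le_card hsub
    _ ≤ ((∑ p ∈ n.primeFactors, (Finset.univ.filter fun a : A =>
        a ^ (Nat.card A / p ^ r) = 1).card : ℕ) : ℝ) := by exact_mod_cast Finset.card_biUnion_le
    _ = ∑ p ∈ n.primeFactors, ((Finset.univ.filter fun a : A =>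
        a ^ (Nat.card A / p ^ r) = 1).card : ℝ) := by push_cast; rfl
    _ ≤ ∑ _p ∈ n.primeFactors, (Nat.card A : ℝ) / 2 ^ r := Finset.sum_le_sum hterm
    _ = n.primeFactors.card * ((Nat.card A : ℝ) / 2 ^ r) := by
        rw [Finset.sum_const, nsmul_eq_mul]
    _ ≤ n * ((Nat.card A : ℝ) / 2 ^ r) := by
        have h3 : (n.primeFactors.card : ℝ) ≤ n := by exact_mod_cast hprimes
        exact mul_le_mul_of_nonneg_right h3 (by positivity)
    _ = n * Nat.card A / 2 ^ r := by ring

/-- There is a prime `m ≡ 1 mod n ^ r` which does not divide the nonzero integer `d`. -/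
theorem exists_prime (n r : ℕ) (hn : 0 < n) (d : ℤ) (hd : d ≠ 0) :
    ∃ m : ℕ, m.Prime ∧ ¬ (m : ℤ) ∣ d ∧ n ^ r ∣ m - 1 := by
  obtain ⟨m, hm, hlt, hmod⟩ :=
    Nat.exists_prime_gt_modEq_one (k := n ^ r) d.natAbs (pow_pos hn r).ne'
  refine ⟨m, hm, ?_, ?_⟩
  · intro h
    have h1 := Nat.le_of_dvd (Int.natAbs_pos.2 hd) (Int.natCast_dvd.1 h)
    omega
  · exact (Nat.modEq_iff_dvd' hm.one_lt.le).1 hmod.symm

end Pool.Agent.Cheb
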