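import Mathlib

/-!
# The crossing

`ζ ∈ M` a primitive `m`-th root of unity, `g ∈ Gal(M/k)` such that a power of `g` which fixes `ζ` is
the identity, `L` the fixed field of `g`.  Then `M = L(ζ)`: the subgroup of `Gal(M/L)` (which
consists of the powers of `g`) fixing `ζ` is trivial, so the intermediate field `L(ζ)` is all of
`M` (Galois correspondence), `IsCyclotomicExtension` from `IntermediateField.adjoin` (`ζ` is
integral over `L`: `Algebra.adjoin L {ζ} = ⊤`).  `Gal(M/L)` is cyclic, generated by `g`, so
`[M : L] = orderOf g` (`IntermediateField.finrank_fixedField_eq_card`, `Nat.card_zpowers`).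
-/

set_option autoImplicit false

noncomputable section

open Filter Topology NumberField IsDedekindDomain
open scoped nonZeroDivisors

namespace Pool.Agent.Cheb

variable (k M : Type) [Field k] [NumberField k] [Field M] [NumberField M] [Algebra k M]
  [IsGalois k M]

theorem Cross_top (L : IntermediateField k M) (g : Gal(M/k))
    (hL : L = IntermediateField.fixedField (Subgroup.zpowers g)) {ζ : M}
    (hg : ∀ j : ℕ, (g ^ j) ζ = ζ → g ^ j = 1) :
    IntermediateField.adjoin L {ζ} = ⊤ := by
  have : IsGalois L M := inferInstance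
  have : FiniteDimensional k M := inferInstance
  have : FiniteDimensional L M := inferInstance
  rw [← IsGalois.fixedField_fixingSubgroup (IntermediateField.adjoin L {ζ})]
  have h1 : (IntermediateField.adjoin L {ζ}).fixingSubgroup = ⊥ := by
    rw [eq_bot_iff]
    intro σ hσ
    rw [Subgroup.mem_bot]
    rw [IntermediateField.mem_fixingSubgroup_iff] at hσ
    have h2 : σ ζ = ζ := hσ ζ (IntermediateField.mem_adjoin_simple_self L ζ)
    have h3 : AlgEquiv.restrictScalars k σ ∈ L.fixingSubgroup := by
      rw [IntermediateField.mem_fixingSubgroup_iff]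
      intro x hx
      exact σ.commutes ⟨x, hx⟩
    have h3' : L.fixingSubgroup = Subgroup.zpowers g := by
      rw [hL, IntermediateField.fixingSubgroup_fixedField]
    have h3'' : AlgEquiv.restrictScalars k σ ∈ Subgroup.zpowers g := h3' ▸ h3
    rw [← mem_powers_iff_mem_zpowers] at h3''
    obtain ⟨j, hj⟩ := h3''
    have hj' : g ^ j = AlgEquiv.restrictScalars k σ := hj
    have h4 : (g ^ j) ζ = ζ := by
      rw [hj']
      exact h2
    have h5 := hg j h4
    rw [hj'] at h5
    ext x
    have h6 := congrArg (fun f : Gal(M/k) => f x) h5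
    exact h6
  rw [h1, IntermediateField.fixedField_bot]

theorem crossing {m : ℕ} [NeZero m] {ζ : M} (hζ : IsPrimitiveRoot ζ m) (g : Gal(M/k))
    (hg : ∀ j : ℕ, (g ^ j) ζ = ζ → g ^ j = 1) :
    ∃ (L : Type) (_ : Field L) (_ : NumberField L) (_ : Algebra k L) (_ : Algebra L M),
      IsScalarTower k L M ∧ IsGalois L M ∧ IsCyclotomicExtension {m} L M ∧
        Module.finrank L M = orderOf g ∧ ∃ g' : Gal(M/L), ∀ x, g' x = g x := by
  set L : IntermediateField k M := IntermediateField.fixedField (Subgroup.zpowers g) with hL
  have hfix : ∀ x : L, g (x : M) = x := by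
    intro x
    exact (IntermediateField.mem_fixedField_iff _ _).1 x.2 g (Subgroup.mem_zpowers g)
  have : FiniteDimensional L M := inferInstance
  refine ⟨L, inferInstance, inferInstance, inferInstance, inferInstance, inferInstance,
    inferInstance, ?_, ?_, ?_⟩
  · rw [IsCyclotomicExtension.iff_singleton]
    refine ⟨⟨ζ, hζ⟩, fun x => ?_⟩
    have h1 := Cross_top k M L g hL hg
    have h2 : Algebra.adjoin L {ζ} = ⊤ := by
      rw [← IntermediateField.adjoin_simple_toSubalgebra_of_isAlgebraic
        (Algebra.IsAlgebraic.isAlgebraic ζ), h1, IntermediateField.top_toSubalgebra]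
    have h3 : x ∈ Algebra.adjoin L {ζ} := by
      rw [h2]
      exact Algebra.mem_top
    refine Algebra.adjoin_mono ?_ h3
    rw [Set.singleton_subset_iff]
    exact hζ.pow_eq_one
  · rw [hL, IntermediateField.finrank_fixedField_eq_card, Nat.card_zpowers]
  · exact ⟨{ g.toRingEquiv with commutes' := fun x => hfix x }, fun x => rfl⟩

end Pool.Agent.Cheb
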