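import Mathlib

/-!
# The field `M = K(ζ_m)` over `k`

`m` is a prime number which does not divide the discriminant of `K`.

* `irreducible_cyclotomic`: the cyclotomic polynomial of order `m` is irreducible over `K`:
  `K` and `ℚ(ζ_m)` have coprime discriminants, so they are linearly disjoint over `ℚ` (Mathlib:
  search for `LinearDisjoint` and `discr` in `NumberTheory/NumberField`), so
  `[K(ζ_m) : K] = [ℚ(ζ_m) : ℚ] = m - 1`.  (Or directly: `m` is unramified in `K`, so at a prime `P`
  of `K` over `m`, `v_P(m) = 1` and `cyclotomic m (X + 1)` is an Eisenstein polynomial at `P`:
  `Polynomial.IsEisensteinAt` over `𝓞 K`, Gauss lemma; `m ∤ discr K` implies `P ^ 2 ∤ (m)`.)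
* `exists_cyc`: `M = CyclotomicField m K` with the instances of Mathlib (`CyclotomicField.instAlgebra`,
  `CyclotomicField.instIsScalarTower`, `CyclotomicField.instNumberField`).  `M / k` is Galois:
  every embedding `f` of `M` over `k` into an algebraic closure `Ω` of `M` maps `K` into itself
  (`K / k` normal) and `ζ` to a power of `ζ`, and `M` is generated by `K` and `ζ`.  (For instance:
  `Normal.of...`, or `M` is the splitting field over `k` of `f * (X ^ m - 1)`, where `K` is the
  splitting field of `f`.)
* `gal_bij`: injective: an automorphism which is the identity on `K` and fixes `ζ` is the identity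
  (`IsCyclotomicExtension.adjoin_roots`).  Surjective: by counting: `[M : k] = [K : k] (m - 1)`, or
  `Nat.card` of both sides.
-/

set_option autoImplicit false

noncomputable section

open Filter Topology NumberField IsDedekindDomain
open scoped nonZeroDivisors

namespace Pool.Agent.Cheb

variable (k K M : Type) [Field k] [NumberField k] [Field K] [NumberField K] [Field M]
  [NumberField M] [Algebra k K] [Algebra K M] [Algebra k M] [IsScalarTower k K M]
  [IsGalois k K] [IsGalois k M]

end Pool.Agent.Cheb
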