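import Pool.Agent.W_f569db_h62.NTD

/-!
# Transfer of densities

`k ⊆ L ⊆ M`, `g ∈ Gal(M/k)` is the identity on `L` and `g'` is the same automorphism in
`Gal(M/L)`, `C` = the centralizer of `g` in `Gal(M/k)`.

* `isFrob_transfer`: let `Q` be a prime of `M`, `P_L`, `P` the primes below, with
  `N(P_L) = N(P)`; if `g'` is a Frobenius at `Q` for `M / L` then `g` is one for `M / k`
  (`Nat.card` of the residue fields is the norm).
* `card_frob_le`: let `P` be unramified in `M` (all but finitely many are).  The primes `Q` of `M`
  over `P` at which `g` is a Frobenius: `C` acts on them (`IsArithFrobAt.conj`), transitively: if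
  `Q' = h • Q` (`Algebra.IsInvariant.exists_smul_of_under_eq`) then `h g h⁻¹` and `g` are Frobenius
  elements at `Q'`, so equal (`IsArithFrobAt.mul_inv_mem_inertia`, trivial inertia; or
  `AlgHom.IsArithFrobAt.eq_of_isUnramifiedAt`), `h ∈ C`.  The powers of `g` are in the stabilizer
  of `Q` (`IsArithFrobAt.mem_stabilizer`).  So their number is at most `|C| / orderOf g`.
* `transfer`: `psum_le_deg1` for `L`; for a prime `R` of `L` of degree one in `FrobSet L M g'`
  choose a prime `Q` of `M` above it; different `R` give different `Q`; `R` has the same norm as
  the prime `P` below (`absNorm_eq_of_prime`).  So each `P` outside the finite set is below at most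
  `|C| / orderOf g` such `R`: `psum_up_le`.  `LowDens.transfer`, `psum_finite`.
-/

set_option autoImplicit false

noncomputable section

open Filter Topology NumberField IsDedekindDomain
open scoped nonZeroDivisors

namespace Pool.Agent.Cheb

variable (k M : Type) [Field k] [NumberField k] [Field M] [NumberField M] [Algebra k M]
  [IsGalois k M]

variable (L : Type) [Field L] [NumberField L] [Algebra k L] [Algebra L M]
  [IsScalarTower k L M] [IsGalois L M]

end Pool.Agent.Cheb
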