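import Pool.Agent.Chebotarev_h15.CycB
import Pool.Agent.Chebotarev_h15.Field
import Pool.Agent.Chebotarev_h15.Cross
import Pool.Agent.Chebotarev_h15.Transfer
import Pool.Agent.Chebotarev_h15.Count
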