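import Mathlib

/-!
# The Chebotarev density theorem: definitions

Everything is for number fields in `Type`.

* `psum S s`: the sum of `N(P)^(-s)` over the primes `P ∈ S` of the number field `F`.
* `LowDens S δ`: the lower Dirichlet density of `S` is at least `δ`.
* `FrobSet k K σ`: the primes `P` of `k` for which `σ` is an arithmetic Frobenius at some prime of
  `K` above `P`.
* `Lser F χ s`: the sum of `χ(N I) N(I)^(-s)` over the nonzero ideals `I` of the ring of integers
  of `F`, for a Dirichlet character `χ` modulo `m`.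
* tents and the weight on the mixed space of `F`.
-/

set_option autoImplicit false

noncomputable section

open NumberField IsDedekindDomain Filter Topology MeasureTheory
open scoped nonZeroDivisors

namespace Pool.Agent.Cheb

/-! ## Primes -/

/-- The sum of `N(P)^(-s)` over the primes in `S`. -/
def psum {F : Type} [Field F] [NumberField F] (S : Set (HeightOneSpectrum (𝓞 F))) (s : ℝ) : ℝ :=
  ∑' P : HeightOneSpectrum (𝓞 F),
    S.indicator (fun P => (Ideal.absNorm P.asIdeal : ℝ) ^ (-s)) P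

/-- The lower Dirichlet density of `S` is at least `δ`. -/
def LowDens {F : Type} [Field F] [NumberField F] (S : Set (HeightOneSpectrum (𝓞 F)))
    (δ : ℝ) : Prop :=
  ∀ ε : ℝ, 0 < ε → ∀ᶠ s : ℝ in 𝓝[>] 1, (δ - ε) * Real.log (1 / (s - 1)) ≤ psum S s

/-- The primes of degree one over `ℚ`. -/
def deg1 (F : Type) [Field F] [NumberField F] : Set (HeightOneSpectrum (𝓞 F)) :=
  {P | (Ideal.absNorm P.asIdeal).Prime}

/-- The primes `P` of `k` such that `σ` is a Frobenius element at some prime of `K` over `P`. -/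
def FrobSet (k K : Type) [Field k] [NumberField k] [Field K] [NumberField K] [Algebra k K]
    [IsGalois k K] (σ : Gal(K/k)) : Set (HeightOneSpectrum (𝓞 k)) :=
  {P | ∃ Q : Ideal (𝓞 K), Q.IsPrime ∧ Q.under (𝓞 k) = P.asIdeal ∧ IsArithFrobAt (𝓞 k) σ Q}

/-! ## L-series -/

/-- The term of the L-series at the ideal `I`. -/
def Lterm (F : Type) [Field F] [NumberField F] {m : ℕ} (χ : DirichletCharacter ℂ m) (s : ℝ)
    (I : (Ideal (𝓞 F))⁰) : ℂ :=
  χ ((Ideal.absNorm (I : Ideal (𝓞 F)) : ℕ) : ZMod m) *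
    (((Ideal.absNorm (I : Ideal (𝓞 F)) : ℝ) ^ (-s) : ℝ) : ℂ)

/-- The L-series of `χ ∘ N`. -/
def Lser (F : Type) [Field F] [NumberField F] {m : ℕ} (χ : DirichletCharacter ℂ m) (s : ℝ) : ℂ :=
  ∑' I : (Ideal (𝓞 F))⁰, Lterm F χ s I

/-- The weight of a prime. -/
def pw (F : Type) [Field F] [NumberField F] {m : ℕ} (χ : DirichletCharacter ℂ m) (s : ℝ)
    (P : HeightOneSpectrum (𝓞 F)) : ℂ :=
  χ ((Ideal.absNorm P.asIdeal : ℕ) : ZMod m) * (((Ideal.absNorm P.asIdeal : ℝ) ^ (-s) : ℝ) : ℂ)

/-- The sum of `χ(N P) N(P)^(-s)` over the primes `P` of `F`. -/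
def Psum (F : Type) [Field F] [NumberField F] {m : ℕ} (χ : DirichletCharacter ℂ m) (s : ℝ) : ℂ :=
  ∑' P : HeightOneSpectrum (𝓞 F), pw F χ s P

/-! ## Families of functions on a Euclidean space which decay well -/

/-- `G s` (`s ∈ [1, 2]`) is measurable, `O((1 + ‖x‖)^(-n s))`, its variation on bounded steps is
`O((1 + ‖x‖)^(-(n + 1)))`, and `G s x → G 1 x` for `s → 1+`; `n` is the dimension. -/
structure Nice {E : Type} [NormedAddCommGroup E] [NormedSpace ℝ E] [MeasurableSpace E]
    (G : ℝ → E → ℝ) : Prop where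
  meas : ∀ s ∈ Set.Icc (1 : ℝ) 2, Measurable (G s)
  dec : ∃ C : ℝ, ∀ s ∈ Set.Icc (1 : ℝ) 2, ∀ x : E,
    |G s x| ≤ C * (1 + ‖x‖) ^ (-((Module.finrank ℝ E : ℝ) * s))
  diff : ∀ R : ℝ, ∃ C : ℝ, ∀ s ∈ Set.Icc (1 : ℝ) 2, ∀ x y : E, ‖x - y‖ ≤ R →
    |G s x - G s y| ≤ C * (1 + ‖x‖) ^ (-((Module.finrank ℝ E : ℝ) + 1))
  cont : ∀ x : E, Tendsto (fun s => G s x) (𝓝[>] 1) (𝓝 (G 1 x))

/-! ## The weight on the mixed space -/

/-- The tent function. -/
def T (t : ℝ) : ℝ := max 0 (1 - |t|)

open NumberField.mixedEmbedding NumberField.Units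

open scoped Classical in
/-- The coordinates of the logarithm of `x` with respect to the basis of the unit lattice. -/
def coord (F : Type) [Field F] [NumberField F] (x : mixedSpace F) (i : Fin (Units.rank F)) : ℝ :=
  ((basisUnitLattice F).ofZLatticeBasis ℝ (unitLattice F)).repr (logMap x) i

open scoped Classical in
/-- The product of the tents in the coordinates. -/
def phi (F : Type) [Field F] [NumberField F] (x : mixedSpace F) : ℝ :=
  if mixedEmbedding.norm x = 0 then 0 else ∏ i, T (coord F x i)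

/-- `ε(x) φ(x) |N x|^(-s)`. -/
def hfun (F : Type) [Field F] [NumberField F] (ε : mixedSpace F → ℝ) (s : ℝ)
    (x : mixedSpace F) : ℝ :=
  ε x * phi F x * (mixedEmbedding.norm x) ^ (-s)

open scoped Classical in
/-- `hfun`, cut off near `0`. -/
def gfun (F : Type) [Field F] [NumberField F] (ε : mixedSpace F → ℝ) (s : ℝ)
    (x : mixedSpace F) : ℝ :=
  if 1 ≤ ‖x‖ then hfun F ε s x else 0

open scoped Classical in
/-- The sign of the norm of `x`: the product of the signs of the real coordinates. -/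
def sgn (F : Type) [Field F] [NumberField F] (x : mixedSpace F) : ℝ :=
  ∏ w, (SignType.sign (x.1 w) : ℝ)

/-- The properties of `ε` which are used: `ε = 1` and `ε = sgn` have them. -/
structure IsEps (F : Type) [Field F] [NumberField F] (ε : mixedSpace F → ℝ) : Prop where
  meas : Measurable ε
  bound : ∀ x, |ε x| ≤ 1
  smul : ∀ (t : ℝ), 0 < t → ∀ x, ε (t • x) = ε x
  loc : ∀ x y : mixedSpace F, (∀ w, |x.1 w - y.1 w| < |x.1 w|) → ε x = ε y

end Pool.Agent.Cheb
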