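import Pool.Agent.Chebotarev_h15.AppDefs
import Pool.Agent.Chebotarev_h15.Defs

/-!
# Frobenius elements in the absolute Galois group

* `frob_restrict`: `K` is a finite Galois extension of `k` inside `Ω`.  The prime of `𝓞 K` is the set
  of the `a` with `algebraMap a ∈ 𝔓`; the residue field of `P` has `N(P)` elements
  (`Ideal.absNorm`, `Nat.card (𝓞 k ⧸ P)`); for `x ∈ 𝓞 K`, `σ x - x ^ q` is in `𝔓` and in `𝓞 K`.
* `exists_over`: lying over (`Zbar k` is integral over `𝓞 k`; `Ideal.exists_ideal_over_prime_of_isIntegral`).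
* `exists_isFrobAt`: Mathlib's `Ideal.Quotient.stabilizerHom_surjective_of_profinite`
  (`Mathlib/RingTheory/Invariant/Profinite.lean`), or by compactness: for every finite Galois `K`
  in `Ω` the set of the `σ` whose restriction to `K` is a Frobenius at `𝔓 ∩ 𝓞 K` is closed and
  nonempty (`IsArithFrobAt.exists_of_isInvariant` and surjectivity of the restriction), the family
  is directed; `IsCompact.nonempty_iInter_of_directed_nonempty_isCompact_isClosed`.
-/

set_option autoImplicit false

noncomputable section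

open Filter Topology NumberField IsDedekindDomain
open scoped nonZeroDivisors

namespace Pool.Agent.Cheb

variable (k : Type) [Field k] [NumberField k]

/-- The ring of integers of a subfield maps into `Zbar k`. -/
def AppA_g (K : IntermediateField k (AlgebraicClosure k)) : 𝓞 K →+* Zbar k where
  toFun a := ⟨((a : K) : AlgebraicClosure k), by
    have h : IsIntegral ℤ (a : K) := a.2
    exact h.map (algebraMap K (AlgebraicClosure k)).toIntAlgHom⟩
  map_one' := rfl
  map_mul' _ _ := rfl
  map_zero' := rfl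
  map_add' _ _ := rfl

/-- The ring of integers of `k` maps into `Zbar k`. -/
def AppA_f : 𝓞 k →+* Zbar k where
  toFun a := ⟨algebraMap k (AlgebraicClosure k) (a : k), by
    have h : IsIntegral ℤ (a : k) := a.2
    exact h.map (algebraMap k (AlgebraicClosure k)).toIntAlgHom⟩
  map_one' := Subtype.ext (by simp)
  map_mul' a b := Subtype.ext (by simp)
  map_zero' := Subtype.ext (by simp)
  map_add' a b := Subtype.ext (by simp)

theorem AppA_f_apply (a : 𝓞 k) : (AppA_f k a : AlgebraicClosure k) =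
    algebraMap k (AlgebraicClosure k) (a : k) := rfl

theorem AppA_lies {k : Type} [Field k] [NumberField k] {𝔓 : Ideal (Zbar k)} {P : HeightOneSpectrum (𝓞 k)} :
    LiesOverPrime 𝔓 P ↔ 𝔓.comap (AppA_f k) = P.asIdeal := by
  constructor
  · intro h
    ext a
    rw [Ideal.mem_comap, h a]
    constructor
    · intro ha
      exact ⟨_, ha, rfl⟩
    · rintro ⟨y, hy, hy'⟩
      have : AppA_f k a = y := Subtype.ext (by rw [hy']; rfl)
      rw [this]
      exact hy
  · intro h a
    rw [← h, Ideal.mem_comap]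
    constructor
    · intro ha
      exact ⟨_, ha, rfl⟩
    · rintro ⟨y, hy, hy'⟩
      have : AppA_f k a = y := Subtype.ext (by rw [hy']; rfl)
      rw [this]
      exact hy

theorem frob_restrict (K : IntermediateField k (AlgebraicClosure k)) [NumberField K]
    [IsGalois k K] (P : HeightOneSpectrum (𝓞 k)) (σ : AbsGal k) (h : IsFrobOver P σ) :
    P ∈ FrobSet k K (AlgEquiv.restrictNormalHom K σ) := by
  obtain ⟨𝔓, hp, hl, hσ⟩ := h
  have hcomap := AppA_lies.1 hl
  have hunder : (𝔓.comap (AppA_g k K)).under (𝓞 k) = P.asIdeal := by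
    rw [← hcomap]
    ext a
    rw [Ideal.under, Ideal.mem_comap, Ideal.mem_comap, Ideal.mem_comap]
    have h1 : AppA_g k K (algebraMap (𝓞 k) (𝓞 K) a) = AppA_f k a := Subtype.ext rfl
    rw [h1]
  refine ⟨𝔓.comap (AppA_g k K), Ideal.comap_isPrime _ _, hunder, ?_⟩
  intro x
  rw [hunder, Ideal.mem_comap]
  obtain ⟨y, hy, hy'⟩ := hσ (AppA_g k K x)
  have h2 : AppA_g k K ((MulSemiringAction.toAlgHom (𝓞 k) (𝓞 K)
      (AlgEquiv.restrictNormalHom K σ)) x - x ^ Nat.card (𝓞 k ⧸ P.asIdeal)) = y := by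
    apply Subtype.ext
    rw [map_sub, map_pow]
    have h3 : (AppA_g k K ((MulSemiringAction.toAlgHom (𝓞 k) (𝓞 K)
      (AlgEquiv.restrictNormalHom K σ)) x) : AlgebraicClosure k) =
        σ ((x : K) : AlgebraicClosure k) := by
      exact AlgEquiv.restrictNormal_commutes σ K (x : K)
    have h4 : ((AppA_g k K x : Zbar k) : AlgebraicClosure k) =
        ((x : K) : AlgebraicClosure k) := rfl
    have h5 : Nat.card (𝓞 k ⧸ P.asIdeal) = Ideal.absNorm P.asIdeal := rfl
    rw [h4] at hy'
    push_cast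
    rw [h3, h4, h5, hy']
    ring
  rw [h2]
  exact hy

theorem exists_over (P : HeightOneSpectrum (𝓞 k)) :
    ∃ 𝔓 : Ideal (Zbar k), 𝔓.IsPrime ∧ LiesOverPrime 𝔓 P := by
  let _ : Algebra (𝓞 k) (Zbar k) := (AppA_f k).toAlgebra
  have : Algebra.IsIntegral (𝓞 k) (Zbar k) := by
    refine ⟨fun x => ?_⟩
    obtain ⟨p, hp, hp'⟩ := x.2
    refine ⟨p.map (algebraMap ℤ (𝓞 k)), hp.map _, ?_⟩
    rw [Polynomial.eval₂_map]
    apply Subtype.ext
    have h1 : ((Polynomial.eval₂ ((algebraMap (𝓞 k) (Zbar k)).comp (algebraMap ℤ (𝓞 k))) x p :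
        Zbar k) : AlgebraicClosure k) = Polynomial.eval₂ (((algebraMap (Zbar k) (AlgebraicClosure k)).comp
        (algebraMap (𝓞 k) (Zbar k))).comp (algebraMap ℤ (𝓞 k))) (x : AlgebraicClosure k) p := by
      rw [RingHom.comp_assoc]
      exact Polynomial.hom_eval₂ p ((algebraMap (𝓞 k) (Zbar k)).comp (algebraMap ℤ (𝓞 k)))
        (algebraMap (Zbar k) (AlgebraicClosure k)) x
    rw [h1]
    have h2 : (((algebraMap (Zbar k) (AlgebraicClosure k)).comp
        (algebraMap (𝓞 k) (Zbar k))).comp (algebraMap ℤ (𝓞 k))) =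
        algebraMap ℤ (AlgebraicClosure k) := RingHom.ext_int _ _
    rw [h2]
    exact hp'
  obtain ⟨Q, -, hQ, hQ'⟩ := Ideal.exists_ideal_over_prime_of_isIntegral P.asIdeal
    (⊥ : Ideal (Zbar k)) (by
      intro a ha
      rw [Ideal.mem_comap, Ideal.mem_bot] at ha
      have h1 : algebraMap k (AlgebraicClosure k) (a : k) = 0 := congrArg Subtype.val ha
      rw [map_eq_zero] at h1
      have h2 : a = 0 := RingOfIntegers.ext h1
      rw [h2]
      exact P.asIdeal.zero_mem)
  exact ⟨Q, hQ, AppA_lies.2 hQ'⟩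

end Pool.Agent.Cheb
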