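import Pool.Agent.Chebotarev_h15.AppA

/-!
# Frobenius elements in the absolute Galois group

* `frob_restrict`: `K` is a finite Galois extension of `k` inside `Ω`.  The prime of `𝓞 K` is the set
  of the `a` with `algebraMap a ∈ 𝔓`; the residue field of `P` has `N(P)` elements
  (`Ideal.absNorm`, `Nat.card (𝓞 k ⧸ P)`); for `x ∈ 𝓞 K`, `σ x - x ^ q` is in `𝔓` and in `𝓞 K`.
* `exists_over`: lying over (`Zbar k` is integral over `𝓞 k`; `Ideal.exists_ideal_over_prime_of_isIntegral`).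
* `exists_isFrobAt`: Mathlib's `Ideal.Quotient.stabilizerHom_surjective_of_profinite`
  (`Mathlib/RingTheory/Invariant/Profinite.lean`), or by compactness: for every finite Galois `K`
  in `Ω` the set of the `σ` whose restriction to `K` is a Frobenius at `𝔓 ∩ 𝓞 K` is closed and
  nonempty (`IsArithFrobAt.exists_of_isInvariant` and surjectivity of the restriction), the family
  is directed; `IsCompact.nonempty_iInter_of_directed_nonempty_isCompact_isClosed`.
-/

set_option autoImplicit false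

noncomputable section

open Filter Topology NumberField IsDedekindDomain
open scoped nonZeroDivisors

namespace Pool.Agent.Cheb

variable (k : Type) [Field k] [NumberField k]

/-- The integers of `k` inside of the algebraic integers. -/
def AppA2_hom : 𝓞 k →+* Zbar k :=
  ((algebraMap k (AlgebraicClosure k)).comp (algebraMap (𝓞 k) k)).codRestrict
    (integralClosure ℤ (AlgebraicClosure k))
    fun a => map_isIntegral_int (algebraMap k (AlgebraicClosure k)) (RingOfIntegers.isIntegral_coe a)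

theorem AppA2_hom_coe (a : 𝓞 k) :
    ((AppA2_hom k a : Zbar k) : AlgebraicClosure k) = algebraMap k (AlgebraicClosure k) (a : k) := rfl

theorem AppA2_main (𝔓 : Ideal (Zbar k)) (h : 𝔓.IsPrime) (P : HeightOneSpectrum (𝓞 k))
    (hP : LiesOverPrime 𝔓 P) : ∃ σ : AbsGal k, ∀ x : Zbar k,
      σ • x - x ^ (Ideal.absNorm P.asIdeal) ∈ 𝔓 := by
  classical
  letI : Algebra (𝓞 k) (Zbar k) := (AppA2_hom k).toAlgebra
  have hmap : ∀ a : 𝓞 k, algebraMap (𝓞 k) (Zbar k) a = AppA2_hom k a := fun _ => rfl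
  have hact : ∀ (σ : AbsGal k) (x : Zbar k),
      ((σ • x : Zbar k) : AlgebraicClosure k) = σ (x : AlgebraicClosure k) := fun _ _ => rfl
  haveI : SMulCommClass (AbsGal k) (𝓞 k) (Zbar k) := ⟨fun σ a x => by
    rw [Algebra.smul_def, Algebra.smul_def]
    refine Subtype.ext ?_
    rw [hact, hmap]
    change σ (((AppA2_hom k a : Zbar k) : AlgebraicClosure k) * (x : AlgebraicClosure k)) =
      ((AppA2_hom k a : Zbar k) : AlgebraicClosure k) * ((σ • x : Zbar k) : AlgebraicClosure k)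
    rw [map_mul, hact, AppA2_hom_coe, AlgEquiv.commutes]⟩
  letI : TopologicalSpace (Zbar k) := ⊥
  haveI : DiscreteTopology (Zbar k) := ⟨rfl⟩
  haveI : ContinuousSMul (AbsGal k) (Zbar k) := by
    rw [continuousSMul_iff_stabilizer_isOpen]
    intro x
    have h1 := stabilizer_isOpen_of_isIntegral (K := k) (x : AlgebraicClosure k)
    convert h1 using 1
    ext σ
    change σ • x = x ↔ σ (x : AlgebraicClosure k) = (x : AlgebraicClosure k)
    rw [← hact, Subtype.ext_iff]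
  haveI : Algebra.IsInvariant (𝓞 k) (Zbar k) (AbsGal k) := ⟨fun b hb => by
    have h1 : (b : AlgebraicClosure k) ∈ (⊥ : IntermediateField k (AlgebraicClosure k)) := by
      rw [InfiniteGalois.mem_bot_iff_fixed]
      intro σ
      rw [← hact, hb σ]
    rw [IntermediateField.mem_bot] at h1
    obtain ⟨y, hy⟩ := h1
    have h2 : IsIntegral ℤ y := by
      rw [← isIntegral_algebraMap_iff (B := AlgebraicClosure k)
        (algebraMap k (AlgebraicClosure k)).injective, hy]
      exact b.2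
    refine ⟨⟨y, h2⟩, Subtype.ext ?_⟩
    rw [hmap, AppA2_hom_coe]
    exact hy⟩
  haveI hlo : 𝔓.LiesOver P.asIdeal := ⟨by
    ext a
    rw [Ideal.mem_comap, hP a, hmap]
    constructor
    · rintro ⟨y, hy, hy'⟩
      have : y = AppA2_hom k a := Subtype.ext (by rw [hy', AppA2_hom_coe])
      rwa [← this]
    · intro h'
      exact ⟨_, h', AppA2_hom_coe k a⟩⟩
  haveI : Algebra.IsIntegral (𝓞 k) (Zbar k) :=
    Algebra.IsInvariant.isIntegral_of_profinite (G := AbsGal k)
  haveI hPm : P.asIdeal.IsMaximal := P.isMaximal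
  haveI hQm : 𝔓.IsMaximal := by
    refine Ideal.isMaximal_of_isIntegral_of_isMaximal_comap (R := 𝓞 k) 𝔓 ?_
    have : Ideal.comap (algebraMap (𝓞 k) (Zbar k)) 𝔓 = P.asIdeal := hlo.over.symm
    rw [this]
    exact hPm
  haveI : Finite (𝓞 k ⧸ P.asIdeal) := Ideal.finiteQuotientOfFreeOfNeBot _ P.ne_bot
  letI : Fintype (𝓞 k ⧸ P.asIdeal) := Fintype.ofFinite _
  letI : Field (𝓞 k ⧸ P.asIdeal) := Ideal.Quotient.field _
  letI : Field (Zbar k ⧸ 𝔓) := Ideal.Quotient.field _
  letI : Algebra (𝓞 k ⧸ P.asIdeal) (Zbar k ⧸ 𝔓) := Ideal.Quotient.algebraOfLiesOver 𝔓 P.asIdeal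
  haveI : Algebra.IsAlgebraic (𝓞 k ⧸ P.asIdeal) (Zbar k ⧸ 𝔓) := by
    haveI : Algebra.IsIntegral (𝓞 k ⧸ P.asIdeal) (Zbar k ⧸ 𝔓) :=
      Ideal.Quotient.algebra_isIntegral_of_liesOver 𝔓 P.asIdeal
    infer_instance
  obtain ⟨σ, hσ⟩ := Ideal.Quotient.stabilizerHom_surjective_of_profinite (G := AbsGal k)
    P.asIdeal 𝔓 (FiniteField.frobeniusAlgEquivOfAlgebraic (𝓞 k ⧸ P.asIdeal) (Zbar k ⧸ 𝔓))
  refine ⟨σ, fun x => ?_⟩
  have hq : Fintype.card (𝓞 k ⧸ P.asIdeal) = Ideal.absNorm P.asIdeal := by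
    rw [Ideal.absNorm_apply, Submodule.cardQuot_apply, Nat.card_eq_fintype_card]
  rw [← Ideal.Quotient.eq, ← hq, map_pow]
  exact DFunLike.congr_fun hσ (Ideal.Quotient.mk 𝔓 x)

theorem exists_isFrobAt (𝔓 : Ideal (Zbar k)) (h : 𝔓.IsPrime) (P : HeightOneSpectrum (𝓞 k))
    (hP : LiesOverPrime 𝔓 P) : ∃ σ : AbsGal k, IsFrobAt 𝔓 (Ideal.absNorm P.asIdeal) σ := by
  obtain ⟨σ, hσ⟩ := AppA2_main k 𝔓 h P hP
  refine ⟨σ, fun x => ⟨σ • x - x ^ (Ideal.absNorm P.asIdeal), hσ x, ?_⟩⟩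
  have h1 : ((σ • x - x ^ (Ideal.absNorm P.asIdeal) : Zbar k) : AlgebraicClosure k) =
      σ (x : AlgebraicClosure k) - (x : AlgebraicClosure k) ^ (Ideal.absNorm P.asIdeal) := rfl
  rw [h1]
  ring

end Pool.Agent.Cheb
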