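import Pool.Agent.Chebotarev_h15.LwD

/-!
# The Chebotarev density theorem

Let `C ⊆ Gal(K/k)` be stable under conjugation.  The classes: index by `ConjClasses Gal(K/k)`,
`A c` = `FrobSet k K σ` for a representative `σ` of `c` (independent of it: `frobSet_conj`).
`LowDens (A c) (|c| / |G|)` by `lower`, as `|c| |C(σ)| = |G|`.  Two different `A c` meet only in the
finite exceptional set of `frob_unique` (`isConj_of_mem`).  Sum over the classes inside `C` and over
the classes outside `C` (`LowDens.sum`), and `hasDensity_of_low`.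
-/

set_option autoImplicit false

noncomputable section

open Filter Topology NumberField IsDedekindDomain
open scoped nonZeroDivisors

namespace Pool.Agent.Cheb

variable (k K : Type) [Field k] [NumberField k] [Field K] [NumberField K] [Algebra k K]
  [IsGalois k K]

/-- The number of conjugates of `g` times the order of its centralizer. -/
theorem Final_card (G : Type) [Group G] [Finite G] (g : G) :
    Nat.card {h : G // ConjClasses.mk h = ConjClasses.mk g} *
      Nat.card (Subgroup.centralizer ({g} : Set G)) = Nat.card G := by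
  have h1 : Nat.card {h : G // ConjClasses.mk h = ConjClasses.mk g} =
      Nat.card (MulAction.orbit (ConjAct G) g) := by
    refine Nat.card_congr (Equiv.subtypeEquivRight fun h => ?_)
    rw [ConjAct.orbit_eq_carrier_conjClasses, ConjClasses.mem_carrier_iff_mk_eq]
  rw [h1, Subgroup.nat_card_centralizer_nat_card_stabilizer, ← Nat.card_prod]
  exact (Nat.card_congr (MulAction.orbitProdStabilizerEquivGroup (ConjAct G) g)).trans rfl

/-- The sum over the classes in a set stable under conjugation. -/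
theorem Final_sum (G : Type) [Group G] [Finite G] (C : Set G)
    (hC : ∀ σ ∈ C, ∀ τ, τ * σ * τ⁻¹ ∈ C)
    [Fintype {c : ConjClasses G // ∀ g, ConjClasses.mk g = c → g ∈ C}] :
    ∑ c : {c : ConjClasses G // ∀ g, ConjClasses.mk g = c → g ∈ C},
      Nat.card {g : G // ConjClasses.mk g = c.1} = Nat.card C := by
  rw [← Nat.card_sigma]
  refine Nat.card_congr ⟨fun x => ⟨x.2.1, x.1.2 _ x.2.2⟩, fun g => ⟨⟨ConjClasses.mk g.1, ?_⟩,
    ⟨g.1, rfl⟩⟩, ?_, ?_⟩
  · intro g' hg'
    obtain ⟨c, hc⟩ := isConj_iff.1 (ConjClasses.mk_eq_mk_iff_isConj.1 hg'.symm)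
    rw [← hc]
    exact hC _ g.2 c
  · rintro ⟨⟨c, hc⟩, ⟨g, hg⟩⟩
    have hg' : ConjClasses.mk g = c := hg
    subst hg'
    rfl
  · rintro ⟨g, hg⟩
    rfl

/-- The lower bound for a set stable under conjugation. -/
theorem lower_set (C : Set Gal(K/k)) (hC : ∀ σ ∈ C, ∀ τ, τ * σ * τ⁻¹ ∈ C) :
    LowDens {P | ∃ σ ∈ C, P ∈ FrobSet k K σ} (Nat.card C / Nat.card Gal(K/k)) := by
  classical
  obtain ⟨E, hE, hu⟩ := frob_unique k K
  have hfin : Finite (ConjClasses Gal(K/k)) := Quotient.finite _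
  have hft : Fintype {c : ConjClasses Gal(K/k) // ∀ g, ConjClasses.mk g = c → g ∈ C} :=
    Fintype.ofFinite _
  obtain ⟨r, hr⟩ : ∃ r : ConjClasses Gal(K/k) → Gal(K/k), ∀ c, ConjClasses.mk (r c) = c :=
    ⟨fun c => c.exists_rep.choose, fun c => c.exists_rep.choose_spec⟩
  have h1 := LowDens.sum (F := k)
    (fun c : {c : ConjClasses Gal(K/k) // ∀ g, ConjClasses.mk g = c → g ∈ C} =>
      FrobSet k K (r c.1))
    (fun c => 1 / Nat.card (Subgroup.centralizer ({r c.1} : Set Gal(K/k))))
    {P | ∃ σ ∈ C, P ∈ FrobSet k K σ} E hE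
    (fun c P hP => ⟨r c.1, c.2 _ (hr c.1), hP⟩)
    (fun c c' hcc P hP => by
      by_contra hPE
      have h2 := isConj_of_mem k K P (hu P hPE) _ _ hP.1 hP.2
      apply hcc
      apply Subtype.ext
      rw [← hr c.1, ← hr c'.1]
      exact ConjClasses.mk_eq_mk_iff_isConj.2 h2)
    (fun c => lower k K (r c.1))
  have h2 : (Nat.card C / Nat.card Gal(K/k) : ℝ) =
      ∑ c : {c : ConjClasses Gal(K/k) // ∀ g, ConjClasses.mk g = c → g ∈ C},
        (1 / Nat.card (Subgroup.centralizer ({r c.1} : Set Gal(K/k))) : ℝ) := by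
    rw [← Final_sum Gal(K/k) C hC]
    push_cast
    rw [Finset.sum_div]
    refine Finset.sum_congr rfl fun c _ => ?_
    have h3 := Final_card Gal(K/k) (r c.1)
    rw [hr c.1] at h3
    have h4 : (0 : ℝ) < Nat.card (Subgroup.centralizer ({r c.1} : Set Gal(K/k))) :=
      Nat.cast_pos.2 Nat.card_pos
    have h5 : (0 : ℝ) < Nat.card Gal(K/k) := Nat.cast_pos.2 Nat.card_pos
    rw [div_eq_div_iff h5.ne' h4.ne', one_mul]
    exact_mod_cast h3
  rw [h2]
  exact h1

/-- **The Chebotarev density theorem.**  `K / k` a Galois extension of number fields, `C` a set of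
automorphisms stable under conjugation.  The set of the primes `P` of `k` such that some `σ ∈ C` is
an arithmetic Frobenius at a prime of `K` above `P` has Dirichlet density `|C| / [K : k]`. -/
theorem chebotarev (C : Set Gal(K/k)) (hC : ∀ σ ∈ C, ∀ τ, τ * σ * τ⁻¹ ∈ C) :
    NumberField.Set.HasDirichletDensity
      {P : HeightOneSpectrum (𝓞 k) | ∃ σ ∈ C, P ∈ FrobSet k K σ}
      (Nat.card C / Nat.card Gal(K/k)) := by
  obtain ⟨E, hE, hu⟩ := frob_unique k K
  have hC' : ∀ σ ∈ Cᶜ, ∀ τ, τ * σ * τ⁻¹ ∈ Cᶜ := by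
    intro σ hσ τ h
    refine hσ ?_
    have := hC _ h τ⁻¹
    simpa [mul_assoc] using this
  refine hasDensity_of_low (E := E) (lower_set k K C hC) (lower_set k K Cᶜ hC') ?_ hE ?_
  · have h1 : Nat.card C + Nat.card (Cᶜ : Set Gal(K/k)) = Nat.card Gal(K/k) := by
      rw [Nat.card_coe_set_eq, Nat.card_coe_set_eq]
      exact Set.ncard_add_ncard_compl C
    have h2 : (0 : ℝ) < Nat.card Gal(K/k) := Nat.cast_pos.mpr Nat.card_pos
    rw [← add_div, ← Nat.cast_add, h1, div_self h2.ne']
  · rintro P ⟨⟨σ, hσ, hP⟩, ⟨τ, hτ, hP'⟩⟩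
    by_contra hPE
    have h1 := isConj_of_mem k K P (hu P hPE) σ τ hP hP'
    obtain ⟨c, hc⟩ := isConj_iff.mp h1
    exact hτ (hc ▸ hC σ hσ c)

end Pool.Agent.Cheb
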