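import Pool.Agent.Chebotarev_h15.AppA
import Pool.Agent.Chebotarev_h15.Final

/-!
# Frobenius elements are dense in the absolute Galois group

* `infinite_of_density`: a set of positive density is infinite (`primeIdealZetaSum` of a finite set
  is bounded, `psum_univ → ∞`).
* `dense`: `U` contains the fixing subgroup of a finite Galois extension `K` of `k` inside `Ω`
  (`krullTopology`, normal closure).  By `chebotarev` for the conjugacy class of `g|_K` the set of
  the `P` in `FrobSet k K g'`, `g'` conjugate to `g|_K`, is infinite: choose such a `P` outside `E`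
  and outside the exceptional set of `frob_unique k K`.  If `σ` is a Frobenius over `P` then
  `P ∈ FrobSet k K (σ|_K)` (`frob_restrict`), so `σ|_K` and `g|_K` are conjugate
  (`isConj_of_mem`): `h̄ σ|_K h̄⁻¹ = g|_K`; lift `h̄` to `h` (`AlgEquiv.restrictNormalHom_surjective`);
  `g⁻¹ h σ h⁻¹` is trivial on `K`.
-/

set_option autoImplicit false

noncomputable section

open Filter Topology NumberField IsDedekindDomain
open scoped nonZeroDivisors

namespace Pool.Agent.Cheb

theorem infinite_of_density {F : Type} [Field F] [NumberField F]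
    {S : Set (HeightOneSpectrum (𝓞 F))} {δ : ℝ} (hδ : 0 < δ)
    (h : NumberField.Set.HasDirichletDensity S δ) : S.Infinite := by
  intro hS
  obtain ⟨C, hC⟩ := psum_univ F
  have hu : Tendsto (fun s : ℝ => NumberField.Set.primeIdealZetaSum
      (Set.univ : Set (HeightOneSpectrum (𝓞 F))) s) (𝓝[>] 1) atTop := by
    refine tendsto_atTop_mono' _ ?_ (tendsto_atTop_add_const_right _ (-C) log_tendsto)
    filter_upwards [hC] with s hs
    rw [← psum_eq]
    linarith [(abs_le.1 hs).1]
  have h0 : Tendsto (fun s : ℝ => NumberField.Set.primeIdealZetaSum S s /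
      NumberField.Set.primeIdealZetaSum (Set.univ : Set (HeightOneSpectrum (𝓞 F))) s)
      (𝓝[>] 1) (𝓝 0) := by
    refine squeeze_zero' ?_ ?_ (Tendsto.const_div_atTop hu (S.ncard : ℝ))
    · exact Eventually.of_forall fun s => div_nonneg
        (NumberField.Set.primeIdealZetaSum_nonneg S s)
        (NumberField.Set.primeIdealZetaSum_nonneg Set.univ s)
    · filter_upwards [self_mem_nhdsWithin] with s hs
      have hs' : (1 : ℝ) < s := hs
      exact div_le_div_of_nonneg_right
        (NumberField.Set.primeIdealZetaSum_le_card_of_finite hS (by linarith))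
        (NumberField.Set.primeIdealZetaSum_nonneg Set.univ s)
  exact hδ.ne' (tendsto_nhds_unique h h0)

variable (k : Type) [Field k] [NumberField k]

/-- **Density of the Frobenius elements.** -/
theorem dense (U : Subgroup (AbsGal k)) (hU : IsOpen (U : Set (AbsGal k))) (g : AbsGal k)
    (E : Set (HeightOneSpectrum (𝓞 k))) (hE : E.Finite) :
    ∃ P, P ∉ E ∧ ∀ σ : AbsGal k, IsFrobOver P σ → ∃ h : AbsGal k, g⁻¹ * (h * σ * h⁻¹) ∈ U := by
  have hnhds : (U : Set (AbsGal k)) ∈ 𝓝 (1 : AbsGal k) := hU.mem_nhds U.one_mem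
  obtain ⟨K, hfin, hnorm, hKU⟩ :=
    (krullTopology_mem_nhds_one_iff_of_normal k (AlgebraicClosure k) _).1 hnhds
  have hq : FiniteDimensional ℚ K := FiniteDimensional.trans ℚ k K
  have hnf : NumberField K := ⟨⟩
  have hgal : IsGalois k K := ⟨⟩
  set C : Set Gal(K/k) := {τ | IsConj (AlgEquiv.restrictNormalHom K g) τ} with hC
  have hCc : ∀ σ ∈ C, ∀ τ, τ * σ * τ⁻¹ ∈ C := by
    intro σ hσ τ
    have h1 : IsConj (AlgEquiv.restrictNormalHom K g) σ := hσ
    exact h1.trans (isConj_iff.2 ⟨τ, rfl⟩)
  have hne : (C : Set Gal(K/k)).Nonempty := ⟨_, IsConj.refl _⟩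
  have hpos : (0 : ℝ) < Nat.card C / Nat.card Gal(K/k) := by
    have h1 : Nonempty C := hne.to_subtype
    have h2 : 0 < Nat.card C := Nat.card_pos
    have h3 : 0 < Nat.card Gal(K/k) := Nat.card_pos
    positivity
  have hinf := infinite_of_density hpos (chebotarev k K C hCc)
  obtain ⟨E', hE', hu⟩ := frob_unique k K
  obtain ⟨P, ⟨g', hg', hPg'⟩, hPE⟩ := hinf.exists_notMem_finite (hE.union hE')
  rw [Set.mem_union, not_or] at hPE
  refine ⟨P, hPE.1, fun σ hσ => ?_⟩
  have h1 := frob_restrict k K P σ hσ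
  have h2 : IsConj (AlgEquiv.restrictNormalHom K σ) g' :=
    isConj_of_mem k K P (hu P hPE.2) _ _ h1 hPg'
  have h3 : IsConj (AlgEquiv.restrictNormalHom K g) g' := hg'
  obtain ⟨c, hc⟩ := isConj_iff.1 (h2.trans h3.symm)
  obtain ⟨h, rfl⟩ := AlgEquiv.restrictNormalHom_surjective (AlgebraicClosure k) c
  refine ⟨h, hKU ?_⟩
  rw [SetLike.mem_coe, ← IntermediateField.restrictNormalHom_ker, MonoidHom.mem_ker, map_mul,
    map_mul, map_mul, map_inv, map_inv, hc, inv_mul_cancel]

end Pool.Agent.Cheb
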