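import Pool.Agent.Chebotarev_h15.AppDefs
import Pool.Agent.Chebotarev_h15.Defs
import Pool.Agent.W_7742e_h15.Defs
import Pool.Agent.W_f569db_h62.NTD

/-!
# The density theorem for the absolute Galois group of `ℚ`

* `primeSum_eq`: `Rat.HeightOneSpectrum.primesEquiv` (`Mathlib/NumberTheory/Padics/
  HeightOneSpectrum.lean`): the primes of `𝓞 ℚ` are the prime numbers, the norm of the prime `p` is
  `p`.
* `quot_equiv`: `U` open and normal, `K` its fixed field (finite Galois: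
  `InfiniteGalois.isOpen_and_normal_iff_finite_and_isGalois`), `Γ ⧸ U ≃* Gal(K/ℚ)`, compatible with
  the restriction (`InfiniteGalois.normalAutEquivQuotient`).
* `hasDensity_frob`: for `p` outside the exceptional set of `frob_unique`, `F p|_K` is conjugate to
  `g|_K` iff `p ∈ FrobSet ℚ K g'` for some conjugate `g'` of `g|_K` (`frob_restrict`,
  `isConj_of_mem`); `chebotarev`; finitely many primes do not change the density
  (`psum_union_le`, `psum_finite`); `psum univ ~ log (1 / (s - 1))` (`psum_univ`).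
-/

set_option autoImplicit false

noncomputable section

open Filter Topology NumberField IsDedekindDomain
open scoped nonZeroDivisors

namespace Pool.Agent.Cheb

open Pool.Agent.GalSide

/-- The prime of `𝓞 ℚ` which belongs to the prime number `p`. -/
def ratPrime (p : Nat.Primes) : HeightOneSpectrum (𝓞 ℚ) :=
  (Rat.HeightOneSpectrum.primesEquiv (R := 𝓞 ℚ)).symm p

theorem AppC_asIdeal (p : Nat.Primes) :
    (ratPrime p).asIdeal = Ideal.span {((p : ℕ) : 𝓞 ℚ)} := by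
  have h1 : (ratPrime p).asIdeal =
      (Ideal.span {((p : ℕ) : ℤ)}).map (Rat.IsIntegralClosure.intEquiv (𝓞 ℚ)).symm := rfl
  rw [h1, Ideal.map_span, Set.image_singleton, map_natCast]

theorem AppC_inj : Function.Injective (algebraMap ℤ (𝓞 ℚ)) :=
  Rat.int_algebraMap_injective (𝓞 ℚ)

theorem AppC_surj : Function.Surjective (algebraMap ℤ (𝓞 ℚ)) :=
  Rat.int_algebraMap_surjective (𝓞 ℚ)

theorem AppC_mem (p : Nat.Primes) (n : ℤ) :
    algebraMap ℤ (𝓞 ℚ) n ∈ (ratPrime p).asIdeal ↔ ((p : ℕ) : ℤ) ∣ n := by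
  rw [AppC_asIdeal, Ideal.mem_span_singleton]
  constructor
  · rintro ⟨b, hb⟩
    obtain ⟨m, rfl⟩ := AppC_surj b
    refine ⟨m, AppC_inj ?_⟩
    rw [hb, map_mul, map_natCast]
  · rintro ⟨m, rfl⟩
    refine ⟨algebraMap ℤ (𝓞 ℚ) m, ?_⟩
    rw [map_mul, map_natCast]

theorem absNorm_ratPrime (p : Nat.Primes) :
    Ideal.absNorm (ratPrime p).asIdeal = (p : ℕ) := by
  rw [AppC_asIdeal, Ideal.absNorm_span_singleton]
  have h1 : ((p : ℕ) : 𝓞 ℚ) = algebraMap ℤ (𝓞 ℚ) ((p : ℕ) : ℤ) := by rw [map_natCast]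
  rw [h1, Algebra.norm_algebraMap_of_basis (RingOfIntegers.basis ℚ)]
  have h2 : Fintype.card (Module.Free.ChooseBasisIndex ℤ (𝓞 ℚ)) = 1 := by
    rw [← Module.finrank_eq_card_chooseBasisIndex, RingOfIntegers.rank, Module.finrank_self]
  rw [h2, pow_one, Int.natAbs_natCast]

theorem AppC_ratPrime_inj : Function.Injective ratPrime :=
  (Rat.HeightOneSpectrum.primesEquiv (R := 𝓞 ℚ)).symm.injective

theorem primeSum_eq (X : Set Nat.Primes) (s : ℝ) :
    primeSum X s = psum (ratPrime '' X) s := by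
  classical
  unfold primeSum psum
  rw [← (Rat.HeightOneSpectrum.primesEquiv (R := 𝓞 ℚ)).symm.tsum_eq]
  refine tsum_congr fun p => ?_
  change _ = (ratPrime '' X).indicator
    (fun P => ((Ideal.absNorm P.asIdeal : ℕ) : ℝ) ^ (-s)) (ratPrime p)
  by_cases hp : p ∈ X
  · rw [Set.indicator_of_mem hp, Set.indicator_of_mem (Set.mem_image_of_mem _ hp),
      absNorm_ratPrime]
  · rw [Set.indicator_of_notMem hp, Set.indicator_of_notMem]
    rwa [AppC_ratPrime_inj.mem_set_image]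

/-- A prime of the ring of algebraic integers which contains `p` lies over `p`. -/
theorem liesOver_of_mem (𝔓 : Ideal (Zbar ℚ)) (h𝔓 : 𝔓.IsPrime) (p : Nat.Primes)
    (hp : ((p : ℕ) : Zbar ℚ) ∈ 𝔓) : LiesOverPrime 𝔓 (ratPrime p) := by
  intro a
  obtain ⟨n, rfl⟩ := AppC_surj a
  rw [AppC_mem]
  have hval : ∀ m : ℤ, (algebraMap ℚ (AlgebraicClosure ℚ))
      ((algebraMap ℤ (𝓞 ℚ) m : 𝓞 ℚ) : ℚ) = ((m : Zbar ℚ) : AlgebraicClosure ℚ) := by
    intro m
    simp
  constructor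
  · rintro ⟨m, rfl⟩
    refine ⟨((((p : ℕ) : ℤ) * m : ℤ) : Zbar ℚ), ?_, (hval _).symm⟩
    rw [Int.cast_mul, Int.cast_natCast]
    exact 𝔓.mul_mem_right _ hp
  · rintro ⟨y, hy, hy'⟩
    have hy2 : y = (n : Zbar ℚ) := Subtype.ext (hy'.trans (hval n))
    by_contra hcon
    have hc : IsCoprime ((p : ℕ) : ℤ) n :=
      (Prime.coprime_iff_not_dvd (Nat.prime_iff_prime_int.1 p.2)).2 hcon
    obtain ⟨u, v, huv⟩ := hc
    apply h𝔓.ne_top
    rw [Ideal.eq_top_iff_one]
    have h1 : ((u : Zbar ℚ) * ((p : ℕ) : Zbar ℚ) + (v : Zbar ℚ) * (n : Zbar ℚ)) ∈ 𝔓 :=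
      𝔓.add_mem (𝔓.mul_mem_left _ hp) (𝔓.mul_mem_left _ (hy2 ▸ hy))
    have h2 : ((u : Zbar ℚ) * ((p : ℕ) : Zbar ℚ) + (v : Zbar ℚ) * (n : Zbar ℚ)) = 1 := by
      have := congrArg (fun t : ℤ => (t : Zbar ℚ)) huv
      simpa using this
    rwa [h2] at h1

end Pool.Agent.Cheb
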