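import Pool.Agent.Chebotarev_h15.AppA
import Pool.Agent.Chebotarev_h15.AppC
import Pool.Agent.Chebotarev_h15.Final

/-!
# The density theorem for the absolute Galois group of `ℚ`

* `primeSum_eq`: `Rat.HeightOneSpectrum.primesEquiv` (`Mathlib/NumberTheory/Padics/
  HeightOneSpectrum.lean`): the primes of `𝓞 ℚ` are the prime numbers, the norm of the prime `p` is
  `p`.
* `quot_equiv`: `U` open and normal, `K` its fixed field (finite Galois:
  `InfiniteGalois.isOpen_and_normal_iff_finite_and_isGalois`), `Γ ⧸ U ≃* Gal(K/ℚ)`, compatible with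
  the restriction (`InfiniteGalois.normalAutEquivQuotient`).
* `hasDensity_frob`: for `p` outside the exceptional set of `frob_unique`, `F p|_K` is conjugate to
  `g|_K` iff `p ∈ FrobSet ℚ K g'` for some conjugate `g'` of `g|_K` (`frob_restrict`,
  `isConj_of_mem`); `chebotarev`; finitely many primes do not change the density
  (`psum_union_le`, `psum_finite`); `psum univ ~ log (1 / (s - 1))` (`psum_univ`).
-/

set_option autoImplicit false

noncomputable section

open Filter Topology NumberField IsDedekindDomain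
open scoped nonZeroDivisors

namespace Pool.Agent.Cheb

open Pool.Agent.GalSide

/-- A conjugacy class and its image under an isomorphism. -/
theorem AppC2_isConj {G H : Type} [Group G] [Group H] (φ : G ≃* H) (x y : G) :
    IsConj x y ↔ IsConj (φ x) (φ y) := by
  constructor
  · intro h
    obtain ⟨c, hc⟩ := isConj_iff.1 h
    exact isConj_iff.2 ⟨φ c, by rw [← hc, map_mul, map_mul, map_inv]⟩
  · intro h
    obtain ⟨c, hc⟩ := isConj_iff.1 h
    refine isConj_iff.2 ⟨φ.symm c, ?_⟩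
    apply φ.injective
    rw [map_mul, map_mul, map_inv, φ.apply_symm_apply]
    exact hc

/-- A quotient of two functions. -/
theorem AppC2_ratio {a b l c : ℝ → ℝ} {δ C : ℝ}
    (h1 : Tendsto (fun s => a s / b s) (𝓝[>] 1) (𝓝 δ))
    (h2 : ∀ᶠ s : ℝ in 𝓝[>] 1, |b s - l s| ≤ C)
    (h3 : ∀ᶠ s : ℝ in 𝓝[>] 1, |a s - c s| ≤ C)
    (h4 : Tendsto l (𝓝[>] 1) atTop) :
    Tendsto (fun s => c s / l s) (𝓝[>] 1) (𝓝 δ) := by
  have hz : ∀ f : ℝ → ℝ, (∀ᶠ s : ℝ in 𝓝[>] 1, |f s| ≤ C) →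
      Tendsto (fun s => f s / l s) (𝓝[>] 1) (𝓝 0) := by
    intro f hf
    have h5 : Tendsto (fun s => C / l s) (𝓝[>] 1) (𝓝 0) := h4.const_div_atTop C
    refine squeeze_zero_norm' ?_ h5
    filter_upwards [hf, h4.eventually_gt_atTop 0] with s hs hl
    rw [Real.norm_eq_abs, abs_div, abs_of_pos hl]
    exact div_le_div_of_nonneg_right hs hl.le
  have h6 := hz (fun s => b s - l s) h2
  have h7 := hz (fun s => a s - c s) h3
  have h8 : Tendsto (fun s => b s / l s) (𝓝[>] 1) (𝓝 1) := by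
    have h9 : Tendsto (fun s => (b s - l s) / l s + 1) (𝓝[>] 1) (𝓝 (0 + 1)) :=
      h6.add_const 1
    rw [zero_add] at h9
    refine h9.congr' ?_
    filter_upwards [h4.eventually_gt_atTop 0] with s hl
    field_simp
    ring
  have h10 := (h1.mul h8).sub h7
  rw [mul_one, sub_zero] at h10
  refine h10.congr' ?_
  filter_upwards [h4.eventually_gt_atTop 0, h4.eventually_gt_atTop C, h2] with s hl hC hb
  have hb0 : b s ≠ 0 := by
    intro h0
    rw [h0, zero_sub, abs_neg, abs_of_pos hl] at hb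
    linarith
  field_simp
  ring

/-- The density theorem for a family of Frobenius elements in the absolute Galois group. -/
theorem AppC2_main (k : Type) [Field k] [NumberField k]
    (Fr : HeightOneSpectrum (𝓞 k) → AbsGal k) (hFr : ∀ P, IsFrobOver P (Fr P))
    (U : Subgroup (AbsGal k)) [U.Normal] (hU : IsOpen (U : Set (AbsGal k))) (g : AbsGal k) :
    ∃ (S E : Set (HeightOneSpectrum (𝓞 k))), E.Finite ∧
      NumberField.Set.HasDirichletDensity S
        ((Nat.card {x : AbsGal k ⧸ U // IsConj x (QuotientGroup.mk g)} : ℝ) /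
          (Nat.card (AbsGal k ⧸ U) : ℝ)) ∧
      {P | IsConj (QuotientGroup.mk (Fr P) : AbsGal k ⧸ U) (QuotientGroup.mk g)} ⊆ S ∧
      S ⊆ {P | IsConj (QuotientGroup.mk (Fr P) : AbsGal k ⧸ U) (QuotientGroup.mk g)} ∪ E := by
  classical
  have hUc : IsClosed (U : Set (AbsGal k)) := Subgroup.isClosed_of_isOpen U hU
  obtain ⟨H, hH⟩ : ∃ H : ClosedSubgroup (AbsGal k), H.1 = U := ⟨⟨U, hUc⟩, rfl⟩
  subst hH
  obtain ⟨K, hK⟩ : ∃ K : IntermediateField k (AlgebraicClosure k),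
    K = IntermediateField.fixedField H.1 := ⟨_, rfl⟩
  have hfix : K.fixingSubgroup = H.1 := by
    rw [hK]
    exact InfiniteGalois.fixingSubgroup_fixedField H
  have h1 : IsOpen K.fixingSubgroup.carrier ∧ K.fixingSubgroup.Normal := by
    rw [hfix]
    exact ⟨hU, inferInstance⟩
  obtain ⟨hfd, hgal⟩ := (InfiniteGalois.isOpen_and_normal_iff_finite_and_isGalois K).1 h1
  have hNF : NumberField K := NumberField.of_module_finite k K
  obtain ⟨φ, hφ⟩ : ∃ φ : AbsGal k ⧸ H.1 ≃* Gal(K/k), ∀ σ : AbsGal k,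
      φ (QuotientGroup.mk σ) = AlgEquiv.restrictNormalHom K σ :=
    ⟨QuotientGroup.liftEquiv _ (AlgEquiv.restrictNormalHom_surjective (AlgebraicClosure k))
      (hfix.symm.trans K.restrictNormalHom_ker.symm), fun σ => rfl⟩
  obtain ⟨E, hE, hu⟩ := frob_unique k K
  have hmem : ∀ P, P ∈ FrobSet k K (AlgEquiv.restrictNormalHom K (Fr P)) := fun P =>
    frob_restrict k K P (Fr P) (hFr P)
  have hcb := chebotarev k K {σ | IsConj σ (AlgEquiv.restrictNormalHom K g)} (by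
    intro σ hσ τ
    have h2 : IsConj σ (τ * σ * τ⁻¹) := isConj_iff.2 ⟨τ, rfl⟩
    exact h2.symm.trans hσ)
  have hc1 : Nat.card {σ : Gal(K/k) | IsConj σ (AlgEquiv.restrictNormalHom K g)} =
      Nat.card {x : AbsGal k ⧸ H.1 // IsConj x (QuotientGroup.mk g)} := by
    refine (Nat.card_congr ?_).symm
    refine Equiv.subtypeEquiv φ.toEquiv fun x => ?_
    show IsConj x (QuotientGroup.mk g) ↔ IsConj (φ x) (AlgEquiv.restrictNormalHom K g)
    rw [← hφ g]
    exact AppC2_isConj φ x _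
  have hc2 : Nat.card Gal(K/k) = Nat.card (AbsGal k ⧸ H.1) :=
    (Nat.card_congr φ.toEquiv).symm
  rw [hc1, hc2] at hcb
  refine ⟨_, E, hE, hcb, ?_, ?_⟩
  · intro P hP
    refine ⟨AlgEquiv.restrictNormalHom K (Fr P), ?_, hmem P⟩
    show IsConj _ _
    rw [← hφ, ← hφ]
    exact (AppC2_isConj φ _ _).1 hP
  · rintro P ⟨σ, hσ, hP⟩
    by_cases hPE : P ∈ E
    · exact Or.inr hPE
    · left
      have h2 := isConj_of_mem k K P (hu P hPE) _ _ (hmem P) hP
      have h3 := h2.trans hσ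
      rw [← hφ, ← hφ] at h3
      exact (AppC2_isConj φ _ _).2 h3

theorem hasDensity_frob (𝔓 : Nat.Primes → Ideal (Zbar ℚ)) (h𝔓 : ∀ p, (𝔓 p).IsPrime)
    (hp : ∀ p : Nat.Primes, ((p : ℕ) : Zbar ℚ) ∈ 𝔓 p) (F : Nat.Primes → AbsGal ℚ)
    (hF : ∀ p : Nat.Primes, IsFrobAt (𝔓 p) (p : ℕ) (F p))
    (U : Subgroup (AbsGal ℚ)) [U.Normal] (hU : IsOpen (U : Set (AbsGal ℚ))) (g : AbsGal ℚ) :
    HasDensity {p | IsConj (QuotientGroup.mk (F p) : AbsGal ℚ ⧸ U) (QuotientGroup.mk g)}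
      ((Nat.card {x : AbsGal ℚ ⧸ U // IsConj x (QuotientGroup.mk g)} : ℝ) /
        (Nat.card (AbsGal ℚ ⧸ U) : ℝ)) := by
  have hover : ∀ p : Nat.Primes, IsFrobOver (ratPrime p) (F p) := by
    intro p
    refine ⟨𝔓 p, h𝔓 p, liesOver_of_mem (𝔓 p) (h𝔓 p) p (hp p), ?_⟩
    rw [absNorm_ratPrime]
    exact hF p
  have hsymm : ∀ P : HeightOneSpectrum (𝓞 ℚ),
      ratPrime (Rat.HeightOneSpectrum.primesEquiv (R := 𝓞 ℚ) P) = P := fun P =>
    (Rat.HeightOneSpectrum.primesEquiv (R := 𝓞 ℚ)).symm_apply_apply P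
  have hsymm2 : ∀ p : Nat.Primes,
      Rat.HeightOneSpectrum.primesEquiv (R := 𝓞 ℚ) (ratPrime p) = p := fun p =>
    (Rat.HeightOneSpectrum.primesEquiv (R := 𝓞 ℚ)).apply_symm_apply p
  obtain ⟨S, E, hE, hS, hXS, hSX⟩ := AppC2_main ℚ
    (fun P => F (Rat.HeightOneSpectrum.primesEquiv (R := 𝓞 ℚ) P)) (fun P => by
      have h1 := hover (Rat.HeightOneSpectrum.primesEquiv (R := 𝓞 ℚ) P)
      rw [hsymm] at h1
      exact h1) U hU g
  have hX : ratPrime '' {p | IsConj (QuotientGroup.mk (F p) : AbsGal ℚ ⧸ U)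
      (QuotientGroup.mk g)} = {P | IsConj (QuotientGroup.mk
        (F (Rat.HeightOneSpectrum.primesEquiv (R := 𝓞 ℚ) P)) : AbsGal ℚ ⧸ U)
        (QuotientGroup.mk g)} := by
    ext P
    constructor
    · rintro ⟨p, h1, rfl⟩
      show IsConj _ _
      rw [hsymm2]
      exact h1
    · intro h1
      exact ⟨Rat.HeightOneSpectrum.primesEquiv (R := 𝓞 ℚ) P, h1, hsymm P⟩
  rw [← hX] at hXS hSX
  obtain ⟨C, hC⟩ := psum_univ ℚ
  refine AppC2_ratio (C := max C (E.ncard : ℝ)) hS ?_ ?_ log_tendsto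
  · filter_upwards [hC] with s hs
    rw [← psum_eq]
    exact hs.trans (le_max_left _ _)
  · filter_upwards [self_mem_nhdsWithin] with s hs
    have hs' : 1 < s := hs
    rw [← psum_eq, primeSum_eq]
    have h1 := psum_mono hXS hs'
    have h2 := psum_mono hSX hs'
    have h3 := psum_union_le (ratPrime '' {p | IsConj (QuotientGroup.mk (F p) : AbsGal ℚ ⧸ U)
      (QuotientGroup.mk g)}) E hs'
    have h4 := psum_finite hE hs'
    rw [abs_of_nonneg (sub_nonneg.2 h1)]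
    refine le_trans ?_ (le_max_right _ _)
    linarith

/-- The Frobenius data of the absolute Galois group of `ℚ`. -/
def frobeniusData (𝔓 : Nat.Primes → Ideal (Zbar ℚ)) (h𝔓 : ∀ p, (𝔓 p).IsPrime)
    (hp : ∀ p : Nat.Primes, ((p : ℕ) : Zbar ℚ) ∈ 𝔓 p) (F : Nat.Primes → AbsGal ℚ)
    (hF : ∀ p : Nat.Primes, IsFrobAt (𝔓 p) (p : ℕ) (F p)) : FrobeniusData (AbsGal ℚ) where
  inertia p := inertiaAt (𝔓 p)
  frob := F
  chebotarev := fun U _ hU g => hasDensity_frob 𝔓 h𝔓 hp F hF U hU g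

end Pool.Agent.Cheb
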