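import Pool.Agent.W_f569db_h62.NTD

/-!
# Primes above and below

`M / L` is a finite extension of number fields.

* `card_over_le`: `∑ e f = [M : L]` (`Ideal.sum_ramification_inertia`), every summand is `≥ 1`.
* `absNorm_under_dvd`: `N Q = N P ^ f` (`Ideal.absNorm_eq_pow_inertiaDeg` or
  `Nat.card (𝓞 M ⧸ Q) = Nat.card (𝓞 L ⧸ P) ^ f`).
* `psum_up_le`: a prime `Q` of prime norm has the same norm as the prime below; each prime `P` of
  `L` has at most `[M : L]` primes above.
* `psum_down_le`: all but finitely many `P` are unramified in `M` (`e = 1` for all `Q` over `P`: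
  for instance `Q` divides the different only for finitely many `Q`); if moreover all `Q` over `P`
  have `N Q = N P` (`f = 1`) then there are exactly `[M : L]` of them.
-/

set_option autoImplicit false

noncomputable section

open Filter Topology NumberField IsDedekindDomain
open scoped nonZeroDivisors

namespace Pool.Agent.Cheb

variable (L M : Type) [Field L] [NumberField L] [Field M] [NumberField M] [Algebra L M]

/-- The primes of `M` above the prime `P` of `L`. -/
def Over {L : Type} (M : Type) [Field L] [NumberField L] [Field M] [NumberField M] [Algebra L M]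
    (P : HeightOneSpectrum (𝓞 L)) : Set (HeightOneSpectrum (𝓞 M)) :=
  {Q | Q.asIdeal.under (𝓞 L) = P.asIdeal}

/-- The prime below. -/
theorem exists_under (Q : HeightOneSpectrum (𝓞 M)) :
    ∃ P : HeightOneSpectrum (𝓞 L), Q ∈ Over M P := by
  have := Q.isPrime
  refine ⟨⟨Q.asIdeal.under (𝓞 L), inferInstance, ?_⟩, rfl⟩
  intro h
  exact Q.ne_bot (Ideal.eq_bot_of_comap_eq_bot (R := 𝓞 L) (S := 𝓞 M) h)

theorem over_nonempty (P : HeightOneSpectrum (𝓞 L)) : (Over M P).Nonempty := by
  have := P.isPrime
  have := P.isMaximal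
  obtain ⟨Q, hQ1, hQ2⟩ := Ideal.exists_maximal_ideal_liesOver_of_isIntegral P.asIdeal (S := 𝓞 M)
  refine ⟨⟨Q, hQ1.isPrime, ?_⟩, ?_⟩
  · rintro rfl
    apply P.ne_bot
    rw [hQ2.over, Ideal.under, Ideal.comap_bot_of_injective]
    exact FaithfulSMul.algebraMap_injective _ _
  · exact hQ2.over.symm

theorem card_over_le (P : HeightOneSpectrum (𝓞 L)) :
    (Over M P).Finite ∧ (Over M P).ncard ≤ Module.finrank L M := by
  have := P.isPrime
  have := P.isMaximal
  have key : (fun Q : HeightOneSpectrum (𝓞 M) => Q.asIdeal) '' (Over M P) ⊆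
      (IsDedekindDomain.primesOverFinset P.asIdeal (𝓞 M) : Set (Ideal (𝓞 M))) := by
    rintro _ ⟨Q, hQ, rfl⟩
    rw [IsDedekindDomain.coe_primesOverFinset P.ne_bot]
    exact ⟨Q.isPrime, ⟨hQ.symm⟩⟩
  have hinj : Function.Injective (fun Q : HeightOneSpectrum (𝓞 M) => Q.asIdeal) :=
    fun a b h => HeightOneSpectrum.ext h
  have hfin : (Over M P).Finite :=
    Set.Finite.of_finite_image ((Finset.finite_toSet _).subset key) hinj.injOn
  refine ⟨hfin, ?_⟩
  have h1 : (Over M P).ncard =
      ((fun Q : HeightOneSpectrum (𝓞 M) => Q.asIdeal) '' (Over M P)).ncard :=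
    (Set.ncard_image_of_injective _ hinj).symm
  rw [h1]
  refine (Set.ncard_le_ncard key (Finset.finite_toSet _)).trans ?_
  rw [Set.ncard_coe_finset]
  have : NoZeroSMulDivisors (𝓞 L) (𝓞 M) := by
    have h := FaithfulSMul.algebraMap_injective (𝓞 L) (𝓞 M)
    refine ⟨fun {c x} hcx => ?_⟩
    rw [Algebra.smul_def, mul_eq_zero] at hcx
    rcases hcx with hc | hx
    · exact Or.inl (h (by rw [hc, map_zero]))
    · exact Or.inr hx
  exact Ideal.card_primesOverFinset_le_finrank (𝓞 M) L M P.ne_bot

/-- Only finitely many primes contain the positive integer `m`. -/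
theorem finite_mem (m : ℕ) (hm : m ≠ 0) :
    {P : HeightOneSpectrum (𝓞 L) | (m : 𝓞 L) ∈ P.asIdeal}.Finite := by
  have h0 : (Ideal.span {(m : 𝓞 L)}) ≠ ⊥ := by
    rw [Ne, Ideal.span_singleton_eq_bot]
    exact_mod_cast hm
  refine (Ideal.finite_factors h0).subset ?_
  intro P hP
  exact (Ideal.dvd_span_singleton).2 hP

end Pool.Agent.Cheb
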