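import Pool.Agent.Chebotarev_h15.AppB
import Pool.Agent.Chebotarev_h15.SpA
import Pool.Agent.W_b4801b_t10.Defs

/-!
# Compatible systems over number fields have dense Frobenius elements

Let `U' ⊆ U` be open and normal.  Apply `dense` to `U'`, `g⁻¹` and the finite set of the primes of
`E` and the primes containing one of the nonzero elements of `T` (`finite_mem` in `SpA.lean`).
With `σ = x.frob⁻¹`: `g * (h σ h⁻¹) ∈ U'`, so its inverse `h x.frob h⁻¹ g⁻¹` and the conjugate
`g⁻¹ * (h x.frob h⁻¹)` are in `U'`.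
-/

set_option autoImplicit false

noncomputable section

open Filter Topology NumberField IsDedekindDomain
open scoped nonZeroDivisors

universe v

namespace Pool.Agent.Cheb

open Pool.Agent.B4801b Pool.Agent.T10

theorem AppD_core {k : Type} [Field k] [NumberField k] (U : Subgroup (AbsGal k))
    (hU : IsOpen (U : Set (AbsGal k))) : IsOpen (U.normalCore : Set (AbsGal k)) := by
  have h1 : Finite (AbsGal k ⧸ U) := Subgroup.quotient_finite_of_isOpen U hU
  have h2 : U.FiniteIndex := Subgroup.finiteIndex_of_finite_quotient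
  have h3 : IsClosed (U.normalCore : Set (AbsGal k)) :=
    U.normalCore_isClosed (U.isClosed_of_isOpen hU)
  exact U.normalCore.isOpen_of_isClosed_of_finiteIndex h3

/-- A compatible system over a number field `k` whose set of places contains (the geometric
Frobenius elements of) all but finitely many primes of `k` has dense Frobenius elements. -/
theorem denseFrob {k : Type} [Field k] [NumberField k] {w : ℕ} (S : CompSys.{0, v} k w)
    (hPl : ∃ E : Set (HeightOneSpectrum (𝓞 k)), E.Finite ∧ ∀ P, P ∉ E →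
      ∃ x ∈ S.Pl, x.p.Prime ∧ ((x.p : ℕ) : 𝓞 k) ∈ P.asIdeal ∧ IsFrobOver P x.frob⁻¹) :
    DenseFrob S := by
  intro U hU g T
  obtain ⟨E, hE, hPl⟩ := hPl
  obtain ⟨P, hP, hPh⟩ := dense k U.normalCore (AppD_core U hU) g⁻¹
    (E ∪ ⋃ m ∈ {m | m ∈ T ∧ m ≠ 0}, {P | ((m : ℕ) : 𝓞 k) ∈ P.asIdeal})
    (hE.union (Set.Finite.biUnion (T.finite_toSet.subset fun m hm => hm.1)
      fun m hm => finite_mem k m hm.2))
  obtain ⟨x, hx, hxp, hxP, hfr⟩ := hPl P fun h => hP (Or.inl h)
  obtain ⟨h, hh⟩ := hPh _ hfr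
  refine ⟨x, hx, fun hxT => ?_, h, ?_⟩
  · refine hP (Or.inr ?_)
    rw [Set.mem_iUnion₂]
    exact ⟨x.p, ⟨hxT, hxp.ne_zero⟩, hxP⟩
  · apply U.normalCore_le
    have h1 := U.normalCore.inv_mem hh
    have h2 := (U.normalCore_normal).conj_mem _ h1 g⁻¹
    have e : g⁻¹ * (g⁻¹⁻¹ * (h * x.frob⁻¹ * h⁻¹))⁻¹ * g⁻¹⁻¹ = g⁻¹ * (h * x.frob * h⁻¹) := by
      group
    rw [e] at h2
    exact h2

end Pool.Agent.Cheb
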