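import Mathlib

/-!
# Frobenius elements in the absolute Galois group: definitions

`k` a number field, `Ω` its algebraic closure, `Zbar k` the ring of all algebraic integers in `Ω`.
-/

set_option autoImplicit false

noncomputable section

open Filter Topology NumberField IsDedekindDomain
open scoped nonZeroDivisors

namespace Pool.Agent.Cheb

/-- The ring of the algebraic integers in the algebraic closure of `k`. -/
abbrev Zbar (k : Type) [Field k] : Type := integralClosure ℤ (AlgebraicClosure k)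

/-- The absolute Galois group. -/
abbrev AbsGal (k : Type) [Field k] : Type := AlgebraicClosure k ≃ₐ[k] AlgebraicClosure k

/-- `σ x ≡ x ^ q` modulo `𝔓` for all algebraic integers `x`. -/
def IsFrobAt {k : Type} [Field k] (𝔓 : Ideal (Zbar k)) (q : ℕ) (σ : AbsGal k) : Prop :=
  ∀ x : Zbar k, ∃ y ∈ 𝔓, σ (x : AlgebraicClosure k) = (x : AlgebraicClosure k) ^ q + y

/-- The prime `𝔓` of `Zbar k` lies over the prime `P` of `k`. -/
def LiesOverPrime {k : Type} [Field k] (𝔓 : Ideal (Zbar k)) (P : HeightOneSpectrum (𝓞 k)) : Prop :=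
  ∀ a : 𝓞 k, a ∈ P.asIdeal ↔
    ∃ y ∈ 𝔓, (y : AlgebraicClosure k) = algebraMap k (AlgebraicClosure k) (a : k)

/-- `σ` is an arithmetic Frobenius element over the prime `P` of `k`. -/
def IsFrobOver {k : Type} [Field k] [NumberField k] (P : HeightOneSpectrum (𝓞 k))
    (σ : AbsGal k) : Prop :=
  ∃ 𝔓 : Ideal (Zbar k), 𝔓.IsPrime ∧ LiesOverPrime 𝔓 P ∧ IsFrobAt 𝔓 (Ideal.absNorm P.asIdeal) σ

/-- The inertia group of `𝔓`: `σ x ≡ x` modulo `𝔓` for all algebraic integers `x`. -/
def inertiaAt {k : Type} [Field k] (𝔓 : Ideal (Zbar k)) : Subgroup (AbsGal k) where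
  carrier := {σ | ∀ x : Zbar k, ∃ y ∈ 𝔓,
    σ (x : AlgebraicClosure k) = (x : AlgebraicClosure k) + y}
  one_mem' := fun x => ⟨0, 𝔓.zero_mem, by simp⟩
  inv_mem' := by
    intro σ h x
    have h1 : IsIntegral ℤ (σ⁻¹ (x : AlgebraicClosure k)) :=
      IsIntegral.map (σ⁻¹ : AbsGal k) x.2
    obtain ⟨y, hy, hy'⟩ := h ⟨_, h1⟩
    refine ⟨-y, 𝔓.neg_mem hy, ?_⟩
    have h2 : σ (σ⁻¹ (x : AlgebraicClosure k)) = (x : AlgebraicClosure k) := by
      rw [← AlgEquiv.mul_apply, mul_inv_cancel, AlgEquiv.one_apply]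
    rw [h2] at hy'
    have h3 : (x : AlgebraicClosure k) = σ⁻¹ (x : AlgebraicClosure k) + y := hy'
    have h4 : ((-y : Zbar k) : AlgebraicClosure k) = -(y : AlgebraicClosure k) := rfl
    rw [h4]
    linear_combination -h3
  mul_mem' := by
    intro σ τ hσ hτ x
    obtain ⟨y, hy, hy'⟩ := hτ x
    obtain ⟨z, hz, hz'⟩ := hσ (x + y)
    refine ⟨y + z, 𝔓.add_mem hy hz, ?_⟩
    rw [AlgEquiv.mul_apply, hy']
    have h1 : ((x + y : Zbar k) : AlgebraicClosure k) = (x : AlgebraicClosure k) + y := rfl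
    rw [← h1, hz', h1]
    push_cast
    ring

end Pool.Agent.Cheb
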