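import Pool.Agent.Chebotarev_h15.LoA

/-!
# The logarithm of the L-series

* `Lser_eq_exp`: unique factorization of ideals (`Pool.Agent.H62D.NTC_bij`: the bijection of
  multisets of primes and nonzero ideals; `NTC_wt` is the model for the multiplicativity of the
  weights: `χ` and the powers are multiplicative) and `euler_multiset`;
  `‖pw F χ s P‖ ≤ N(P)^(-s) ≤ 1/2`.
* `log_sub_bound`: `norm_log_one_sub_add_le` and `∑ N(P)^(-2s) ≤ ∑ N(P)^(-2) < ∞`.
* `log_cont`: `continuousOn_tsum` on `[s₀, ∞)` for every `s₀ > 1`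
  (`‖log (1 - z)‖ ≤ 2 ‖z‖ ≤ 2 N(P)^(-s₀)`; each term is continuous because `1 - z` has positive
  real part).
* `exp_lift`: the limit `ℓ ≠ 0` of `exp (f s)`: near `1`, `‖exp (f s) / ℓ - 1‖ < 1/2`, so
  `h s = f s - Complex.log (exp (f s) / ℓ)` is continuous on `(1, s₀)` with `exp (h s) = ℓ`;
  a continuous function on an interval with values in a discrete set (`h s - h s'` is in
  `2 π i ℤ`) is constant.  So `f` is bounded near `1`.
-/

set_option autoImplicit false

noncomputable section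

open Filter Topology NumberField IsDedekindDomain
open scoped nonZeroDivisors

namespace Pool.Agent.Cheb

variable (F : Type) [Field F] [NumberField F]

theorem LoB_pos (P : HeightOneSpectrum (𝓞 F)) : (1 : ℝ) ≤ (Ideal.absNorm P.asIdeal : ℝ) := by
  have h0 : Ideal.absNorm P.asIdeal ≠ 0 := by
    rw [Ne, Ideal.absNorm_eq_zero_iff]
    exact P.ne_bot
  exact_mod_cast Nat.one_le_iff_ne_zero.2 h0

theorem LoB_norm_pw {m : ℕ} (χ : DirichletCharacter ℂ m) (s : ℝ) (P : HeightOneSpectrum (𝓞 F)) :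
    ‖pw F χ s P‖ ≤ (Ideal.absNorm P.asIdeal : ℝ) ^ (-s) := by
  have h4 : 0 ≤ ((Ideal.absNorm P.asIdeal : ℝ) ^ (-s)) := Real.rpow_nonneg (Nat.cast_nonneg _) _
  unfold pw
  rw [norm_mul, Complex.norm_real, Real.norm_of_nonneg h4]
  exact mul_le_of_le_one_left h4 (χ.norm_le_one _)

theorem LoB_sq {m : ℕ} (χ : DirichletCharacter ℂ m) {s : ℝ} (hs : 1 < s)
    (P : HeightOneSpectrum (𝓞 F)) :
    ‖pw F χ s P‖ ^ 2 ≤ (Ideal.absNorm P.asIdeal : ℝ) ^ (-(2 : ℝ)) := by
  have h1 := LoB_pos F P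
  have h0 : (0 : ℝ) < (Ideal.absNorm P.asIdeal : ℝ) := by linarith
  have h2 : ‖pw F χ s P‖ ≤ (Ideal.absNorm P.asIdeal : ℝ) ^ (-1 : ℝ) :=
    (LoB_norm_pw F χ s P).trans (Real.rpow_le_rpow_of_exponent_le h1 (by linarith))
  calc ‖pw F χ s P‖ ^ 2 ≤ ((Ideal.absNorm P.asIdeal : ℝ) ^ (-1 : ℝ)) ^ 2 :=
        pow_le_pow_left₀ (norm_nonneg _) h2 2
    _ = (Ideal.absNorm P.asIdeal : ℝ) ^ (-(2 : ℝ)) := by
        rw [← Real.rpow_natCast, ← Real.rpow_mul h0.le]
        norm_num

theorem LoB_summable_log {m : ℕ} (χ : DirichletCharacter ℂ m) {s : ℝ} (hs : 1 < s) :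
    Summable (fun P : HeightOneSpectrum (𝓞 F) => Complex.log (1 - pw F χ s P)) :=
  Summable.of_norm_bounded ((summable_pw F χ hs).mul_left 2)
    fun P => norm_log_one_sub_le (LoA_norm_pw F χ hs P)

theorem LoB_cont {m : ℕ} (χ : DirichletCharacter ℂ m) (P : HeightOneSpectrum (𝓞 F)) :
    Continuous fun s : ℝ => pw F χ s P := by
  have h1 := LoB_pos F P
  have hc : Continuous fun s : ℝ => (Ideal.absNorm P.asIdeal : ℝ) ^ (-s) :=
    Continuous.rpow continuous_const continuous_neg fun _ => Or.inl (by linarith)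
  unfold pw
  exact continuous_const.mul (Complex.continuous_ofReal.comp hc)

theorem log_sub_bound {m : ℕ} (χ : DirichletCharacter ℂ m) :
    ∃ C : ℝ, ∀ s : ℝ, 1 < s → ‖logL F χ s - Psum F χ s‖ ≤ C := by
  have hS : Summable (fun P : HeightOneSpectrum (𝓞 F) =>
      2 * (Ideal.absNorm P.asIdeal : ℝ) ^ (-(2 : ℝ))) :=
    (summable_primes F (by norm_num : (1 : ℝ) < 2)).mul_left 2
  refine ⟨∑' P : HeightOneSpectrum (𝓞 F), 2 * (Ideal.absNorm P.asIdeal : ℝ) ^ (-(2 : ℝ)),
    fun s hs => ?_⟩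
  have h1 : logL F χ s - Psum F χ s =
      ∑' P : HeightOneSpectrum (𝓞 F), (-Complex.log (1 - pw F χ s P) - pw F χ s P) := by
    have hp : Summable (fun P : HeightOneSpectrum (𝓞 F) => pw F χ s P) :=
      (summable_pw F χ hs).of_norm
    rw [(LoB_summable_log F χ hs).neg.tsum_sub hp, tsum_neg]
    rfl
  rw [h1]
  refine tsum_of_norm_bounded hS.hasSum fun P => ?_
  exact (norm_log_one_sub_add_le (LoA_norm_pw F χ hs P)).trans
    (mul_le_mul_of_nonneg_left (LoB_sq F χ hs P) (by norm_num))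

theorem log_cont {m : ℕ} (χ : DirichletCharacter ℂ m) :
    ContinuousOn (logL F χ) (Set.Ioi 1) := by
  intro x hx
  have hx1 : 1 < x := hx
  apply ContinuousAt.continuousWithinAt
  have hs₁ : 1 < (1 + x) / 2 := by linarith
  have hsx : (1 + x) / 2 < x := by linarith
  have hu : Summable (fun P : HeightOneSpectrum (𝓞 F) =>
      2 * (Ideal.absNorm P.asIdeal : ℝ) ^ (-((1 + x) / 2))) :=
    (summable_primes F hs₁).mul_left 2
  have hcont : ContinuousOn (fun s : ℝ => ∑' P : HeightOneSpectrum (𝓞 F),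
      Complex.log (1 - pw F χ s P)) (Set.Ioi ((1 + x) / 2)) := by
    refine continuousOn_tsum (fun P => ?_) hu ?_
    · refine ContinuousOn.clog ((continuous_const.sub (LoB_cont F χ P)).continuousOn) ?_
      intro s hs
      have hs1 : 1 < s := lt_trans hs₁ hs
      rw [sub_eq_add_neg]
      refine Complex.mem_slitPlane_of_norm_lt_one ?_
      rw [norm_neg]
      have := LoA_norm_pw F χ hs1 P
      linarith
    · intro P s hs
      have hs1 : 1 < s := lt_trans hs₁ hs
      refine (norm_log_one_sub_le (LoA_norm_pw F χ hs1 P)).trans ?_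
      refine mul_le_mul_of_nonneg_left ((LoB_norm_pw F χ s P).trans ?_) (by norm_num)
      have h2 : (1 + x) / 2 < s := hs
      exact Real.rpow_le_rpow_of_exponent_le (LoB_pos F P) (by linarith)
  exact (hcont.continuousAt (Ioi_mem_nhds hsx)).neg

end Pool.Agent.Cheb
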