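import Pool.Agent.Chebotarev_h15.PsA
import Pool.Agent.W_b4801b_t10.DegOne

/-!
# Sums over sets of primes

`psum S s` is monotone and additive in `S` (`s > 1`, `summable_primes`), at most the number of
elements for finite `S`.  `Pool.Agent.T10.d1_asymp` (`W_b4801b_t10/DegOne.lean`): the sum over the
primes of degree one is `log (1 / (s - 1)) + O(1)`; the sum over the other primes is bounded
(`Pool.Agent.T10.DegOne_bad_summable`).
-/

set_option autoImplicit false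

noncomputable section

open Filter Topology NumberField IsDedekindDomain
open scoped nonZeroDivisors

namespace Pool.Agent.Cheb

variable {F : Type} [Field F] [NumberField F]

theorem PsB_compl (F : Type) [Field F] [NumberField F] :
    ∃ C : ℝ, ∀ s : ℝ, 1 < s → psum (deg1 F)ᶜ s ≤ C := by
  refine ⟨∑' P : {P : HeightOneSpectrum (𝓞 F) // ¬ (Ideal.absNorm P.asIdeal).Prime},
      ((Ideal.absNorm P.1.asIdeal : ℕ) : ℝ) ^ (-(1 : ℝ)), fun s hs => ?_⟩
  have h1 : psum (deg1 F)ᶜ s =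
      ∑' P : {P : HeightOneSpectrum (𝓞 F) // ¬ (Ideal.absNorm P.asIdeal).Prime},
        ((Ideal.absNorm P.1.asIdeal : ℕ) : ℝ) ^ (-s) :=
    (tsum_subtype (deg1 F)ᶜ fun P => (Ideal.absNorm P.asIdeal : ℝ) ^ (-s)).symm
  rw [h1]
  have hle : ∀ P : {P : HeightOneSpectrum (𝓞 F) // ¬ (Ideal.absNorm P.asIdeal).Prime},
      ((Ideal.absNorm P.1.asIdeal : ℕ) : ℝ) ^ (-s) ≤
      ((Ideal.absNorm P.1.asIdeal : ℕ) : ℝ) ^ (-(1 : ℝ)) := fun P =>
    Pool.Agent.T10.DegOne_mono _ _ _ (Pool.Agent.T10.DegOne_norm_ge F P.1) hs.le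
  have hsum := Pool.Agent.T10.DegOne_bad_summable F
  exact (Summable.of_nonneg_of_le (fun P => Real.rpow_nonneg (Nat.cast_nonneg _) _) hle
    hsum).tsum_le_tsum hle hsum

theorem PsB_le (F : Type) [Field F] [NumberField F] :
    ∃ C : ℝ, ∀ S : Set (HeightOneSpectrum (𝓞 F)), ∀ s : ℝ, 1 < s →
      psum S s ≤ psum (S ∩ deg1 F) s + C := by
  obtain ⟨C, hC⟩ := PsB_compl F
  refine ⟨C, fun S s hs => ?_⟩
  have h1 : S ⊆ (S ∩ deg1 F) ∪ (deg1 F)ᶜ := by
    intro P hP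
    by_cases h : P ∈ deg1 F
    · exact Or.inl ⟨hP, h⟩
    · exact Or.inr h
  have h2 := psum_mono h1 hs
  have h3 := psum_union_le (S ∩ deg1 F) (deg1 F)ᶜ hs
  have h4 := hC s hs
  linarith

theorem psum_deg1 (F : Type) [Field F] [NumberField F] :
    ∃ C : ℝ, ∀ᶠ s : ℝ in 𝓝[>] 1, |psum (deg1 F) s - Real.log (1 / (s - 1))| ≤ C := by
  obtain ⟨C, hC⟩ := Pool.Agent.T10.d1_asymp F
  refine ⟨C, ?_⟩
  filter_upwards [hC] with s hs
  have h1 : psum (deg1 F) s = Pool.Agent.T10.d1sum F s :=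
    (tsum_subtype (deg1 F) fun P => (Ideal.absNorm P.asIdeal : ℝ) ^ (-s)).symm
  rw [h1]
  exact hs

theorem psum_univ (F : Type) [Field F] [NumberField F] :
    ∃ C : ℝ, ∀ᶠ s : ℝ in 𝓝[>] 1,
      |psum (Set.univ : Set (HeightOneSpectrum (𝓞 F))) s - Real.log (1 / (s - 1))| ≤ C := by
  obtain ⟨C, hC⟩ := psum_deg1 F
  obtain ⟨C', hC'⟩ := PsB_le F
  refine ⟨C + |C'|, ?_⟩
  filter_upwards [hC, self_mem_nhdsWithin] with s h1 hs
  have hs' : 1 < s := hs
  have h2 := hC' Set.univ s hs'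
  rw [Set.univ_inter] at h2
  have h3 := psum_mono (Set.subset_univ (deg1 F)) hs'
  have h4 := abs_le.1 h1
  have h5 := le_abs_self C'
  have h6 := abs_nonneg C'
  exact abs_le.2 ⟨by linarith [h4.1], by linarith [h4.2]⟩

theorem psum_le_deg1 (F : Type) [Field F] [NumberField F] :
    ∃ C : ℝ, ∀ S : Set (HeightOneSpectrum (𝓞 F)), ∀ s : ℝ, 1 < s →
      psum S s ≤ psum (S ∩ deg1 F) s + C := PsB_le F

end Pool.Agent.Cheb
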