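import Pool.Agent.Chebotarev_h15.CoB

/-!
# The sum over the lattice points of an ideal prime to `m`

`n = finrank ℚ F`, `c = 2^(-r₂) √|discr F|`, so `covolume (lat F m J) = m^n N(J) c`
(`covolume_idealLattice`) and `cvol F m = m^n c`.

* `lattice_one`: let `t = N(J)^(-1/n)`.  By homogeneity (`phi_smul`, `IsEps.smul`, `norm_smul`)
  `N(J)^s * hfun ε s y = hfun ε s (t • y)`.  The sum of `hfun ε s (t • (v + x))` over `x` in the
  lattice is the sum of `gfun ε s (t • (v + x))` plus the finite sum over the `x` with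
  `‖t • (v + x)‖ < 1` of `hfun ε s (t • (v + x))`, which converges for `s → 1+` (`hfun_cont`).
  Apply `Nice.lattice` to `(nice_gfun F ε hε).smul`: the integral of `gfun ε s (t • x)` is
  `t^(-n) Iint F ε s = N(J) Iint F ε s` (`Measure.integral_comp_smul`), and
  `N(J) / covolume = 1 / cvol F m`.
* `coset_decomp`: the nonzero elements of `J` are grouped by their classes modulo `m`; the class
  of `c` meets `J` in `v c + m J` (`J ∩ m 𝓞 = m J`, as `J` is prime to `m`), the lattice of `m J` is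
  `lat F m J`, `χ(|N a|) = ε(a) χ(N a)` (`SignRel`), `N a ≡ nq c` (`norm_mod`, `nq_mk`);
  the element `0` contributes `0` because `phi` vanishes at it.  Everything is absolutely summable
  (`princ_summable` with `summable_Lterm`).
* `exists_rep`: `J + (m) = 𝓞 F`.
-/

set_option autoImplicit false

noncomputable section

open Filter Topology NumberField NumberField.mixedEmbedding NumberField.Units MeasureTheory
open scoped nonZeroDivisors

open scoped Classical

namespace Pool.Agent.Cheb

variable (F : Type) [Field F] [NumberField F]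

theorem coset_sum (m : ℕ) [NeZero m] (χ : DirichletCharacter ℂ m) (ε : mixedSpace F → ℝ)
    (hε : IsEps F ε) (hχ : SignRel F χ ε) (J : (Ideal (𝓞 F))⁰)
    (hJ : IsCoprime (J : Ideal (𝓞 F)) (Ideal.span {(m : 𝓞 F)})) :
    ∃ ℓ : ℂ, Tendsto (fun s : ℝ => Asum F χ J s -
      ((Iint F ε s / cvol F m : ℝ) : ℂ) * SS F χ) (𝓝[>] 1) (𝓝 ℓ) := by
  obtain ⟨v, hv⟩ := exists_rep F m J hJ
  have h1 := fun c => lattice_one F m ε hε J (mixedEmbedding F (v c : F))
  choose ℓ hℓ using h1
  haveI := finite_quot F m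
  haveI := Fintype.ofFinite (𝓞 F ⧸ Ideal.span {(m : 𝓞 F)})
  refine ⟨∑ c, χ (nq F m c) * (ℓ c : ℂ), ?_⟩
  have h2 : Tendsto (fun s : ℝ => ∑ c : 𝓞 F ⧸ Ideal.span {(m : 𝓞 F)}, χ (nq F m c) *
      (((Ideal.absNorm (J : Ideal (𝓞 F)) : ℝ) ^ s *
        (∑' x : lat F m J, hfun F ε s (mixedEmbedding F (v c : F) + (x : mixedSpace F))) -
          Iint F ε s / cvol F m : ℝ) : ℂ)) (𝓝[>] 1) (𝓝 (∑ c, χ (nq F m c) * (ℓ c : ℂ))) := by
    refine tendsto_finsetSum _ fun c _ => ?_
    refine Tendsto.const_mul _ ?_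
    exact (Complex.continuous_ofReal.tendsto _).comp (hℓ c)
  refine h2.congr' ?_
  filter_upwards [self_mem_nhdsWithin] with s hs
  rw [coset_decomp F m χ ε hχ J hJ v hv hs, SS, tsum_fintype, tsum_fintype, Finset.mul_sum,
    ← Finset.sum_sub_distrib]
  refine Finset.sum_congr rfl fun c _ => ?_
  push_cast
  ring

end Pool.Agent.Cheb
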