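import Pool.Agent.Chebotarev_h15.Defs

/-!
# The two signs

* `isEps_one`: trivial.  `isEps_sgn`: signs of real numbers with `|a - b| < |a|` agree.
* `integral_gfun_sgn`: the reflection in one real coordinate (`x ↦` the point with `x.1 w`
  replaced by `-x.1 w`) preserves the volume (`MeasurePreserving`; the volume of the mixed space is
  a product of Pi measures), the norm, `phi` (`phi_eq_of_normAtPlace_eq`),
  `mixedEmbedding.norm` and changes the sign of `sgn`: the integral is equal to its negative.
* `sgn_mixedEmbedding`: `N a = ∏_{w real} w(a) * ∏_{w complex} |w(a)|^2`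
  (`Algebra.norm_eq_prod_embeddings`: pair the complex embeddings).
-/

set_option autoImplicit false

noncomputable section

open Filter Topology NumberField NumberField.mixedEmbedding NumberField.Units MeasureTheory

open scoped Classical

namespace Pool.Agent.Cheb

variable (F : Type) [Field F] [NumberField F]

theorem isEps_one : IsEps F (fun _ => 1) where
  meas := measurable_const
  bound := fun _ => by rw [abs_one]
  smul := fun _ _ _ => rfl
  loc := fun _ _ _ => rfl

theorem EpsA_sign_meas : Measurable fun r : ℝ => (SignType.sign r : ℝ) := by
  have h : (fun r : ℝ => (SignType.sign r : ℝ)) =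
      fun r => if 0 < r then (1 : ℝ) else if r < 0 then -1 else 0 := by
    funext r
    rcases lt_trichotomy r 0 with h | h | h
    · rw [sign_neg h, if_neg (not_lt.2 h.le), if_pos h]
      simp
    · rw [h]
      simp
    · rw [sign_pos h, if_pos h]
      simp
  rw [h]
  exact Measurable.ite measurableSet_Ioi measurable_const
    (Measurable.ite measurableSet_Iio measurable_const measurable_const)

theorem EpsA_sign_abs (r : ℝ) : |(SignType.sign r : ℝ)| ≤ 1 := by
  rcases lt_trichotomy r 0 with h | h | h
  · rw [sign_neg h]
    simp
  · rw [h]
    simp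
  · rw [sign_pos h]
    simp

theorem EpsA_sign_eq {a b : ℝ} (h : |a - b| < |a|) : SignType.sign a = SignType.sign b := by
  rcases lt_trichotomy a 0 with h0 | h0 | h0
  · rw [abs_of_neg h0] at h
    have h1 := (abs_lt.1 h).1
    rw [sign_neg h0, sign_neg (by linarith)]
  · rw [h0] at h
    simp at h
    exact absurd h (not_lt.2 (abs_nonneg _))
  · rw [abs_of_pos h0] at h
    have h1 := (abs_lt.1 h).2
    rw [sign_pos h0, sign_pos (by linarith)]

theorem isEps_sgn : IsEps F (sgn F) where
  meas := by
    unfold sgn
    refine Finset.measurable_prod _ fun w _ => ?_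
    exact EpsA_sign_meas.comp ((measurable_pi_apply w).comp measurable_fst)
  bound := fun x => by
    unfold sgn
    rw [Finset.abs_prod]
    exact Finset.prod_le_one (fun w _ => abs_nonneg _) fun w _ => EpsA_sign_abs _
  smul := fun t ht x => by
    unfold sgn
    refine Finset.prod_congr rfl fun w _ => ?_
    have h1 : (t • x).1 w = t * x.1 w := rfl
    rw [h1, sign_mul, sign_pos ht, one_mul]
  loc := fun x y h => by
    unfold sgn
    refine Finset.prod_congr rfl fun w _ => ?_
    rw [EpsA_sign_eq (h w)]

end Pool.Agent.Cheb
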