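import Pool.Agent.Chebotarev_h15.PhiA

/-!
# The two signs

* `isEps_one`: trivial.  `isEps_sgn`: signs of real numbers with `|a - b| < |a|` agree.
* `integral_gfun_sgn`: the reflection in one real coordinate (`x ↦` the point with `x.1 w`
  replaced by `-x.1 w`) preserves the volume (`MeasurePreserving`; the volume of the mixed space is
  a product of Pi measures), the norm, `phi` (`phi_eq_of_normAtPlace_eq`),
  `mixedEmbedding.norm` and changes the sign of `sgn`: the integral is equal to its negative.
* `sgn_mixedEmbedding`: `N a = ∏_{w real} w(a) * ∏_{w complex} |w(a)|^2`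
  (`Algebra.norm_eq_prod_embeddings`: pair the complex embeddings).
-/

set_option autoImplicit false

noncomputable section

open Filter Topology NumberField NumberField.mixedEmbedding NumberField.Units MeasureTheory

open scoped Classical

namespace Pool.Agent.Cheb

variable (F : Type) [Field F] [NumberField F]

theorem EpsB_norm (S : Set {w : InfinitePlace F // InfinitePlace.IsReal w}) (x : mixedSpace F) :
    ‖negAt S x‖ = ‖x‖ := by
  rw [mixedEmbedding.norm_eq_sup'_normAtPlace, mixedEmbedding.norm_eq_sup'_normAtPlace]
  simp only [normAtPlace_negAt]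

theorem EpsB_sgn (w : {w : InfinitePlace F // InfinitePlace.IsReal w}) (x : mixedSpace F) :
    sgn F (negAt {w} x) = - sgn F x := by
  unfold sgn
  rw [← Finset.mul_prod_erase Finset.univ _ (Finset.mem_univ w),
    ← Finset.mul_prod_erase Finset.univ (fun v => (SignType.sign (x.1 v) : ℝ)) (Finset.mem_univ w),
    negAt_apply_isReal_and_mem x (Set.mem_singleton w), Left.sign_neg]
  have h1 : ∏ v ∈ Finset.univ.erase w, (SignType.sign ((negAt {w} x).1 v) : ℝ) =
      ∏ v ∈ Finset.univ.erase w, (SignType.sign (x.1 v) : ℝ) := by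
    refine Finset.prod_congr rfl fun v hv => ?_
    have hv' : v ∉ ({w} : Set {w : InfinitePlace F // InfinitePlace.IsReal w}) := fun h =>
      Finset.ne_of_mem_erase hv h
    rw [negAt_apply_isReal_and_notMem x hv']
  rw [h1]
  have h2 : ((-SignType.sign (x.1 w) : SignType) : ℝ) = -(SignType.sign (x.1 w) : ℝ) := by
    rcases SignType.sign (x.1 w) with _ | _ | _ <;> simp
  rw [h2, neg_mul]

theorem EpsB_gfun (w : {w : InfinitePlace F // InfinitePlace.IsReal w}) (s : ℝ)
    (x : mixedSpace F) : gfun F (sgn F) s (negAt {w} x) = - gfun F (sgn F) s x := by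
  have h1 : phi F (negAt {w} x) = phi F x :=
    phi_eq_of_normAtPlace_eq F fun v => normAtPlace_negAt _ x v
  unfold gfun hfun
  rw [EpsB_norm, EpsB_sgn, h1, norm_negAt]
  split_ifs
  · ring
  · ring

theorem integral_gfun_sgn (w : {w : InfinitePlace F // InfinitePlace.IsReal w}) (s : ℝ) :
    ∫ x : mixedSpace F, gfun F (sgn F) s x = 0 := by
  have h1 : ∫ x : mixedSpace F, gfun F (sgn F) s (negAt {w} x) =
      ∫ x : mixedSpace F, gfun F (sgn F) s x :=
    (volume_preserving_negAt (K := F) (s := {w})).integral_comp
      (negAt {w}).toHomeomorph.measurableEmbedding _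
  simp only [EpsB_gfun] at h1
  rw [integral_neg] at h1
  linarith

end Pool.Agent.Cheb
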