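import Pool.Agent.Chebotarev_h15.DefsB
import Pool.Agent.W_f569db_h62.NTD

/-!
# Orthogonality

Case (a): there is `c ∈ 𝓞 F` which is a unit modulo `m` with `χ(N c) ≠ 1`.  Multiplication by `c`
permutes the classes modulo `m`, the norm is multiplicative, so `SS = χ(N c) SS`: `SS = 0`.

Case (b): `χ(N c) = 1` for all `c` which are units modulo `m`.  Then `χ(N A) = χ(N B)` for ideals
`A`, `B` prime to `m` in the same class: take `J'` prime to `m` in the inverse class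
(`exists_coprime_rep`), `A J' = (a)`, `a` a unit modulo `m`, so
`χ(N A) χ(N J') = χ(|N a|) = χ(N a) = 1` (`SignRel` with `ε = 1`), and the same for `B`.
So `g(C) = χ(N (J C))` is multiplicative in `C` (class group): `J C * J C'` is in the class of
`J (C C')`.  The ideal `I` of the hypothesis is prime to `m` (`χ(N I) ≠ 0`), in the class
`(C')⁻¹` for some `C'`, so `g(C') = χ(N I) ≠ 1` and
`∑_C g(C)⁻¹ = ∑_C g(C C')⁻¹ = g(C')⁻¹ ∑_C g(C)⁻¹`: the sum vanishes.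
(`χ(N I) ≠ 0` implies that `N I` is prime to `m`, hence `I` is prime to `(m)`: `N I ∈ I`.)
-/

set_option autoImplicit false

noncomputable section

open Filter Topology NumberField NumberField.mixedEmbedding NumberField.Units MeasureTheory
open scoped nonZeroDivisors

open scoped Classical

namespace Pool.Agent.Cheb

variable (F : Type) [Field F] [NumberField F]

/-- `χ(N A) χ(N B) = 1` if `A B` is principal and prime to `m`. -/
theorem OrB_mul (m : ℕ) [NeZero m] (χ : DirichletCharacter ℂ m)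
    (hχ : SignRel F χ (fun _ => 1))
    (h : ∀ c : 𝓞 F, IsUnit (Ideal.Quotient.mk (Ideal.span {(m : 𝓞 F)}) c) →
      χ ((Algebra.norm ℤ c : ℤ) : ZMod m) = 1)
    (A B : (Ideal (𝓞 F))⁰) (hAB : ClassGroup.mk0 A * ClassGroup.mk0 B = 1)
    (hA : IsCoprime (A : Ideal (𝓞 F)) (Ideal.span {(m : 𝓞 F)}))
    (hB : IsCoprime (B : Ideal (𝓞 F)) (Ideal.span {(m : 𝓞 F)})) :
    χ ((Ideal.absNorm (A : Ideal (𝓞 F)) : ℕ) : ZMod m) *
      χ ((Ideal.absNorm (B : Ideal (𝓞 F)) : ℕ) : ZMod m) = 1 := by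
  rw [← map_mul, ← Nat.cast_mul, ← map_mul]
  have h1 : ClassGroup.mk0 (A * B) = 1 := by rw [map_mul, hAB]
  have h2 : ((A * B : (Ideal (𝓞 F))⁰) : Ideal (𝓞 F)).IsPrincipal :=
    (ClassGroup.mk0_eq_one_iff (A * B).2).1 h1
  obtain ⟨a, ha⟩ := h2.principal
  have ha' : (A : Ideal (𝓞 F)) * (B : Ideal (𝓞 F)) = Ideal.span {a} := ha
  have ha0 : a ≠ 0 := by
    rintro rfl
    have h3 : (A : Ideal (𝓞 F)) * (B : Ideal (𝓞 F)) = 0 := by
      rw [ha']
      simp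
    exact nonZeroDivisors.ne_zero (A * B).2 h3
  have hu : IsUnit (Ideal.Quotient.mk (Ideal.span {(m : 𝓞 F)}) a) := by
    have h3 : IsCoprime (Ideal.span {a}) (Ideal.span {(m : 𝓞 F)}) := by
      rw [← ha']
      exact hA.mul_left hB
    rw [Ideal.isCoprime_iff_exists] at h3
    obtain ⟨i, hi, j, hj, hij⟩ := h3
    obtain ⟨b, rfl⟩ := Ideal.mem_span_singleton'.1 hi
    have h4 : Ideal.Quotient.mk (Ideal.span {(m : 𝓞 F)}) (b * a + j) = 1 := by
      rw [hij, map_one]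
    rw [map_add, map_mul, Ideal.Quotient.eq_zero_iff_mem.2 hj, add_zero] at h4
    exact isUnit_iff_exists_inv'.2 ⟨_, h4⟩
  rw [ha', Ideal.absNorm_span_singleton, hχ a ha0, h a hu]
  simp

/-- Case (b). -/
theorem sum_eq_zero (m : ℕ) [NeZero m] (χ : DirichletCharacter ℂ m)
    (hχ : SignRel F χ (fun _ => 1))
    (h : ∀ c : 𝓞 F, IsUnit (Ideal.Quotient.mk (Ideal.span {(m : 𝓞 F)}) c) →
      χ ((Algebra.norm ℤ c : ℤ) : ZMod m) = 1)
    (hI : ∃ I : (Ideal (𝓞 F))⁰, χ ((Ideal.absNorm (I : Ideal (𝓞 F)) : ℕ) : ZMod m) ≠ 0 ∧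
      χ ((Ideal.absNorm (I : Ideal (𝓞 F)) : ℕ) : ZMod m) ≠ 1)
    (J : ClassGroup (𝓞 F) → (Ideal (𝓞 F))⁰) (hJ : ∀ C, ClassGroup.mk0 (J C) = C⁻¹)
    (hcop : ∀ C, IsCoprime (J C : Ideal (𝓞 F)) (Ideal.span {(m : 𝓞 F)})) :
    ∑ C : ClassGroup (𝓞 F),
      (χ ((Ideal.absNorm (J C : Ideal (𝓞 F)) : ℕ) : ZMod m))⁻¹ = 0 := by
  set g : ClassGroup (𝓞 F) → ℂ := fun C =>
    χ ((Ideal.absNorm (J C : Ideal (𝓞 F)) : ℕ) : ZMod m) with hg
  have key := OrB_mul F m χ hχ h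
  have hmul : ∀ C C', g (C * C') = g C * g C' := by
    intro C C'
    have e1 : g C * g C' * g (C * C')⁻¹ = 1 := by
      have h1 := key (J C * J C') (J (C * C')⁻¹) (by
        rw [map_mul, hJ, hJ, hJ, inv_inv, ← mul_inv, inv_mul_cancel]) ((hcop C).mul_left (hcop C'))
        (hcop _)
      have e2 : χ ((Ideal.absNorm ((J C * J C' : (Ideal (𝓞 F))⁰) : Ideal (𝓞 F)) : ℕ) : ZMod m) =
          g C * g C' := by
        simp only [hg]
        rw [← map_mul, ← Nat.cast_mul, ← map_mul]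
        rfl
      rwa [e2] at h1
    have e3 : g (C * C') * g (C * C')⁻¹ = 1 :=
      key (J (C * C')) (J (C * C')⁻¹) (by rw [hJ, hJ, inv_inv, inv_mul_cancel]) (hcop _) (hcop _)
    have h0 : g (C * C')⁻¹ ≠ 0 := right_ne_zero_of_mul_eq_one e3
    exact mul_right_cancel₀ h0 (e3.trans e1.symm)
  obtain ⟨I, hI0, hI1⟩ := hI
  have hIcop : IsCoprime (I : Ideal (𝓞 F)) (Ideal.span {(m : 𝓞 F)}) := by
    have hu : IsUnit ((Ideal.absNorm (I : Ideal (𝓞 F)) : ℕ) : ZMod m) := by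
      by_contra hcon
      exact hI0 (MulChar.map_nonunit χ hcon)
    have hc : (Ideal.absNorm (I : Ideal (𝓞 F))).Coprime m := (ZMod.isUnit_iff_coprime _ _).1 hu
    have hc2 : IsCoprime ((Ideal.absNorm (I : Ideal (𝓞 F)) : ℕ) : ℤ) (m : ℤ) :=
      Nat.isCoprime_iff_coprime.2 hc
    have hc3 : IsCoprime ((Ideal.absNorm (I : Ideal (𝓞 F)) : ℕ) : 𝓞 F) (m : 𝓞 F) := by
      have := hc2.map (Int.castRingHom (𝓞 F))
      simpa using this
    obtain ⟨u, v, huv⟩ := hc3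
    rw [Ideal.isCoprime_iff_exists]
    exact ⟨_, Ideal.mul_mem_left _ u (Ideal.absNorm_mem _), _,
      Ideal.mul_mem_left _ v (Ideal.mem_span_singleton_self _), huv⟩
  set C' : ClassGroup (𝓞 F) := (ClassGroup.mk0 I)⁻¹ with hC'
  have hgC' : g C' = χ ((Ideal.absNorm (I : Ideal (𝓞 F)) : ℕ) : ZMod m) := by
    have e1 : χ ((Ideal.absNorm (I : Ideal (𝓞 F)) : ℕ) : ZMod m) * g C'⁻¹ = 1 :=
      key I (J C'⁻¹) (by rw [hJ, inv_inv, hC', mul_inv_cancel]) hIcop (hcop _)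
    have e2 : g C' * g C'⁻¹ = 1 :=
      key (J C') (J C'⁻¹) (by rw [hJ, hJ, ← mul_inv, mul_inv_cancel, inv_one]) (hcop _) (hcop _)
    exact mul_right_cancel₀ (right_ne_zero_of_mul_eq_one e2) (e2.trans e1.symm)
  have hs : ∑ C, (g C)⁻¹ = (g C')⁻¹ * ∑ C, (g C)⁻¹ := by
    rw [Finset.mul_sum, ← Equiv.sum_comp (Equiv.mulLeft C') fun C => (g C)⁻¹]
    refine Finset.sum_congr rfl fun C _ => ?_
    rw [Equiv.coe_mulLeft, hmul, mul_inv]
  have hne : (g C')⁻¹ ≠ 1 := by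
    rw [hgC', Ne, inv_eq_one]
    exact hI1
  have h3 : (1 - (g C')⁻¹) * ∑ C, (g C)⁻¹ = 0 := by
    rw [sub_mul, one_mul, ← hs, sub_self]
  exact (mul_eq_zero.1 h3).resolve_left (sub_ne_zero.2 hne.symm)

end Pool.Agent.Cheb
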