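import Pool.Agent.Chebotarev_h15.OrA
import Pool.Agent.Chebotarev_h15.OrB

/-!
# Orthogonality

Case (a): there is `c ∈ 𝓞 F` which is a unit modulo `m` with `χ(N c) ≠ 1`.  Multiplication by `c`
permutes the classes modulo `m`, the norm is multiplicative, so `SS = χ(N c) SS`: `SS = 0`.

Case (b): `χ(N c) = 1` for all `c` which are units modulo `m`.  Then `χ(N A) = χ(N B)` for ideals
`A`, `B` prime to `m` in the same class: take `J'` prime to `m` in the inverse class
(`exists_coprime_rep`), `A J' = (a)`, `a` a unit modulo `m`, so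
`χ(N A) χ(N J') = χ(|N a|) = χ(N a) = 1` (`SignRel` with `ε = 1`), and the same for `B`.
So `g(C) = χ(N (J C))` is multiplicative in `C` (class group): `J C * J C'` is in the class of
`J (C C')`.  The ideal `I` of the hypothesis is prime to `m` (`χ(N I) ≠ 0`), in the class
`(C')⁻¹` for some `C'`, so `g(C') = χ(N I) ≠ 1` and
`∑_C g(C)⁻¹ = ∑_C g(C C')⁻¹ = g(C')⁻¹ ∑_C g(C)⁻¹`: the sum vanishes.
(`χ(N I) ≠ 0` implies that `N I` is prime to `m`, hence `I` is prime to `(m)`: `N I ∈ I`.)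
-/

set_option autoImplicit false

noncomputable section

open Filter Topology NumberField NumberField.mixedEmbedding NumberField.Units MeasureTheory
open scoped nonZeroDivisors

open scoped Classical

namespace Pool.Agent.Cheb

variable (F : Type) [Field F] [NumberField F]

theorem orth (m : ℕ) [NeZero m] (χ : DirichletCharacter ℂ m)
    (hχ : SignRel F χ (fun _ => 1))
    (hI : ∃ I : (Ideal (𝓞 F))⁰, χ ((Ideal.absNorm (I : Ideal (𝓞 F)) : ℕ) : ZMod m) ≠ 0 ∧
      χ ((Ideal.absNorm (I : Ideal (𝓞 F)) : ℕ) : ZMod m) ≠ 1)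
    (J : ClassGroup (𝓞 F) → (Ideal (𝓞 F))⁰) (hJ : ∀ C, ClassGroup.mk0 (J C) = C⁻¹)
    (hcop : ∀ C, IsCoprime (J C : Ideal (𝓞 F)) (Ideal.span {(m : 𝓞 F)})) :
    SS F χ * ∑ C : ClassGroup (𝓞 F),
      (χ ((Ideal.absNorm (J C : Ideal (𝓞 F)) : ℕ) : ZMod m))⁻¹ = 0 := by
  by_cases h : ∀ c : 𝓞 F, IsUnit (Ideal.Quotient.mk (Ideal.span {(m : 𝓞 F)}) c) →
      χ ((Algebra.norm ℤ c : ℤ) : ZMod m) = 1
  · rw [sum_eq_zero F m χ hχ h hI J hJ hcop, mul_zero]
  · push Not at h
    obtain ⟨c, hc, h⟩ := h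
    rw [SS_eq_zero F m χ c hc h, zero_mul]

end Pool.Agent.Cheb
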