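import Pool.Agent.Chebotarev_h15.ClC
import Pool.Agent.Chebotarev_h15.Coset
import Pool.Agent.Chebotarev_h15.EpsA
import Pool.Agent.Chebotarev_h15.EpsB
import Pool.Agent.Chebotarev_h15.Orth

/-!
# The L-series converges at `s = 1`
-/

set_option autoImplicit false

noncomputable section

open Filter Topology NumberField NumberField.mixedEmbedding NumberField.Units MeasureTheory
open scoped nonZeroDivisors

open scoped Classical

namespace Pool.Agent.Cheb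

variable (F : Type) [Field F] [NumberField F]

theorem Lser_tendsto_aux (m : ℕ) [NeZero m] (χ : DirichletCharacter ℂ m)
    (ε : mixedSpace F → ℝ) (hε : IsEps F ε) (hχ : SignRel F χ ε)
    (J : ClassGroup (𝓞 F) → (Ideal (𝓞 F))⁰) (hJ : ∀ C, ClassGroup.mk0 (J C) = C⁻¹)
    (hcop : ∀ C, IsCoprime (J C : Ideal (𝓞 F)) (Ideal.span {(m : 𝓞 F)}))
    (h0 : (∀ s : ℝ, Iint F ε s = 0) ∨ SS F χ * ∑ C : ClassGroup (𝓞 F),
      (χ ((Ideal.absNorm (J C : Ideal (𝓞 F)) : ℕ) : ZMod m))⁻¹ = 0) :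
    ∃ ℓ : ℂ, Tendsto (Lser F χ) (𝓝[>] 1) (𝓝 ℓ) := by
  have h1 := fun C => coset_sum F m χ ε hε hχ (J C) (hcop C)
  choose ℓ hℓ using h1
  refine ⟨(torsionOrder F : ℂ)⁻¹ * ∑ C : ClassGroup (𝓞 F),
        (χ ((Ideal.absNorm (J C : Ideal (𝓞 F)) : ℕ) : ZMod m))⁻¹ * ℓ C, ?_⟩
  have h2 : Tendsto (fun s : ℝ => (torsionOrder F : ℂ)⁻¹ * ∑ C : ClassGroup (𝓞 F),
        (χ ((Ideal.absNorm (J C : Ideal (𝓞 F)) : ℕ) : ZMod m))⁻¹ * (Asum F χ (J C) s -
      ((Iint F ε s / cvol F m : ℝ) : ℂ) * SS F χ)) (𝓝[>] 1)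
      (𝓝 ((torsionOrder F : ℂ)⁻¹ * ∑ C : ClassGroup (𝓞 F),
        (χ ((Ideal.absNorm (J C : Ideal (𝓞 F)) : ℕ) : ZMod m))⁻¹ * ℓ C)) := by
    refine Tendsto.const_mul _ (tendsto_finsetSum _ fun C _ => ?_)
    exact Tendsto.const_mul _ (hℓ C)
  refine h2.congr' ?_
  filter_upwards [self_mem_nhdsWithin] with s hs
  rw [Lser_eq F m χ J hJ hcop hs]
  congr 1
  have h3 : ∑ C : ClassGroup (𝓞 F),
        (χ ((Ideal.absNorm (J C : Ideal (𝓞 F)) : ℕ) : ZMod m))⁻¹ *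
          (((Iint F ε s / cvol F m : ℝ) : ℂ) * SS F χ) = 0 := by
    rw [← Finset.sum_mul]
    rcases h0 with h0 | h0
    · rw [h0 s]
      simp
    · have : (∑ C : ClassGroup (𝓞 F),
          (χ ((Ideal.absNorm (J C : Ideal (𝓞 F)) : ℕ) : ZMod m))⁻¹) *
            (((Iint F ε s / cvol F m : ℝ) : ℂ) * SS F χ) =
          ((Iint F ε s / cvol F m : ℝ) : ℂ) * (SS F χ * (∑ C : ClassGroup (𝓞 F),
          (χ ((Ideal.absNorm (J C : Ideal (𝓞 F)) : ℕ) : ZMod m))⁻¹)) := by ring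
      rw [this, h0, mul_zero]
  rw [← sub_zero (∑ C : ClassGroup (𝓞 F),
    (χ ((Ideal.absNorm (J C : Ideal (𝓞 F)) : ℕ) : ZMod m))⁻¹ * Asum F χ (J C) s), ← h3,
    ← Finset.sum_sub_distrib]
  refine Finset.sum_congr rfl fun C _ => ?_
  ring

/-- **Theorem A.**  If `χ ∘ N` is not trivial on the ideals prime to `m`, then the L-series of
`χ ∘ N` converges for `s → 1+`. -/
theorem Lser_tendsto (m : ℕ) [NeZero m] (χ : DirichletCharacter ℂ m)
    (hI : ∃ I : (Ideal (𝓞 F))⁰, χ ((Ideal.absNorm (I : Ideal (𝓞 F)) : ℕ) : ZMod m) ≠ 0 ∧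
      χ ((Ideal.absNorm (I : Ideal (𝓞 F)) : ℕ) : ZMod m) ≠ 1) :
    ∃ ℓ : ℂ, Tendsto (Lser F χ) (𝓝[>] 1) (𝓝 ℓ) := by
  have h1 := fun C : ClassGroup (𝓞 F) => exists_coprime_rep F m C
  choose J hJ using h1
  have hpm : χ (-1) = 1 ∨ χ (-1) = -1 := by
    have h2 : χ (-1) * χ (-1) = 1 := by
      rw [← map_mul, neg_one_mul, neg_neg, map_one]
    exact mul_self_eq_one_iff.mp h2
  rcases hpm with h | h
  · exact Lser_tendsto_aux F m χ _ (isEps_one F) (signRel_even F χ h) J (fun C => (hJ C).1)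
      (fun C => (hJ C).2) (Or.inr (orth F m χ (signRel_even F χ h) hI J (fun C => (hJ C).1)
      (fun C => (hJ C).2)))
  · by_cases hr : IsEmpty {w : InfinitePlace F // InfinitePlace.IsReal w}
    · exact Lser_tendsto_aux F m χ _ (isEps_one F) (signRel_noreal F χ hr) J (fun C => (hJ C).1)
        (fun C => (hJ C).2) (Or.inr (orth F m χ (signRel_noreal F χ hr) hI J (fun C => (hJ C).1)
        (fun C => (hJ C).2)))
    · rw [not_isEmpty_iff] at hr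
      obtain ⟨w⟩ := hr
      exact Lser_tendsto_aux F m χ _ (isEps_sgn F) (signRel_odd F χ h) J (fun C => (hJ C).1)
        (fun C => (hJ C).2) (Or.inl (fun s => integral_gfun_sgn F w s))

end Pool.Agent.Cheb
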