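import Pool.Agent.Chebotarev_h15.CyA
import Pool.Agent.Chebotarev_h15.LoB
import Pool.Agent.Chebotarev_h15.PsB
import Pool.Agent.Chebotarev_h15.SpA
import Pool.Agent.Chebotarev_h15.ThmA

/-!
# Nonvanishing and the density theorem for cyclotomic extensions

`M = L(ζ)`; the characters `χ` modulo `m` with `χ(ι τ) = 1` for all `τ ∈ Gal(M/L)` are called
trivial on `M`.

* `Psum_upper`: by `Lser_tendsto` and `Lser_eq_exp`, `exp (Re (logL)) = ‖Lser‖` is bounded for
  `s → 1+`, so `Re logL ≤ C`; `log_sub_bound`.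
* `Psum_trivial`: `Psum L χ s - psum univ s` is the sum over the finitely many `P ∋ m`
  (`finite_mem`), `psum_univ`.
* `sum_chars`: `∑_χ χ a = φ(m)` if `a = 1` and `0` otherwise (`DirichletCharacter` orthogonality;
  for `a` not a unit all terms are `0`, for units Mathlib's `DirichletCharacter.sum_characters_eq`).
* `Psum_lower`: in `∑_χ Re (Psum L χ s) = φ(m) psum {N P = 1} s ≥ (φ(m)/[M:L]) log (1/(s-1)) - C`
  (`psum_one_ge`) the characters trivial on `M` contribute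
  `(φ(m)/[M:L]) log (1/(s-1)) + O(1)` (`card_chars`, `Psum_trivial`; for those `χ(N P) = 1` for all
  `P ∌ m`, by `frob_cyc` for some Frobenius), and all others are `≤ C` (`Psum_upper`; the ideal `I`
  is a prime `P ∌ m` with `χ(N P) ≠ 1` from `char_trivial`, `χ(N P) ≠ 0` by `norm_unit_mod`):
  so each of the others is `≥ -C'`.
* `Psum_bounded`: `Lser → ℓ`, and `‖Lser‖ = exp (Re logL) ≥ exp (-C)`, so `ℓ ≠ 0`; `exp_lift` for
  `logL` (`log_cont`), `log_sub_bound`.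
* `cyc_density`: `psum (FrobSet L M g)` and `psum {N P = ι g}` differ by a bounded amount
  (`mem_frobSet_cyc`, `finite_mem`), and
  `φ(m) psum {N P = ι g} s = ∑_χ χ(ι g)⁻¹ Psum L χ s = (φ(m)/[M:L]) log (1/(s-1)) + O(1)`.
-/

set_option autoImplicit false

noncomputable section

open Filter Topology NumberField IsDedekindDomain
open scoped nonZeroDivisors

namespace Pool.Agent.Cheb

variable (L M : Type) [Field L] [NumberField L] [Field M] [NumberField M] [Algebra L M]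
  (m : ℕ) [NeZero m]

/-- a prime as a nonzero ideal -/
def CbA_ideal {L : Type} [Field L] [NumberField L] (P : HeightOneSpectrum (𝓞 L)) : (Ideal (𝓞 L))⁰ :=
  ⟨P.asIdeal, mem_nonZeroDivisors_of_ne_zero P.ne_bot⟩

theorem CbA_norm {m : ℕ} (χ : DirichletCharacter ℂ m) (s : ℝ) (P : HeightOneSpectrum (𝓞 L)) :
    ‖pw L χ s P‖ ≤ (Ideal.absNorm P.asIdeal : ℝ) ^ (-s) := by
  have h4 : 0 ≤ ((Ideal.absNorm P.asIdeal : ℝ) ^ (-s)) := Real.rpow_nonneg (Nat.cast_nonneg _) _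
  unfold pw
  rw [norm_mul, Complex.norm_real, Real.norm_of_nonneg h4]
  exact mul_le_of_le_one_left h4 (χ.norm_le_one _)

theorem Psum_upper (χ : DirichletCharacter ℂ m)
    (hP : ∃ P : HeightOneSpectrum (𝓞 L), (m : 𝓞 L) ∉ P.asIdeal ∧
      χ ((Ideal.absNorm P.asIdeal : ℕ) : ZMod m) ≠ 1) :
    ∃ C : ℝ, ∀ᶠ s : ℝ in 𝓝[>] 1, (Psum L χ s).re ≤ C := by
  obtain ⟨P, hP1, hP2⟩ := hP
  have h0 : χ ((Ideal.absNorm P.asIdeal : ℕ) : ZMod m) ≠ 0 :=
    ((norm_unit_mod L m P hP1).map χ).ne_zero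
  obtain ⟨ℓ, hℓ⟩ := Lser_tendsto L m χ ⟨CbA_ideal P, h0, hP2⟩
  obtain ⟨C, hC⟩ := log_sub_bound L χ
  refine ⟨Real.log (‖ℓ‖ + 1) + C, ?_⟩
  have hn : ∀ᶠ s : ℝ in 𝓝[>] 1, ‖Lser L χ s‖ < ‖ℓ‖ + 1 :=
    hℓ.norm.eventually_lt_const (by linarith)
  filter_upwards [hn, self_mem_nhdsWithin] with s hs1 hs
  have hs' : 1 < s := hs
  rw [Lser_eq_exp L χ hs', Complex.norm_exp] at hs1
  have h1 : (logL L χ s).re ≤ Real.log (‖ℓ‖ + 1) := by
    rw [Real.le_log_iff_exp_le (by positivity)]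
    exact hs1.le
  have h2 : |(logL L χ s - Psum L χ s).re| ≤ C := (Complex.abs_re_le_norm _).trans (hC s hs')
  rw [Complex.sub_re] at h2
  have h3 := (abs_le.1 h2).1
  linarith

theorem Psum_trivial (χ : DirichletCharacter ℂ m)
    (h : ∀ P : HeightOneSpectrum (𝓞 L), (m : 𝓞 L) ∉ P.asIdeal →
      χ ((Ideal.absNorm P.asIdeal : ℕ) : ZMod m) = 1) :
    ∃ C : ℝ, ∀ᶠ s : ℝ in 𝓝[>] 1, ‖Psum L χ s - (Real.log (1 / (s - 1)) : ℝ)‖ ≤ C := by
  classical
  obtain ⟨C, hC⟩ := psum_univ L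
  set E : Set (HeightOneSpectrum (𝓞 L)) := {P | (m : 𝓞 L) ∈ P.asIdeal} with hE
  have hEfin : E.Finite := finite_mem L m (NeZero.ne m)
  refine ⟨2 * E.ncard + C, ?_⟩
  filter_upwards [hC, self_mem_nhdsWithin] with s hs1 hs
  have hs' : 1 < s := hs
  have hpw : Summable (fun P : HeightOneSpectrum (𝓞 L) => pw L χ s P) :=
    (summable_pw L χ hs').of_norm
  have hN : Summable (fun P : HeightOneSpectrum (𝓞 L) =>
      (((Ideal.absNorm P.asIdeal : ℝ) ^ (-s) : ℝ) : ℂ)) :=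
    (Complex.hasSum_ofReal.2 (summable_primes L hs').hasSum).summable
  have hu : ((psum (Set.univ : Set (HeightOneSpectrum (𝓞 L))) s : ℝ) : ℂ) =
      ∑' P : HeightOneSpectrum (𝓞 L), (((Ideal.absNorm P.asIdeal : ℝ) ^ (-s) : ℝ) : ℂ) := by
    unfold psum
    rw [Set.indicator_univ]
    exact Complex.ofReal_tsum _
  have hdiff : ‖Psum L χ s - ((psum (Set.univ : Set (HeightOneSpectrum (𝓞 L))) s : ℝ) : ℂ)‖ ≤
      2 * psum E s := by
    rw [hu]
    unfold Psum
    rw [← hpw.tsum_sub hN]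
    unfold psum
    refine tsum_of_norm_bounded ((PsA_summable E hs').hasSum.mul_left 2) fun P => ?_
    have h4 : 0 ≤ ((Ideal.absNorm P.asIdeal : ℝ) ^ (-s)) := Real.rpow_nonneg (Nat.cast_nonneg _) _
    by_cases hPE : P ∈ E
    · rw [Set.indicator_of_mem hPE]
      refine (norm_sub_le _ _).trans ?_
      rw [Complex.norm_real, Real.norm_of_nonneg h4, two_mul]
      exact add_le_add (CbA_norm L χ s P) le_rfl
    · rw [Set.indicator_of_notMem hPE, mul_zero]
      have h5 : pw L χ s P = (((Ideal.absNorm P.asIdeal : ℝ) ^ (-s) : ℝ) : ℂ) := by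
        unfold pw
        rw [h P hPE, one_mul]
      rw [h5, sub_self, norm_zero]
  have hE2 : psum E s ≤ E.ncard := psum_finite hEfin hs'
  have h6 : ‖((psum (Set.univ : Set (HeightOneSpectrum (𝓞 L))) s : ℝ) : ℂ) -
      (Real.log (1 / (s - 1)) : ℝ)‖ ≤ C := by
    rw [← Complex.ofReal_sub, Complex.norm_real]
    exact hs1
  calc ‖Psum L χ s - (Real.log (1 / (s - 1)) : ℝ)‖
      = ‖(Psum L χ s - ((psum (Set.univ : Set (HeightOneSpectrum (𝓞 L))) s : ℝ) : ℂ)) +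
        (((psum (Set.univ : Set (HeightOneSpectrum (𝓞 L))) s : ℝ) : ℂ) -
          (Real.log (1 / (s - 1)) : ℝ))‖ := by
        congr 1
        ring
    _ ≤ 2 * psum E s + C := (norm_add_le _ _).trans (add_le_add hdiff h6)
    _ ≤ 2 * E.ncard + C := by linarith

open scoped Classical in
theorem sum_chars (a : (ZMod m)ˣ) {s : ℝ} (hs : 1 < s) :
    ∑ χ : DirichletCharacter ℂ m, (χ a)⁻¹ * Psum L χ s =
      (m.totient : ℂ) *
        (psum {P : HeightOneSpectrum (𝓞 L) |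
          ((Ideal.absNorm P.asIdeal : ℕ) : ZMod m) = a} s : ℝ) := by
  have hsum : ∀ χ ∈ (Finset.univ : Finset (DirichletCharacter ℂ m)),
      Summable (fun P : HeightOneSpectrum (𝓞 L) => (χ a)⁻¹ * pw L χ s P) := fun χ _ =>
    ((summable_pw L χ hs).of_norm).mul_left _
  have h1 : ∑ χ : DirichletCharacter ℂ m, (χ a)⁻¹ * Psum L χ s =
      ∑' P : HeightOneSpectrum (𝓞 L), ∑ χ : DirichletCharacter ℂ m, (χ a)⁻¹ * pw L χ s P := by
    rw [Summable.tsum_finsetSum hsum]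
    refine Finset.sum_congr rfl fun χ _ => ?_
    unfold Psum
    rw [tsum_mul_left]
  rw [h1]
  unfold psum
  rw [Complex.ofReal_tsum, ← tsum_mul_left]
  refine tsum_congr fun P => ?_
  have h2 : ∑ χ : DirichletCharacter ℂ m, (χ a)⁻¹ * pw L χ s P =
      (∑ χ : DirichletCharacter ℂ m, χ ((a : ZMod m)⁻¹) *
        χ ((Ideal.absNorm P.asIdeal : ℕ) : ZMod m)) *
        (((Ideal.absNorm P.asIdeal : ℝ) ^ (-s) : ℝ) : ℂ) := by
    rw [Finset.sum_mul]
    refine Finset.sum_congr rfl fun χ _ => ?_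
    have h3 : χ ((a : ZMod m)⁻¹) = (χ a)⁻¹ := by
      have h4 : χ ((a : ZMod m)⁻¹) * χ (a : ZMod m) = 1 := by
        rw [← map_mul, ZMod.inv_mul_of_unit _ a.isUnit, map_one]
      exact eq_inv_of_mul_eq_one_left h4
    unfold pw
    rw [h3]
    ring
  rw [h2, DirichletCharacter.sum_char_inv_mul_char_eq ℂ a.isUnit]
  by_cases hP : ((Ideal.absNorm P.asIdeal : ℕ) : ZMod m) = a
  · rw [if_pos hP.symm, Set.indicator_of_mem (by exact hP)]
  · rw [if_neg (fun h => hP h.symm), Set.indicator_of_notMem (by exact hP), zero_mul,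
      Complex.ofReal_zero, mul_zero]

variable [IsCyclotomicExtension {m} L M] [IsGalois L M]

end Pool.Agent.Cheb
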