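import Pool.Agent.Chebotarev_h15.Defs
import Pool.Agent.Chebotarev_h15.SpA

/-!
# Primes above and below

`M / L` is a finite extension of number fields.

* `card_over_le`: `∑ e f = [M : L]` (`Ideal.sum_ramification_inertia`), every summand is `≥ 1`.
* `absNorm_under_dvd`: `N Q = N P ^ f` (`Ideal.absNorm_eq_pow_inertiaDeg` or
  `Nat.card (𝓞 M ⧸ Q) = Nat.card (𝓞 L ⧸ P) ^ f`).
* `psum_up_le`: a prime `Q` of prime norm has the same norm as the prime below; each prime `P` of
  `L` has at most `[M : L]` primes above.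
* `psum_down_le`: all but finitely many `P` are unramified in `M` (`e = 1` for all `Q` over `P`:
  for instance `Q` divides the different only for finitely many `Q`); if moreover all `Q` over `P`
  have `N Q = N P` (`f = 1`) then there are exactly `[M : L]` of them.
-/

set_option autoImplicit false

noncomputable section

open Filter Topology NumberField IsDedekindDomain
open scoped nonZeroDivisors

namespace Pool.Agent.Cheb

variable (L M : Type) [Field L] [NumberField L] [Field M] [NumberField M] [Algebra L M]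

theorem absNorm_pow {P : HeightOneSpectrum (𝓞 L)} {Q : HeightOneSpectrum (𝓞 M)}
    (h : Q ∈ Over M P) :
    ∃ f : ℕ, 0 < f ∧ Ideal.absNorm Q.asIdeal = Ideal.absNorm P.asIdeal ^ f := by
  have := P.isPrime
  have := P.isMaximal
  have := Q.isPrime
  have := Q.isMaximal
  have hlo : Q.asIdeal.LiesOver P.asIdeal := ⟨h.symm⟩
  letI : Field (𝓞 L ⧸ P.asIdeal) := Ideal.Quotient.field P.asIdeal
  have hfP : Finite (𝓞 L ⧸ P.asIdeal) := Ideal.finiteQuotientOfFreeOfNeBot _ P.ne_bot
  have hfQ : Finite (𝓞 M ⧸ Q.asIdeal) := Ideal.finiteQuotientOfFreeOfNeBot _ Q.ne_bot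
  have hne : Nontrivial (𝓞 M ⧸ Q.asIdeal) := Ideal.Quotient.nontrivial_iff.2 Q.isPrime.ne_top
  refine ⟨Module.finrank (𝓞 L ⧸ P.asIdeal) (𝓞 M ⧸ Q.asIdeal), Module.finrank_pos, ?_⟩
  rw [Ideal.absNorm_apply, Ideal.absNorm_apply, Submodule.cardQuot_apply,
    Submodule.cardQuot_apply]
  exact Module.natCard_eq_pow_finrank (K := 𝓞 L ⧸ P.asIdeal) (V := 𝓞 M ⧸ Q.asIdeal)

theorem absNorm_eq_of_prime {P : HeightOneSpectrum (𝓞 L)} {Q : HeightOneSpectrum (𝓞 M)}
    (h : Q ∈ Over M P) (hQ : Q ∈ deg1 M) :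
    Ideal.absNorm Q.asIdeal = Ideal.absNorm P.asIdeal := by
  obtain ⟨f, hf, he⟩ := absNorm_pow L M h
  have hp : (Ideal.absNorm Q.asIdeal).Prime := hQ
  rw [he] at hp
  have h1 : f = 1 := by
    by_contra hne
    exact Nat.Prime.not_prime_pow' hne hp
  rw [he, h1, pow_one]

end Pool.Agent.Cheb
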