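import Pool.Agent.Chebotarev_h15.PsA
import Pool.Agent.Chebotarev_h15.SpB

/-!
# Primes above and below

`M / L` is a finite extension of number fields.

* `card_over_le`: `∑ e f = [M : L]` (`Ideal.sum_ramification_inertia`), every summand is `≥ 1`.
* `absNorm_under_dvd`: `N Q = N P ^ f` (`Ideal.absNorm_eq_pow_inertiaDeg` or
  `Nat.card (𝓞 M ⧸ Q) = Nat.card (𝓞 L ⧸ P) ^ f`).
* `psum_up_le`: a prime `Q` of prime norm has the same norm as the prime below; each prime `P` of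
  `L` has at most `[M : L]` primes above.
* `psum_down_le`: all but finitely many `P` are unramified in `M` (`e = 1` for all `Q` over `P`:
  for instance `Q` divides the different only for finitely many `Q`); if moreover all `Q` over `P`
  have `N Q = N P` (`f = 1`) then there are exactly `[M : L]` of them.
-/

set_option autoImplicit false

noncomputable section

open Filter Topology NumberField IsDedekindDomain
open scoped nonZeroDivisors

namespace Pool.Agent.Cheb

variable (L M : Type) [Field L] [NumberField L] [Field M] [NumberField M] [Algebra L M]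

theorem SpD_ext {P P' : HeightOneSpectrum (𝓞 L)} {Q : HeightOneSpectrum (𝓞 M)}
    (h : Q ∈ Over M P) (h' : Q ∈ Over M P') : P = P' := by
  apply HeightOneSpectrum.ext
  have h1 : Q.asIdeal.under (𝓞 L) = P.asIdeal := h
  have h2 : Q.asIdeal.under (𝓞 L) = P'.asIdeal := h'
  rw [← h1, ← h2]

theorem psum_up_le (S : Set (HeightOneSpectrum (𝓞 L))) (S' : Set (HeightOneSpectrum (𝓞 M)))
    (c : ℕ) (h1 : ∀ Q ∈ S', Q ∈ deg1 M) (h2 : ∀ Q ∈ S', ∃ P ∈ S, Q ∈ Over M P)
    (h3 : ∀ P ∈ S, (S' ∩ Over M P).ncard ≤ c) {s : ℝ} (hs : 1 < s) :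
    psum S' s ≤ c * psum S s := by
  classical
  set π : HeightOneSpectrum (𝓞 M) → HeightOneSpectrum (𝓞 L) :=
    fun Q => (exists_under L M Q).choose with hπ
  have hπ1 : ∀ Q, Q ∈ Over M (π Q) := fun Q => (exists_under L M Q).choose_spec
  have hπ2 : ∀ Q ∈ S', π Q ∈ S := by
    intro Q hQ
    obtain ⟨P, hP, hQP⟩ := h2 Q hQ
    rwa [SpD_ext L M (hπ1 Q) hQP]
  set f : HeightOneSpectrum (𝓞 L) → ℝ := fun P => (Ideal.absNorm P.asIdeal : ℝ) ^ (-s) with hf
  have hf0 : ∀ P, 0 ≤ f P := fun P => Real.rpow_nonneg (Nat.cast_nonneg _) _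
  unfold psum
  refine (PsA_summable S' hs).tsum_le_of_sum_le fun F => ?_
  have e1 : ∑ Q ∈ F, S'.indicator (fun Q => (Ideal.absNorm Q.asIdeal : ℝ) ^ (-s)) Q =
      ∑ Q ∈ F.filter (· ∈ S'), f (π Q) := by
    rw [Finset.sum_filter]
    refine Finset.sum_congr rfl fun Q _ => ?_
    by_cases hQ : Q ∈ S'
    · rw [Set.indicator_of_mem hQ, if_pos hQ, hf]
      simp only
      rw [absNorm_eq_of_prime L M (hπ1 Q) (h1 Q hQ)]
    · rw [Set.indicator_of_notMem hQ, if_neg hQ]
  set G := F.filter (· ∈ S') with hG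
  have e2 : ∑ Q ∈ G, f (π Q) = ∑ P ∈ G.image π, ∑ Q ∈ G with π Q = P, f (π Q) :=
    (Finset.sum_fiberwise_of_maps_to (fun Q hQ => Finset.mem_image_of_mem π hQ) _).symm
  rw [e1, e2, ← tsum_mul_left]
  refine le_trans (Finset.sum_le_sum (g := fun P => (c : ℝ) * S.indicator f P) fun P hP => ?_)
    (((PsA_summable S hs).mul_left (c : ℝ)).sum_le_tsum _ fun P _ =>
      mul_nonneg (Nat.cast_nonneg _) (PsA_ind_nonneg S s P))
  obtain ⟨Q₀, hQ₀, rfl⟩ := Finset.mem_image.1 hP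
  have hS : π Q₀ ∈ S := hπ2 Q₀ (Finset.mem_filter.1 hQ₀).2
  rw [Set.indicator_of_mem hS]
  have e3 : ∑ Q ∈ G with π Q = π Q₀, f (π Q) = ∑ _Q ∈ G with π _Q = π Q₀, f (π Q₀) :=
    Finset.sum_congr rfl fun Q hQ => by rw [(Finset.mem_filter.1 hQ).2]
  rw [e3, Finset.sum_const, nsmul_eq_mul]
  refine mul_le_mul_of_nonneg_right ?_ (hf0 _)
  have hfin : (S' ∩ Over M (π Q₀)).Finite :=
    (card_over_le L M (π Q₀)).1.subset Set.inter_subset_right
  have hsub : ((G.filter fun Q => π Q = π Q₀ : Finset _) : Set (HeightOneSpectrum (𝓞 M))) ⊆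
      S' ∩ Over M (π Q₀) := by
    intro Q hQ
    rw [Finset.mem_coe, Finset.mem_filter] at hQ
    refine ⟨(Finset.mem_filter.1 hQ.1).2, ?_⟩
    rw [← hQ.2]
    exact hπ1 Q
  have h4 := Set.ncard_le_ncard hsub hfin
  rw [Set.ncard_coe_finset] at h4
  exact_mod_cast h4.trans (h3 _ hS)

end Pool.Agent.Cheb
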