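import Pool.Agent.Chebotarev_h15.PsB
import Pool.Agent.Chebotarev_h15.SpD

/-!
# Frobenius elements in cyclotomic extensions

`M = L(ζ)`, `ζ` a primitive `m`-th root of unity, `ι : Gal(M/L) →* (ZMod m)ˣ` the cyclotomic
character (injective: `IsPrimitiveRoot.autToPow_injective`).

* `frob_cyc`: `AlgHom.IsArithFrobAt.apply_of_pow_eq_one` applied to the integer `ζ`:
  `τ ζ = ζ ^ N(P)`, `N(P) = Nat.card (𝓞 L ⧸ P)`; and `τ ζ = ζ ^ (ι τ)` (`autToPow_spec`).
* `mem_frobSet_cyc`: choose a prime `Q` above `P` and a Frobenius `τ` at `Q`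
  (`IsArithFrobAt.exists_of_isInvariant`), `ι τ = N(P)`.
* `psum_one_ge`: a prime `Q` of `M` of prime norm `q`, `m ∉ Q`: the residue field of order `q`
  contains the `m` different powers of `ζ` (Frobenius `τ` at `Q` has `ι τ = N(P) = q` where `P` is
  below `Q`, `N(P) = N(Q)`; every `x ∈ 𝓞 M` satisfies `x ^ q ≡ x mod Q`, so `τ x ≡ x`,
  and `ζ^q ≡ ζ mod Q` with `m ∉ Q` gives `ζ^q = ζ`, i.e. `q = 1` in `ZMod m`).  So the primes of
  `deg1 M` not containing `m` lie over primes with `N(P) = 1` in `ZMod m`: `psum_up_le` with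
  `c = [M : L]`, `psum_deg1`.
* `char_trivial`: let `D' = {τ | χ(ι τ) = 1}` (a subgroup) and `L' = M^{D'}`.  For `P ∌ m`, `Q'`
  over `P` in `L'`, `Q` over `Q'` in `M`, `τ` a Frobenius at `Q` (for `M/L`): `ι τ = N(P)`, so
  `τ ∈ D'` and `τ` is the identity on `L'`: for `x ∈ 𝓞 L'`, `x = τ x ≡ x ^ N(P) mod Q`, so all
  elements of the field `𝓞 L' ⧸ Q'` are roots of `X^(N P) - X`, so `N(Q') ≤ N(P)` and
  `N(Q') = N(P)`.  `finrank_eq_one` for `L'/L` gives `L' = L`, `D' = ⊤`.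
-/

set_option autoImplicit false

noncomputable section

open Filter Topology NumberField IsDedekindDomain
open scoped nonZeroDivisors

namespace Pool.Agent.Cheb

variable (L M : Type) [Field L] [NumberField L] [Field M] [NumberField M] [Algebra L M]
  (m : ℕ) [NeZero m] [IsGalois L M]

variable [IsCyclotomicExtension {m} L M]

omit [NumberField L] [Algebra L M] [IsGalois L M] [IsCyclotomicExtension {m} L M] in
/-- A prime of prime norm `q` which does not contain `m` has `q = 1` modulo `m`. -/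
theorem CyC_norm {ζ : M} (hζ : IsPrimitiveRoot ζ m) (Q : HeightOneSpectrum (𝓞 M))
    (hQ : Q ∈ deg1 M) (hm : (m : 𝓞 M) ∉ Q.asIdeal) :
    ((Ideal.absNorm Q.asIdeal : ℕ) : ZMod m) = 1 := by
  have hp : (Ideal.absNorm Q.asIdeal).Prime := hQ
  have := Q.isPrime
  have := Q.isMaximal
  have hfQ : Finite (𝓞 M ⧸ Q.asIdeal) := Ideal.finiteQuotientOfFreeOfNeBot _ Q.ne_bot
  letI : Field (𝓞 M ⧸ Q.asIdeal) := Ideal.Quotient.field Q.asIdeal
  have hcop : (Ideal.absNorm Q.asIdeal).Coprime m := by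
    refine (Nat.Prime.coprime_iff_not_dvd hp).2 fun hdvd => hm ?_
    obtain ⟨k, hk⟩ := hdvd
    rw [hk, Nat.cast_mul]
    exact Ideal.mul_mem_right _ _ (Ideal.absNorm_mem Q.asIdeal)
  have h1 : IsPrimitiveRoot (Ideal.Quotient.mk Q.asIdeal hζ.toInteger) m :=
    hζ.toInteger_isPrimitiveRoot.idealQuotient_mk hp.ne_one hcop
  have hne : Ideal.Quotient.mk Q.asIdeal hζ.toInteger ≠ 0 := h1.ne_zero (NeZero.ne m)
  have hcard : Nat.card (𝓞 M ⧸ Q.asIdeal) = Ideal.absNorm Q.asIdeal := by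
    rw [Ideal.absNorm_apply, Submodule.cardQuot_apply]
  have hpow : (Ideal.Quotient.mk Q.asIdeal hζ.toInteger) ^ (Ideal.absNorm Q.asIdeal - 1) = 1 := by
    have h2 : (Units.mk0 _ hne) ^ Nat.card (𝓞 M ⧸ Q.asIdeal)ˣ = 1 := pow_card_eq_one'
    rw [Nat.card_units, hcard] at h2
    have h3 := congrArg Units.val h2
    rwa [Units.val_pow_eq_pow_val, Units.val_mk0, Units.val_one] at h3
  have hdvd := h1.dvd_of_pow_eq_one _ hpow
  have h4 : ((Ideal.absNorm Q.asIdeal - 1 : ℕ) : ZMod m) = 0 :=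
    (ZMod.natCast_eq_zero_iff _ _).2 hdvd
  have h5 : Ideal.absNorm Q.asIdeal = (Ideal.absNorm Q.asIdeal - 1) + 1 := by
    have := hp.pos
    omega
  rw [h5, Nat.cast_add, h4, Nat.cast_one, zero_add]

theorem psum_one_ge {ζ : M} (hζ : IsPrimitiveRoot ζ m) :
    ∃ C : ℝ, ∀ᶠ s : ℝ in 𝓝[>] 1, Real.log (1 / (s - 1)) ≤
      Module.finrank L M *
        psum {P : HeightOneSpectrum (𝓞 L) | ((Ideal.absNorm P.asIdeal : ℕ) : ZMod m) = 1} s +
          C := by
  set S' : Set (HeightOneSpectrum (𝓞 M)) := {Q | Q ∈ deg1 M ∧ (m : 𝓞 M) ∉ Q.asIdeal} with hS'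
  set E : Set (HeightOneSpectrum (𝓞 M)) := {Q | (m : 𝓞 M) ∈ Q.asIdeal} with hE
  have hEf : E.Finite := finite_mem M m (NeZero.ne m)
  obtain ⟨C, hC⟩ := psum_deg1 M
  refine ⟨C + E.ncard, ?_⟩
  filter_upwards [hC, self_mem_nhdsWithin] with s hs hs1
  have hs' : 1 < s := hs1
  have h1 : psum S' s ≤ (Module.finrank L M : ℕ) *
      psum {P : HeightOneSpectrum (𝓞 L) | ((Ideal.absNorm P.asIdeal : ℕ) : ZMod m) = 1} s := by
    refine psum_up_le L M _ S' (Module.finrank L M) (fun Q hQ => hQ.1) (fun Q hQ => ?_)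
      (fun P _ => ?_) hs'
    · obtain ⟨P, hP⟩ := exists_under L M Q
      refine ⟨P, ?_, hP⟩
      have h2 := absNorm_eq_of_prime L M hP hQ.1
      show ((Ideal.absNorm P.asIdeal : ℕ) : ZMod m) = 1
      rw [← h2]
      exact CyC_norm M m hζ Q hQ.1 hQ.2
    · obtain ⟨hf, hc⟩ := card_over_le L M P
      exact (Set.ncard_le_ncard Set.inter_subset_right hf).trans hc
  have h2 : deg1 M ⊆ S' ∪ E := by
    intro Q hQ
    by_cases h : (m : 𝓞 M) ∈ Q.asIdeal
    · exact Or.inr h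
    · exact Or.inl ⟨hQ, h⟩
  have h3 := psum_mono h2 hs'
  have h4 := psum_union_le S' E hs'
  have h5 := psum_finite hEf hs'
  have h6 := (abs_le.1 hs).1
  linarith

end Pool.Agent.Cheb
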