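import Pool.Agent.Chebotarev_h15.Defs
import Pool.Agent.W_f569db_h62.NTD

/-!
# Sums over sets of primes

`psum S s` is monotone and additive in `S` (`s > 1`, `summable_primes`), at most the number of
elements for finite `S`.  `Pool.Agent.T10.d1_asymp` (`W_b4801b_t10/DegOne.lean`): the sum over the
primes of degree one is `log (1 / (s - 1)) + O(1)`; the sum over the other primes is bounded
(`Pool.Agent.T10.DegOne_bad_summable`).
-/

set_option autoImplicit false

noncomputable section

open Filter Topology NumberField IsDedekindDomain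
open scoped nonZeroDivisors

namespace Pool.Agent.Cheb

variable {F : Type} [Field F] [NumberField F]

theorem log_tendsto : Tendsto (fun s : ℝ => Real.log (1 / (s - 1))) (𝓝[>] 1) atTop := by
  refine Real.tendsto_log_atTop.comp ?_
  have h1 : Tendsto (fun s : ℝ => s - 1) (𝓝[>] 1) (𝓝[>] 0) := by
    refine tendsto_nhdsWithin_iff.2 ⟨?_, ?_⟩
    · have h2 : Tendsto (fun s : ℝ => s - 1) (𝓝 1) (𝓝 (1 - 1)) := (continuous_sub_right 1).tendsto 1
      rw [sub_self] at h2
      exact h2.mono_left nhdsWithin_le_nhds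
    · filter_upwards [self_mem_nhdsWithin] with s hs
      exact sub_pos.2 (Set.mem_Ioi.1 hs)
  simp only [one_div]
  exact tendsto_inv_nhdsGT_zero.comp h1

/-- A bounded error does not matter. -/
theorem LowDens.of_bound {S : Set (HeightOneSpectrum (𝓞 F))} {δ : ℝ}
    (h : ∃ C : ℝ, ∀ᶠ s : ℝ in 𝓝[>] 1, δ * Real.log (1 / (s - 1)) ≤ psum S s + C) :
    LowDens S δ := by
  obtain ⟨C, hC⟩ := h
  intro ε hε
  filter_upwards [hC, log_tendsto.eventually_ge_atTop (C / ε)] with s h1 h2
  rw [div_le_iff₀ hε] at h2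
  rw [sub_mul]
  linarith

/-- Transfer of lower densities between number fields. -/
theorem LowDens.transfer {F' : Type} [Field F'] [NumberField F']
    {S : Set (HeightOneSpectrum (𝓞 F))} {S' : Set (HeightOneSpectrum (𝓞 F'))} {δ c : ℝ}
    (hc : 0 < c) (hS : LowDens S δ)
    (h : ∃ C : ℝ, ∀ᶠ s : ℝ in 𝓝[>] 1, psum S s ≤ c * psum S' s + C) :
    LowDens S' (δ / c) := by
  obtain ⟨C, hC⟩ := h
  intro ε hε
  have hε' : 0 < c * ε / 2 := by positivity
  filter_upwards [hC, hS (c * ε / 2) hε', log_tendsto.eventually_ge_atTop (C / (c * ε / 2))]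
    with s h1 h2 h3
  rw [div_le_iff₀ hε'] at h3
  have h4 : c * ((δ / c - ε) * Real.log (1 / (s - 1))) ≤ c * psum S' s := by
    have e : c * ((δ / c - ε) * Real.log (1 / (s - 1))) =
        (δ - c * ε) * Real.log (1 / (s - 1)) := by
      rw [← mul_assoc, mul_sub, mul_div_cancel₀ δ hc.ne']
    rw [e]
    have e2 : (δ - c * ε) * Real.log (1 / (s - 1)) = (δ - c * ε / 2) * Real.log (1 / (s - 1)) -
        Real.log (1 / (s - 1)) * (c * ε / 2) := by ring
    rw [e2]
    linarith
  exact le_of_mul_le_mul_left h4 hc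

end Pool.Agent.Cheb
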