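import Pool.Agent.Chebotarev_h15.SpA

/-!
# Primes above and below

`M / L` is a finite extension of number fields.

* `card_over_le`: `∑ e f = [M : L]` (`Ideal.sum_ramification_inertia`), every summand is `≥ 1`.
* `absNorm_under_dvd`: `N Q = N P ^ f` (`Ideal.absNorm_eq_pow_inertiaDeg` or
  `Nat.card (𝓞 M ⧸ Q) = Nat.card (𝓞 L ⧸ P) ^ f`).
* `psum_up_le`: a prime `Q` of prime norm has the same norm as the prime below; each prime `P` of
  `L` has at most `[M : L]` primes above.
* `psum_down_le`: all but finitely many `P` are unramified in `M` (`e = 1` for all `Q` over `P`: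
  for instance `Q` divides the different only for finitely many `Q`); if moreover all `Q` over `P`
  have `N Q = N P` (`f = 1`) then there are exactly `[M : L]` of them.
-/

set_option autoImplicit false

noncomputable section

open Filter Topology NumberField IsDedekindDomain
open scoped nonZeroDivisors

namespace Pool.Agent.Cheb

variable (L M : Type) [Field L] [NumberField L] [Field M] [NumberField M] [Algebra L M]

theorem SpC_ext {P P' : HeightOneSpectrum (𝓞 L)} {Q : HeightOneSpectrum (𝓞 M)}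
    (h : Q ∈ Over M P) (h' : Q ∈ Over M P') : P = P' := by
  apply HeightOneSpectrum.ext
  have h1 : Q.asIdeal.under (𝓞 L) = P.asIdeal := h
  have h2 : Q.asIdeal.under (𝓞 L) = P'.asIdeal := h'
  rw [← h1, ← h2]

theorem SpC_norm (P : HeightOneSpectrum (𝓞 L)) : 1 < Ideal.absNorm P.asIdeal := by
  have h0 : Ideal.absNorm P.asIdeal ≠ 0 := by
    rw [Ne, Ideal.absNorm_eq_zero_iff]
    exact P.ne_bot
  have h1 : Ideal.absNorm P.asIdeal ≠ 1 := by
    rw [Ne, Ideal.absNorm_eq_one_iff]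
    exact P.isPrime.ne_top
  omega

theorem SpC_I {P : HeightOneSpectrum (𝓞 L)} {Q : HeightOneSpectrum (𝓞 M)}
    (h : Q ∈ Over M P) (hN : Ideal.absNorm Q.asIdeal = Ideal.absNorm P.asIdeal) :
    Q.asIdeal.inertiaDeg (𝓞 L) = 1 := by
  have hq : Q.asIdeal.IsPrime := Q.isPrime
  have hl : Q.asIdeal.LiesOver P.asIdeal := ⟨h.symm⟩
  have h3 := Ideal.absNorm_pow_inertiaDeg P.asIdeal Q.asIdeal
  rw [hN] at h3
  exact Nat.pow_right_injective (SpC_norm L P) (h3.trans (pow_one _).symm)

theorem SpC_R {P : HeightOneSpectrum (𝓞 L)} {Q : HeightOneSpectrum (𝓞 M)}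
    (h : Q ∈ Over M P) (hd : ¬ Q.asIdeal ∣ differentIdeal (𝓞 L) (𝓞 M)) :
    Q.asIdeal.ramificationIdx (𝓞 L) = 1 := by
  have hq : Q.asIdeal.IsPrime := Q.isPrime
  have hPp : P.asIdeal.IsPrime := P.isPrime
  have hPm : P.asIdeal.IsMaximal := P.isPrime.isMaximal P.ne_bot
  have hl : Q.asIdeal.LiesOver P.asIdeal := ⟨h.symm⟩
  have hmap : P.asIdeal.map (algebraMap (𝓞 L) (𝓞 M)) ≠ ⊥ :=
    Ideal.map_ne_bot_of_ne_bot P.ne_bot
  have h0 : 0 < Q.asIdeal.ramificationIdx (𝓞 L) := Q.asIdeal.ramificationIdx_pos (𝓞 L)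
  by_contra hc
  have h3 : 2 ≤ Q.asIdeal.ramificationIdx (𝓞 L) := by omega
  rw [Ideal.IsDedekindDomain.ramificationIdx_eq_multiplicity P.asIdeal Q.asIdeal hmap] at h3
  have hdvd : Q.asIdeal ^ 2 ∣ P.asIdeal.map (algebraMap (𝓞 L) (𝓞 M)) :=
    pow_dvd_of_le_multiplicity h3
  have h4 := pow_sub_one_dvd_differentIdeal (A := 𝓞 L) Q.asIdeal 2 P.ne_bot hdvd
  exact hd (by simpa using h4)

/-- The primes above `P`. -/
def SpC_equiv (P : HeightOneSpectrum (𝓞 L)) : Over M P ≃ P.asIdeal.primesOver (𝓞 M) where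
  toFun Q := ⟨Q.1.asIdeal, Q.1.isPrime, ⟨Q.2.symm⟩⟩
  invFun q := ⟨⟨q.1, q.2.1, by
    intro h0
    have h3 : P.asIdeal = q.1.under (𝓞 L) := q.2.2.over
    rw [h0, Ideal.under_def, Ideal.comap_bot_of_injective _
      (FaithfulSMul.algebraMap_injective (𝓞 L) (𝓞 M))] at h3
    exact P.ne_bot h3⟩, q.2.2.over.symm⟩
  left_inv _ := rfl
  right_inv _ := rfl

/-- Outside a finite set of primes everything is unramified: the primes above `P` of the same norm
as `P` are exactly `[M : L]` in number if all primes above `P` have the same norm as `P`. -/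
theorem card_over_eq : ∃ E : Set (HeightOneSpectrum (𝓞 L)), E.Finite ∧
    ∀ P, P ∉ E → (∀ Q ∈ Over M P, Ideal.absNorm Q.asIdeal = Ideal.absNorm P.asIdeal) →
      (Over M P).ncard = Module.finrank L M := by
  classical
  have hD : differentIdeal (𝓞 L) (𝓞 M) ≠ 0 := differentIdeal_ne_bot
  have hfin := Ideal.finite_factors hD
  refine ⟨{P | ∃ Q ∈ Over M P, Q.asIdeal ∣ differentIdeal (𝓞 L) (𝓞 M)}, ?_, ?_⟩
  · refine (hfin.image fun Q => (exists_under L M Q).choose).subset ?_
    rintro P ⟨Q, hQ, hd⟩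
    exact ⟨Q, hd, SpC_ext L M (exists_under L M Q).choose_spec hQ⟩
  · intro P hP hN
    have hPp : P.asIdeal.IsPrime := P.isPrime
    have hfinr : Module.finrank (𝓞 L) (𝓞 M) = Module.finrank L M :=
      (IsFractionRing.finrank_eq (𝓞 L) L (𝓞 M) M).symm
    have hfi : Finite (P.asIdeal.primesOver (𝓞 M)) :=
      Algebra.QuasiFinite.finite_primesOver P.asIdeal
    have hft : Fintype (P.asIdeal.primesOver (𝓞 M)) := Fintype.ofFinite _
    have h1 := Ideal.sum_ramification_inertia_eq_finrank P.asIdeal (𝓞 M)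
    have h2 : ∀ q : P.asIdeal.primesOver (𝓞 M),
        q.1.ramificationIdx (𝓞 L) * q.1.inertiaDeg (𝓞 L) = 1 := by
      intro q
      have hQ := ((SpC_equiv L M P).symm q).2
      have hI := SpC_I L M hQ (hN _ hQ)
      have hR := SpC_R L M hQ fun hd => hP ⟨_, hQ, hd⟩
      have e1 : ((SpC_equiv L M P).symm q).1.asIdeal = q.1 := rfl
      rw [e1] at hI hR
      rw [hI, hR]
    rw [Finset.sum_congr rfl fun q _ => h2 q, Finset.sum_const, smul_eq_mul, mul_one,
      Finset.card_univ, hfinr] at h1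
    rw [← h1, ← Nat.card_coe_set_eq, ← Nat.card_eq_fintype_card]
    exact Nat.card_congr (SpC_equiv L M P)

end Pool.Agent.Cheb
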