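import Pool.Agent.Chebotarev_h15.PsB
import Pool.Agent.Chebotarev_h15.PsC
import Pool.Agent.Chebotarev_h15.SpC

/-!
# Primes above and below

`M / L` is a finite extension of number fields.

* `card_over_le`: `∑ e f = [M : L]` (`Ideal.sum_ramification_inertia`), every summand is `≥ 1`.
* `absNorm_under_dvd`: `N Q = N P ^ f` (`Ideal.absNorm_eq_pow_inertiaDeg` or
  `Nat.card (𝓞 M ⧸ Q) = Nat.card (𝓞 L ⧸ P) ^ f`).
* `psum_up_le`: a prime `Q` of prime norm has the same norm as the prime below; each prime `P` of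
  `L` has at most `[M : L]` primes above.
* `psum_down_le`: all but finitely many `P` are unramified in `M` (`e = 1` for all `Q` over `P`:
  for instance `Q` divides the different only for finitely many `Q`); if moreover all `Q` over `P`
  have `N Q = N P` (`f = 1`) then there are exactly `[M : L]` of them.
-/

set_option autoImplicit false

noncomputable section

open Filter Topology NumberField IsDedekindDomain
open scoped nonZeroDivisors

namespace Pool.Agent.Cheb

variable (L M : Type) [Field L] [NumberField L] [Field M] [NumberField M] [Algebra L M]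

theorem psum_down_le : ∃ E : Set (HeightOneSpectrum (𝓞 L)), E.Finite ∧
    ∀ S : Set (HeightOneSpectrum (𝓞 L)), S ∩ E = ∅ →
      (∀ P ∈ S, ∀ Q ∈ Over M P, Ideal.absNorm Q.asIdeal = Ideal.absNorm P.asIdeal) →
      ∀ s : ℝ, 1 < s → Module.finrank L M * psum S s ≤ psum (Set.univ : Set (HeightOneSpectrum (𝓞 M))) s := by
  classical
  obtain ⟨E, hE, h⟩ := card_over_eq L M
  refine ⟨E, hE, fun S hS hN s hs => ?_⟩
  unfold psum
  rw [← tsum_mul_left]
  set g : HeightOneSpectrum (𝓞 M) → ℝ := fun Q =>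
    (Set.univ : Set (HeightOneSpectrum (𝓞 M))).indicator
      (fun P => (Ideal.absNorm P.asIdeal : ℝ) ^ (-s)) Q with hg
  have hg0 : ∀ Q, 0 ≤ g Q := PsA_ind_nonneg _ s
  have hgs : Summable g := PsA_summable _ hs
  have h1 : ∀ P : HeightOneSpectrum (𝓞 L),
      (Module.finrank L M : ℝ) * S.indicator (fun P => (Ideal.absNorm P.asIdeal : ℝ) ^ (-s)) P ≤
        ∑ Q ∈ (card_over_le L M P).1.toFinset, g Q := by
    intro P
    by_cases hP : P ∈ S
    · have hPE : P ∉ E := fun hPE => by
        have : P ∈ S ∩ E := ⟨hP, hPE⟩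
        rw [hS] at this
        exact this
      have h2 := h P hPE (hN P hP)
      rw [Set.indicator_of_mem hP]
      have h3 : ∀ Q ∈ (card_over_le L M P).1.toFinset, g Q =
          (Ideal.absNorm P.asIdeal : ℝ) ^ (-s) := by
        intro Q hQ
        rw [Set.Finite.mem_toFinset] at hQ
        rw [hg]
        show (Set.univ : Set (HeightOneSpectrum (𝓞 M))).indicator
          (fun P => (Ideal.absNorm P.asIdeal : ℝ) ^ (-s)) Q = _
        rw [Set.indicator_of_mem (Set.mem_univ Q), hN P hP Q hQ]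
      rw [Finset.sum_congr rfl h3, Finset.sum_const, nsmul_eq_mul,
        ← Set.ncard_eq_toFinset_card _ (card_over_le L M P).1, h2]
    · rw [Set.indicator_of_notMem hP, mul_zero]
      exact Finset.sum_nonneg fun Q _ => hg0 Q
  refine ((PsA_summable S hs).mul_left _).tsum_le_of_sum_le fun T => ?_
  refine (Finset.sum_le_sum fun P _ => h1 P).trans ?_
  rw [← Finset.sum_biUnion]
  · exact hgs.sum_le_tsum _ fun Q _ => hg0 Q
  · intro P _ P' _ hne
    show Disjoint (card_over_le L M P).1.toFinset (card_over_le L M P').1.toFinset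
    rw [Finset.disjoint_left]
    intro Q hQ hQ'
    rw [Set.Finite.mem_toFinset] at hQ hQ'
    exact hne (HeightOneSpectrum.ext (hQ.symm.trans hQ'))

/-- If almost all primes of `L` split completely in `M` then `M = L`. -/
theorem finrank_eq_one (E : Set (HeightOneSpectrum (𝓞 L))) (hE : E.Finite)
    (h : ∀ P, P ∉ E → ∀ Q ∈ Over M P, Ideal.absNorm Q.asIdeal = Ideal.absNorm P.asIdeal) :
    Module.finrank L M = 1 := by
  obtain ⟨E', hE', hd⟩ := psum_down_le L M
  obtain ⟨C₁, hC₁⟩ := psum_univ L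
  obtain ⟨C₂, hC₂⟩ := psum_univ M
  set S : Set (HeightOneSpectrum (𝓞 L)) := (E ∪ E')ᶜ with hS
  have hSE : S ∩ E' = ∅ := by
    ext P
    rw [hS]
    constructor
    · rintro ⟨h1, h2⟩
      exact h1 (Or.inr h2)
    · intro h1
      exact absurd h1 (Set.notMem_empty P)
  have hSN : ∀ P ∈ S, ∀ Q ∈ Over M P, Ideal.absNorm Q.asIdeal = Ideal.absNorm P.asIdeal := by
    intro P hP
    exact h P fun hPE => hP (Or.inl hPE)
  have hfin : (E ∪ E').Finite := hE.union hE'
  have hpos : 0 < Module.finrank L M := by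
    have : FiniteDimensional L M := Module.Finite.of_restrictScalars_finite ℚ L M
    exact Module.finrank_pos
  set n : ℕ := Module.finrank L M with hn
  set c : ℝ := ((E ∪ E').ncard : ℝ) with hc
  by_contra hne
  have hn2 : (2 : ℝ) ≤ n := by
    have : 2 ≤ n := by omega
    exact_mod_cast this
  have hev : ∀ᶠ s : ℝ in 𝓝[>] 1,
      (n : ℝ) * (Real.log (1 / (s - 1)) - C₁ - c) ≤ Real.log (1 / (s - 1)) + C₂ := by
    filter_upwards [hC₁, hC₂, self_mem_nhdsWithin] with s h1 h2 hs
    have hs1 : (1 : ℝ) < s := hs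
    have h3 := hd S hSE hSN s hs1
    have h4 : psum (Set.univ : Set (HeightOneSpectrum (𝓞 L))) s ≤ psum S s + c := by
      have h5 : (Set.univ : Set (HeightOneSpectrum (𝓞 L))) = S ∪ (E ∪ E') := by
        rw [hS, Set.compl_union_self]
      rw [h5]
      exact (psum_union_le _ _ hs1).trans (add_le_add_right (psum_finite hfin hs1) _)
    rw [abs_le] at h1 h2
    have h5 : Real.log (1 / (s - 1)) - C₁ - c ≤ psum S s := by linarith
    have h6 : (n : ℝ) * (Real.log (1 / (s - 1)) - C₁ - c) ≤ n * psum S s :=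
      mul_le_mul_of_nonneg_left h5 (Nat.cast_nonneg n)
    linarith
  have hlarge := log_tendsto.eventually_ge_atTop ((n : ℝ) * (|C₁| + |c|) + |C₂| + 1)
  obtain ⟨s, h1, h2⟩ := (hev.and hlarge).exists
  have h3 := le_abs_self C₁
  have h4 := le_abs_self c
  have h5 := le_abs_self C₂
  have h6 : (n : ℝ) * (C₁ + c) ≤ n * (|C₁| + |c|) :=
    mul_le_mul_of_nonneg_left (by linarith) (Nat.cast_nonneg n)
  have h7 : 0 ≤ (n : ℝ) * (|C₁| + |c|) := by positivity
  have h8 : 0 ≤ |C₂| := abs_nonneg _
  nlinarith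

end Pool.Agent.Cheb
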