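import Pool.Agent.Chebotarev_h15.CyA
import Pool.Agent.Chebotarev_h15.SpB
import Pool.Agent.Chebotarev_h15.SpE

/-!
# Frobenius elements in cyclotomic extensions

`M = L(ζ)`, `ζ` a primitive `m`-th root of unity, `ι : Gal(M/L) →* (ZMod m)ˣ` the cyclotomic
character (injective: `IsPrimitiveRoot.autToPow_injective`).

* `frob_cyc`: `AlgHom.IsArithFrobAt.apply_of_pow_eq_one` applied to the integer `ζ`:
  `τ ζ = ζ ^ N(P)`, `N(P) = Nat.card (𝓞 L ⧸ P)`; and `τ ζ = ζ ^ (ι τ)` (`autToPow_spec`).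
* `mem_frobSet_cyc`: choose a prime `Q` above `P` and a Frobenius `τ` at `Q`
  (`IsArithFrobAt.exists_of_isInvariant`), `ι τ = N(P)`.
* `psum_one_ge`: a prime `Q` of `M` of prime norm `q`, `m ∉ Q`: the residue field of order `q`
  contains the `m` different powers of `ζ` (Frobenius `τ` at `Q` has `ι τ = N(P) = q` where `P` is
  below `Q`, `N(P) = N(Q)`; every `x ∈ 𝓞 M` satisfies `x ^ q ≡ x mod Q`, so `τ x ≡ x`,
  and `ζ^q ≡ ζ mod Q` with `m ∉ Q` gives `ζ^q = ζ`, i.e. `q = 1` in `ZMod m`).  So the primes of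
  `deg1 M` not containing `m` lie over primes with `N(P) = 1` in `ZMod m`: `psum_up_le` with
  `c = [M : L]`, `psum_deg1`.
* `char_trivial`: let `D' = {τ | χ(ι τ) = 1}` (a subgroup) and `L' = M^{D'}`.  For `P ∌ m`, `Q'`
  over `P` in `L'`, `Q` over `Q'` in `M`, `τ` a Frobenius at `Q` (for `M/L`): `ι τ = N(P)`, so
  `τ ∈ D'` and `τ` is the identity on `L'`: for `x ∈ 𝓞 L'`, `x = τ x ≡ x ^ N(P) mod Q`, so all
  elements of the field `𝓞 L' ⧸ Q'` are roots of `X^(N P) - X`, so `N(Q') ≤ N(P)` and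
  `N(Q') = N(P)`.  `finrank_eq_one` for `L'/L` gives `L' = L`, `D' = ⊤`.
-/

set_option autoImplicit false

noncomputable section

open Filter Topology NumberField IsDedekindDomain
open scoped nonZeroDivisors

namespace Pool.Agent.Cheb

variable (L M : Type) [Field L] [NumberField L] [Field M] [NumberField M] [Algebra L M]
  (m : ℕ) [NeZero m] [IsGalois L M]

variable [IsCyclotomicExtension {m} L M]

/-- If all elements of a finite residue ring without zero divisors satisfy `x ^ q = x` then it has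
at most `q` elements. -/
theorem CyD_card_le (R : Type) [CommRing R] [IsDomain R] [Finite R] (q : ℕ) (hq : 1 < q)
    (h : ∀ x : R, x ^ q = x) : Nat.card R ≤ q := by
  classical
  haveI : Fintype R := Fintype.ofFinite R
  rw [Nat.card_eq_fintype_card]
  have hdeg : (Polynomial.X ^ q - Polynomial.X : Polynomial R).natDegree = q := by
    rw [Polynomial.natDegree_sub_eq_left_of_natDegree_lt, Polynomial.natDegree_X_pow]
    rw [Polynomial.natDegree_X, Polynomial.natDegree_X_pow]
    exact hq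
  have hne : (Polynomial.X ^ q - Polynomial.X : Polynomial R) ≠ 0 := by
    intro h0
    rw [h0, Polynomial.natDegree_zero] at hdeg
    omega
  calc Fintype.card R = (Finset.univ : Finset R).card := rfl
    _ ≤ ((Polynomial.X ^ q - Polynomial.X : Polynomial R).roots.toFinset).card := by
        refine Finset.card_le_card fun x _ => ?_
        rw [Multiset.mem_toFinset, Polynomial.mem_roots hne, Polynomial.IsRoot.def,
          Polynomial.eval_sub, Polynomial.eval_pow, Polynomial.eval_X, h x, sub_self]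
    _ ≤ Multiset.card (Polynomial.X ^ q - Polynomial.X : Polynomial R).roots :=
        Multiset.toFinset_card_le _
    _ ≤ (Polynomial.X ^ q - Polynomial.X : Polynomial R).natDegree := Polynomial.card_roots' _
    _ = q := hdeg

/-- The norm of `Q'` is at most the norm of `P`, if a Frobenius element above `Q'` fixes `L'`. -/
theorem CyD_norm_le (L' : IntermediateField L M) (P : HeightOneSpectrum (𝓞 L))
    (Q' : HeightOneSpectrum (𝓞 L')) (Q : HeightOneSpectrum (𝓞 M))
    (hQ : Q ∈ Over M Q') (hQP : Q.asIdeal.under (𝓞 L) = P.asIdeal)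
    (τ : Gal(M/L)) (hτ : IsArithFrobAt (𝓞 L) τ Q.asIdeal) (hL' : ∀ x : L', τ (x : M) = x) :
    Ideal.absNorm Q'.asIdeal ≤ Ideal.absNorm P.asIdeal := by
  have hq : Nat.card (𝓞 L ⧸ Q.asIdeal.under (𝓞 L)) = Ideal.absNorm P.asIdeal := by
    rw [hQP]
    rfl
  have hq1 : 1 < Ideal.absNorm P.asIdeal := by
    have h0 : Ideal.absNorm P.asIdeal ≠ 0 := by
      rw [Ne, Ideal.absNorm_eq_zero_iff]
      exact P.ne_bot
    have h2 : Ideal.absNorm P.asIdeal ≠ 1 := by
      rw [Ne, Ideal.absNorm_eq_one_iff]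
      exact P.isPrime.ne_top
    omega
  haveI : Q'.asIdeal.IsPrime := Q'.isPrime
  haveI : Finite (𝓞 L' ⧸ Q'.asIdeal) := Ideal.finiteQuotientOfFreeOfNeBot _ Q'.ne_bot
  have h1 : Nat.card (𝓞 L' ⧸ Q'.asIdeal) ≤ Ideal.absNorm P.asIdeal := by
    refine CyD_card_le _ _ hq1 fun x => ?_
    obtain ⟨y, rfl⟩ := Ideal.Quotient.mk_surjective x
    rw [← map_pow, Ideal.Quotient.eq]
    have h2 : Q.asIdeal.under (𝓞 L') = Q'.asIdeal := hQ
    rw [← h2, Ideal.under_def, Ideal.mem_comap, map_sub, map_pow]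
    have h3 := hτ (algebraMap (𝓞 L') (𝓞 M) y)
    rw [hq] at h3
    have h4 : (MulSemiringAction.toAlgHom (𝓞 L) (𝓞 M) τ) (algebraMap (𝓞 L') (𝓞 M) y) =
        algebraMap (𝓞 L') (𝓞 M) y := by
      refine RingOfIntegers.ext ?_
      exact hL' (y : L')
    rw [h4] at h3
    rw [← neg_mem_iff, neg_sub]
    exact h3
  exact h1

theorem char_trivial {ζ : M} (hζ : IsPrimitiveRoot ζ m) (χ : DirichletCharacter ℂ m)
    (h : ∀ P : HeightOneSpectrum (𝓞 L), (m : 𝓞 L) ∉ P.asIdeal →
      χ ((Ideal.absNorm P.asIdeal : ℕ) : ZMod m) = 1) (τ : Gal(M/L)) :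
    χ (IsPrimitiveRoot.autToPow L hζ τ : (ZMod m)ˣ) = 1 := by
  classical
  let D : Subgroup Gal(M/L) := (χ.toUnitHom.comp (IsPrimitiveRoot.autToPow L hζ)).ker
  have hD : ∀ g : Gal(M/L), g ∈ D ↔ χ (IsPrimitiveRoot.autToPow L hζ g : (ZMod m)ˣ) = 1 := by
    intro g
    rw [MonoidHom.mem_ker, MonoidHom.comp_apply, Units.ext_iff, MulChar.coe_toUnitHom,
      Units.val_one]
  let L' : IntermediateField L M := IntermediateField.fixedField D
  have hfin : Module.finrank L L' = 1 := by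
    refine finrank_eq_one L L' {P | (m : 𝓞 L) ∈ P.asIdeal} (finite_mem L m (NeZero.ne m)) ?_
    intro P hP Q' hQ'
    obtain ⟨Q, hQ⟩ := over_nonempty L' M Q'
    have hQP : Q.asIdeal.under (𝓞 L) = P.asIdeal := by
      have h1 : Q.asIdeal.under (𝓞 L') = Q'.asIdeal := hQ
      have h2 : Q'.asIdeal.under (𝓞 L) = P.asIdeal := hQ'
      rw [← h2, ← h1, Ideal.under_under]
    haveI : Q.asIdeal.IsPrime := Q.isPrime
    haveI : Finite (𝓞 M ⧸ Q.asIdeal) := Ideal.finiteQuotientOfFreeOfNeBot _ Q.ne_bot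
    obtain ⟨σ, hσ⟩ := IsArithFrobAt.exists_of_isInvariant (𝓞 L) Gal(M/L) Q.asIdeal
    have hσD : σ ∈ D := by
      rw [hD, frob_cyc L M m hζ P hP Q.asIdeal hQP σ hσ]
      exact h P hP
    have hle := CyD_norm_le L M L' P Q' Q hQ hQP σ hσ
      (fun x => (IntermediateField.mem_fixedField_iff D (x : M)).1 x.2 σ hσD)
    obtain ⟨f, hf0, hf⟩ := absNorm_pow L L' hQ'
    refine le_antisymm hle ?_
    rw [hf]
    exact Nat.le_self_pow hf0.ne' _
  have hbot : L' = ⊥ := IntermediateField.finrank_eq_one_iff.1 hfin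
  have htop : D = ⊤ := by
    rw [← IntermediateField.fixingSubgroup_fixedField D]
    show L'.fixingSubgroup = ⊤
    rw [hbot, IntermediateField.fixingSubgroup_bot]
  rw [← hD, htop]
  exact Subgroup.mem_top τ

end Pool.Agent.Cheb
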