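import Pool.Agent.W_f569db_h62.NTD

/-!
# Frobenius elements in cyclotomic extensions

`M = L(ζ)`, `ζ` a primitive `m`-th root of unity, `ι : Gal(M/L) →* (ZMod m)ˣ` the cyclotomic
character (injective: `IsPrimitiveRoot.autToPow_injective`).

* `frob_cyc`: `AlgHom.IsArithFrobAt.apply_of_pow_eq_one` applied to the integer `ζ`:
  `τ ζ = ζ ^ N(P)`, `N(P) = Nat.card (𝓞 L ⧸ P)`; and `τ ζ = ζ ^ (ι τ)` (`autToPow_spec`).
* `mem_frobSet_cyc`: choose a prime `Q` above `P` and a Frobenius `τ` at `Q`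
  (`IsArithFrobAt.exists_of_isInvariant`), `ι τ = N(P)`.
* `psum_one_ge`: a prime `Q` of `M` of prime norm `q`, `m ∉ Q`: the residue field of order `q`
  contains the `m` different powers of `ζ` (Frobenius `τ` at `Q` has `ι τ = N(P) = q` where `P` is
  below `Q`, `N(P) = N(Q)`; every `x ∈ 𝓞 M` satisfies `x ^ q ≡ x mod Q`, so `τ x ≡ x`,
  and `ζ^q ≡ ζ mod Q` with `m ∉ Q` gives `ζ^q = ζ`, i.e. `q = 1` in `ZMod m`).  So the primes of
  `deg1 M` not containing `m` lie over primes with `N(P) = 1` in `ZMod m`: `psum_up_le` with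
  `c = [M : L]`, `psum_deg1`.
* `char_trivial`: let `D' = {τ | χ(ι τ) = 1}` (a subgroup) and `L' = M^{D'}`.  For `P ∌ m`, `Q'`
  over `P` in `L'`, `Q` over `Q'` in `M`, `τ` a Frobenius at `Q` (for `M/L`): `ι τ = N(P)`, so
  `τ ∈ D'` and `τ` is the identity on `L'`: for `x ∈ 𝓞 L'`, `x = τ x ≡ x ^ N(P) mod Q`, so all
  elements of the field `𝓞 L' ⧸ Q'` are roots of `X^(N P) - X`, so `N(Q') ≤ N(P)` and
  `N(Q') = N(P)`.  `finrank_eq_one` for `L'/L` gives `L' = L`, `D' = ⊤`.
-/

set_option autoImplicit false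

noncomputable section

open Filter Topology NumberField IsDedekindDomain
open scoped nonZeroDivisors

namespace Pool.Agent.Cheb

variable (L M : Type) [Field L] [NumberField L] [Field M] [NumberField M] [Algebra L M]
  (m : ℕ) [NeZero m] [IsGalois L M]

variable [IsCyclotomicExtension {m} L M]

/-- The number of characters of a finite abelian group which are trivial on a subgroup, here the
image of `ι`, is the index; `[M : L] = Nat.card Gal(M/L)` is the order of the subgroup. -/
theorem card_chars {ζ : M} (hζ : IsPrimitiveRoot ζ m) :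
    Nat.card {χ : DirichletCharacter ℂ m //
      ∀ τ : Gal(M/L), χ (IsPrimitiveRoot.autToPow L hζ τ : (ZMod m)ˣ) = 1} *
        Module.finrank L M = m.totient := by
  have hexp : NeZero ((Monoid.exponent (ZMod m)ˣ : ℕ) : ℂ) :=
    ⟨by exact_mod_cast Monoid.exponent_ne_zero_of_finite⟩
  have hroots : HasEnoughRootsOfUnity ℂ (Monoid.exponent (ZMod m)ˣ) := inferInstance
  obtain ⟨H, hH⟩ : ∃ H : Subgroup (ZMod m)ˣ, H = (IsPrimitiveRoot.autToPow L hζ).range :=
    ⟨_, rfl⟩
  have h1 : Nat.card {χ : DirichletCharacter ℂ m //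
      ∀ τ : Gal(M/L), χ (IsPrimitiveRoot.autToPow L hζ τ : (ZMod m)ˣ) = 1} =
      Nat.card (MonoidHom.domRestrictHom H ℂˣ).ker := by
    refine Nat.card_congr (Equiv.subtypeEquiv MulChar.equivToUnitHom fun χ => ?_)
    rw [MonoidHom.mem_ker]
    constructor
    · intro h
      ext ⟨u, hu⟩
      rw [hH] at hu
      obtain ⟨τ, rfl⟩ := hu
      show ((MulChar.equivToUnitHom χ (IsPrimitiveRoot.autToPow L hζ τ) : ℂˣ) : ℂ) = 1
      rw [MulChar.coe_equivToUnitHom]
      exact h τ
    · intro h τ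
      have hu : IsPrimitiveRoot.autToPow L hζ τ ∈ H := by
        rw [hH]
        exact ⟨τ, rfl⟩
      have h2 := DFunLike.congr_fun h (⟨_, hu⟩ : H)
      have h3 : (MulChar.equivToUnitHom χ (IsPrimitiveRoot.autToPow L hζ τ) : ℂˣ) = 1 := h2
      rw [← MulChar.coe_equivToUnitHom, h3, Units.val_one]
  have h2 : Nat.card H = Module.finrank L M := by
    rw [hH, ← IsGalois.card_aut_eq_finrank L M]
    exact (Nat.card_congr (MonoidHom.ofInjective (hζ.autToPow_injective (K := L))).toEquiv).symm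
  have h3 : Nat.card (ZMod m)ˣ = m.totient := by
    rw [Nat.card_eq_fintype_card, ZMod.card_units_eq_totient]
  rw [h1, CommGroup.card_domRestrictHom_ker, ← h2, ← h3]
  exact (Subgroup.card_eq_card_quotient_mul_card_subgroup H).symm

end Pool.Agent.Cheb
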