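import Pool.Agent.Chebotarev_h15.CbA
import Pool.Agent.Chebotarev_h15.CyC
import Pool.Agent.Chebotarev_h15.CyD
import Pool.Agent.Chebotarev_h15.CyE

/-!
# Nonvanishing and the density theorem for cyclotomic extensions

`M = L(ζ)`; the characters `χ` modulo `m` with `χ(ι τ) = 1` for all `τ ∈ Gal(M/L)` are called
trivial on `M`.

* `Psum_upper`: by `Lser_tendsto` and `Lser_eq_exp`, `exp (Re (logL)) = ‖Lser‖` is bounded for
  `s → 1+`, so `Re logL ≤ C`; `log_sub_bound`.
* `Psum_trivial`: `Psum L χ s - psum univ s` is the sum over the finitely many `P ∋ m`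
  (`finite_mem`), `psum_univ`.
* `sum_chars`: `∑_χ χ a = φ(m)` if `a = 1` and `0` otherwise (`DirichletCharacter` orthogonality;
  for `a` not a unit all terms are `0`, for units Mathlib's `DirichletCharacter.sum_characters_eq`).
* `Psum_lower`: in `∑_χ Re (Psum L χ s) = φ(m) psum {N P = 1} s ≥ (φ(m)/[M:L]) log (1/(s-1)) - C`
  (`psum_one_ge`) the characters trivial on `M` contribute
  `(φ(m)/[M:L]) log (1/(s-1)) + O(1)` (`card_chars`, `Psum_trivial`; for those `χ(N P) = 1` for all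
  `P ∌ m`, by `frob_cyc` for some Frobenius), and all others are `≤ C` (`Psum_upper`; the ideal `I`
  is a prime `P ∌ m` with `χ(N P) ≠ 1` from `char_trivial`, `χ(N P) ≠ 0` by `norm_unit_mod`):
  so each of the others is `≥ -C'`.
* `Psum_bounded`: `Lser → ℓ`, and `‖Lser‖ = exp (Re logL) ≥ exp (-C)`, so `ℓ ≠ 0`; `exp_lift` for
  `logL` (`log_cont`), `log_sub_bound`.
* `cyc_density`: `psum (FrobSet L M g)` and `psum {N P = ι g}` differ by a bounded amount
  (`mem_frobSet_cyc`, `finite_mem`), and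
  `φ(m) psum {N P = ι g} s = ∑_χ χ(ι g)⁻¹ Psum L χ s = (φ(m)/[M:L]) log (1/(s-1)) + O(1)`.
-/

set_option autoImplicit false

noncomputable section

open Filter Topology NumberField IsDedekindDomain
open scoped nonZeroDivisors

namespace Pool.Agent.Cheb

variable (L M : Type) [Field L] [NumberField L] [Field M] [NumberField M] [Algebra L M]
  (m : ℕ) [NeZero m]

variable [IsCyclotomicExtension {m} L M] [IsGalois L M]

omit [IsCyclotomicExtension {m} L M] in
theorem CbB_triv {ζ : M} (hζ : IsPrimitiveRoot ζ m) (χ : DirichletCharacter ℂ m)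
    (hχ : ∀ τ : Gal(M/L), χ (IsPrimitiveRoot.autToPow L hζ τ : (ZMod m)ˣ) = 1)
    (P : HeightOneSpectrum (𝓞 L)) (hP : (m : 𝓞 L) ∉ P.asIdeal) :
    χ ((Ideal.absNorm P.asIdeal : ℕ) : ZMod m) = 1 := by
  obtain ⟨Q, hQ⟩ := over_nonempty L M P
  have := Q.isPrime
  have hfQ : Finite (𝓞 M ⧸ Q.asIdeal) := Ideal.finiteQuotientOfFreeOfNeBot _ Q.ne_bot
  obtain ⟨τ, hτ⟩ := IsArithFrobAt.exists_of_isInvariant (𝓞 L) Gal(M/L) Q.asIdeal
  have h2 := frob_cyc L M m hζ P hP Q.asIdeal hQ τ hτ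
  rw [← h2]
  exact hχ τ

open scoped Classical in
theorem CbB_upper {ζ : M} (hζ : IsPrimitiveRoot ζ m) (χ : DirichletCharacter ℂ m) :
    ∃ C : ℝ, ∀ᶠ s : ℝ in 𝓝[>] 1, (Psum L χ s).re ≤
      (if ∀ τ : Gal(M/L), χ (IsPrimitiveRoot.autToPow L hζ τ : (ZMod m)ˣ) = 1 then
        Real.log (1 / (s - 1)) else 0) + C := by
  by_cases hT : ∀ τ : Gal(M/L), χ (IsPrimitiveRoot.autToPow L hζ τ : (ZMod m)ˣ) = 1
  · obtain ⟨C, hC⟩ := Psum_trivial L m χ (CbB_triv L M m hζ χ hT)
    refine ⟨C, ?_⟩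
    filter_upwards [hC] with s hs
    rw [if_pos hT]
    have h1 := (Complex.re_le_norm _).trans hs
    rw [Complex.sub_re, Complex.ofReal_re] at h1
    linarith
  · have h2 : ∃ P : HeightOneSpectrum (𝓞 L), (m : 𝓞 L) ∉ P.asIdeal ∧
        χ ((Ideal.absNorm P.asIdeal : ℕ) : ZMod m) ≠ 1 := by
      by_contra hno
      push Not at hno
      exact hT (char_trivial L M m hζ χ hno)
    obtain ⟨C, hC⟩ := Psum_upper L m χ h2
    refine ⟨C, ?_⟩
    filter_upwards [hC] with s hs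
    rw [if_neg hT]
    linarith

theorem Psum_lower {ζ : M} (hζ : IsPrimitiveRoot ζ m) (χ : DirichletCharacter ℂ m)
    (hχ : ∃ τ : Gal(M/L), χ (IsPrimitiveRoot.autToPow L hζ τ : (ZMod m)ˣ) ≠ 1) :
    ∃ C : ℝ, ∀ᶠ s : ℝ in 𝓝[>] 1, -C ≤ (Psum L χ s).re := by
  classical
  choose B hB using CbB_upper L M m hζ
  obtain ⟨C, hC⟩ := psum_one_ge L M m hζ
  have hcard := card_chars L M m hζ
  set T : DirichletCharacter ℂ m → Prop := fun χ' => ∀ τ : Gal(M/L),
    χ' (IsPrimitiveRoot.autToPow L hζ τ : (ZMod m)ˣ) = 1 with hT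
  have hχT : ¬ T χ := by
    intro h
    obtain ⟨τ, hτ⟩ := hχ
    exact hτ (h τ)
  have hall : ∀ᶠ s : ℝ in 𝓝[>] 1, ∀ χ' : DirichletCharacter ℂ m, (Psum L χ' s).re ≤
      (if T χ' then Real.log (1 / (s - 1)) else 0) + B χ' :=
    Filter.eventually_all.mpr hB
  have hN : (Nat.card {χ' : DirichletCharacter ℂ m // T χ'} : ℝ) * (Module.finrank L M : ℝ) =
      (m.totient : ℝ) := by
    exact_mod_cast hcard
  refine ⟨(Nat.card {χ' : DirichletCharacter ℂ m // T χ'} : ℝ) * C +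
    ∑ χ' ∈ (Finset.univ.erase χ), B χ', ?_⟩
  filter_upwards [hall, hC, self_mem_nhdsWithin] with s h1 h2 hs
  have hs' : (1 : ℝ) < s := hs
  set p : ℝ := psum {P : HeightOneSpectrum (𝓞 L) |
    ((Ideal.absNorm P.asIdeal : ℕ) : ZMod m) = 1} s with hp
  have h3 : ∑ χ' : DirichletCharacter ℂ m, (Psum L χ' s).re = (m.totient : ℝ) * p := by
    have h4 := sum_chars L m 1 hs'
    have h5 : ∑ χ' : DirichletCharacter ℂ m, Psum L χ' s = (m.totient : ℂ) * (p : ℂ) := by
      rw [hp]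
      simpa using h4
    have h6 := congrArg Complex.re h5
    rw [Complex.re_sum] at h6
    rw [h6, ← Complex.ofReal_natCast, ← Complex.ofReal_mul, Complex.ofReal_re]
  have h7 : (Psum L χ s).re + ∑ χ' ∈ (Finset.univ.erase χ), (Psum L χ' s).re =
      (m.totient : ℝ) * p := by
    rw [← h3]
    exact Finset.add_sum_erase Finset.univ (fun χ' => (Psum L χ' s).re) (Finset.mem_univ χ)
  have h8 : ∑ χ' ∈ (Finset.univ.erase χ), (Psum L χ' s).re ≤
      ∑ χ' ∈ (Finset.univ.erase χ), ((if T χ' then Real.log (1 / (s - 1)) else 0) + B χ') :=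
    Finset.sum_le_sum fun χ' _ => h1 χ'
  have h9 : ∑ χ' ∈ (Finset.univ.erase χ), (if T χ' then Real.log (1 / (s - 1)) else 0) =
      (Nat.card {χ' : DirichletCharacter ℂ m // T χ'} : ℝ) * Real.log (1 / (s - 1)) := by
    have h10 := Finset.add_sum_erase Finset.univ
      (fun χ' => (if T χ' then Real.log (1 / (s - 1)) else 0)) (Finset.mem_univ χ)
    beta_reduce at h10
    rw [if_neg hχT, zero_add] at h10
    rw [h10, ← Finset.sum_filter, Finset.sum_const, nsmul_eq_mul, Nat.card_eq_fintype_card,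
      Fintype.card_subtype]
  rw [Finset.sum_add_distrib, h9] at h8
  have h11 : (Nat.card {χ' : DirichletCharacter ℂ m // T χ'} : ℝ) * Real.log (1 / (s - 1)) ≤
      (m.totient : ℝ) * p +
        (Nat.card {χ' : DirichletCharacter ℂ m // T χ'} : ℝ) * C := by
    rw [← hN]
    have := mul_le_mul_of_nonneg_left h2
      (Nat.cast_nonneg (α := ℝ) (Nat.card {χ' : DirichletCharacter ℂ m // T χ'}))
    linarith
  linarith

end Pool.Agent.Cheb
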