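import Pool.Agent.W_f569db_h62.NTD

/-!
# The logarithm of the L-series

* `Lser_eq_exp`: unique factorization of ideals (`Pool.Agent.H62D.NTC_bij`: the bijection of
  multisets of primes and nonzero ideals; `NTC_wt` is the model for the multiplicativity of the
  weights: `χ` and the powers are multiplicative) and `euler_multiset`;
  `‖pw F χ s P‖ ≤ N(P)^(-s) ≤ 1/2`.
* `log_sub_bound`: `norm_log_one_sub_add_le` and `∑ N(P)^(-2s) ≤ ∑ N(P)^(-2) < ∞`.
* `log_cont`: `continuousOn_tsum` on `[s₀, ∞)` for every `s₀ > 1`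
  (`‖log (1 - z)‖ ≤ 2 ‖z‖ ≤ 2 N(P)^(-s₀)`; each term is continuous because `1 - z` has positive
  real part).
* `exp_lift`: the limit `ℓ ≠ 0` of `exp (f s)`: near `1`, `‖exp (f s) / ℓ - 1‖ < 1/2`, so
  `h s = f s - Complex.log (exp (f s) / ℓ)` is continuous on `(1, s₀)` with `exp (h s) = ℓ`;
  a continuous function on an interval with values in a discrete set (`h s - h s'` is in
  `2 π i ℤ`) is constant.  So `f` is bounded near `1`.
-/

set_option autoImplicit false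

noncomputable section

open Filter Topology NumberField IsDedekindDomain
open scoped nonZeroDivisors

namespace Pool.Agent.Cheb

variable (F : Type) [Field F] [NumberField F]

/-- A continuous lift of a constant is constant on an interval. -/
theorem LoC_const (h : ℝ → ℂ) (a b : ℝ) (hc : ContinuousOn h (Set.Ioo a b)) (ℓ : ℂ)
    (he : ∀ s ∈ Set.Ioo a b, Complex.exp (h s) = ℓ) (s t : ℝ) (hs : s ∈ Set.Ioo a b)
    (ht : t ∈ Set.Ioo a b) : h s = h t := by
  have hpi : (2 * (Real.pi : ℂ) * Complex.I) ≠ 0 := Complex.two_pi_I_ne_zero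
  set g : ℝ → ℝ := fun s => ((h s - h t) / (2 * (Real.pi : ℂ) * Complex.I)).re with hg
  have hint : ∀ u ∈ Set.Ioo a b, ∃ n : ℤ, g u = n ∧ h u = h t + n * (2 * (Real.pi : ℂ) * Complex.I) := by
    intro u hu
    have h1 : Complex.exp (h u) = Complex.exp (h t) := by rw [he u hu, he t ht]
    obtain ⟨n, hn⟩ := Complex.exp_eq_exp_iff_exists_int.1 h1
    refine ⟨n, ?_, hn⟩
    have h2 : (h u - h t) / (2 * (Real.pi : ℂ) * Complex.I) = (n : ℂ) := by
      rw [hn, add_sub_cancel_left, mul_div_assoc, div_self hpi, mul_one]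
    show ((h u - h t) / (2 * (Real.pi : ℂ) * Complex.I)).re = n
    rw [h2]
    simp
  have hgc : ContinuousOn g (Set.Ioo a b) :=
    Complex.continuous_re.comp_continuousOn ((hc.sub continuousOn_const).div_const _)
  have hr : ∀ u ∈ Set.Ioo a b, ((round (g u) : ℤ) : ℝ) = g u := by
    intro u hu
    obtain ⟨n, hn, -⟩ := hint u hu
    rw [hn, round_intCast]
  have hrc : ContinuousOn (fun u => ((round (g u) : ℤ) : ℝ)) (Set.Ioo a b) :=
    hgc.congr fun u hu => hr u hu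
  have hrc' : ContinuousOn (fun u => round (g u)) (Set.Ioo a b) :=
    Int.isClosedEmbedding_coe_real.isInducing.continuousOn_iff.2 hrc
  have hcst := isPreconnected_Ioo.constant hrc' hs ht
  obtain ⟨n, hn, hn'⟩ := hint s hs
  have h0 : g t = 0 := by
    show ((h t - h t) / (2 * (Real.pi : ℂ) * Complex.I)).re = 0
    simp
  have h3 : (n : ℝ) = 0 := by
    have h4 : round (g s) = round (g t) := hcst
    rw [hn, h0, round_intCast, round_zero] at h4
    rw [h4]
    simp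
  have h5 : n = 0 := by exact_mod_cast h3
  rw [hn', h5]
  simp

theorem exp_lift (f : ℝ → ℂ) (hf : ContinuousOn f (Set.Ioi 1)) (ℓ : ℂ) (hℓ : ℓ ≠ 0)
    (h : Tendsto (fun s => Complex.exp (f s)) (𝓝[>] 1) (𝓝 ℓ)) :
    ∃ C : ℝ, ∀ᶠ s : ℝ in 𝓝[>] 1, ‖f s‖ ≤ C := by
  have h1 : Tendsto (fun s => Complex.exp (f s) / ℓ) (𝓝[>] (1 : ℝ)) (𝓝 1) := by
    have := h.div_const ℓ
    rwa [div_self hℓ] at this
  have h2 : ∀ᶠ s : ℝ in 𝓝[>] 1, ‖Complex.exp (f s) / ℓ - 1‖ < 1 / 2 := by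
    have := Metric.tendsto_nhds.1 h1 (1 / 2) (by norm_num)
    filter_upwards [this] with s hs
    rwa [dist_eq_norm] at hs
  obtain ⟨s₀, hs₀, H⟩ := mem_nhdsGT_iff_exists_Ioo_subset.1 h2
  have hs₀' : (1 : ℝ) < s₀ := hs₀
  have H' : ∀ s ∈ Set.Ioo (1 : ℝ) s₀, ‖Complex.exp (f s) / ℓ - 1‖ < 1 / 2 := fun s hs => H hs
  have hslit : ∀ s ∈ Set.Ioo (1 : ℝ) s₀, Complex.exp (f s) / ℓ ∈ Complex.slitPlane := by
    intro s hs
    have h3 := H' s hs
    have h4 : |(Complex.exp (f s) / ℓ - 1).re| ≤ ‖Complex.exp (f s) / ℓ - 1‖ :=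
      Complex.abs_re_le_norm _
    left
    have h5 := (abs_le.1 (h4.trans h3.le)).1
    rw [Complex.sub_re, Complex.one_re] at h5
    linarith
  have hne : ∀ s : ℝ, Complex.exp (f s) / ℓ ≠ 0 := fun s =>
    div_ne_zero (Complex.exp_ne_zero _) hℓ
  have hfc : ContinuousOn f (Set.Ioo (1 : ℝ) s₀) := hf.mono fun s hs => hs.1
  have hcont : ContinuousOn (fun s => f s - Complex.log (Complex.exp (f s) / ℓ))
      (Set.Ioo (1 : ℝ) s₀) :=
    hfc.sub ((hfc.cexp.div_const ℓ).clog hslit)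
  have hexp : ∀ s ∈ Set.Ioo (1 : ℝ) s₀,
      Complex.exp (f s - Complex.log (Complex.exp (f s) / ℓ)) = ℓ := by
    intro s _
    rw [Complex.exp_sub, Complex.exp_log (hne s)]
    field_simp
  set s₁ : ℝ := (1 + s₀) / 2 with hs₁
  have hs₁' : s₁ ∈ Set.Ioo (1 : ℝ) s₀ := ⟨by rw [hs₁]; linarith, by rw [hs₁]; linarith⟩
  refine ⟨‖f s₁ - Complex.log (Complex.exp (f s₁) / ℓ)‖ + 3 / 2 * (1 / 2), ?_⟩
  filter_upwards [Ioo_mem_nhdsGT hs₀'] with s hs
  have h6 := LoC_const _ 1 s₀ hcont ℓ hexp s s₁ hs hs₁'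
  have h7 : f s = (f s₁ - Complex.log (Complex.exp (f s₁) / ℓ)) +
      Complex.log (1 + (Complex.exp (f s) / ℓ - 1)) := by
    have h8 : (1 : ℂ) + (Complex.exp (f s) / ℓ - 1) = Complex.exp (f s) / ℓ := by ring
    rw [h8, ← h6]
    ring
  have h9 : ‖Complex.log (1 + (Complex.exp (f s) / ℓ - 1))‖ ≤ 3 / 2 * (1 / 2) := by
    have h10 := Complex.norm_log_one_add_half_le_self (z := Complex.exp (f s) / ℓ - 1) (H' s hs).le
    have h11 := (H' s hs).le
    linarith
  rw [h7]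
  exact (norm_add_le _ _).trans (by linarith)

end Pool.Agent.Cheb
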