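import Pool.Agent.Chebotarev_h15.CbB
import Pool.Agent.Chebotarev_h15.LoC

/-!
# Nonvanishing and the density theorem for cyclotomic extensions

`M = L(ζ)`; the characters `χ` modulo `m` with `χ(ι τ) = 1` for all `τ ∈ Gal(M/L)` are called
trivial on `M`.

* `Psum_upper`: by `Lser_tendsto` and `Lser_eq_exp`, `exp (Re (logL)) = ‖Lser‖` is bounded for
  `s → 1+`, so `Re logL ≤ C`; `log_sub_bound`.
* `Psum_trivial`: `Psum L χ s - psum univ s` is the sum over the finitely many `P ∋ m`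
  (`finite_mem`), `psum_univ`.
* `sum_chars`: `∑_χ χ a = φ(m)` if `a = 1` and `0` otherwise (`DirichletCharacter` orthogonality;
  for `a` not a unit all terms are `0`, for units Mathlib's `DirichletCharacter.sum_characters_eq`).
* `Psum_lower`: in `∑_χ Re (Psum L χ s) = φ(m) psum {N P = 1} s ≥ (φ(m)/[M:L]) log (1/(s-1)) - C`
  (`psum_one_ge`) the characters trivial on `M` contribute
  `(φ(m)/[M:L]) log (1/(s-1)) + O(1)` (`card_chars`, `Psum_trivial`; for those `χ(N P) = 1` for all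
  `P ∌ m`, by `frob_cyc` for some Frobenius), and all others are `≤ C` (`Psum_upper`; the ideal `I`
  is a prime `P ∌ m` with `χ(N P) ≠ 1` from `char_trivial`, `χ(N P) ≠ 0` by `norm_unit_mod`):
  so each of the others is `≥ -C'`.
* `Psum_bounded`: `Lser → ℓ`, and `‖Lser‖ = exp (Re logL) ≥ exp (-C)`, so `ℓ ≠ 0`; `exp_lift` for
  `logL` (`log_cont`), `log_sub_bound`.
* `cyc_density`: `psum (FrobSet L M g)` and `psum {N P = ι g}` differ by a bounded amount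
  (`mem_frobSet_cyc`, `finite_mem`), and
  `φ(m) psum {N P = ι g} s = ∑_χ χ(ι g)⁻¹ Psum L χ s = (φ(m)/[M:L]) log (1/(s-1)) + O(1)`.
-/

set_option autoImplicit false

noncomputable section

open Filter Topology NumberField IsDedekindDomain
open scoped nonZeroDivisors

namespace Pool.Agent.Cheb

variable (L M : Type) [Field L] [NumberField L] [Field M] [NumberField M] [Algebra L M]
  (m : ℕ) [NeZero m]

variable [IsCyclotomicExtension {m} L M] [IsGalois L M]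

theorem Psum_bounded {ζ : M} (hζ : IsPrimitiveRoot ζ m) (χ : DirichletCharacter ℂ m)
    (hχ : ∃ τ : Gal(M/L), χ (IsPrimitiveRoot.autToPow L hζ τ : (ZMod m)ˣ) ≠ 1) :
    ∃ C : ℝ, ∀ᶠ s : ℝ in 𝓝[>] 1, ‖Psum L χ s‖ ≤ C := by
  have hP : ∃ P : HeightOneSpectrum (𝓞 L), (m : 𝓞 L) ∉ P.asIdeal ∧
      χ ((Ideal.absNorm P.asIdeal : ℕ) : ZMod m) ≠ 1 := by
    by_contra hcon
    push Not at hcon
    obtain ⟨τ, hτ⟩ := hχ
    exact hτ (char_trivial L M m hζ χ hcon τ)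
  obtain ⟨P, hmP, hχP⟩ := hP
  have hI : ∃ I : (Ideal (𝓞 L))⁰, χ ((Ideal.absNorm (I : Ideal (𝓞 L)) : ℕ) : ZMod m) ≠ 0 ∧
      χ ((Ideal.absNorm (I : Ideal (𝓞 L)) : ℕ) : ZMod m) ≠ 1 := by
    refine ⟨⟨P.asIdeal, mem_nonZeroDivisors_of_ne_zero P.ne_bot⟩, ?_, hχP⟩
    have hu : IsUnit ((Ideal.absNorm P.asIdeal : ℕ) : ZMod m) := norm_unit_mod L m P hmP
    exact (hu.map χ).ne_zero
  obtain ⟨ℓ, hℓ⟩ := Lser_tendsto L m χ hI
  obtain ⟨C1, hC1⟩ := Psum_lower L M m hζ χ hχ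
  obtain ⟨C2, hC2⟩ := log_sub_bound L χ
  have hlow : ∀ᶠ s : ℝ in 𝓝[>] 1, Real.exp (-C1 - C2) ≤ ‖Lser L χ s‖ := by
    filter_upwards [hC1, self_mem_nhdsWithin] with s hs1 hs
    have hs' : 1 < s := hs
    rw [Lser_eq_exp L χ hs', Complex.norm_exp]
    refine Real.exp_le_exp.2 ?_
    have h1 : ‖logL L χ s - Psum L χ s‖ ≤ C2 := hC2 s hs'
    have h2 : |(logL L χ s - Psum L χ s).re| ≤ C2 := (Complex.abs_re_le_norm _).trans h1
    rw [Complex.sub_re] at h2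
    have h3 := (abs_le.1 h2).1
    linarith
  have hℓ0 : ℓ ≠ 0 := by
    have h1 : Tendsto (fun s => ‖Lser L χ s‖) (𝓝[>] 1) (𝓝 ‖ℓ‖) := hℓ.norm
    have h2 : Real.exp (-C1 - C2) ≤ ‖ℓ‖ := ge_of_tendsto h1 hlow
    have h3 : 0 < ‖ℓ‖ := lt_of_lt_of_le (Real.exp_pos _) h2
    exact norm_pos_iff.1 h3
  have hexp : Tendsto (fun s => Complex.exp (logL L χ s)) (𝓝[>] 1) (𝓝 ℓ) := by
    refine hℓ.congr' ?_
    filter_upwards [self_mem_nhdsWithin] with s hs
    exact Lser_eq_exp L χ hs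
  obtain ⟨C3, hC3⟩ := exp_lift (logL L χ) (log_cont L χ) ℓ hℓ0 hexp
  refine ⟨C3 + C2, ?_⟩
  filter_upwards [hC3, self_mem_nhdsWithin] with s hs3 hs
  have hs' : 1 < s := hs
  have h1 : ‖logL L χ s - Psum L χ s‖ ≤ C2 := hC2 s hs'
  have h2 : Psum L χ s = logL L χ s - (logL L χ s - Psum L χ s) := by ring
  calc ‖Psum L χ s‖ = ‖logL L χ s - (logL L χ s - Psum L χ s)‖ := by rw [← h2]
    _ ≤ ‖logL L χ s‖ + ‖logL L χ s - Psum L χ s‖ := norm_sub_le _ _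
    _ ≤ C3 + C2 := add_le_add hs3 h1

end Pool.Agent.Cheb
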