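import Pool.Agent.Chebotarev_h15.CyA
import Pool.Agent.Chebotarev_h15.Defs
import Pool.Agent.Chebotarev_h15.SpA

/-!
# Frobenius elements in cyclotomic extensions

`M = L(ζ)`, `ζ` a primitive `m`-th root of unity, `ι : Gal(M/L) →* (ZMod m)ˣ` the cyclotomic
character (injective: `IsPrimitiveRoot.autToPow_injective`).

* `frob_cyc`: `AlgHom.IsArithFrobAt.apply_of_pow_eq_one` applied to the integer `ζ`:
  `τ ζ = ζ ^ N(P)`, `N(P) = Nat.card (𝓞 L ⧸ P)`; and `τ ζ = ζ ^ (ι τ)` (`autToPow_spec`).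
* `mem_frobSet_cyc`: choose a prime `Q` above `P` and a Frobenius `τ` at `Q`
  (`IsArithFrobAt.exists_of_isInvariant`), `ι τ = N(P)`.
* `psum_one_ge`: a prime `Q` of `M` of prime norm `q`, `m ∉ Q`: the residue field of order `q`
  contains the `m` different powers of `ζ` (Frobenius `τ` at `Q` has `ι τ = N(P) = q` where `P` is
  below `Q`, `N(P) = N(Q)`; every `x ∈ 𝓞 M` satisfies `x ^ q ≡ x mod Q`, so `τ x ≡ x`,
  and `ζ^q ≡ ζ mod Q` with `m ∉ Q` gives `ζ^q = ζ`, i.e. `q = 1` in `ZMod m`).  So the primes of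
  `deg1 M` not containing `m` lie over primes with `N(P) = 1` in `ZMod m`: `psum_up_le` with
  `c = [M : L]`, `psum_deg1`.
* `char_trivial`: let `D' = {τ | χ(ι τ) = 1}` (a subgroup) and `L' = M^{D'}`.  For `P ∌ m`, `Q'`
  over `P` in `L'`, `Q` over `Q'` in `M`, `τ` a Frobenius at `Q` (for `M/L`): `ι τ = N(P)`, so
  `τ ∈ D'` and `τ` is the identity on `L'`: for `x ∈ 𝓞 L'`, `x = τ x ≡ x ^ N(P) mod Q`, so all
  elements of the field `𝓞 L' ⧸ Q'` are roots of `X^(N P) - X`, so `N(Q') ≤ N(P)` and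
  `N(Q') = N(P)`.  `finrank_eq_one` for `L'/L` gives `L' = L`, `D' = ⊤`.
-/

set_option autoImplicit false

noncomputable section

open Filter Topology NumberField IsDedekindDomain
open scoped nonZeroDivisors

namespace Pool.Agent.Cheb

variable (L M : Type) [Field L] [NumberField L] [Field M] [NumberField M] [Algebra L M]
  (m : ℕ) [NeZero m] [IsGalois L M]

variable [IsCyclotomicExtension {m} L M]

theorem mem_frobSet_cyc {ζ : M} (hζ : IsPrimitiveRoot ζ m) (P : HeightOneSpectrum (𝓞 L))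
    (hP : (m : 𝓞 L) ∉ P.asIdeal) (g : Gal(M/L)) :
    P ∈ FrobSet L M g ↔ ((IsPrimitiveRoot.autToPow L hζ g : (ZMod m)ˣ) : ZMod m) =
      ((Ideal.absNorm P.asIdeal : ℕ) : ZMod m) := by
  constructor
  · rintro ⟨Q, hQ, hQP, hfr⟩
    exact frob_cyc L M m hζ P hP Q hQP g hfr
  · intro h
    obtain ⟨Q, hQ⟩ := over_nonempty L M P
    have := Q.isPrime
    have hfQ : Finite (𝓞 M ⧸ Q.asIdeal) := Ideal.finiteQuotientOfFreeOfNeBot _ Q.ne_bot
    obtain ⟨τ, hτ⟩ := IsArithFrobAt.exists_of_isInvariant (𝓞 L) Gal(M/L) Q.asIdeal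
    have h2 := frob_cyc L M m hζ P hP Q.asIdeal hQ τ hτ
    have h3 : g = τ := by
      apply IsPrimitiveRoot.autToPow_injective (K := L) hζ
      apply Units.ext
      rw [h, h2]
    rw [h3]
    exact ⟨Q.asIdeal, Q.isPrime, hQ, hτ⟩

end Pool.Agent.Cheb
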