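import Pool.Agent.Chebotarev_h15.CyA
import Pool.Agent.Chebotarev_h15.Defs
import Pool.Agent.Chebotarev_h15.SpA

/-!
# Frobenius sets in towers

* `frobSet_restrict`: if `g` is a Frobenius at the prime `Q` of `M` then `g|_K` is one at
  `Q ∩ 𝓞 K`: `g x - x ^ q ∈ Q` for `x ∈ 𝓞 K`; the prime below in `k` is the same.
* `frobSet_disjoint`: `frob_cyc`.
* `frobSet_conj`: `IsArithFrobAt.conj`; the prime `τ • Q` lies over the same `P`.
* `exists_mem_frobSet`: there is a prime above `P` and a Frobenius element at it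
  (`IsArithFrobAt.exists_of_isInvariant`).
* `isConj_of_mem`: two primes over `P` are conjugate
  (`Algebra.IsInvariant.exists_smul_of_under_eq`), `IsArithFrobAt.conj` and the uniqueness `hP`.
-/

set_option autoImplicit false

noncomputable section

open Filter Topology NumberField IsDedekindDomain
open scoped nonZeroDivisors

namespace Pool.Agent.Cheb

section tower

variable (k K M : Type) [Field k] [NumberField k] [Field K] [NumberField K] [Field M]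
  [NumberField M] [Algebra k K] [Algebra K M] [Algebra k M] [IsScalarTower k K M]
  [IsGalois k K] [IsGalois k M]

theorem LwB_coe (g : Gal(M/k)) (x : 𝓞 K) :
    algebraMap (𝓞 K) (𝓞 M) (AlgEquiv.restrictNormalHom K g • x) =
      g • algebraMap (𝓞 K) (𝓞 M) x := by
  apply RingOfIntegers.coe_injective
  exact AlgEquiv.restrictNormal_commutes g K (x : K)

theorem frobSet_restrict (g : Gal(M/k)) :
    FrobSet k M g ⊆ FrobSet k K (AlgEquiv.restrictNormalHom K g) := by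
  rintro P ⟨Q, hQ, hQP, hfr⟩
  refine ⟨Q.under (𝓞 K), inferInstance, ?_, ?_⟩
  · rw [Ideal.under_under, hQP]
  · intro x
    have h := hfr (algebraMap (𝓞 K) (𝓞 M) x)
    rw [Ideal.under_under]
    change algebraMap (𝓞 K) (𝓞 M) _ ∈ Q
    rw [map_sub, map_pow]
    have e : algebraMap (𝓞 K) (𝓞 M) ((MulSemiringAction.toAlgHom (𝓞 k) (𝓞 K)
        (AlgEquiv.restrictNormalHom K g)) x) =
        (MulSemiringAction.toAlgHom (𝓞 k) (𝓞 M) g) (algebraMap (𝓞 K) (𝓞 M) x) :=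
      LwB_coe k K M g x
    rw [e]
    exact h

end tower

variable (k M : Type) [Field k] [NumberField k] [Field M] [NumberField M] [Algebra k M]
  [IsGalois k M]

theorem frobSet_disjoint (m : ℕ) [NeZero m] {ζ : M} (hζ : IsPrimitiveRoot ζ m) (g h : Gal(M/k))
    (hgh : IsPrimitiveRoot.autToPow k hζ g ≠ IsPrimitiveRoot.autToPow k hζ h) :
    FrobSet k M g ∩ FrobSet k M h ⊆
      {P : HeightOneSpectrum (𝓞 k) | (m : 𝓞 k) ∈ P.asIdeal} := by
  rintro P ⟨⟨Q, hQ, hQP, hg⟩, ⟨Q', hQ', hQP', hh⟩⟩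
  by_contra hP
  apply hgh
  apply Units.ext
  rw [frob_cyc k M m hζ P hP Q hQP g hg, frob_cyc k M m hζ P hP Q' hQP' h hh]

open scoped Pointwise in
theorem LwB_conj (g τ : Gal(M/k)) : FrobSet k M g ⊆ FrobSet k M (τ * g * τ⁻¹) := by
  rintro P ⟨Q, hQ, hQP, hfr⟩
  exact ⟨τ • Q, inferInstance, (Ideal.under_smul (𝓞 k) Q τ).trans hQP, hfr.conj τ⟩

theorem frobSet_conj (g τ : Gal(M/k)) : FrobSet k M (τ * g * τ⁻¹) = FrobSet k M g := by
  refine Set.Subset.antisymm ?_ (LwB_conj k M g τ)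
  have h := LwB_conj k M (τ * g * τ⁻¹) τ⁻¹
  have e : τ⁻¹ * (τ * g * τ⁻¹) * τ⁻¹⁻¹ = g := by group
  rwa [e] at h

theorem exists_mem_frobSet (P : HeightOneSpectrum (𝓞 k)) : ∃ g : Gal(M/k), P ∈ FrobSet k M g := by
  obtain ⟨Q, hQ⟩ := over_nonempty k M P
  have := Q.isPrime
  have hfQ : Finite (𝓞 M ⧸ Q.asIdeal) := Ideal.finiteQuotientOfFreeOfNeBot _ Q.ne_bot
  obtain ⟨τ, hτ⟩ := IsArithFrobAt.exists_of_isInvariant (𝓞 k) Gal(M/k) Q.asIdeal
  exact ⟨τ, Q.asIdeal, Q.isPrime, hQ, hτ⟩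

theorem isConj_of_mem (P : HeightOneSpectrum (𝓞 k))
    (hP : ∀ Q : Ideal (𝓞 M), Q.IsPrime → Q.under (𝓞 k) = P.asIdeal →
      ∀ g h : Gal(M/k), IsArithFrobAt (𝓞 k) g Q → IsArithFrobAt (𝓞 k) h Q → g = h)
    (g h : Gal(M/k)) (hg : P ∈ FrobSet k M g) (hh : P ∈ FrobSet k M h) : IsConj g h := by
  obtain ⟨Q, hQ, hQP, hg⟩ := hg
  obtain ⟨Q', hQ', hQP', hh⟩ := hh
  obtain ⟨τ, hτ⟩ := Algebra.IsInvariant.exists_smul_of_under_eq (𝓞 k) (𝓞 M) Gal(M/k) Q Q'
    (hQP.trans hQP'.symm)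
  have h1 := hg.conj τ
  rw [← hτ] at h1
  exact isConj_iff.2 ⟨τ, hP Q' hQ' hQP' _ _ h1 hh⟩

end Pool.Agent.Cheb
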