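import Pool.Agent.Chebotarev_h15.CbC
import Pool.Agent.Chebotarev_h15.CyB
import Pool.Agent.Chebotarev_h15.LwB

/-!
# Nonvanishing and the density theorem for cyclotomic extensions

`M = L(ζ)`; the characters `χ` modulo `m` with `χ(ι τ) = 1` for all `τ ∈ Gal(M/L)` are called
trivial on `M`.

* `Psum_upper`: by `Lser_tendsto` and `Lser_eq_exp`, `exp (Re (logL)) = ‖Lser‖` is bounded for
  `s → 1+`, so `Re logL ≤ C`; `log_sub_bound`.
* `Psum_trivial`: `Psum L χ s - psum univ s` is the sum over the finitely many `P ∋ m`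
  (`finite_mem`), `psum_univ`.
* `sum_chars`: `∑_χ χ a = φ(m)` if `a = 1` and `0` otherwise (`DirichletCharacter` orthogonality;
  for `a` not a unit all terms are `0`, for units Mathlib's `DirichletCharacter.sum_characters_eq`).
* `Psum_lower`: in `∑_χ Re (Psum L χ s) = φ(m) psum {N P = 1} s ≥ (φ(m)/[M:L]) log (1/(s-1)) - C`
  (`psum_one_ge`) the characters trivial on `M` contribute
  `(φ(m)/[M:L]) log (1/(s-1)) + O(1)` (`card_chars`, `Psum_trivial`; for those `χ(N P) = 1` for all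
  `P ∌ m`, by `frob_cyc` for some Frobenius), and all others are `≤ C` (`Psum_upper`; the ideal `I`
  is a prime `P ∌ m` with `χ(N P) ≠ 1` from `char_trivial`, `χ(N P) ≠ 0` by `norm_unit_mod`):
  so each of the others is `≥ -C'`.
* `Psum_bounded`: `Lser → ℓ`, and `‖Lser‖ = exp (Re logL) ≥ exp (-C)`, so `ℓ ≠ 0`; `exp_lift` for
  `logL` (`log_cont`), `log_sub_bound`.
* `cyc_density`: `psum (FrobSet L M g)` and `psum {N P = ι g}` differ by a bounded amount
  (`mem_frobSet_cyc`, `finite_mem`), and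
  `φ(m) psum {N P = ι g} s = ∑_χ χ(ι g)⁻¹ Psum L χ s = (φ(m)/[M:L]) log (1/(s-1)) + O(1)`.
-/

set_option autoImplicit false

noncomputable section

open Filter Topology NumberField IsDedekindDomain
open scoped nonZeroDivisors

namespace Pool.Agent.Cheb

variable (L M : Type) [Field L] [NumberField L] [Field M] [NumberField M] [Algebra L M]
  (m : ℕ) [NeZero m]

variable [IsCyclotomicExtension {m} L M] [IsGalois L M]

/-- A character which is trivial on the Galois group is trivial at the norms of the primes. -/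
theorem CbD_triv {ζ : M} (hζ : IsPrimitiveRoot ζ m) (χ : DirichletCharacter ℂ m)
    (h : ∀ τ : Gal(M/L), χ (IsPrimitiveRoot.autToPow L hζ τ : (ZMod m)ˣ) = 1)
    (P : HeightOneSpectrum (𝓞 L)) (hP : (m : 𝓞 L) ∉ P.asIdeal) :
    χ ((Ideal.absNorm P.asIdeal : ℕ) : ZMod m) = 1 := by
  obtain ⟨τ, hτ⟩ := exists_mem_frobSet L M P
  have h1 := (mem_frobSet_cyc L M m hζ P hP τ).1 hτ
  rw [← h1]
  exact h τ

open scoped Classical in
/-- The sum over the characters. -/
theorem CbD_sum {ζ : M} (hζ : IsPrimitiveRoot ζ m) (g : Gal(M/L)) :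
    ∃ C : ℝ, ∀ᶠ s : ℝ in 𝓝[>] 1, 1 / (Module.finrank L M : ℝ) * Real.log (1 / (s - 1)) ≤
      psum {P : HeightOneSpectrum (𝓞 L) | ((Ideal.absNorm P.asIdeal : ℕ) : ZMod m) =
        ((IsPrimitiveRoot.autToPow L hζ g : (ZMod m)ˣ) : ZMod m)} s + C := by
  set a : (ZMod m)ˣ := IsPrimitiveRoot.autToPow L hζ g with ha
  set T : Finset (DirichletCharacter ℂ m) := Finset.univ.filter fun χ =>
    ∀ τ : Gal(M/L), χ (IsPrimitiveRoot.autToPow L hζ τ : (ZMod m)ˣ) = 1 with hT
  have hcard : (T.card : ℝ) * Module.finrank L M = m.totient := by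
    have h1 := card_chars L M m hζ
    have h2 : Nat.card {χ : DirichletCharacter ℂ m //
      ∀ τ : Gal(M/L), χ (IsPrimitiveRoot.autToPow L hζ τ : (ZMod m)ˣ) = 1} = T.card := by
      rw [Nat.card_eq_fintype_card, Fintype.card_subtype]
    rw [h2] at h1
    exact_mod_cast h1
  -- the bound for one character
  have hone : ∀ χ : DirichletCharacter ℂ m, ∃ C : ℝ, ∀ᶠ s : ℝ in 𝓝[>] 1,
      (if χ ∈ T then Real.log (1 / (s - 1)) else 0) - C ≤ ((χ a)⁻¹ * Psum L χ s).re := by
    intro χ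
    by_cases hχ : χ ∈ T
    · have h1 := (Finset.mem_filter.1 hχ).2
      obtain ⟨C, hC⟩ := Psum_trivial L m χ (CbD_triv L M m hζ χ h1)
      refine ⟨C, ?_⟩
      filter_upwards [hC] with s hs
      rw [if_pos hχ]
      have h2 : χ a = 1 := h1 g
      rw [h2, inv_one, one_mul]
      have h3 := (abs_le.1 ((Complex.abs_re_le_norm _).trans hs)).1
      rw [Complex.sub_re, Complex.ofReal_re] at h3
      linarith
    · have h1 : ∃ τ : Gal(M/L), χ (IsPrimitiveRoot.autToPow L hζ τ : (ZMod m)ˣ) ≠ 1 := by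
        by_contra hcon
        push Not at hcon
        exact hχ (Finset.mem_filter.2 ⟨Finset.mem_univ _, hcon⟩)
      obtain ⟨C, hC⟩ := Psum_bounded L M m hζ χ h1
      refine ⟨‖(χ a)⁻¹‖ * C, ?_⟩
      filter_upwards [hC] with s hs
      rw [if_neg hχ]
      have h3 : ‖(χ a)⁻¹ * Psum L χ s‖ ≤ ‖(χ a)⁻¹‖ * C := by
        rw [norm_mul]
        exact mul_le_mul_of_nonneg_left hs (norm_nonneg _)
      have h4 := (abs_le.1 ((Complex.abs_re_le_norm _).trans h3)).1
      linarith
  choose C hC using hone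
  have hφ : (0 : ℝ) < m.totient := by
    exact_mod_cast Nat.totient_pos.2 (Nat.pos_of_ne_zero (NeZero.ne m))
  have hfin : (0 : ℝ) < Module.finrank L M := by
    exact_mod_cast Module.finrank_pos
  refine ⟨(∑ χ, C χ) / m.totient, ?_⟩
  have hall : ∀ᶠ s : ℝ in 𝓝[>] 1, ∀ χ : DirichletCharacter ℂ m,
      (if χ ∈ T then Real.log (1 / (s - 1)) else 0) - C χ ≤ ((χ a)⁻¹ * Psum L χ s).re :=
    Filter.eventually_all.2 hC
  filter_upwards [hall, self_mem_nhdsWithin] with s h1 hs
  have h2 := sum_chars L m a (s := s) hs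
  have h3 : ∑ χ : DirichletCharacter ℂ m, ((χ a)⁻¹ * Psum L χ s).re =
      (m.totient : ℝ) * psum {P : HeightOneSpectrum (𝓞 L) |
          ((Ideal.absNorm P.asIdeal : ℕ) : ZMod m) = a} s := by
    rw [← Complex.re_sum, h2]
    have h4 : ((m.totient : ℂ) * ((psum {P : HeightOneSpectrum (𝓞 L) |
          ((Ideal.absNorm P.asIdeal : ℕ) : ZMod m) = a} s : ℝ) : ℂ)) =
        (((m.totient : ℝ) * psum {P : HeightOneSpectrum (𝓞 L) |
          ((Ideal.absNorm P.asIdeal : ℕ) : ZMod m) = a} s : ℝ) : ℂ) := by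
      push_cast
      rfl
    rw [h4, Complex.ofReal_re]
  have h5 : ∑ χ : DirichletCharacter ℂ m,
      ((if χ ∈ T then Real.log (1 / (s - 1)) else 0) - C χ) =
      T.card * Real.log (1 / (s - 1)) - ∑ χ, C χ := by
    rw [Finset.sum_sub_distrib, Finset.sum_ite_mem, Finset.univ_inter, Finset.sum_const,
      nsmul_eq_mul]
  have h6 := Finset.sum_le_sum fun χ (_ : χ ∈ (Finset.univ : Finset (DirichletCharacter ℂ m))) =>
    h1 χ
  rw [h5, h3] at h6
  have h7 : (T.card : ℝ) = m.totient * (1 / (Module.finrank L M : ℝ)) := by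
    rw [← hcard]
    field_simp
  rw [h7] at h6
  have h8 : (m.totient : ℝ) * (1 / (Module.finrank L M : ℝ) * Real.log (1 / (s - 1))) ≤
      m.totient * (psum {P : HeightOneSpectrum (𝓞 L) |
          ((Ideal.absNorm P.asIdeal : ℕ) : ZMod m) = a} s + (∑ χ, C χ) / m.totient) := by
    rw [mul_add, mul_div_cancel₀ _ hφ.ne']
    linarith
  exact le_of_mul_le_mul_left h8 hφ

include m in
/-- **Chebotarev for cyclotomic extensions** (the lower bound). -/
theorem cyc_density (g : Gal(M/L)) :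
    LowDens (FrobSet L M g) (1 / Module.finrank L M) := by
  have hζ : IsPrimitiveRoot (IsCyclotomicExtension.zeta m L M) m :=
    IsCyclotomicExtension.zeta_spec m L M
  obtain ⟨C, hC⟩ := CbD_sum L M m hζ g
  refine LowDens.of_bound
    ⟨C + ({P : HeightOneSpectrum (𝓞 L) | (m : 𝓞 L) ∈ P.asIdeal}.ncard : ℝ), ?_⟩
  filter_upwards [hC, self_mem_nhdsWithin] with s h1 hs
  have hs' : 1 < s := hs
  have hfin := finite_mem (L := L) m (NeZero.ne m)
  have h2 : {P : HeightOneSpectrum (𝓞 L) | ((Ideal.absNorm P.asIdeal : ℕ) : ZMod m) =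
        ((IsPrimitiveRoot.autToPow L hζ g : (ZMod m)ˣ) : ZMod m)} ⊆
      FrobSet L M g ∪ {P : HeightOneSpectrum (𝓞 L) | (m : 𝓞 L) ∈ P.asIdeal} := by
    intro P hP
    by_cases hm : (m : 𝓞 L) ∈ P.asIdeal
    · exact Or.inr hm
    · exact Or.inl ((mem_frobSet_cyc L M m hζ P hm g).2 hP.symm)
  have h3 := psum_mono h2 hs'
  have h4 := psum_union_le (FrobSet L M g)
    {P : HeightOneSpectrum (𝓞 L) | (m : 𝓞 L) ∈ P.asIdeal} hs'
  have h5 := psum_finite hfin hs'
  linarith

end Pool.Agent.Cheb
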