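import Pool.Agent.W_f569db_h62.NTD

/-!
# Decomposition of the L-series over the ideal classes

* `exists_coprime_rep`: every ideal class contains an integral ideal prime to `m` (Mathlib may have
  it: search for `ClassGroup` and `IsCoprime`; otherwise: let `I` be in the class of `C`; by the
  Chinese remainder theorem there is `a ∈ I`, `a ∉ P I` for all primes `P ∣ m`; then `(a) = I J`
  with `J` prime to `m` and `J` in the class `C⁻¹`).
* `class_sum`: `I ↦ I * J` is a bijection of the ideals of class `C` to the principal ideals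
  divisible by `J` (as in Mathlib's `NumberField.Ideal.tendsto_norm_le_and_mk_eq_div_atTop_aux₁`:
  `Equiv.dvd J`, `ClassGroup.mk0_eq_one_iff`).
* `Lser_eq`: `χ(N I) N I^(-s) = (χ(N J))⁻¹ N J^s χ(N (I J)) N (I J)^(-s)`, `class_sum`,
  `princ_sum`; `χ(N J) ≠ 0` as `N J` is prime to `m`
  (`absNorm` of an ideal prime to `m` is prime to `m`: a prime `p ∣ m` dividing `N J` gives a
  prime `P ∣ J` with `p ∈ P`).
-/

set_option autoImplicit false

noncomputable section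

open Filter Topology NumberField NumberField.mixedEmbedding NumberField.Units MeasureTheory
open scoped nonZeroDivisors

open scoped Classical

namespace Pool.Agent.Cheb

variable (F : Type) [Field F] [NumberField F]

theorem exists_coprime_rep (m : ℕ) [NeZero m] (C : ClassGroup (𝓞 F)) :
    ∃ J : (Ideal (𝓞 F))⁰, ClassGroup.mk0 J = C⁻¹ ∧
      IsCoprime (J : Ideal (𝓞 F)) (Ideal.span {(m : 𝓞 F)}) := by
  obtain ⟨I, hI⟩ := ClassGroup.mk0_surjective C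
  have hI0 : (I : Ideal (𝓞 F)) ≠ 0 := nonZeroDivisors.coe_ne_zero I
  have hm : (Ideal.span {(m : 𝓞 F)} : Ideal (𝓞 F)) ≠ 0 := by
    rw [Ne, Ideal.zero_eq_bot, Ideal.span_singleton_eq_bot]
    exact_mod_cast NeZero.ne m
  have hle : (I : Ideal (𝓞 F)) * Ideal.span {(m : 𝓞 F)} ≤ I := Ideal.mul_le_left
  obtain ⟨a, ha⟩ := IsDedekindDomain.exists_sup_span_eq hle (mul_ne_zero hI0 hm)
  have haI : Ideal.span {a} ≤ (I : Ideal (𝓞 F)) := ha ▸ le_sup_right
  obtain ⟨J, hJ⟩ := Ideal.dvd_iff_le.mpr haI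
  have h1 : (I : Ideal (𝓞 F)) * (Ideal.span {(m : 𝓞 F)} ⊔ J) = I * 1 := by
    rw [Ideal.mul_sup, ← hJ, ha, mul_one]
  have h2 : Ideal.span {(m : 𝓞 F)} ⊔ J = 1 := mul_left_cancel₀ hI0 h1
  by_cases ha0 : a = 0
  · obtain ⟨J', hJ'⟩ := ClassGroup.mk0_surjective C⁻¹
    refine ⟨J', hJ', ?_⟩
    have h3 : J = 0 := by
      have : (I : Ideal (𝓞 F)) * J = 0 := by
        rw [← hJ, ha0, Ideal.zero_eq_bot, Ideal.span_singleton_eq_bot]
      exact (mul_eq_zero.mp this).resolve_left hI0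
    rw [h3, Ideal.zero_eq_bot, sup_bot_eq] at h2
    rw [Ideal.isCoprime_iff_sup_eq, h2, Ideal.one_eq_top, sup_top_eq]
  · have hJ0 : J ≠ 0 := by
      rintro rfl
      rw [mul_zero, Ideal.zero_eq_bot, Ideal.span_singleton_eq_bot] at hJ
      exact ha0 hJ
    refine ⟨⟨J, mem_nonZeroDivisors_of_ne_zero hJ0⟩, ?_, ?_⟩
    · rw [eq_inv_iff_mul_eq_one, ← hI, ← map_mul, mul_comm, ClassGroup.mk0_eq_one_iff]
      refine ⟨⟨a, ?_⟩⟩
      exact hJ.symm
    · rw [Ideal.isCoprime_iff_sup_eq, sup_comm, h2, Ideal.one_eq_top]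

theorem absNorm_coprime (m : ℕ) [NeZero m] (J : (Ideal (𝓞 F))⁰)
    (h : IsCoprime (J : Ideal (𝓞 F)) (Ideal.span {(m : 𝓞 F)})) :
    (Ideal.absNorm (J : Ideal (𝓞 F))).Coprime m := by
  by_contra hc
  obtain ⟨p, hp, hp1, hp2⟩ := Nat.Prime.not_coprime_iff_dvd.mp hc
  have hJ0 : (J : Ideal (𝓞 F)) ≠ 0 := nonZeroDivisors.coe_ne_zero J
  haveI : Finite (𝓞 F ⧸ (J : Ideal (𝓞 F))) :=
    Ideal.finiteQuotientOfFreeOfNeBot _ hJ0
  rw [Ideal.absNorm_apply, Submodule.cardQuot_apply] at hp1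
  haveI : Fact p.Prime := ⟨hp⟩
  obtain ⟨x, hx⟩ := exists_prime_addOrderOf_dvd_card' (G := 𝓞 F ⧸ (J : Ideal (𝓞 F))) p hp1
  have h1 : (m : 𝓞 F ⧸ (J : Ideal (𝓞 F))) * x = 0 := by
    obtain ⟨k, hk⟩ := hp2
    have h2 : p • x = 0 := by rw [← hx]; exact addOrderOf_nsmul_eq_zero x
    rw [← nsmul_eq_mul, hk, mul_comm, mul_smul, h2, smul_zero]
  obtain ⟨a, ha, b, hb, hab⟩ := Submodule.mem_sup.mp
    ((Ideal.isCoprime_iff_sup_eq.mp h) ▸ (Submodule.mem_top : (1 : 𝓞 F) ∈ (⊤ : Ideal (𝓞 F))))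
  obtain ⟨c, hc⟩ := Ideal.mem_span_singleton.mp hb
  have h3 : (1 : 𝓞 F ⧸ (J : Ideal (𝓞 F))) = (m : 𝓞 F ⧸ (J : Ideal (𝓞 F))) *
      Ideal.Quotient.mk _ c := by
    rw [← map_one (Ideal.Quotient.mk (J : Ideal (𝓞 F))), ← hab, map_add,
      Ideal.Quotient.eq_zero_iff_mem.mpr ha, zero_add, hc, map_mul, map_natCast]
  have h4 : x = 0 := by
    calc x = 1 * x := (one_mul x).symm
      _ = (m : 𝓞 F ⧸ (J : Ideal (𝓞 F))) * Ideal.Quotient.mk _ c * x := by rw [← h3]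
      _ = Ideal.Quotient.mk _ c * ((m : 𝓞 F ⧸ (J : Ideal (𝓞 F))) * x) := by ring
      _ = 0 := by rw [h1, mul_zero]
  rw [h4, addOrderOf_zero] at hx
  exact hp.one_lt.ne hx

end Pool.Agent.Cheb
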