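import Pool.Agent.W_f569db_h62.NTD

/-!
# Decomposition of the L-series over the ideal classes

* `exists_coprime_rep`: every ideal class contains an integral ideal prime to `m` (Mathlib may have
  it: search for `ClassGroup` and `IsCoprime`; otherwise: let `I` be in the class of `C`; by the
  Chinese remainder theorem there is `a ∈ I`, `a ∉ P I` for all primes `P ∣ m`; then `(a) = I J`
  with `J` prime to `m` and `J` in the class `C⁻¹`).
* `class_sum`: `I ↦ I * J` is a bijection of the ideals of class `C` to the principal ideals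
  divisible by `J` (as in Mathlib's `NumberField.Ideal.tendsto_norm_le_and_mk_eq_div_atTop_aux₁`:
  `Equiv.dvd J`, `ClassGroup.mk0_eq_one_iff`).
* `Lser_eq`: `χ(N I) N I^(-s) = (χ(N J))⁻¹ N J^s χ(N (I J)) N (I J)^(-s)`, `class_sum`,
  `princ_sum`; `χ(N J) ≠ 0` as `N J` is prime to `m`
  (`absNorm` of an ideal prime to `m` is prime to `m`: a prime `p ∣ m` dividing `N J` gives a
  prime `P ∣ J` with `p ∈ P`).
-/

set_option autoImplicit false

noncomputable section

open Filter Topology NumberField NumberField.mixedEmbedding NumberField.Units MeasureTheory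
open scoped nonZeroDivisors

open scoped Classical

namespace Pool.Agent.Cheb

variable (F : Type) [Field F] [NumberField F]

theorem class_sum (f : (Ideal (𝓞 F))⁰ → ℂ) (C : ClassGroup (𝓞 F)) (J : (Ideal (𝓞 F))⁰)
    (hJ : ClassGroup.mk0 J = C⁻¹) :
    ∑' I : {I : (Ideal (𝓞 F))⁰ // ClassGroup.mk0 I = C}, f (I.1 * J) =
      ∑' I : {I : (Ideal (𝓞 F))⁰ // J ∣ I ∧ (I : Ideal (𝓞 F)).IsPrincipal}, f I.1 := by
  have hprin : ∀ I : (Ideal (𝓞 F))⁰, ClassGroup.mk0 I = C →
      ((I * J : (Ideal (𝓞 F))⁰) : Ideal (𝓞 F)).IsPrincipal := by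
    intro I hI
    refine (ClassGroup.mk0_eq_one_iff (I * J : (Ideal (𝓞 F))⁰).2).1 ?_
    have h1 : (⟨((I * J : (Ideal (𝓞 F))⁰) : Ideal (𝓞 F)), (I * J : (Ideal (𝓞 F))⁰).2⟩ :
      (Ideal (𝓞 F))⁰) = I * J := rfl
    rw [h1, map_mul, hI, hJ, mul_inv_cancel]
  have hcancel : ∀ I I' : (Ideal (𝓞 F))⁰, I * J = I' * J → I = I' := by
    intro I I' h
    apply Subtype.ext
    have h1 : (I : Ideal (𝓞 F)) * (J : Ideal (𝓞 F)) = (I' : Ideal (𝓞 F)) * (J : Ideal (𝓞 F)) :=
      congrArg Subtype.val h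
    exact mul_right_cancel₀ (nonZeroDivisors.ne_zero J.2) h1
  let φ : {I : (Ideal (𝓞 F))⁰ // ClassGroup.mk0 I = C} →
      {I : (Ideal (𝓞 F))⁰ // J ∣ I ∧ (I : Ideal (𝓞 F)).IsPrincipal} := fun I =>
    ⟨I.1 * J, Dvd.intro_left _ rfl, hprin I.1 I.2⟩
  have hφ : Function.Bijective φ := by
    constructor
    · intro I I' h
      apply Subtype.ext
      exact hcancel _ _ (congrArg Subtype.val h)
    · rintro ⟨K, ⟨c, hc⟩, hK⟩
      have h1 : ClassGroup.mk0 c = C := by
        have h2 : ClassGroup.mk0 K = 1 := (ClassGroup.mk0_eq_one_iff K.2).2 hK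
        rw [hc, map_mul, hJ] at h2
        exact (inv_mul_eq_one.1 h2).symm
      refine ⟨⟨c, h1⟩, ?_⟩
      apply Subtype.ext
      change c * J = K
      rw [hc, mul_comm]
  exact (Equiv.ofBijective φ hφ).tsum_eq
    (fun I : {I : (Ideal (𝓞 F))⁰ // J ∣ I ∧ (I : Ideal (𝓞 F)).IsPrincipal} => f I.1)

end Pool.Agent.Cheb
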