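import Pool.Agent.Chebotarev_h15.Tent

/-!
# The weight `phi` on the mixed space

`n = finrank ℚ F`.

* `phi_smul`: `logMap_real_smul`, `norm_smul`.
* `phi_eq_of_normAtPlace_eq`: `logMap_eq_of_normAtPlace_eq`, `norm_eq_of_normAtPlace_eq`.
* `phi_measurable`: as in Mathlib's `measurableSet_fundamentalCone` (`logMap` is measurable).
* `phi_comparable`: `phi F x ≠ 0` forces `|coord F x i| < 1` for all `i`, so `logMap x` is a sum of
  the basis vectors with bounded coefficients: `|logMap x w| ≤ B` for `w ≠ w₀`.  Since
  `mult w ≥ 1`, `|log ‖x‖_w - (1/n) log (norm x)| ≤ B` for `w ≠ w₀`; and since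
  `log (norm x) = ∑ mult w * log ‖x‖_w` (`mixedEmbedding.norm_apply`), `∑ mult w = n`, also
  `|log ‖x‖_{w₀} - (1/n) log (norm x)| ≤ n B`.  Hence all `normAtPlace w x` are within a factor
  `exp (2 n B)` of each other, and `‖x‖` is the largest of them
  (`mixedEmbedding.norm_eq_sup'_normAtPlace`).
* `hasSum_units`: every unit is `ζ * ∏ η_i^(k_i)` in exactly one way (`ζ` a root of unity, `η` the
  fundamental system: `Units.exist_unique_eq_mul_prod`), `logMap (u • x) = logEmbedding u +
  logMap x` (`logMap_unit_smul`), the coordinates of `logEmbedding (ζ ∏ η_i^(k_i))` are the `k_i`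
  (`basisUnitLattice`, `logEmbedding_fundSystem`), and `hasSum_prod_T`.
-/

set_option autoImplicit false

noncomputable section

open Filter Topology NumberField NumberField.mixedEmbedding NumberField.Units

open scoped Classical

namespace Pool.Agent.Cheb

variable (F : Type) [Field F] [NumberField F]

theorem phi_nonneg (x : mixedSpace F) : 0 ≤ phi F x := by
  unfold phi
  split_ifs
  · exact le_refl 0
  · exact Finset.prod_nonneg fun i _ => T_nonneg _

theorem phi_le_one (x : mixedSpace F) : phi F x ≤ 1 := by
  unfold phi
  split_ifs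
  · exact zero_le_one
  · exact Finset.prod_le_one (fun i _ => T_nonneg _) fun i _ => T_le_one _

theorem phi_of_norm_eq_zero {x : mixedSpace F} (hx : mixedEmbedding.norm x = 0) :
    phi F x = 0 := by
  unfold phi
  rw [if_pos hx]

theorem phi_smul {t : ℝ} (ht : 0 < t) (x : mixedSpace F) : phi F (t • x) = phi F x := by
  by_cases hx : mixedEmbedding.norm x = 0
  · rw [phi_of_norm_eq_zero F hx]
    apply phi_of_norm_eq_zero
    rw [mixedEmbedding.norm_smul, hx, mul_zero]
  · have h1 : mixedEmbedding.norm (t • x) ≠ 0 := by
      rw [mixedEmbedding.norm_smul]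
      exact mul_ne_zero (pow_ne_zero _ (abs_ne_zero.2 ht.ne')) hx
    unfold phi
    rw [if_neg hx, if_neg h1]
    refine Finset.prod_congr rfl fun i _ => ?_
    unfold coord
    rw [logMap_real_smul hx ht.ne']

theorem phi_eq_of_normAtPlace_eq {x y : mixedSpace F}
    (h : ∀ w, normAtPlace w x = normAtPlace w y) : phi F x = phi F y := by
  unfold phi coord
  rw [norm_eq_of_normAtPlace_eq h, logMap_eq_of_normAtPlace_eq h]

theorem PhiA_logMap : Measurable (logMap : mixedSpace F → _) := by
  unfold logMap
  refine measurable_pi_iff.mpr fun w ↦ measurable_const.mul ?_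
  exact (continuous_normAtPlace _).measurable.log.sub <|
    (mixedEmbedding.continuous_norm _).measurable.log.mul measurable_const

theorem PhiA_coord (i : Fin (Units.rank F)) : Measurable (fun x => coord F x i) := by
  have h : Continuous (((basisUnitLattice F).ofZLatticeBasis ℝ (unitLattice F)).coord i) :=
    LinearMap.continuous_of_finiteDimensional _
  exact h.measurable.comp (PhiA_logMap F)

theorem phi_measurable : Measurable (phi F) := by
  unfold phi
  refine Measurable.ite (measurableSet_eq_fun (mixedEmbedding.continuous_norm F).measurable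
    measurable_const) measurable_const ?_
  exact Finset.measurable_prod _ fun i _ => T_continuous.measurable.comp (PhiA_coord F i)

end Pool.Agent.Cheb
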