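import Pool.Agent.Chebotarev_h15.Tent

/-!
# The weight `phi` on the mixed space

`n = finrank ℚ F`.

* `phi_smul`: `logMap_real_smul`, `norm_smul`.
* `phi_eq_of_normAtPlace_eq`: `logMap_eq_of_normAtPlace_eq`, `norm_eq_of_normAtPlace_eq`.
* `phi_measurable`: as in Mathlib's `measurableSet_fundamentalCone` (`logMap` is measurable).
* `phi_comparable`: `phi F x ≠ 0` forces `|coord F x i| < 1` for all `i`, so `logMap x` is a sum of
  the basis vectors with bounded coefficients: `|logMap x w| ≤ B` for `w ≠ w₀`.  Since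
  `mult w ≥ 1`, `|log ‖x‖_w - (1/n) log (norm x)| ≤ B` for `w ≠ w₀`; and since
  `log (norm x) = ∑ mult w * log ‖x‖_w` (`mixedEmbedding.norm_apply`), `∑ mult w = n`, also
  `|log ‖x‖_{w₀} - (1/n) log (norm x)| ≤ n B`.  Hence all `normAtPlace w x` are within a factor
  `exp (2 n B)` of each other, and `‖x‖` is the largest of them
  (`mixedEmbedding.norm_eq_sup'_normAtPlace`).
* `hasSum_units`: every unit is `ζ * ∏ η_i^(k_i)` in exactly one way (`ζ` a root of unity, `η` the
  fundamental system: `Units.exist_unique_eq_mul_prod`), `logMap (u • x) = logEmbedding u +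
  logMap x` (`logMap_unit_smul`), the coordinates of `logEmbedding (ζ ∏ η_i^(k_i))` are the `k_i`
  (`basisUnitLattice`, `logEmbedding_fundSystem`), and `hasSum_prod_T`.
-/

set_option autoImplicit false

noncomputable section

open Filter Topology NumberField NumberField.mixedEmbedding NumberField.Units

open scoped Classical

namespace Pool.Agent.Cheb

variable (F : Type) [Field F] [NumberField F]

theorem PhiC_logEmbedding (u ζ : (𝓞 F)ˣ) (hζ : ζ ∈ torsion F) (e : Fin (Units.rank F) → ℤ)
    (h : u = ζ * ∏ i, (fundSystem F i) ^ (e i)) :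
    logEmbedding F (Additive.ofMul u) =
      ((∑ i, e i • basisUnitLattice F i : unitLattice F) :
        dirichletUnitTheorem.logSpace F) := by
  have h1 : logEmbedding F (Additive.ofMul ζ) = 0 := by
    exact (dirichletUnitTheorem.logEmbedding_eq_zero_iff).2 hζ
  rw [h, ofMul_mul, map_add, h1, zero_add, ofMul_prod, map_sum]
  rw [AddSubmonoidClass.coe_finsetSum]
  refine Finset.sum_congr rfl fun i _ => ?_
  rw [ofMul_zpow, map_zsmul, logEmbedding_fundSystem]
  rfl

theorem PhiC_coord {x : mixedSpace F} (hx : mixedEmbedding.norm x ≠ 0) (u ζ : (𝓞 F)ˣ)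
    (hζ : ζ ∈ torsion F) (e : Fin (Units.rank F) → ℤ)
    (h : u = ζ * ∏ i, (fundSystem F i) ^ (e i)) (i : Fin (Units.rank F)) :
    coord F (u • x) i = coord F x i + e i := by
  unfold coord
  rw [logMap_unit_smul u hx, PhiC_logEmbedding F u ζ hζ e h, map_add, Finsupp.add_apply,
    Module.Basis.ofZLatticeBasis_repr_apply, Module.Basis.repr_sum_self, add_comm]

theorem PhiC_norm_unit_smul {x : mixedSpace F} (hx : mixedEmbedding.norm x ≠ 0) (u : (𝓞 F)ˣ) :
    mixedEmbedding.norm (u • x) ≠ 0 := by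
  rw [mixedEmbedding.norm_unit_smul]
  exact hx

/-- Units as pairs. -/
def PhiC_equiv : (torsion F × (Fin (Units.rank F) → ℤ)) ≃ (𝓞 F)ˣ :=
  Equiv.ofBijective (fun p => (p.1 : (𝓞 F)ˣ) * ∏ i, (fundSystem F i) ^ (p.2 i)) (by
    constructor
    · intro p q hpq
      have hu := (exist_unique_eq_mul_prod F
        ((p.1 : (𝓞 F)ˣ) * ∏ i, (fundSystem F i) ^ (p.2 i)))
      exact hu.unique rfl hpq
    · intro u
      obtain ⟨p, hp, _⟩ := exist_unique_eq_mul_prod F u
      exact ⟨p, hp.symm⟩)

theorem PhiC_phi {x : mixedSpace F} (hx : mixedEmbedding.norm x ≠ 0)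
    (p : torsion F × (Fin (Units.rank F) → ℤ)) :
    phi F (PhiC_equiv F p • x) = ∏ i, T (coord F x i + p.2 i) := by
  unfold phi
  rw [if_neg (PhiC_norm_unit_smul F hx _)]
  refine Finset.prod_congr rfl fun i _ => ?_
  rw [PhiC_coord F hx (PhiC_equiv F p) p.1 p.1.2 p.2 rfl i]

/-- The product of a finite type and a nonnegative sum. -/
theorem PhiC_prod {α β : Type} [Finite α] (g : β → ℝ) (hg : ∀ b, 0 ≤ g b) (h : HasSum g 1) :
    HasSum (fun p : α × β => g p.2) (Nat.card α : ℝ) := by
  have := Fintype.ofFinite α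
  have h3 : HasSum (fun _ : α => (1 : ℝ)) (Nat.card α : ℝ) := by
    have h4 := hasSum_fintype (fun _ : α => (1 : ℝ))
    rw [Finset.sum_const, nsmul_eq_mul, mul_one, Finset.card_univ] at h4
    rw [Nat.card_eq_fintype_card]
    exact h4
  have hs : Summable (fun p : α × β => (1 : ℝ) * g p.2) :=
    Summable.mul_of_nonneg h3.summable h.summable (fun _ => zero_le_one) hg
  have h5 := HasSum.mul h3 h hs
  simpa only [one_mul, mul_one] using h5

/-- The translates of `phi` by the units sum to the number of roots of unity. -/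
theorem hasSum_units {x : mixedSpace F} (hx : mixedEmbedding.norm x ≠ 0) :
    HasSum (fun u : (𝓞 F)ˣ => phi F (u • x)) (torsionOrder F) := by
  rw [← (PhiC_equiv F).hasSum_iff]
  have h1 : (fun u : (𝓞 F)ˣ => phi F (u • x)) ∘ (PhiC_equiv F) =
      fun p : torsion F × (Fin (Units.rank F) → ℤ) => ∏ i, T (coord F x i + p.2 i) := by
    funext p
    exact PhiC_phi F hx p
  rw [h1]
  exact PhiC_prod (α := torsion F) (β := Fin (Units.rank F) → ℤ)
    (fun k => ∏ i, T (coord F x i + k i))
    (fun k => Finset.prod_nonneg fun i _ => T_nonneg _)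
    (hasSum_prod_T (Units.rank F) (coord F x))


end Pool.Agent.Cheb
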