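import Pool.Agent.Chebotarev_h15.DefsB
import Pool.Agent.Chebotarev_h15.PhiA
import Pool.Agent.Chebotarev_h15.PhiC

/-!
# From lattice points to principal ideals

Every `a ∈ J`, `a ≠ 0`, is `u * g(I)` for exactly one pair of a principal ideal `I` (`J ∣ I`) with
chosen generator `g(I)` and a unit `u`.  So the sum over `a` is the sum over the pairs `(I, u)` of
`φ(u • g(I)) f(I)`, and the sum over `u` is `torsionOrder F` (`hasSum_units`, `norm ≠ 0` for
nonzero integers).  The family over the pairs is absolutely summable, because the sum over `u` of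
`φ ‖f I‖` is `torsionOrder F * ‖f I‖`.
-/

set_option autoImplicit false

noncomputable section

open Filter Topology NumberField NumberField.mixedEmbedding NumberField.Units MeasureTheory
open scoped nonZeroDivisors

open scoped Classical

namespace Pool.Agent.Cheb

variable (F : Type) [Field F] [NumberField F]

/-- principal ideals divisible by `J` -/
abbrev Princ_I {F : Type} [Field F] [NumberField F] (J : (Ideal (𝓞 F))⁰) : Type :=
  {I : (Ideal (𝓞 F))⁰ // J ∣ I ∧ (I : Ideal (𝓞 F)).IsPrincipal}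

variable {F}

theorem Princ_gen {J : (Ideal (𝓞 F))⁰} (I : Princ_I J) :
    ∃ g : 𝓞 F, (I.1 : Ideal (𝓞 F)) = Ideal.span {g} := by
  obtain ⟨g, hg⟩ := I.2.2
  exact ⟨g, hg⟩

/-- the chosen generator -/
def Princ_g {J : (Ideal (𝓞 F))⁰} (I : Princ_I J) : 𝓞 F := (Princ_gen I).choose

theorem Princ_span {J : (Ideal (𝓞 F))⁰} (I : Princ_I J) :
    (I.1 : Ideal (𝓞 F)) = Ideal.span {Princ_g I} := (Princ_gen I).choose_spec

theorem Princ_g_ne {J : (Ideal (𝓞 F))⁰} (I : Princ_I J) : Princ_g I ≠ 0 := by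
  intro h
  have h1 := Princ_span I
  rw [h, Ideal.span_singleton_eq_bot.2 rfl] at h1
  exact nonZeroDivisors.ne_zero I.1.2 h1

theorem Princ_g_mem {J : (Ideal (𝓞 F))⁰} (I : Princ_I J) : Princ_g I ∈ (J : Ideal (𝓞 F)) := by
  obtain ⟨c, hc⟩ := I.2.1
  have h1 : (I.1 : Ideal (𝓞 F)) ≤ (J : Ideal (𝓞 F)) :=
    Ideal.dvd_iff_le.1 ⟨(c : Ideal (𝓞 F)), by rw [hc]; rfl⟩
  apply h1
  rw [Princ_span I]
  exact Ideal.mem_span_singleton_self _

omit [NumberField F] in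
theorem Princ_assoc (u : (𝓞 F)ˣ) (a : 𝓞 F) :
    Ideal.span {(u : 𝓞 F) * a} = Ideal.span {a} := by
  rw [Ideal.span_singleton_eq_span_singleton]
  exact (associated_unit_mul_left a (u : 𝓞 F) u.isUnit)

/-- `(I, u) ↦ u g(I)` -/
def Princ_map (J : (Ideal (𝓞 F))⁰) (p : Princ_I J × (𝓞 F)ˣ) : Pts J :=
  ⟨(p.2 : 𝓞 F) * Princ_g p.1, mul_ne_zero p.2.ne_zero (Princ_g_ne p.1),
    Ideal.mul_mem_left _ _ (Princ_g_mem p.1)⟩

theorem Princ_prin (J : (Ideal (𝓞 F))⁰) (p : Princ_I J × (𝓞 F)ˣ) :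
    prin (Princ_map J p).1 (Princ_map J p).2.1 = p.1.1 := by
  apply Subtype.ext
  change Ideal.span {(p.2 : 𝓞 F) * Princ_g p.1} = (p.1.1 : Ideal (𝓞 F))
  rw [Princ_assoc, Princ_span p.1]

theorem Princ_inj (J : (Ideal (𝓞 F))⁰) : Function.Injective (Princ_map J) := by
  rintro ⟨I, u⟩ ⟨I', u'⟩ h
  have h1 : I = I' := by
    apply Subtype.ext
    have e1 := Princ_prin J (I, u)
    have e2 := Princ_prin J (I', u')
    simp only [h] at e1
    exact e1.symm.trans e2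
  subst h1
  have h2 : (u : 𝓞 F) * Princ_g I = u' * Princ_g I := congrArg (fun a : Pts J => a.1) h
  have h3 : (u : 𝓞 F) = u' := mul_right_cancel₀ (Princ_g_ne I) h2
  rw [Units.ext h3]

theorem Princ_surj (J : (Ideal (𝓞 F))⁰) : Function.Surjective (Princ_map J) := by
  rintro ⟨a, ha0, haJ⟩
  have hJ : J ∣ prin a ha0 := by
    have h1 : (J : Ideal (𝓞 F)) ∣ Ideal.span {a} := by
      rw [Ideal.dvd_iff_le, Ideal.span_singleton_le_iff_mem]
      exact haJ
    obtain ⟨c, hc⟩ := h1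
    have hc0 : c ≠ 0 := by
      rintro rfl
      rw [mul_zero, Ideal.zero_eq_bot, Ideal.span_singleton_eq_bot] at hc
      exact ha0 hc
    refine ⟨⟨c, mem_nonZeroDivisors_of_ne_zero hc0⟩, ?_⟩
    apply Subtype.ext
    exact hc
  let I : Princ_I J := ⟨prin a ha0, hJ, ⟨a, rfl⟩⟩
  have h2 : Ideal.span {Princ_g I} = Ideal.span {a} := (Princ_span I).symm
  rw [Ideal.span_singleton_eq_span_singleton] at h2
  obtain ⟨u, hu⟩ := h2
  refine ⟨(I, u), ?_⟩
  apply Subtype.ext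
  change (u : 𝓞 F) * Princ_g I = a
  rw [mul_comm, hu]

/-- the pairs `(I, u)` are the points -/
def Princ_equiv (J : (Ideal (𝓞 F))⁰) : Princ_I J × (𝓞 F)ˣ ≃ Pts J :=
  Equiv.ofBijective (Princ_map J) ⟨Princ_inj J, Princ_surj J⟩

theorem Princ_phi (J : (Ideal (𝓞 F))⁰) (p : Princ_I J × (𝓞 F)ˣ) :
    phi F (mixedEmbedding F (((Princ_map J p).1 : 𝓞 F) : F)) =
      phi F (p.2 • mixedEmbedding F ((Princ_g p.1 : 𝓞 F) : F)) := by
  congr 1
  change mixedEmbedding F (algebraMap (𝓞 F) F ((p.2 : 𝓞 F) * Princ_g p.1)) =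
    mixedEmbedding F (algebraMap (𝓞 F) F (p.2 : 𝓞 F)) *
      mixedEmbedding F (algebraMap (𝓞 F) F (Princ_g p.1))
  rw [map_mul (algebraMap (𝓞 F) F), map_mul (mixedEmbedding F)]

theorem Princ_norm_ne {J : (Ideal (𝓞 F))⁰} (I : Princ_I J) :
    mixedEmbedding.norm (mixedEmbedding F ((Princ_g I : 𝓞 F) : F)) ≠ 0 := by
  rw [mixedEmbedding.norm_eq_norm]
  have h1 : ((Princ_g I : 𝓞 F) : F) ≠ 0 := by
    intro h
    exact Princ_g_ne I (RingOfIntegers.coe_injective (by rw [map_zero]; exact h))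
  have h2 : Algebra.norm ℚ ((Princ_g I : 𝓞 F) : F) ≠ 0 := Algebra.norm_ne_zero_iff.2 h1
  exact_mod_cast abs_ne_zero.2 h2

theorem Princ_sumPair (J : (Ideal (𝓞 F))⁰) (f : (Ideal (𝓞 F))⁰ → ℂ)
    (hf : Summable (fun I => ‖f I‖)) :
    Summable (fun p : Princ_I J × (𝓞 F)ˣ =>
      phi F (p.2 • mixedEmbedding F ((Princ_g p.1 : 𝓞 F) : F)) * ‖f p.1.1‖) := by
  rw [summable_prod_of_nonneg (fun p => mul_nonneg (phi_nonneg F _) (norm_nonneg _))]
  have h1 : ∀ I : Princ_I J, HasSum (fun u : (𝓞 F)ˣ =>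
      phi F (u • mixedEmbedding F ((Princ_g I : 𝓞 F) : F)) * ‖f I.1‖)
      ((torsionOrder F : ℝ) * ‖f I.1‖) := fun I =>
    (hasSum_units F (Princ_norm_ne I)).mul_right _
  refine ⟨fun I => (h1 I).summable, ?_⟩
  have h2 : (fun I : Princ_I J => ∑' u : (𝓞 F)ˣ,
      phi F (u • mixedEmbedding F ((Princ_g I : 𝓞 F) : F)) * ‖f I.1‖) =
      fun I : Princ_I J => (torsionOrder F : ℝ) * ‖f I.1‖ := by
    funext I
    exact (h1 I).tsum_eq
  change Summable (fun I : Princ_I J => ∑' u : (𝓞 F)ˣ,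
      phi F (u • mixedEmbedding F ((Princ_g I : 𝓞 F) : F)) * ‖f I.1‖)
  rw [h2]
  exact (hf.comp_injective Subtype.val_injective).mul_left _

variable (F)

theorem princ_summable (J : (Ideal (𝓞 F))⁰) (f : (Ideal (𝓞 F))⁰ → ℂ)
    (hf : Summable (fun I => ‖f I‖)) :
    Summable (fun a : Pts J =>
      ‖(phi F (mixedEmbedding F (a.1 : F)) : ℂ) * f (prin a.1 a.2.1)‖) := by
  rw [← (Princ_equiv J).summable_iff]
  refine (Princ_sumPair J f hf).congr fun p => ?_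
  change _ = ‖(phi F (mixedEmbedding F (((Princ_map J p).1 : 𝓞 F) : F)) : ℂ) *
    f (prin (Princ_map J p).1 (Princ_map J p).2.1)‖
  rw [Princ_prin, Princ_phi, norm_mul, Complex.norm_real, Real.norm_eq_abs,
    abs_of_nonneg (phi_nonneg F _)]

theorem princ_sum (J : (Ideal (𝓞 F))⁰) (f : (Ideal (𝓞 F))⁰ → ℂ)
    (hf : Summable (fun I => ‖f I‖)) :
    ∑' a : Pts J, (phi F (mixedEmbedding F (a.1 : F)) : ℂ) * f (prin a.1 a.2.1) =
      (torsionOrder F : ℂ) *
        ∑' I : {I : (Ideal (𝓞 F))⁰ // J ∣ I ∧ (I : Ideal (𝓞 F)).IsPrincipal}, f I.1 := by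
  have hterm : ∀ p : Princ_I J × (𝓞 F)ˣ,
      (phi F (mixedEmbedding F (((Princ_equiv J p).1 : 𝓞 F) : F)) : ℂ) *
        f (prin (Princ_equiv J p).1 (Princ_equiv J p).2.1) =
      (phi F (p.2 • mixedEmbedding F ((Princ_g p.1 : 𝓞 F) : F)) : ℂ) * f p.1.1 := by
    intro p
    change (phi F (mixedEmbedding F (((Princ_map J p).1 : 𝓞 F) : F)) : ℂ) *
      f (prin (Princ_map J p).1 (Princ_map J p).2.1) = _
    rw [Princ_prin, Princ_phi]
  have hs : Summable (fun p : Princ_I J × (𝓞 F)ˣ =>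
      (phi F (p.2 • mixedEmbedding F ((Princ_g p.1 : 𝓞 F) : F)) : ℂ) * f p.1.1) := by
    refine Summable.of_norm ((Princ_sumPair J f hf).congr fun p => ?_)
    rw [norm_mul, Complex.norm_real, Real.norm_eq_abs, abs_of_nonneg (phi_nonneg F _)]
  rw [← (Princ_equiv J).tsum_eq, tsum_congr hterm, hs.tsum_prod, ← tsum_mul_left]
  refine tsum_congr fun I => ?_
  have h1 : HasSum (fun u : (𝓞 F)ˣ =>
      ((phi F (u • mixedEmbedding F ((Princ_g I : 𝓞 F) : F)) : ℝ) : ℂ))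
      (((torsionOrder F : ℝ) : ℝ) : ℂ) :=
    Complex.hasSum_ofReal.2 (hasSum_units F (Princ_norm_ne I))
  have h2 := (h1.mul_right (f I.1)).tsum_eq
  rw [Complex.ofReal_natCast] at h2
  exact h2

end Pool.Agent.Cheb
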