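import Pool.Agent.Chebotarev_h15.Defs
import Pool.Agent.W_f569db_h62.NTD

/-!
# Convergence of the sums over ideals and primes

`Zid_asymp` of `W_f569db_h62/NTD.lean` says that the sum over the nonzero ideals (in `ℝ≥0∞`) is
finite for `1 < s < s₀`; for larger `s` by monotonicity (`N I ≥ 1`).
Primes are among the ideals (or `Pool.Agent.T10.all_summable` of `W_b4801b_t10/DegOne.lean`).
-/

set_option autoImplicit false

noncomputable section

open Filter Topology NumberField IsDedekindDomain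
open scoped nonZeroDivisors

namespace Pool.Agent.Cheb

variable (F : Type) [Field F] [NumberField F]

theorem Sum_comp {α β : Type*} {f : β → ℝ} {g : α → ℝ} (e : α → β)
    (he : Function.Injective e) (hf : Summable f) (h : ∀ a, g a = f (e a)) : Summable g := by
  have h1 : g = f ∘ e := funext h
  rw [h1]
  exact hf.comp_injective he

theorem Sum_norm_ge (I : (Ideal (𝓞 F))⁰) : (1 : ℝ) ≤ (Ideal.absNorm (I : Ideal (𝓞 F)) : ℝ) := by
  have h1 : (I : Ideal (𝓞 F)) ≠ ⊥ := nonZeroDivisors.ne_zero I.2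
  have h2 : Ideal.absNorm (I : Ideal (𝓞 F)) ≠ 0 := fun h => h1 (Ideal.absNorm_eq_zero_iff.1 h)
  exact_mod_cast Nat.one_le_iff_ne_zero.2 h2

theorem summable_ideals {s : ℝ} (hs : 1 < s) :
    Summable (fun I : (Ideal (𝓞 F))⁰ => (Ideal.absNorm (I : Ideal (𝓞 F)) : ℝ) ^ (-s)) := by
  obtain ⟨c, C, s₀, hc, hC, hs₀, H⟩ := Pool.Agent.H62D.Zid_asymp F
  obtain ⟨t, ht1, ht2⟩ : ∃ t, 1 < t ∧ t < min s s₀ := exists_between (lt_min hs hs₀)
  have h1 := (H t ht1 (ht2.trans_le (min_le_right _ _))).2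
  have h2 : ∑' I : {I : Ideal (𝓞 F) // I ≠ ⊥},
      ENNReal.ofReal ((Ideal.absNorm I.1 : ℝ) ^ (-t)) ≠ ⊤ :=
    ne_top_of_le_ne_top ENNReal.ofReal_ne_top h1
  have h3 := ENNReal.summable_toReal h2
  have h4 : Summable (fun I : {I : Ideal (𝓞 F) // I ≠ ⊥} => (Ideal.absNorm I.1 : ℝ) ^ (-t)) := by
    refine h3.congr fun I => ?_
    rw [ENNReal.toReal_ofReal (by positivity)]
  let e : (Ideal (𝓞 F))⁰ → {I : Ideal (𝓞 F) // I ≠ ⊥} :=
    fun I => ⟨I.1, nonZeroDivisors.ne_zero I.2⟩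
  have he : Function.Injective e := fun I J h => Subtype.ext (congrArg (fun x => x.1) h)
  have h5 : Summable (fun I : (Ideal (𝓞 F))⁰ => (Ideal.absNorm (I : Ideal (𝓞 F)) : ℝ) ^ (-t)) :=
    Sum_comp e he h4 fun I => by rfl
  refine Summable.of_nonneg_of_le (fun I => by positivity) (fun I => ?_) h5
  refine Real.rpow_le_rpow_of_exponent_le (Sum_norm_ge F I) ?_
  have := ht2.trans_le (min_le_left s s₀)
  linarith

theorem Sum_prime_inj : Function.Injective fun P : HeightOneSpectrum (𝓞 F) =>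
    (⟨P.asIdeal, mem_nonZeroDivisors_of_ne_zero P.ne_bot⟩ : (Ideal (𝓞 F))⁰) := by
  intro P Q h
  have h1 : P.asIdeal = Q.asIdeal := congrArg (fun x : (Ideal (𝓞 F))⁰ => (x : Ideal (𝓞 F))) h
  exact HeightOneSpectrum.ext h1

theorem summable_Lterm {m : ℕ} (χ : DirichletCharacter ℂ m) {s : ℝ} (hs : 1 < s) :
    Summable (fun I : (Ideal (𝓞 F))⁰ => ‖Lterm F χ s I‖) := by
  refine Summable.of_nonneg_of_le (fun I => norm_nonneg _) (fun I => ?_) (summable_ideals F hs)
  have h0 : (0 : ℝ) ≤ (Ideal.absNorm (I : Ideal (𝓞 F)) : ℝ) ^ (-s) := by positivity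
  rw [Lterm, norm_mul, Complex.norm_real, Real.norm_eq_abs, abs_of_nonneg h0]
  calc _ ≤ 1 * (Ideal.absNorm (I : Ideal (𝓞 F)) : ℝ) ^ (-s) :=
        mul_le_mul_of_nonneg_right (χ.norm_le_one _) h0
    _ = _ := one_mul _

theorem summable_primes {s : ℝ} (hs : 1 < s) :
    Summable (fun P : HeightOneSpectrum (𝓞 F) => (Ideal.absNorm P.asIdeal : ℝ) ^ (-s)) :=
  Sum_comp _ (Sum_prime_inj F) (summable_ideals F hs) fun P => by rfl

theorem summable_pw {m : ℕ} (χ : DirichletCharacter ℂ m) {s : ℝ} (hs : 1 < s) :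
    Summable (fun P : HeightOneSpectrum (𝓞 F) => ‖pw F χ s P‖) := by
  refine Summable.of_nonneg_of_le (fun P => norm_nonneg _) (fun P => ?_) (summable_primes F hs)
  have h0 : (0 : ℝ) ≤ (Ideal.absNorm P.asIdeal : ℝ) ^ (-s) := by positivity
  rw [pw, norm_mul, Complex.norm_real, Real.norm_eq_abs, abs_of_nonneg h0]
  calc _ ≤ 1 * (Ideal.absNorm P.asIdeal : ℝ) ^ (-s) :=
        mul_le_mul_of_nonneg_right (χ.norm_le_one _) h0
    _ = _ := one_mul _

end Pool.Agent.Cheb
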