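import Pool.Agent.Chebotarev_h15.ClA
import Pool.Agent.Chebotarev_h15.ClB
import Pool.Agent.Chebotarev_h15.Princ
import Pool.Agent.Chebotarev_h15.Sum

/-!
# Decomposition of the L-series over the ideal classes

* `exists_coprime_rep`: every ideal class contains an integral ideal prime to `m` (Mathlib may have
  it: search for `ClassGroup` and `IsCoprime`; otherwise: let `I` be in the class of `C`; by the
  Chinese remainder theorem there is `a ∈ I`, `a ∉ P I` for all primes `P ∣ m`; then `(a) = I J`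
  with `J` prime to `m` and `J` in the class `C⁻¹`).
* `class_sum`: `I ↦ I * J` is a bijection of the ideals of class `C` to the principal ideals
  divisible by `J` (as in Mathlib's `NumberField.Ideal.tendsto_norm_le_and_mk_eq_div_atTop_aux₁`:
  `Equiv.dvd J`, `ClassGroup.mk0_eq_one_iff`).
* `Lser_eq`: `χ(N I) N I^(-s) = (χ(N J))⁻¹ N J^s χ(N (I J)) N (I J)^(-s)`, `class_sum`,
  `princ_sum`; `χ(N J) ≠ 0` as `N J` is prime to `m`
  (`absNorm` of an ideal prime to `m` is prime to `m`: a prime `p ∣ m` dividing `N J` gives a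
  prime `P ∣ J` with `p ∈ P`).
-/

set_option autoImplicit false

noncomputable section

open Filter Topology NumberField NumberField.mixedEmbedding NumberField.Units MeasureTheory
open scoped nonZeroDivisors

open scoped Classical

namespace Pool.Agent.Cheb

variable (F : Type) [Field F] [NumberField F]

theorem ClC_absNorm_ne (J : (Ideal (𝓞 F))⁰) : Ideal.absNorm (J : Ideal (𝓞 F)) ≠ 0 := by
  rw [Ne, Ideal.absNorm_eq_zero_iff]
  exact nonZeroDivisors.coe_ne_zero J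

theorem ClC_term (m : ℕ) [NeZero m] (χ : DirichletCharacter ℂ m) (J : (Ideal (𝓞 F))⁰)
    (hcop : IsCoprime (J : Ideal (𝓞 F)) (Ideal.span {(m : 𝓞 F)})) (s : ℝ)
    (I : (Ideal (𝓞 F))⁰) :
    Lterm F χ s I = (χ ((Ideal.absNorm (J : Ideal (𝓞 F)) : ℕ) : ZMod m))⁻¹ *
      ((((Ideal.absNorm (J : Ideal (𝓞 F)) : ℝ) ^ s : ℝ) : ℂ) * Lterm F χ s (I * J)) := by
  have hc := absNorm_coprime F m J hcop
  have hu : IsUnit ((Ideal.absNorm (J : Ideal (𝓞 F)) : ℕ) : ZMod m) :=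
    (ZMod.isUnit_iff_coprime _ _).mpr hc
  have hχ : χ ((Ideal.absNorm (J : Ideal (𝓞 F)) : ℕ) : ZMod m) ≠ 0 := by
    intro h0
    exact (hu.map χ).ne_zero h0
  have hN : (0 : ℝ) < (Ideal.absNorm (J : Ideal (𝓞 F)) : ℝ) := by
    have := ClC_absNorm_ne F J
    positivity
  have hNI : (0 : ℝ) ≤ (Ideal.absNorm (I : Ideal (𝓞 F)) : ℝ) := Nat.cast_nonneg _
  unfold Lterm
  have e1 : Ideal.absNorm ((I * J : (Ideal (𝓞 F))⁰) : Ideal (𝓞 F)) =
      Ideal.absNorm (I : Ideal (𝓞 F)) * Ideal.absNorm (J : Ideal (𝓞 F)) := by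
    rw [Submonoid.coe_mul, map_mul]
  rw [e1]
  push_cast
  rw [map_mul, Real.mul_rpow hNI hN.le]
  push_cast
  have e2 : (((Ideal.absNorm (J : Ideal (𝓞 F)) : ℝ) ^ s : ℝ) : ℂ) *
      (((Ideal.absNorm (J : Ideal (𝓞 F)) : ℝ) ^ (-s) : ℝ) : ℂ) = 1 := by
    rw [← Complex.ofReal_mul, ← Real.rpow_add hN, add_neg_cancel, Real.rpow_zero,
      Complex.ofReal_one]
  generalize (((Ideal.absNorm (J : Ideal (𝓞 F)) : ℝ) ^ s : ℝ) : ℂ) = A at *
  generalize (((Ideal.absNorm (J : Ideal (𝓞 F)) : ℝ) ^ (-s) : ℝ) : ℂ) = B at *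
  field_simp
  linear_combination (-(χ ((Ideal.absNorm (I : Ideal (𝓞 F)) : ℕ) : ZMod m)) *
    (((Ideal.absNorm (I : Ideal (𝓞 F)) : ℝ) ^ (-s) : ℝ) : ℂ)) * e2

theorem Lser_eq (m : ℕ) [NeZero m] (χ : DirichletCharacter ℂ m)
    (J : ClassGroup (𝓞 F) → (Ideal (𝓞 F))⁰) (hJ : ∀ C, ClassGroup.mk0 (J C) = C⁻¹)
    (hcop : ∀ C, IsCoprime (J C : Ideal (𝓞 F)) (Ideal.span {(m : 𝓞 F)}))
    {s : ℝ} (hs : 1 < s) :
    Lser F χ s = (torsionOrder F : ℂ)⁻¹ *
      ∑ C : ClassGroup (𝓞 F),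
        (χ ((Ideal.absNorm (J C : Ideal (𝓞 F)) : ℕ) : ZMod m))⁻¹ * Asum F χ (J C) s := by
  have hsum : Summable (fun I : (Ideal (𝓞 F))⁰ => Lterm F χ s I) :=
    (summable_Lterm F χ hs).of_norm
  have h1 := hsum.hasSum.tsum_fiberwise (fun I : (Ideal (𝓞 F))⁰ => ClassGroup.mk0 I)
  have h2 := h1.unique (hasSum_fintype _)
  have ht : (torsionOrder F : ℂ) ≠ 0 := by
    have := torsionOrder_ne_zero F
    exact_mod_cast this
  unfold Lser
  rw [h2, Finset.mul_sum]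
  refine Finset.sum_congr rfl fun C _ => ?_
  have h3 : ∑' b : (fun I : (Ideal (𝓞 F))⁰ => ClassGroup.mk0 I) ⁻¹' {C}, Lterm F χ s b =
      ∑' I : {I : (Ideal (𝓞 F))⁰ // ClassGroup.mk0 I = C},
        (χ ((Ideal.absNorm (J C : Ideal (𝓞 F)) : ℕ) : ZMod m))⁻¹ *
      ((((Ideal.absNorm (J C : Ideal (𝓞 F)) : ℝ) ^ s : ℝ) : ℂ) * Lterm F χ s (I.1 * J C)) := by
    refine tsum_congr fun I => ?_
    exact ClC_term F m χ (J C) (hcop C) s I.1
  rw [h3, tsum_mul_left, tsum_mul_left, class_sum F (fun I => Lterm F χ s I) C (J C) (hJ C)]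
  unfold Asum
  rw [princ_sum F (J C) (fun I => Lterm F χ s I) (summable_Lterm F χ hs)]
  field_simp

end Pool.Agent.Cheb
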