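import Pool.Agent.W_f569db_h62.NTD

/-!
# Decomposition of the L-series over the ideal classes

* `exists_coprime_rep`: every ideal class contains an integral ideal prime to `m` (Mathlib may have
  it: search for `ClassGroup` and `IsCoprime`; otherwise: let `I` be in the class of `C`; by the
  Chinese remainder theorem there is `a ∈ I`, `a ∉ P I` for all primes `P ∣ m`; then `(a) = I J`
  with `J` prime to `m` and `J` in the class `C⁻¹`).
* `class_sum`: `I ↦ I * J` is a bijection of the ideals of class `C` to the principal ideals
  divisible by `J` (as in Mathlib's `NumberField.Ideal.tendsto_norm_le_and_mk_eq_div_atTop_aux₁`: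
  `Equiv.dvd J`, `ClassGroup.mk0_eq_one_iff`).
* `Lser_eq`: `χ(N I) N I^(-s) = (χ(N J))⁻¹ N J^s χ(N (I J)) N (I J)^(-s)`, `class_sum`,
  `princ_sum`; `χ(N J) ≠ 0` as `N J` is prime to `m`
  (`absNorm` of an ideal prime to `m` is prime to `m`: a prime `p ∣ m` dividing `N J` gives a
  prime `P ∣ J` with `p ∈ P`).
-/

set_option autoImplicit false

noncomputable section

open Filter Topology NumberField NumberField.mixedEmbedding NumberField.Units MeasureTheory
open scoped nonZeroDivisors

open scoped Classical

namespace Pool.Agent.Cheb

variable (F : Type) [Field F] [NumberField F]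

end Pool.Agent.Cheb
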