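import Pool.Agent.Chebotarev_h15.HfunC

/-!
# The family `gfun` is nice

`n = finrank ℚ F = finrank ℝ (mixedSpace F)` (`mixedEmbedding.finrank`), `δ` from
`phi_comparable`.

* `hfun_le`: if `phi F x ≠ 0` then `norm x = ∏ (normAtPlace w x)^(mult w) ≥ (δ ‖x‖)^n`.
* `phi_sub`: `|phi F x - phi F y| ≤ C ‖x - y‖ / ‖x‖` whenever `phi F x ≠ 0` and
  `‖x - y‖ ≤ (δ/2) ‖x‖`: then `normAtPlace w y ≥ (1/2) normAtPlace w x` for all `w`, and
  `|log ‖y‖_w - log ‖x‖_w| ≤ 2 ‖x - y‖ / (δ ‖x‖)`; so `logMap y - logMap x` is at most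
  `C ‖x - y‖/‖x‖`, the coordinates are linear functions of `logMap`, and `T` is Lipschitz with
  values in `[0, 1]` (product of factors).  Same estimate for
  `|log (norm y) - log (norm x)|` (`norm_log_sub`).
* `hfun_sub`: let `‖x - y‖ ≤ ‖x‖/2` (so `‖y‖ ≥ ‖x‖/2`).  If `‖x - y‖ > (δ/4) ‖x‖`: trivial by
  `hfun_le`.  Otherwise, if `phi F x ≠ 0` or `phi F y ≠ 0` (exchange the roles: `‖y‖ ≥ ‖x‖/2`),
  use `phi_sub`, `norm_log_sub`, `ε x = ε y` (`IsEps.loc`, as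
  `|x_w - y_w| ≤ ‖x - y‖ < δ ‖x‖ ≤ |x_w|`) and
  `|a^(-s) - b^(-s)| ≤ C a^(-s) |log a - log b|` for `|log a - log b| ≤ C'`.
* `nice_gfun`: `dec` from `hfun_le` (`‖x‖ ≥ 1`); `diff`: for `‖x‖ ≥ R₀ = 4 R + 4` both `‖x‖` and
  `‖y‖` are `≥ 1` and `hfun_sub` applies (and `‖x‖^(-n s) / ‖x‖ ≤ ‖x‖^(-n-1)`), for smaller
  `‖x‖` both values are bounded.
-/

set_option autoImplicit false

noncomputable section

open Filter Topology NumberField NumberField.mixedEmbedding NumberField.Units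

open scoped Classical

namespace Pool.Agent.Cheb

variable (F : Type) [Field F] [NumberField F]

/-- For `1 ≤ t` and `0 ≤ a ≤ b` we have `t^(-a) ≤ 2^b (1 + t)^(-a)`. -/
theorem HfunD_pow {t a b : ℝ} (ht : 1 ≤ t) (ha : 0 ≤ a) (hab : a ≤ b) :
    t ^ (-a) ≤ 2 ^ b * (1 + t) ^ (-a) := by
  have ht0 : 0 < t := by linarith
  have h1 : (1 + t) ^ a ≤ 2 ^ b * t ^ a := by
    calc (1 + t) ^ a ≤ (2 * t) ^ a := Real.rpow_le_rpow (by linarith) (by linarith) ha
      _ = 2 ^ a * t ^ a := Real.mul_rpow (by norm_num) ht0.le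
      _ ≤ 2 ^ b * t ^ a := mul_le_mul_of_nonneg_right
          (Real.rpow_le_rpow_of_exponent_le (by norm_num) hab) (Real.rpow_nonneg ht0.le _)
  have h2 : 0 < t ^ a := Real.rpow_pos_of_pos ht0 _
  have h3 : 0 < (1 + t) ^ a := Real.rpow_pos_of_pos (by linarith) _
  rw [Real.rpow_neg ht0.le, Real.rpow_neg (by linarith), inv_eq_one_div, div_le_iff₀ h2,
    inv_eq_one_div, mul_one_div, div_mul_eq_mul_div, le_div_iff₀ h3]
  linarith

theorem HfunD_measurable (ε : mixedSpace F → ℝ) (hε : IsEps F ε) (s : ℝ) :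
    Measurable (gfun F ε s) := by
  unfold gfun hfun
  refine Measurable.ite (measurableSet_le measurable_const measurable_norm) ?_ measurable_const
  exact (hε.meas.mul (phi_measurable F)).mul
    ((mixedEmbedding.continuous_norm F).measurable.pow_const _)

theorem HfunD_dec (ε : mixedSpace F → ℝ) (hε : IsEps F ε) :
    ∃ C : ℝ, 0 < C ∧ ∀ s ∈ Set.Icc (1 : ℝ) 2, ∀ x : mixedSpace F,
      |gfun F ε s x| ≤ C * (1 + ‖x‖) ^ (-((Module.finrank ℚ F : ℝ) * s)) := by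
  obtain ⟨C, hC, h⟩ := hfun_le F ε hε
  set n : ℝ := (Module.finrank ℚ F : ℝ) with hn
  have hn0 : 0 ≤ n := Nat.cast_nonneg _
  refine ⟨C * 2 ^ (n * 2), by positivity, fun s hs x => ?_⟩
  have h0 : 0 ≤ (1 + ‖x‖) ^ (-(n * s)) := Real.rpow_nonneg (by positivity) _
  by_cases hx : 1 ≤ ‖x‖
  · have hx0 : x ≠ 0 := by
      rintro rfl
      rw [norm_zero] at hx
      linarith
    have e1 : gfun F ε s x = hfun F ε s x := if_pos hx
    rw [e1]
    refine (h s hs x hx0).trans ?_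
    rw [mul_assoc]
    refine mul_le_mul_of_nonneg_left ?_ hC.le
    exact HfunD_pow hx (mul_nonneg hn0 (by linarith [hs.1]))
      (mul_le_mul_of_nonneg_left hs.2 hn0)
  · have e1 : gfun F ε s x = 0 := if_neg hx
    rw [e1, abs_zero]
    positivity

theorem HfunD_diff (ε : mixedSpace F → ℝ) (hε : IsEps F ε) (R : ℝ) :
    ∃ C : ℝ, ∀ s ∈ Set.Icc (1 : ℝ) 2, ∀ x y : mixedSpace F, ‖x - y‖ ≤ R →
      |gfun F ε s x - gfun F ε s y| ≤ C * (1 + ‖x‖) ^ (-((Module.finrank ℚ F : ℝ) + 1)) := by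
  obtain ⟨C₁, hC₁, h₁⟩ := HfunD_dec F ε hε
  obtain ⟨C₂, hC₂, h₂⟩ := hfun_sub F ε hε
  set n : ℝ := (Module.finrank ℚ F : ℝ) with hn
  have hn0 : 0 ≤ n := Nat.cast_nonneg _
  set A : ℝ := 4 * |R| + 4 with hA
  have hA4 : 4 ≤ A := by have := abs_nonneg R; linarith
  refine ⟨max (2 * C₁ * (1 + A) ^ (n + 1)) (C₂ * |R| * 2 ^ (n + 1)), fun s hs x y hxy => ?_⟩
  have hxy' : ‖x - y‖ ≤ |R| := hxy.trans (le_abs_self R)
  have hp0 : 0 < (1 + ‖x‖) ^ (-(n + 1)) := Real.rpow_pos_of_pos (by positivity) _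
  have hxn := norm_nonneg x
  by_cases hx : A ≤ ‖x‖
  · refine le_trans ?_ (mul_le_mul_of_nonneg_right (le_max_right _ _) hp0.le)
    have hyx : ‖x‖ ≤ ‖x - y‖ + ‖y‖ := by
      have := norm_add_le (x - y) y
      rwa [sub_add_cancel] at this
    have hx1 : 1 ≤ ‖x‖ := by linarith
    have hy1 : 1 ≤ ‖y‖ := by
      have := abs_nonneg R
      linarith
    have hx0 : x ≠ 0 := by
      rintro rfl
      rw [norm_zero] at hx1
      linarith
    have e1 : gfun F ε s x = hfun F ε s x := if_pos hx1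
    have e2 : gfun F ε s y = hfun F ε s y := if_pos hy1
    rw [e1, e2]
    refine (h₂ s hs x y hx0 (by have := abs_nonneg R; linarith)).trans ?_
    have hxp : 0 < ‖x‖ := by linarith
    have h3 : ‖x‖ ^ (-(n * s)) ≤ ‖x‖ ^ (-n) := by
      refine Real.rpow_le_rpow_of_exponent_le hx1 ?_
      have := mul_le_mul_of_nonneg_left hs.1 hn0
      linarith
    have h4 : 0 ≤ ‖x‖ ^ (-(n * s)) := Real.rpow_nonneg hxn _
    have h5 : ‖x - y‖ / ‖x‖ ≤ |R| / ‖x‖ := div_le_div_of_nonneg_right hxy' hxn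
    have h6 : ‖x‖ ^ (-(n + 1)) = 1 / ‖x‖ * ‖x‖ ^ (-n) := by
      rw [neg_add, Real.rpow_add hxp, Real.rpow_neg_one]
      ring
    calc C₂ * (‖x - y‖ / ‖x‖) * ‖x‖ ^ (-(n * s))
        ≤ C₂ * (|R| / ‖x‖) * ‖x‖ ^ (-n) := by
          refine mul_le_mul (mul_le_mul_of_nonneg_left h5 hC₂.le) h3 h4 ?_
          have := abs_nonneg R
          positivity
      _ = C₂ * |R| * ‖x‖ ^ (-(n + 1)) := by rw [h6]; ring
      _ ≤ C₂ * |R| * (2 ^ (n + 1) * (1 + ‖x‖) ^ (-(n + 1))) := by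
          refine mul_le_mul_of_nonneg_left (HfunD_pow hx1 (by linarith) le_rfl) ?_
          have := abs_nonneg R
          positivity
      _ = C₂ * |R| * 2 ^ (n + 1) * (1 + ‖x‖) ^ (-(n + 1)) := by ring
  · refine le_trans ?_ (mul_le_mul_of_nonneg_right (le_max_left _ _) hp0.le)
    have hb : ∀ z : mixedSpace F, |gfun F ε s z| ≤ C₁ := by
      intro z
      refine (h₁ s hs z).trans ?_
      have hz := norm_nonneg z
      have h3 : (1 + ‖z‖) ^ (-(n * s)) ≤ 1 := by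
        refine Real.rpow_le_one_of_one_le_of_nonpos (by linarith) ?_
        have := mul_nonneg hn0 (show 0 ≤ s by linarith [hs.1])
        linarith
      calc C₁ * (1 + ‖z‖) ^ (-(n * s)) ≤ C₁ * 1 := mul_le_mul_of_nonneg_left h3 hC₁.le
        _ = C₁ := mul_one _
    have h4 : |gfun F ε s x - gfun F ε s y| ≤ 2 * C₁ := by
      refine (abs_sub _ _).trans ?_
      linarith [hb x, hb y]
    refine h4.trans ?_
    have h5 : 1 ≤ (1 + A) ^ (n + 1) * (1 + ‖x‖) ^ (-(n + 1)) := by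
      rw [Real.rpow_neg (by positivity), ← div_eq_mul_inv, le_div_iff₀ (by positivity), one_mul]
      exact Real.rpow_le_rpow (by positivity) (by linarith [not_le.1 hx]) (by linarith)
    calc 2 * C₁ = 2 * C₁ * 1 := (mul_one _).symm
      _ ≤ 2 * C₁ * ((1 + A) ^ (n + 1) * (1 + ‖x‖) ^ (-(n + 1))) :=
          mul_le_mul_of_nonneg_left h5 (by positivity)
      _ = 2 * C₁ * (1 + A) ^ (n + 1) * (1 + ‖x‖) ^ (-(n + 1)) := by ring

theorem nice_gfun (ε : mixedSpace F → ℝ) (hε : IsEps F ε) : Nice (gfun F ε) := by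
  have hfr : Module.finrank ℝ (mixedSpace F) = Module.finrank ℚ F := mixedEmbedding.finrank F
  refine ⟨fun s _ => HfunD_measurable F ε hε s, ?_, ?_, ?_⟩
  · obtain ⟨C, _, h⟩ := HfunD_dec F ε hε
    exact ⟨C, by rw [hfr]; exact h⟩
  · intro R
    obtain ⟨C, h⟩ := HfunD_diff F ε hε R
    exact ⟨C, by rw [hfr]; exact h⟩
  · intro x
    by_cases hx : 1 ≤ ‖x‖
    · have e1 : ∀ s, gfun F ε s x = hfun F ε s x := fun s => if_pos hx
      simp only [e1]
      exact hfun_cont F ε x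
    · have e1 : ∀ s, gfun F ε s x = 0 := fun s => if_neg hx
      simp only [e1]
      exact tendsto_const_nhds

end Pool.Agent.Cheb
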