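import Pool.Agent.Chebotarev_h15.LatA

/-!
# Sums of a nice family over a coset of a lattice

`n = dim E`, `D` a fundamental domain of `Λ` (bounded, of volume `covolume Λ μ`).

* `Nice.integrable`: `integrable_one_add_norm` (`n * s > n`) and `dec`.
* `Nice.summable`: `ZLattice.summable_norm_sub_rpow` (exponent `-n s < -n = -finrank ℤ Λ`,
  `ZLattice.rank`) with `‖v + x‖ ≤ 1 + ‖v + x‖`; finitely many (at most one) `x` with `v + x = 0`
  do not matter.
* `Nice.smul`: scaling; `(1 + ‖t • x‖) ≥ min 1 t * (1 + ‖x‖)`.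
* `Nice.lattice`: for `1 < s ≤ 2`
  `covol * ∑ G s (v + x) - ∫ G s = ∑_x ∫_{y ∈ D} (G s (v + x) - G s (v + x + y)) dy`
  (`IsAddFundamentalDomain.integral_eq_tsum`, `∫ G s = ∫ G s (v + ·)`), and the right side
  converges for `s → 1+` by dominated convergence: the terms are at most
  `covol * C * (1 + ‖v + x‖)^(-(n + 1))` (`diff` with `R` = a bound of the norm on `D`), summable,
  and each term converges (`tendsto_integral_filter_of_dominated_convergence` on `D`, `cont`).
-/

set_option autoImplicit false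

noncomputable section

open Filter Topology MeasureTheory

namespace Pool.Agent.Cheb

variable {E : Type} [NormedAddCommGroup E] [NormedSpace ℝ E] [FiniteDimensional ℝ E]
  [MeasurableSpace E] [BorelSpace E]

omit [MeasurableSpace E] [BorelSpace E] in
theorem LatB_summable (Λ : Submodule ℤ E) [DiscreteTopology Λ] [IsZLattice ℝ Λ] (v : E) :
    Summable (fun x : Λ => (1 + ‖v + (x : E)‖) ^ (-((Module.finrank ℝ E : ℝ) + 1))) := by
  classical
  have hr : -((Module.finrank ℝ E : ℝ) + 1) < -(Module.finrank ℤ Λ : ℝ) := by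
    rw [ZLattice.rank ℝ Λ]
    linarith
  have h1 := ZLattice.summable_norm_sub_rpow Λ (-((Module.finrank ℝ E : ℝ) + 1)) hr (-v)
  have h2 : Summable (fun x : Λ => (if v + (x : E) = 0 then (1 : ℝ) else 0)) := by
    refine summable_of_hasFiniteSupport ((Set.Subsingleton.finite ?_))
    intro x hx y hy
    have hx' : v + (x : E) = 0 := by
      by_contra h
      exact hx (if_neg h)
    have hy' : v + (y : E) = 0 := by
      by_contra h
      exact hy (if_neg h)
    exact Subtype.ext (add_left_cancel (hx'.trans hy'.symm))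
  refine Summable.of_nonneg_of_le (fun x => by positivity) (fun x => ?_) (h1.add h2)
  have e : ‖(x : E) - -v‖ = ‖v + (x : E)‖ := by
    rw [sub_neg_eq_add, add_comm]
  by_cases h : v + (x : E) = 0
  · rw [if_pos h, e, h, norm_zero, add_zero, Real.one_rpow]
    have : 0 ≤ (0 : ℝ) ^ (-((Module.finrank ℝ E : ℝ) + 1)) := Real.rpow_nonneg le_rfl _
    linarith
  · rw [if_neg h, e, add_zero]
    have h3 : 0 < ‖v + (x : E)‖ := norm_pos_iff.2 h
    exact Real.rpow_le_rpow_of_nonpos h3 (by linarith)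
      (by have : (0 : ℝ) ≤ Module.finrank ℝ E := Nat.cast_nonneg _
          linarith)

theorem Nice.lattice (μ : Measure E) [μ.IsAddHaarMeasure] {G : ℝ → E → ℝ} (hG : Nice G)
    (hn : 0 < Module.finrank ℝ E)
    (Λ : Submodule ℤ E) [DiscreteTopology Λ] [IsZLattice ℝ Λ] (v : E) :
    ∃ ℓ : ℝ, Tendsto (fun s : ℝ => (∑' x : Λ, G s (v + (x : E))) -
      (∫ x, G s x ∂μ) / ZLattice.covolume Λ μ) (𝓝[>] 1) (𝓝 ℓ) := by
  classical
  have hMV : MeasurableVAdd Λ E := (inferInstance : MeasurableVAdd Λ.toAddSubgroup E)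
  have hVI : VAddInvariantMeasure Λ E μ :=
    (inferInstance : VAddInvariantMeasure Λ.toAddSubgroup E μ)
  set b := Module.Free.chooseBasis ℤ Λ with hb
  set D : Set E := ZSpan.fundamentalDomain (b.ofZLatticeBasis ℝ) with hD
  have hfd : IsAddFundamentalDomain Λ D μ := ZLattice.isAddFundamentalDomain b μ
  have hDb : Bornology.IsBounded D := ZSpan.fundamentalDomain_isBounded _
  have hDm : MeasurableSet D := ZSpan.fundamentalDomain_measurableSet _
  have hDlt : μ D < ⊤ := hDb.measure_lt_top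
  set c : ℝ := ZLattice.covolume Λ μ with hc
  have hcD : c = μ.real D := ZLattice.covolume_eq_measure_fundamentalDomain Λ μ hfd
  have hc0 : 0 < c := ZLattice.covolume_pos Λ μ
  obtain ⟨R, hR⟩ := hDb.exists_norm_le
  obtain ⟨C, hC⟩ := hG.diff R
  set w : Λ → ℝ := fun x => C * (1 + ‖v + (x : E)‖) ^ (-((Module.finrank ℝ E : ℝ) + 1)) with hw
  have hwS : Summable w := (LatB_summable Λ v).mul_left C
  set g : ℝ → Λ → ℝ := fun s x => ∫ y in D, (G s (v + x) - G s (v + x + y)) ∂μ with hg
  have hpt : ∀ s ∈ Set.Icc (1 : ℝ) 2, ∀ (x : Λ), ∀ y ∈ D,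
      ‖G s (v + x) - G s (v + x + y)‖ ≤ w x := by
    intro s hs x y hy
    refine hC s hs (v + x) (v + x + y) ?_
    have e : v + (x : E) - (v + x + y) = -y := by abel
    rw [e, norm_neg]
    exact hR y hy
  have hbd : ∀ s ∈ Set.Icc (1 : ℝ) 2, ∀ x, ‖g s x‖ ≤ w x * c := by
    intro s hs x
    rw [hcD]
    exact norm_setIntegral_le_of_norm_le_const hDlt (hpt s hs x)
  have hlim : ∀ x, Tendsto (fun s => g s x) (𝓝[>] 1) (𝓝 (g 1 x)) := by
    intro x
    refine tendsto_integral_filter_of_dominated_convergence (fun _ => w x) ?_ ?_ ?_ ?_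
    · filter_upwards [Ioc_mem_nhdsGT (show (1 : ℝ) < 2 by norm_num)] with s hs
      have hs' : s ∈ Set.Icc (1 : ℝ) 2 := ⟨hs.1.le, hs.2⟩
      have hm := hG.meas s hs'
      exact (measurable_const.sub (hm.comp (measurable_const.add measurable_id))).aestronglyMeasurable
    · filter_upwards [Ioc_mem_nhdsGT (show (1 : ℝ) < 2 by norm_num)] with s hs
      have hs' : s ∈ Set.Icc (1 : ℝ) 2 := ⟨hs.1.le, hs.2⟩
      exact (ae_restrict_mem hDm).mono fun y hy => hpt s hs' x y hy
    · exact integrableOn_const hDlt.ne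
    · exact Eventually.of_forall fun y => (hG.cont _).sub (hG.cont _)
  have htend : Tendsto (fun s => ∑' x, g s x) (𝓝[>] 1) (𝓝 (∑' x, g 1 x)) := by
    refine tendsto_tsum_of_dominated_convergence (bound := fun x => w x * c) (hwS.mul_right c)
      hlim ?_
    filter_upwards [Ioc_mem_nhdsGT (show (1 : ℝ) < 2 by norm_num)] with s hs
    exact hbd s ⟨hs.1.le, hs.2⟩
  refine ⟨(∑' x, g 1 x) / c, (htend.div_const c).congr' ?_⟩
  filter_upwards [Ioc_mem_nhdsGT (show (1 : ℝ) < 2 by norm_num)] with s hs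
  have hs' : s ∈ Set.Icc (1 : ℝ) 2 := ⟨hs.1.le, hs.2⟩
  have hI : Integrable (G s) μ := hG.integrable μ hn hs.1 hs.2
  have hIv : Integrable (fun y => G s (v + y)) μ := hI.comp_add_left v
  have hint : ∫ x, G s x ∂μ = ∑' x : Λ, ∫ y in D, G s (v + x + y) ∂μ := by
    rw [← integral_add_left_eq_self (G s) v, hfd.integral_eq_tsum'' _ hIv]
    refine tsum_congr fun x => ?_
    refine integral_congr_ae (Eventually.of_forall fun y => ?_)
    change G s (v + ((x : E) + y)) = G s (v + x + y)
    rw [add_assoc]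
  have hgx : ∀ x : Λ, g s x = c * G s (v + x) - ∫ y in D, G s (v + x + y) ∂μ := by
    intro x
    have h1 : IntegrableOn (fun y => G s (v + x + y)) D μ := (hI.comp_add_left (v + x)).integrableOn
    have h2 : IntegrableOn (fun _ : E => G s (v + x)) D μ := integrableOn_const hDlt.ne
    simp only [hg]
    rw [integral_sub h2 h1, setIntegral_const, ← hcD, smul_eq_mul]
  have hS1 : Summable (fun x : Λ => c * G s (v + x)) := (hG.summable hn Λ v hs.1 hs.2).mul_left c
  have hS2 : Summable (g s) := Summable.of_norm_bounded (hwS.mul_right c) (hbd s hs')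
  have hS3 : Summable (fun x : Λ => ∫ y in D, G s (v + x + y) ∂μ) := by
    have : (fun x : Λ => ∫ y in D, G s (v + x + y) ∂μ) =
        fun x : Λ => c * G s (v + x) - g s x := by
      funext x
      rw [hgx]; ring
    rw [this]
    exact hS1.sub hS2
  have hfin : ∑' x, g s x = c * (∑' x : Λ, G s (v + x)) - ∫ x, G s x ∂μ := by
    rw [hint, ← tsum_mul_left, ← hS1.tsum_sub hS3]
    exact tsum_congr hgx
  rw [hfin]
  field_simp

end Pool.Agent.Cheb
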