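import Pool.Agent.Chebotarev_h15.DefsB
import Pool.Agent.Chebotarev_h15.HfunD
import Pool.Agent.Chebotarev_h15.LatB
import Pool.Agent.W_f569db_h62.NTD

/-!
# The sum over the lattice points of an ideal prime to `m`

`n = finrank ℚ F`, `c = 2^(-r₂) √|discr F|`, so `covolume (lat F m J) = m^n N(J) c`
(`covolume_idealLattice`) and `cvol F m = m^n c`.

* `lattice_one`: let `t = N(J)^(-1/n)`.  By homogeneity (`phi_smul`, `IsEps.smul`, `norm_smul`)
  `N(J)^s * hfun ε s y = hfun ε s (t • y)`.  The sum of `hfun ε s (t • (v + x))` over `x` in the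
  lattice is the sum of `gfun ε s (t • (v + x))` plus the finite sum over the `x` with
  `‖t • (v + x)‖ < 1` of `hfun ε s (t • (v + x))`, which converges for `s → 1+` (`hfun_cont`).
  Apply `Nice.lattice` to `(nice_gfun F ε hε).smul`: the integral of `gfun ε s (t • x)` is
  `t^(-n) Iint F ε s = N(J) Iint F ε s` (`Measure.integral_comp_smul`), and
  `N(J) / covolume = 1 / cvol F m`.
* `coset_decomp`: the nonzero elements of `J` are grouped by their classes modulo `m`; the class
  of `c` meets `J` in `v c + m J` (`J ∩ m 𝓞 = m J`, as `J` is prime to `m`), the lattice of `m J` is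
  `lat F m J`, `χ(|N a|) = ε(a) χ(N a)` (`SignRel`), `N a ≡ nq c` (`norm_mod`, `nq_mk`);
  the element `0` contributes `0` because `phi` vanishes at it.  Everything is absolutely summable
  (`princ_summable` with `summable_Lterm`).
* `exists_rep`: `J + (m) = 𝓞 F`.
-/

set_option autoImplicit false

noncomputable section

open Filter Topology NumberField NumberField.mixedEmbedding NumberField.Units MeasureTheory
open scoped nonZeroDivisors

open scoped Classical

namespace Pool.Agent.Cheb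

variable (F : Type) [Field F] [NumberField F]

theorem natCast_ne (m : ℕ) [NeZero m] : (m : 𝓞 F) ≠ 0 := by
  exact_mod_cast NeZero.ne m

/-- The lattice of `m J`. -/
abbrev lat (m : ℕ) [NeZero m] (J : (Ideal (𝓞 F))⁰) : Submodule ℤ (mixedSpace F) :=
  idealLattice F (FractionalIdeal.mk0 F (prin (m : 𝓞 F) (natCast_ne F m) * J))

theorem CoA_scale (ε : mixedSpace F → ℝ) (hε : IsEps F ε) {N t : ℝ} (hN : 0 < N) (ht : 0 < t)
    (htn : t ^ Module.finrank ℚ F = N⁻¹) (s : ℝ) (x : mixedSpace F) :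
    hfun F ε s (t • x) = N ^ s * hfun F ε s x := by
  unfold hfun
  rw [hε.smul t ht, phi_smul F ht, mixedEmbedding.norm_smul, abs_of_pos ht, htn,
    Real.mul_rpow (inv_nonneg.2 hN.le) (mixedEmbedding.norm_nonneg x), Real.inv_rpow hN.le,
    Real.rpow_neg hN.le, inv_inv]
  ring

theorem CoA_finite (Λ : Submodule ℤ (mixedSpace F)) [DiscreteTopology Λ]
    (v : mixedSpace F) {t : ℝ} (ht : 0 < t) :
    {x : Λ | ‖t • (v + (x : mixedSpace F))‖ < 1}.Finite := by
  have h1 : ((Metric.ball (-v) (1 / t)) ∩ (Λ : Set (mixedSpace F))).Finite := by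
    have H : IsClosed (X := mixedSpace F) (Λ : Set (mixedSpace F)) :=
      @AddSubgroup.isClosed_of_discrete _ _ _ _ _ Λ.toAddSubgroup
        (inferInstanceAs (DiscreteTopology Λ))
    exact Metric.finite_isBounded_inter_isClosed DiscreteTopology.isDiscrete
      Metric.isBounded_ball H
  have h2 : {x : Λ | ‖t • (v + (x : mixedSpace F))‖ < 1} ⊆
      (fun x : Λ => (x : mixedSpace F)) ⁻¹'
        ((Metric.ball (-v) (1 / t)) ∩ (Λ : Set (mixedSpace F))) := by
    intro x hx
    refine ⟨?_, x.2⟩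
    have hx' : ‖t • (v + (x : mixedSpace F))‖ < 1 := hx
    rw [_root_.norm_smul, Real.norm_eq_abs, abs_of_pos ht] at hx'
    rw [mem_ball_iff_norm, sub_neg_eq_add, add_comm, lt_div_iff₀ ht]
    linarith
  exact (h1.preimage Subtype.val_injective.injOn).subset h2

theorem CoA_covolume (m : ℕ) [NeZero m] (J : (Ideal (𝓞 F))⁰) :
    ZLattice.covolume (lat F m J) = (Ideal.absNorm (J : Ideal (𝓞 F)) : ℝ) * cvol F m := by
  rw [covolume_idealLattice, FractionalIdeal.coe_mk0, FractionalIdeal.coeIdeal_absNorm, cvol]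
  have h1 : Ideal.absNorm ((prin (m : 𝓞 F) (natCast_ne F m) * J : (Ideal (𝓞 F))⁰) : Ideal (𝓞 F)) =
      m ^ Module.finrank ℚ F * Ideal.absNorm (J : Ideal (𝓞 F)) := by
    rw [Submonoid.coe_mul, map_mul]
    congr 1
    have h2 : ((prin (m : 𝓞 F) (natCast_ne F m) : (Ideal (𝓞 F))⁰) : Ideal (𝓞 F)) =
        Ideal.span {(m : 𝓞 F)} := rfl
    rw [h2, Ideal.absNorm_span_singleton]
    have h3 : ((m : ℕ) : 𝓞 F) = algebraMap ℤ (𝓞 F) (m : ℤ) := by simp
    rw [h3, Algebra.norm_algebraMap, RingOfIntegers.rank]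
    simp
  rw [h1]
  push_cast
  ring

theorem lattice_one (m : ℕ) [NeZero m] (ε : mixedSpace F → ℝ) (hε : IsEps F ε)
    (J : (Ideal (𝓞 F))⁰) (v : mixedSpace F) :
    ∃ ℓ : ℝ, Tendsto (fun s : ℝ => (Ideal.absNorm (J : Ideal (𝓞 F)) : ℝ) ^ s *
      (∑' x : lat F m J, hfun F ε s (v + (x : mixedSpace F))) - Iint F ε s / cvol F m)
      (𝓝[>] 1) (𝓝 ℓ) := by
  obtain ⟨N, hNdef⟩ : ∃ N : ℝ, N = (Ideal.absNorm (J : Ideal (𝓞 F)) : ℝ) := ⟨_, rfl⟩
  have hN : 0 < N := by
    rw [hNdef]
    have : Ideal.absNorm (J : Ideal (𝓞 F)) ≠ 0 := by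
      rw [Ne, Ideal.absNorm_eq_zero_iff]
      exact nonZeroDivisors.coe_ne_zero J
    exact_mod_cast Nat.pos_of_ne_zero this
  have hn : 0 < Module.finrank ℚ F := Module.finrank_pos
  have hn' : 0 < Module.finrank ℝ (mixedSpace F) := by
    rw [mixedEmbedding.finrank]
    exact hn
  obtain ⟨t, htdef⟩ : ∃ t : ℝ, t = N ^ (-((Module.finrank ℚ F : ℝ)⁻¹)) := ⟨_, rfl⟩
  have ht : 0 < t := by
    rw [htdef]
    exact Real.rpow_pos_of_pos hN _
  have htn : t ^ Module.finrank ℚ F = N⁻¹ := by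
    rw [htdef, ← Real.rpow_natCast, ← Real.rpow_mul hN.le]
    have h1 : -((Module.finrank ℚ F : ℝ)⁻¹) * (Module.finrank ℚ F : ℝ) = -1 := by
      have : (Module.finrank ℚ F : ℝ) ≠ 0 := by exact_mod_cast hn.ne'
      field_simp
    rw [h1, Real.rpow_neg_one]
  have hnice := (nice_gfun F ε hε).smul ht
  obtain ⟨ℓ, hℓ⟩ := hnice.lattice volume hn' (lat F m J) v
  have hfin := CoA_finite F (lat F m J) v ht
  refine ⟨ℓ + ∑ x ∈ hfin.toFinset, hfun F ε 1 (t • (v + (x : mixedSpace F))), ?_⟩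
  have hsum : Tendsto (fun s : ℝ => ∑ x ∈ hfin.toFinset,
      hfun F ε s (t • (v + (x : mixedSpace F)))) (𝓝[>] 1)
      (𝓝 (∑ x ∈ hfin.toFinset, hfun F ε 1 (t • (v + (x : mixedSpace F))))) :=
    tendsto_finsetSum _ fun x _ => hfun_cont F ε _
  refine (hℓ.add hsum).congr' ?_
  filter_upwards [Ioc_mem_nhdsGT (show (1 : ℝ) < 2 by norm_num)] with s hs
  have hint : (∫ x, gfun F ε s (t • x)) / ZLattice.covolume (lat F m J) =
      Iint F ε s / cvol F m := by
    rw [Measure.integral_comp_smul, CoA_covolume, ← hNdef, mixedEmbedding.finrank, htn, inv_inv,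
      abs_of_pos hN, smul_eq_mul, ← Iint, mul_div_mul_left _ _ hN.ne']
  have hS := hnice.summable hn' (lat F m J) v hs.1 hs.2
  have hdec : ∀ x : lat F m J, N ^ s * hfun F ε s (v + (x : mixedSpace F)) =
      gfun F ε s (t • (v + (x : mixedSpace F))) +
        (if ‖t • (v + (x : mixedSpace F))‖ < 1 then
          hfun F ε s (t • (v + (x : mixedSpace F))) else 0) := by
    intro x
    rw [← CoA_scale F ε hε hN ht htn, gfun]
    by_cases h : ‖t • (v + (x : mixedSpace F))‖ < 1
    · rw [if_neg (not_le.2 h), if_pos h, zero_add]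
    · rw [if_pos (not_lt.1 h), if_neg h, add_zero]
  have hS2 : HasSum (fun x : lat F m J => (if ‖t • (v + (x : mixedSpace F))‖ < 1 then
          hfun F ε s (t • (v + (x : mixedSpace F))) else 0))
      (∑ x ∈ hfin.toFinset, hfun F ε s (t • (v + (x : mixedSpace F)))) := by
    have h1 : ∑ x ∈ hfin.toFinset, hfun F ε s (t • (v + (x : mixedSpace F))) =
        ∑ x ∈ hfin.toFinset, (if ‖t • (v + (x : mixedSpace F))‖ < 1 then
          hfun F ε s (t • (v + (x : mixedSpace F))) else 0) := by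
      refine Finset.sum_congr rfl fun x hx => ?_
      have h2 : ‖t • (v + (x : mixedSpace F))‖ < 1 := hfin.mem_toFinset.1 hx
      rw [if_pos h2]
    rw [h1]
    refine hasSum_sum_of_ne_finset_zero fun x hx => ?_
    have h2 : ¬ ‖t • (v + (x : mixedSpace F))‖ < 1 := fun h => hx (hfin.mem_toFinset.2 h)
    rw [if_neg h2]
  have htot : N ^ s * (∑' x : lat F m J, hfun F ε s (v + (x : mixedSpace F))) =
      (∑' x : lat F m J, gfun F ε s (t • (v + (x : mixedSpace F)))) +
        ∑ x ∈ hfin.toFinset, hfun F ε s (t • (v + (x : mixedSpace F))) := by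
    rw [← tsum_mul_left, tsum_congr hdec, hS.tsum_add hS2.summable, hS2.tsum_eq]
  rw [← hNdef, htot, hint]
  ring

end Pool.Agent.Cheb
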