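import Pool.Agent.Chebotarev_h15.Defs

/-!
# The two signs

* `isEps_one`: trivial.  `isEps_sgn`: signs of real numbers with `|a - b| < |a|` agree.
* `integral_gfun_sgn`: the reflection in one real coordinate (`x ↦` the point with `x.1 w`
  replaced by `-x.1 w`) preserves the volume (`MeasurePreserving`; the volume of the mixed space is
  a product of Pi measures), the norm, `phi` (`phi_eq_of_normAtPlace_eq`),
  `mixedEmbedding.norm` and changes the sign of `sgn`: the integral is equal to its negative.
* `sgn_mixedEmbedding`: `N a = ∏_{w real} w(a) * ∏_{w complex} |w(a)|^2`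
  (`Algebra.norm_eq_prod_embeddings`: pair the complex embeddings).
-/

set_option autoImplicit false

noncomputable section

open Filter Topology NumberField NumberField.mixedEmbedding NumberField.Units MeasureTheory

open scoped Classical

namespace Pool.Agent.Cheb

variable (F : Type) [Field F] [NumberField F]

theorem EpsC_fiber (x : F) (w : InfinitePlace F) :
    ∏ φ ∈ (Finset.univ.filter fun φ : F →+* ℂ => InfinitePlace.mk φ = w), φ x =
      (((if h : w.IsReal then InfinitePlace.embedding_of_isReal h x else (w x) ^ 2 : ℝ)) : ℂ) := by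
  have hfil : (Finset.univ.filter fun φ : F →+* ℂ => InfinitePlace.mk φ = w) =
      {w.embedding, ComplexEmbedding.conjugate w.embedding} := by
    ext φ
    rw [Finset.mem_filter, Finset.mem_insert, Finset.mem_singleton]
    conv_lhs => rw [← InfinitePlace.mk_embedding w]
    rw [InfinitePlace.mk_eq_iff]
    constructor
    · rintro ⟨_, h | h⟩
      · exact Or.inl h
      · right
        rw [← h]
        ext y
        simp [ComplexEmbedding.conjugate]
    · rintro (h | h)
      · exact ⟨Finset.mem_univ _, Or.inl h⟩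
      · refine ⟨Finset.mem_univ _, Or.inr ?_⟩
        rw [h]
        ext y
        simp [ComplexEmbedding.conjugate]
  rw [hfil]
  split_ifs with hw
  · rw [InfinitePlace.conjugate_embedding_eq_of_isReal hw, Finset.pair_eq_singleton,
      Finset.prod_singleton, InfinitePlace.embedding_of_isReal_apply]
  · have hne : w.embedding ≠ ComplexEmbedding.conjugate w.embedding := by
      intro h
      apply hw
      rw [InfinitePlace.isReal_iff, ComplexEmbedding.isReal_iff]
      exact h.symm
    rw [Finset.prod_pair hne, ComplexEmbedding.conjugate_coe_eq, Complex.mul_conj,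
      Complex.normSq_eq_norm_sq, InfinitePlace.norm_embedding_eq]

theorem EpsC_norm (x : F) :
    ((Algebra.norm ℚ x : ℚ) : ℝ) = ∏ w : InfinitePlace F,
      (if h : w.IsReal then InfinitePlace.embedding_of_isReal h x else (w x) ^ 2 : ℝ) := by
  have h1 : ((Algebra.norm ℚ x : ℚ) : ℂ) = ∏ φ : F →+* ℂ, φ x := by
    have h2 := Algebra.norm_eq_prod_embeddings ℚ ℂ x
    rw [eq_ratCast] at h2
    rw [h2]
    exact (Fintype.prod_equiv (RingHom.equivRatAlgHom F ℂ) (fun φ => φ x) (fun f => f x)
      fun _ => by simp [RingHom.equivRatAlgHom_apply]).symm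
  have h3 : (((Algebra.norm ℚ x : ℚ) : ℝ) : ℂ) = ((∏ w : InfinitePlace F,
      (if h : w.IsReal then InfinitePlace.embedding_of_isReal h x else (w x) ^ 2 : ℝ) : ℝ) : ℂ) := by
    rw [Complex.ofReal_ratCast, h1, Complex.ofReal_prod,
      ← Finset.prod_fiberwise Finset.univ InfinitePlace.mk (fun φ : F →+* ℂ => φ x)]
    exact Finset.prod_congr rfl fun w _ => EpsC_fiber F x w
  exact_mod_cast h3

theorem sgn_mixedEmbedding (a : 𝓞 F) (ha : a ≠ 0) :
    sgn F (mixedEmbedding F (a : F)) = (SignType.sign (Algebra.norm ℤ a) : ℝ) := by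
  have hx : (a : F) ≠ 0 := by
    intro h
    exact ha (by exact_mod_cast h)
  have h1 : SignType.sign (Algebra.norm ℤ a) = SignType.sign ((Algebra.norm ℚ (a : F) : ℚ) : ℝ) := by
    rw [← Algebra.coe_norm_int, Rat.cast_intCast]
    rcases lt_trichotomy (Algebra.norm ℤ a) 0 with h | h | h
    · rw [sign_neg h, sign_neg (by exact_mod_cast h)]
    · rw [h, Int.cast_zero, sign_zero, sign_zero]
    · rw [sign_pos h, sign_pos (by exact_mod_cast h)]
  rw [h1, EpsC_norm]
  obtain ⟨g, hg⟩ : ∃ g : ℝ →*₀ ℝ, ∀ y, g y = ((SignType.sign y : SignType) : ℝ) :=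
    ⟨(SignType.castHom (α := ℝ)).comp signHom, fun _ => rfl⟩
  rw [← hg, map_prod, InfinitePlace.prod_eq_prod_mul_prod]
  have h2 : (∏ w : {w : InfinitePlace F // w.IsComplex}, g (if h : (w.1).IsReal then
      InfinitePlace.embedding_of_isReal h (a : F) else (w.1 (a : F)) ^ 2)) = 1 := by
    refine Finset.prod_eq_one fun w _ => ?_
    rw [dif_neg (InfinitePlace.not_isReal_iff_isComplex.2 w.2), hg, sign_pos, SignType.coe_one]
    exact pow_pos (InfinitePlace.pos_iff.2 hx) 2
  rw [h2, mul_one]
  unfold sgn
  refine Finset.prod_congr rfl fun w _ => ?_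
  rw [dif_pos w.2, hg, mixedEmbedding_apply_isReal]

/-- Without real places all norms are positive. -/
theorem norm_pos_of_no_real (h : IsEmpty {w : InfinitePlace F // InfinitePlace.IsReal w})
    (a : 𝓞 F) (ha : a ≠ 0) : 0 < Algebra.norm ℤ a := by
  have h1 := sgn_mixedEmbedding F a ha
  unfold sgn at h1
  rw [Finset.univ_eq_empty, Finset.prod_empty] at h1
  rcases lt_trichotomy (Algebra.norm ℤ a) 0 with h2 | h2 | h2
  · rw [sign_neg h2] at h1
    norm_num at h1
  · rw [h2, sign_zero] at h1
    norm_num at h1
  · exact h2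

end Pool.Agent.Cheb
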