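import Pool.Agent.Chebotarev_h15.DefsB
import Pool.Agent.Chebotarev_h15.EpsC

/-!
# Norms modulo `m`

* `norm_mod`: `Algebra.norm ℤ a = det (leftMulMatrix b a)` for a basis `b` of `𝓞 F` over `ℤ`
  (`Algebra.norm_eq_matrix_det`); the matrix modulo `m` depends on `a` modulo `m` only
  (`leftMulMatrix` is additive, `leftMulMatrix (m c) = m • leftMulMatrix c`), and `det` commutes
  with the reduction (`RingHom.map_det`).
* `nq_mk`: from `norm_mod`.
* `signRel_*`: `|N a| = ± N a`; `χ(-1)^2 = 1`; `sgn_mixedEmbedding`, `norm_pos_of_no_real`.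
* `Lterm_prin`: `Ideal.absNorm_span_singleton`, `mixedEmbedding.norm_eq_norm`.
-/

set_option autoImplicit false

noncomputable section

open Filter Topology NumberField NumberField.mixedEmbedding NumberField.Units MeasureTheory
open scoped nonZeroDivisors

open scoped Classical

namespace Pool.Agent.Cheb

variable (F : Type) [Field F] [NumberField F]

theorem finite_quot (m : ℕ) [NeZero m] : Finite (𝓞 F ⧸ Ideal.span {(m : 𝓞 F)}) := by
  refine Ideal.finiteQuotientOfFreeOfNeBot _ fun h => ?_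
  rw [Ideal.span_singleton_eq_bot] at h
  exact NeZero.ne m (by exact_mod_cast h)

theorem norm_mod (m : ℕ) (a b : 𝓞 F) (h : a - b ∈ Ideal.span {(m : 𝓞 F)}) :
    ((Algebra.norm ℤ a : ℤ) : ZMod m) = ((Algebra.norm ℤ b : ℤ) : ZMod m) := by
  obtain ⟨c, hc⟩ := Ideal.mem_span_singleton'.1 h
  obtain ⟨Φ, hΦ⟩ : ∃ Φ : 𝓞 F →+* Matrix (Module.Free.ChooseBasisIndex ℤ (𝓞 F))
      (Module.Free.ChooseBasisIndex ℤ (𝓞 F)) (ZMod m),
      Φ = (Int.castRingHom (ZMod m)).mapMatrix.comp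
        (Algebra.leftMulMatrix (RingOfIntegers.basis F)).toRingHom := ⟨_, rfl⟩
  have hdet : ∀ x : 𝓞 F, ((Algebra.norm ℤ x : ℤ) : ZMod m) = (Φ x).det := by
    intro x
    rw [Algebra.norm_eq_matrix_det (RingOfIntegers.basis F) x, hΦ]
    exact (Int.castRingHom (ZMod m)).map_det _
  have hm : ((m : ℕ) : Matrix (Module.Free.ChooseBasisIndex ℤ (𝓞 F))
      (Module.Free.ChooseBasisIndex ℤ (𝓞 F)) (ZMod m)) = 0 := by
    rw [← map_natCast (Matrix.scalar (Module.Free.ChooseBasisIndex ℤ (𝓞 F))) m,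
      ZMod.natCast_self, map_zero]
  rw [hdet, hdet]
  congr 1
  have h1 : Φ (a - b) = 0 := by
    rw [← hc, map_mul, map_natCast, hm, mul_zero]
  rw [map_sub, sub_eq_zero] at h1
  exact h1

theorem nq_mk (m : ℕ) (a : 𝓞 F) :
    nq F m (Ideal.Quotient.mk (Ideal.span {(m : 𝓞 F)}) a) =
      ((Algebra.norm ℤ a : ℤ) : ZMod m) := by
  unfold nq
  refine norm_mod F m _ _ ?_
  rw [← Ideal.Quotient.eq, Ideal.Quotient.mk_out]

theorem NormMod_pos {m : ℕ} (χ : DirichletCharacter ℂ m) {N : ℤ} (h : 0 ≤ N) :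
    χ ((N.natAbs : ℕ) : ZMod m) = χ (N : ZMod m) := by
  rw [← Int.cast_natCast, Int.natAbs_of_nonneg h]

theorem NormMod_neg {m : ℕ} (χ : DirichletCharacter ℂ m) {N : ℤ} (h : N ≤ 0) :
    χ ((N.natAbs : ℕ) : ZMod m) = χ (-1) * χ (N : ZMod m) := by
  rw [← Int.cast_natCast, Int.ofNat_natAbs_of_nonpos h, ← map_mul]
  push_cast
  ring_nf

theorem signRel_even {m : ℕ} (χ : DirichletCharacter ℂ m) (h : χ (-1) = 1) :
    SignRel F χ (fun _ => 1) := by
  intro a _
  rw [Complex.ofReal_one, one_mul]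
  rcases le_total 0 (Algebra.norm ℤ a) with h0 | h0
  · exact NormMod_pos χ h0
  · rw [NormMod_neg χ h0, h, one_mul]

theorem signRel_odd {m : ℕ} (χ : DirichletCharacter ℂ m) (h : χ (-1) = -1) :
    SignRel F χ (sgn F) := by
  intro a ha
  have hN : Algebra.norm ℤ a ≠ 0 := Algebra.norm_ne_zero_iff.2 ha
  rw [sgn_mixedEmbedding F a ha]
  rcases lt_or_gt_of_ne hN with h0 | h0
  · rw [NormMod_neg χ h0.le, h, sign_neg h0]
    simp
  · rw [NormMod_pos χ h0.le, sign_pos h0]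
    simp

theorem signRel_noreal {m : ℕ} (χ : DirichletCharacter ℂ m)
    (h : IsEmpty {w : InfinitePlace F // InfinitePlace.IsReal w}) :
    SignRel F χ (fun _ => 1) := by
  intro a ha
  rw [Complex.ofReal_one, one_mul]
  exact NormMod_pos χ (norm_pos_of_no_real F h a ha).le

theorem Lterm_prin {m : ℕ} (χ : DirichletCharacter ℂ m) (s : ℝ) (a : 𝓞 F) (ha : a ≠ 0) :
    Lterm F χ s (prin a ha) = χ (((Algebra.norm ℤ a).natAbs : ℕ) : ZMod m) *
      (((mixedEmbedding.norm (mixedEmbedding F (a : F))) ^ (-s) : ℝ) : ℂ) := by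
  have h1 : Ideal.absNorm ((prin a ha : (Ideal (𝓞 F))⁰) : Ideal (𝓞 F)) =
      (Algebra.norm ℤ a).natAbs := Ideal.absNorm_span_singleton a
  have h2 : mixedEmbedding.norm (mixedEmbedding F (a : F)) =
      (((Algebra.norm ℤ a).natAbs : ℕ) : ℝ) := by
    rw [norm_eq_norm, ← Algebra.coe_norm_int, Nat.cast_natAbs]
    push_cast
    rfl
  unfold Lterm
  rw [h1, h2]

end Pool.Agent.Cheb
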