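import Pool.Agent.Chebotarev_h15.CoA
import Pool.Agent.Chebotarev_h15.NormMod
import Pool.Agent.Chebotarev_h15.Princ
import Pool.Agent.Chebotarev_h15.Sum

/-!
# The sum over the lattice points of an ideal prime to `m`

`n = finrank ℚ F`, `c = 2^(-r₂) √|discr F|`, so `covolume (lat F m J) = m^n N(J) c`
(`covolume_idealLattice`) and `cvol F m = m^n c`.

* `lattice_one`: let `t = N(J)^(-1/n)`.  By homogeneity (`phi_smul`, `IsEps.smul`, `norm_smul`)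
  `N(J)^s * hfun ε s y = hfun ε s (t • y)`.  The sum of `hfun ε s (t • (v + x))` over `x` in the
  lattice is the sum of `gfun ε s (t • (v + x))` plus the finite sum over the `x` with
  `‖t • (v + x)‖ < 1` of `hfun ε s (t • (v + x))`, which converges for `s → 1+` (`hfun_cont`).
  Apply `Nice.lattice` to `(nice_gfun F ε hε).smul`: the integral of `gfun ε s (t • x)` is
  `t^(-n) Iint F ε s = N(J) Iint F ε s` (`Measure.integral_comp_smul`), and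
  `N(J) / covolume = 1 / cvol F m`.
* `coset_decomp`: the nonzero elements of `J` are grouped by their classes modulo `m`; the class
  of `c` meets `J` in `v c + m J` (`J ∩ m 𝓞 = m J`, as `J` is prime to `m`), the lattice of `m J` is
  `lat F m J`, `χ(|N a|) = ε(a) χ(N a)` (`SignRel`), `N a ≡ nq c` (`norm_mod`, `nq_mk`);
  the element `0` contributes `0` because `phi` vanishes at it.  Everything is absolutely summable
  (`princ_summable` with `summable_Lterm`).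
* `exists_rep`: `J + (m) = 𝓞 F`.
-/

set_option autoImplicit false

noncomputable section

open Filter Topology NumberField NumberField.mixedEmbedding NumberField.Units MeasureTheory
open scoped nonZeroDivisors

open scoped Classical

namespace Pool.Agent.Cheb

variable (F : Type) [Field F] [NumberField F]

theorem exists_rep (m : ℕ) [NeZero m] (J : (Ideal (𝓞 F))⁰)
    (hJ : IsCoprime (J : Ideal (𝓞 F)) (Ideal.span {(m : 𝓞 F)})) :
    ∃ v : 𝓞 F ⧸ Ideal.span {(m : 𝓞 F)} → 𝓞 F, ∀ c, v c ∈ (J : Ideal (𝓞 F)) ∧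
      Ideal.Quotient.mk (Ideal.span {(m : 𝓞 F)}) (v c) = c := by
  obtain ⟨x, hx, y, hy, hxy⟩ := Ideal.isCoprime_iff_exists.1 hJ
  have h1 : ∀ c : 𝓞 F ⧸ Ideal.span {(m : 𝓞 F)}, ∃ a : 𝓞 F, a ∈ (J : Ideal (𝓞 F)) ∧
      Ideal.Quotient.mk (Ideal.span {(m : 𝓞 F)}) a = c := by
    intro c
    obtain ⟨a, rfl⟩ := Ideal.Quotient.mk_surjective c
    refine ⟨a * x, Ideal.mul_mem_left _ _ hx, ?_⟩
    rw [Ideal.Quotient.eq]
    have h2 : a * x - a = -(a * y) := by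
      linear_combination a * hxy
    rw [h2]
    exact neg_mem (Ideal.mul_mem_left _ _ hy)
  choose v hv using h1
  exact ⟨v, hv⟩

/-- The elements of the ideal `m J`. -/
abbrev CoB_I (m : ℕ) [NeZero m] (J : (Ideal (𝓞 F))⁰) : Ideal (𝓞 F) :=
  ((prin (m : 𝓞 F) (natCast_ne F m) * J : (Ideal (𝓞 F))⁰) : Ideal (𝓞 F))

theorem CoB_mem (m : ℕ) [NeZero m] (J : (Ideal (𝓞 F))⁰)
    (hJ : IsCoprime (J : Ideal (𝓞 F)) (Ideal.span {(m : 𝓞 F)})) (b : 𝓞 F) :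
    b ∈ CoB_I F m J ↔ b ∈ (J : Ideal (𝓞 F)) ∧ b ∈ Ideal.span {(m : 𝓞 F)} := by
  have h1 : CoB_I F m J = (J : Ideal (𝓞 F)) ⊓ Ideal.span {(m : 𝓞 F)} := by
    rw [← Ideal.mul_eq_inf_of_isCoprime hJ, mul_comm]
    rfl
  rw [h1, Ideal.mem_inf]

theorem CoB_bij (m : ℕ) [NeZero m] (J : (Ideal (𝓞 F))⁰)
    (hJ : IsCoprime (J : Ideal (𝓞 F)) (Ideal.span {(m : 𝓞 F)}))
    (v : 𝓞 F ⧸ Ideal.span {(m : 𝓞 F)} → 𝓞 F)
    (hv : ∀ c, v c ∈ (J : Ideal (𝓞 F)) ∧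
      Ideal.Quotient.mk (Ideal.span {(m : 𝓞 F)}) (v c) = c) :
    ∃ E : ((𝓞 F ⧸ Ideal.span {(m : 𝓞 F)}) × {b : 𝓞 F // b ∈ CoB_I F m J}) ≃
      {a : 𝓞 F // a ∈ (J : Ideal (𝓞 F))}, ∀ p, ((E p : _) : 𝓞 F) = v p.1 + p.2 := by
  have hmem : ∀ p : (𝓞 F ⧸ Ideal.span {(m : 𝓞 F)}) × {b : 𝓞 F // b ∈ CoB_I F m J},
      v p.1 + (p.2 : 𝓞 F) ∈ (J : Ideal (𝓞 F)) := fun p =>
    Ideal.add_mem _ (hv p.1).1 ((CoB_mem F m J hJ _).1 p.2.2).1
  have hmk : ∀ p : (𝓞 F ⧸ Ideal.span {(m : 𝓞 F)}) × {b : 𝓞 F // b ∈ CoB_I F m J},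
      Ideal.Quotient.mk (Ideal.span {(m : 𝓞 F)}) (v p.1 + (p.2 : 𝓞 F)) = p.1 := by
    intro p
    rw [map_add, (hv p.1).2, Ideal.Quotient.eq_zero_iff_mem.2 ((CoB_mem F m J hJ _).1 p.2.2).2,
      add_zero]
  refine ⟨Equiv.ofBijective (fun p => ⟨v p.1 + (p.2 : 𝓞 F), hmem p⟩) ⟨?_, ?_⟩, fun p => rfl⟩
  · intro p q hpq
    have h1 : v p.1 + (p.2 : 𝓞 F) = v q.1 + (q.2 : 𝓞 F) := congrArg Subtype.val hpq
    have h2 : p.1 = q.1 := by
      rw [← hmk p, ← hmk q, h1]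
    refine Prod.ext h2 (Subtype.ext ?_)
    rw [h2] at h1
    exact add_left_cancel h1
  · rintro ⟨a, ha⟩
    have h1 : a - v (Ideal.Quotient.mk (Ideal.span {(m : 𝓞 F)}) a) ∈ CoB_I F m J := by
      rw [CoB_mem F m J hJ]
      refine ⟨Ideal.sub_mem _ ha (hv _).1, ?_⟩
      rw [← Ideal.Quotient.eq, (hv _).2]
    refine ⟨(Ideal.Quotient.mk (Ideal.span {(m : 𝓞 F)}) a, ⟨_, h1⟩), Subtype.ext ?_⟩
    simp

theorem CoB_lat (m : ℕ) [NeZero m] (J : (Ideal (𝓞 F))⁰) :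
    ∃ L : {b : 𝓞 F // b ∈ CoB_I F m J} ≃ lat F m J,
      ∀ b, ((L b : lat F m J) : mixedSpace F) = mixedEmbedding F ((b : 𝓞 F) : F) := by
  have hmem : ∀ x : mixedSpace F, x ∈ lat F m J ↔
      ∃ b : 𝓞 F, b ∈ CoB_I F m J ∧ mixedEmbedding F (b : F) = x := by
    intro x
    rw [mem_idealLattice]
    constructor
    · rintro ⟨y, hy, hyx⟩
      rw [SetLike.mem_coe, FractionalIdeal.coe_mk0, FractionalIdeal.mem_coeIdeal] at hy
      obtain ⟨b, hb, hby⟩ := hy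
      exact ⟨b, hb, by rw [← hyx, ← hby]⟩
    · rintro ⟨b, hb, hbx⟩
      refine ⟨(b : F), ?_, hbx⟩
      rw [SetLike.mem_coe, FractionalIdeal.coe_mk0, FractionalIdeal.mem_coeIdeal]
      exact ⟨b, hb, rfl⟩
  refine ⟨Equiv.ofBijective (fun b => ⟨mixedEmbedding F ((b : 𝓞 F) : F),
    (hmem _).2 ⟨b, b.2, rfl⟩⟩) ⟨?_, ?_⟩, fun b => rfl⟩
  · intro b b' h
    have h1 : mixedEmbedding F ((b : 𝓞 F) : F) = mixedEmbedding F ((b' : 𝓞 F) : F) :=
      congrArg Subtype.val h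
    exact Subtype.ext (RingOfIntegers.ext (mixedEmbedding_injective F h1))
  · rintro ⟨x, hx⟩
    obtain ⟨b, hb, hbx⟩ := (hmem x).1 hx
    exact ⟨⟨b, hb⟩, Subtype.ext hbx⟩

theorem coset_decomp (m : ℕ) [NeZero m] (χ : DirichletCharacter ℂ m) (ε : mixedSpace F → ℝ)
    (hχ : SignRel F χ ε) (J : (Ideal (𝓞 F))⁰)
    (hJ : IsCoprime (J : Ideal (𝓞 F)) (Ideal.span {(m : 𝓞 F)}))
    (v : 𝓞 F ⧸ Ideal.span {(m : 𝓞 F)} → 𝓞 F)
    (hv : ∀ c, v c ∈ (J : Ideal (𝓞 F)) ∧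
      Ideal.Quotient.mk (Ideal.span {(m : 𝓞 F)}) (v c) = c) {s : ℝ} (hs : 1 < s) :
    Asum F χ J s = ∑' c : 𝓞 F ⧸ Ideal.span {(m : 𝓞 F)}, χ (nq F m c) *
      (((Ideal.absNorm (J : Ideal (𝓞 F)) : ℝ) ^ s *
        (∑' x : lat F m J, hfun F ε s (mixedEmbedding F (v c : F) + (x : mixedSpace F))) : ℝ) :
          ℂ) := by
  obtain ⟨E, hE⟩ := CoB_bij F m J hJ v hv
  obtain ⟨L, hL⟩ := CoB_lat F m J
  obtain ⟨G, hG⟩ : ∃ G : {a : 𝓞 F // a ∈ (J : Ideal (𝓞 F))} → ℂ, ∀ a, G a =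
      χ ((Algebra.norm ℤ (a : 𝓞 F) : ℤ) : ZMod m) *
        ((hfun F ε s (mixedEmbedding F ((a : 𝓞 F) : F)) : ℝ) : ℂ) := ⟨_, fun _ => rfl⟩
  have hterm : ∀ a : Pts J, (phi F (mixedEmbedding F (a.1 : F)) : ℂ) *
      Lterm F χ s (prin a.1 a.2.1) = G ⟨a.1, a.2.2⟩ := by
    intro a
    rw [hG, Lterm_prin, hχ a.1 a.2.1, hfun]
    push_cast
    ring
  have hinj : Function.Injective (fun a : Pts J =>
      (⟨a.1, a.2.2⟩ : {a : 𝓞 F // a ∈ (J : Ideal (𝓞 F))})) := fun a b h =>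
    Subtype.ext (congrArg (fun x : {a : 𝓞 F // a ∈ (J : Ideal (𝓞 F))} => (x : 𝓞 F)) h)
  have hzero : ∀ a : {a : 𝓞 F // a ∈ (J : Ideal (𝓞 F))}, (a : 𝓞 F) = 0 → G a = 0 := by
    intro a ha
    have h0 : phi F (mixedEmbedding F ((a : 𝓞 F) : F)) = 0 := by
      refine phi_of_norm_eq_zero F ?_
      rw [ha]
      simp
    rw [hG, hfun, h0]
    simp
  have hout : ∀ a ∉ Set.range (fun a : Pts J =>
      (⟨a.1, a.2.2⟩ : {a : 𝓞 F // a ∈ (J : Ideal (𝓞 F))})), G a = 0 := by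
    intro a ha
    by_contra h
    apply ha
    have h1 : (a : 𝓞 F) ≠ 0 := fun h0 => h (hzero a h0)
    exact ⟨⟨a.1, h1, a.2⟩, rfl⟩
  have hsum0 : Summable (fun a : Pts J => G ⟨a.1, a.2.2⟩) := by
    have h1 := princ_summable F J (Lterm F χ s) (summable_Lterm F χ hs)
    have h2 := h1.of_norm
    exact h2.congr hterm
  have hsum : Summable G := (hinj.summable_iff hout).1 hsum0
  have htsum : ∑' a : Pts J, (phi F (mixedEmbedding F (a.1 : F)) : ℂ) *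
      Lterm F χ s (prin a.1 a.2.1) = ∑' a, G a := by
    rw [tsum_congr hterm]
    refine hinj.tsum_eq (f := G) ?_
    intro a ha
    by_contra h
    exact ha (hout a h)
  have hval : ∀ (c : 𝓞 F ⧸ Ideal.span {(m : 𝓞 F)}) (b : {b : 𝓞 F // b ∈ CoB_I F m J}),
      G (E (c, b)) = χ (nq F m c) *
        ((hfun F ε s (mixedEmbedding F (v c : F) + ((L b : lat F m J) : mixedSpace F)) : ℝ) :
          ℂ) := by
    intro c b
    have h1 : Ideal.Quotient.mk (Ideal.span {(m : 𝓞 F)}) ((E (c, b) : _) : 𝓞 F) = c := by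
      rw [hE, map_add, (hv c).2, Ideal.Quotient.eq_zero_iff_mem.2 ((CoB_mem F m J hJ _).1 b.2).2,
        add_zero]
    have h2 := nq_mk F m ((E (c, b) : _) : 𝓞 F)
    rw [h1] at h2
    rw [hG, ← h2, hL, hE]
    simp only [map_add]
  have hES : Summable (fun p => G (E p)) := (E.summable_iff).2 hsum
  unfold Asum
  rw [htsum, ← E.tsum_eq, hES.tsum_prod, ← tsum_mul_left]
  refine tsum_congr fun c => ?_
  rw [tsum_congr (hval c), tsum_mul_left]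
  have h3 : ∑' b : {b : 𝓞 F // b ∈ CoB_I F m J},
      ((hfun F ε s (mixedEmbedding F (v c : F) + ((L b : lat F m J) : mixedSpace F)) : ℝ) : ℂ) =
      ((∑' x : lat F m J, hfun F ε s (mixedEmbedding F (v c : F) + (x : mixedSpace F)) : ℝ) :
        ℂ) := by
    rw [Complex.ofReal_tsum]
    exact L.tsum_eq (fun x : lat F m J =>
      ((hfun F ε s (mixedEmbedding F (v c : F) + (x : mixedSpace F)) : ℝ) : ℂ))
  rw [h3]
  push_cast
  ring

end Pool.Agent.Cheb
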