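import Pool.Agent.W_f569db_h62.NTD

/-!
# Frobenius elements in cyclotomic extensions

`M = L(ζ)`, `ζ` a primitive `m`-th root of unity, `ι : Gal(M/L) →* (ZMod m)ˣ` the cyclotomic
character (injective: `IsPrimitiveRoot.autToPow_injective`).

* `frob_cyc`: `AlgHom.IsArithFrobAt.apply_of_pow_eq_one` applied to the integer `ζ`:
  `τ ζ = ζ ^ N(P)`, `N(P) = Nat.card (𝓞 L ⧸ P)`; and `τ ζ = ζ ^ (ι τ)` (`autToPow_spec`).
* `mem_frobSet_cyc`: choose a prime `Q` above `P` and a Frobenius `τ` at `Q`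
  (`IsArithFrobAt.exists_of_isInvariant`), `ι τ = N(P)`.
* `psum_one_ge`: a prime `Q` of `M` of prime norm `q`, `m ∉ Q`: the residue field of order `q`
  contains the `m` different powers of `ζ` (Frobenius `τ` at `Q` has `ι τ = N(P) = q` where `P` is
  below `Q`, `N(P) = N(Q)`; every `x ∈ 𝓞 M` satisfies `x ^ q ≡ x mod Q`, so `τ x ≡ x`,
  and `ζ^q ≡ ζ mod Q` with `m ∉ Q` gives `ζ^q = ζ`, i.e. `q = 1` in `ZMod m`).  So the primes of
  `deg1 M` not containing `m` lie over primes with `N(P) = 1` in `ZMod m`: `psum_up_le` with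
  `c = [M : L]`, `psum_deg1`.
* `char_trivial`: let `D' = {τ | χ(ι τ) = 1}` (a subgroup) and `L' = M^{D'}`.  For `P ∌ m`, `Q'`
  over `P` in `L'`, `Q` over `Q'` in `M`, `τ` a Frobenius at `Q` (for `M/L`): `ι τ = N(P)`, so
  `τ ∈ D'` and `τ` is the identity on `L'`: for `x ∈ 𝓞 L'`, `x = τ x ≡ x ^ N(P) mod Q`, so all
  elements of the field `𝓞 L' ⧸ Q'` are roots of `X^(N P) - X`, so `N(Q') ≤ N(P)` and
  `N(Q') = N(P)`.  `finrank_eq_one` for `L'/L` gives `L' = L`, `D' = ⊤`.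
-/

set_option autoImplicit false

noncomputable section

open Filter Topology NumberField IsDedekindDomain
open scoped nonZeroDivisors

namespace Pool.Agent.Cheb

variable (L M : Type) [Field L] [NumberField L] [Field M] [NumberField M] [Algebra L M]
  (m : ℕ) [NeZero m] [IsGalois L M]

/-- For any Galois extension `M / L` which contains a primitive `m`-th root of unity. -/
theorem frob_cyc {ζ : M} (hζ : IsPrimitiveRoot ζ m) (P : HeightOneSpectrum (𝓞 L))
    (hP : (m : 𝓞 L) ∉ P.asIdeal) (Q : Ideal (𝓞 M)) [Q.IsPrime]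
    (hQ : Q.under (𝓞 L) = P.asIdeal) (τ : Gal(M/L)) (hτ : IsArithFrobAt (𝓞 L) τ Q) :
    ((IsPrimitiveRoot.autToPow L hζ τ : (ZMod m)ˣ) : ZMod m) =
      ((Ideal.absNorm P.asIdeal : ℕ) : ZMod m) := by
  have hmQ : ((m : ℕ) : 𝓞 M) ∉ Q := by
    intro h
    apply hP
    rw [← hQ, Ideal.under, Ideal.mem_comap, map_natCast]
    exact h
  have hz : (hζ.toInteger) ^ m = 1 := hζ.toInteger_isPrimitiveRoot.pow_eq_one
  have h1 := AlgHom.IsArithFrobAt.apply_of_pow_eq_one hτ hz hmQ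
  have h2 : τ ζ = ζ ^ Ideal.absNorm P.asIdeal := by
    have h3 := congrArg (algebraMap (𝓞 M) M) h1
    rw [hQ, map_pow] at h3
    exact h3
  have h5 := hζ.autToPow_spec L τ
  rw [h2] at h5
  have h6 : (((IsPrimitiveRoot.autToPow L hζ τ : (ZMod m)ˣ) : ZMod m).val) ≡
      (Ideal.absNorm P.asIdeal) [MOD m] := by
    have h7 := (hζ.isOfFinOrder (NeZero.ne _)).pow_inj_mod.1 h5
    rwa [← hζ.eq_orderOf] at h7
  have h8 := (ZMod.natCast_eq_natCast_iff _ _ _).2 h6
  rw [ZMod.natCast_val, ZMod.cast_id] at h8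
  exact h8

/-- The norm of a prime which does not contain `m` is prime to `m`. -/
theorem norm_unit_mod (P : HeightOneSpectrum (𝓞 L)) (hP : (m : 𝓞 L) ∉ P.asIdeal) :
    IsUnit ((Ideal.absNorm P.asIdeal : ℕ) : ZMod m) := by
  rw [ZMod.isUnit_iff_coprime]
  by_contra hcop
  obtain ⟨p, hp, hpN, hpm⟩ := Nat.Prime.not_coprime_iff_dvd.1 hcop
  have := Fact.mk hp
  have := P.isPrime
  have := P.isMaximal
  have hfP : Finite (𝓞 L ⧸ P.asIdeal) := Ideal.finiteQuotientOfFreeOfNeBot _ P.ne_bot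
  have hdvd : p ∣ Nat.card (𝓞 L ⧸ P.asIdeal) := hpN
  obtain ⟨x, hx⟩ := exists_prime_addOrderOf_dvd_card' p hdvd
  have hx0 : x ≠ 0 := by
    rintro rfl
    rw [addOrderOf_zero] at hx
    exact hp.one_lt.ne hx
  have hpx : (m : 𝓞 L ⧸ P.asIdeal) * x = 0 := by
    rw [← nsmul_eq_mul]
    exact addOrderOf_dvd_iff_nsmul_eq_zero.1 (hx ▸ hpm)
  have : IsDomain (𝓞 L ⧸ P.asIdeal) := Ideal.Quotient.isDomain P.asIdeal
  rcases mul_eq_zero.1 hpx with h | h
  · apply hP
    rw [← Ideal.Quotient.eq_zero_iff_mem, map_natCast]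
    exact h
  · exact hx0 h

variable [IsCyclotomicExtension {m} L M]

end Pool.Agent.Cheb
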