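import Pool.Agent.W_f569db_h62.NTD

/-!
# Nonvanishing and the density theorem for cyclotomic extensions

`M = L(ζ)`; the characters `χ` modulo `m` with `χ(ι τ) = 1` for all `τ ∈ Gal(M/L)` are called
trivial on `M`.

* `Psum_upper`: by `Lser_tendsto` and `Lser_eq_exp`, `exp (Re (logL)) = ‖Lser‖` is bounded for
  `s → 1+`, so `Re logL ≤ C`; `log_sub_bound`.
* `Psum_trivial`: `Psum L χ s - psum univ s` is the sum over the finitely many `P ∋ m`
  (`finite_mem`), `psum_univ`.
* `sum_chars`: `∑_χ χ a = φ(m)` if `a = 1` and `0` otherwise (`DirichletCharacter` orthogonality;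
  for `a` not a unit all terms are `0`, for units Mathlib's `DirichletCharacter.sum_characters_eq`).
* `Psum_lower`: in `∑_χ Re (Psum L χ s) = φ(m) psum {N P = 1} s ≥ (φ(m)/[M:L]) log (1/(s-1)) - C`
  (`psum_one_ge`) the characters trivial on `M` contribute
  `(φ(m)/[M:L]) log (1/(s-1)) + O(1)` (`card_chars`, `Psum_trivial`; for those `χ(N P) = 1` for all
  `P ∌ m`, by `frob_cyc` for some Frobenius), and all others are `≤ C` (`Psum_upper`; the ideal `I`
  is a prime `P ∌ m` with `χ(N P) ≠ 1` from `char_trivial`, `χ(N P) ≠ 0` by `norm_unit_mod`):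
  so each of the others is `≥ -C'`.
* `Psum_bounded`: `Lser → ℓ`, and `‖Lser‖ = exp (Re logL) ≥ exp (-C)`, so `ℓ ≠ 0`; `exp_lift` for
  `logL` (`log_cont`), `log_sub_bound`.
* `cyc_density`: `psum (FrobSet L M g)` and `psum {N P = ι g}` differ by a bounded amount
  (`mem_frobSet_cyc`, `finite_mem`), and
  `φ(m) psum {N P = ι g} s = ∑_χ χ(ι g)⁻¹ Psum L χ s = (φ(m)/[M:L]) log (1/(s-1)) + O(1)`.
-/

set_option autoImplicit false

noncomputable section

open Filter Topology NumberField IsDedekindDomain
open scoped nonZeroDivisors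

namespace Pool.Agent.Cheb

variable (L M : Type) [Field L] [NumberField L] [Field M] [NumberField M] [Algebra L M]
  (m : ℕ) [NeZero m]

variable [IsCyclotomicExtension {m} L M] [IsGalois L M]

end Pool.Agent.Cheb
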