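import Pool.Agent.Chebotarev_h15.Defs

/-!
# Definitions for the sums over ideals and lattice points
-/

set_option autoImplicit false

noncomputable section

open Filter Topology NumberField NumberField.mixedEmbedding NumberField.Units MeasureTheory
open scoped nonZeroDivisors

open scoped Classical

namespace Pool.Agent.Cheb

variable (F : Type) [Field F] [NumberField F]

/-- The principal ideal of a nonzero integer. -/
def prin {F : Type} [Field F] [NumberField F] (a : 𝓞 F) (ha : a ≠ 0) : (Ideal (𝓞 F))⁰ :=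
  ⟨Ideal.span {a}, mem_nonZeroDivisors_of_ne_zero (by
    rw [Ne, Ideal.zero_eq_bot, Ideal.span_singleton_eq_bot]; exact ha)⟩

/-- The nonzero elements of `J`. -/
abbrev Pts {F : Type} [Field F] [NumberField F] (J : (Ideal (𝓞 F))⁰) : Type :=
  {a : 𝓞 F // a ≠ 0 ∧ a ∈ (J : Ideal (𝓞 F))}

/-- `N(J)^s` times the sum over `a ∈ J`, `a ≠ 0`, of `φ(a) χ(|N a|) |N a|^(-s)`. -/
def Asum {m : ℕ} (χ : DirichletCharacter ℂ m) (J : (Ideal (𝓞 F))⁰) (s : ℝ) : ℂ :=
  (((Ideal.absNorm (J : Ideal (𝓞 F)) : ℝ) ^ s : ℝ) : ℂ) *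
    ∑' a : Pts J, (phi F (mixedEmbedding F (a.1 : F)) : ℂ) * Lterm F χ s (prin a.1 a.2.1)

/-- The norm of a class modulo `m`, modulo `m`. -/
def nq (m : ℕ) (c : 𝓞 F ⧸ Ideal.span {(m : 𝓞 F)}) : ZMod m :=
  ((Algebra.norm ℤ (Quotient.out c : 𝓞 F) : ℤ) : ZMod m)

/-- The sum of `χ(N c)` over the classes `c` modulo `m`. -/
def SS {m : ℕ} (χ : DirichletCharacter ℂ m) : ℂ :=
  ∑' c : 𝓞 F ⧸ Ideal.span {(m : 𝓞 F)}, χ (nq F m c)

/-- `m^n` times the covolume of the ring of integers. -/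
def cvol (m : ℕ) : ℝ :=
  (m : ℝ) ^ (Module.finrank ℚ F) *
    ((2 : ℝ)⁻¹ ^ InfinitePlace.nrComplexPlaces F * √|(discr F : ℝ)|)

/-- The integral of `gfun`. -/
def Iint (ε : mixedSpace F → ℝ) (s : ℝ) : ℝ := ∫ x : mixedSpace F, gfun F ε s x

/-- The relation between a Dirichlet character and a sign. -/
def SignRel {m : ℕ} (χ : DirichletCharacter ℂ m) (ε : mixedSpace F → ℝ) : Prop :=
  ∀ a : 𝓞 F, a ≠ 0 →
    χ (((Algebra.norm ℤ a).natAbs : ℕ) : ZMod m) =
      (ε (mixedEmbedding F (a : F)) : ℂ) * χ ((Algebra.norm ℤ a : ℤ) : ZMod m)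

end Pool.Agent.Cheb
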