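import Mathlib

/-!
# The two signs

* `isEps_one`: trivial.  `isEps_sgn`: signs of real numbers with `|a - b| < |a|` agree.
* `integral_gfun_sgn`: the reflection in one real coordinate (`x ↦` the point with `x.1 w`
  replaced by `-x.1 w`) preserves the volume (`MeasurePreserving`; the volume of the mixed space is
  a product of Pi measures), the norm, `phi` (`phi_eq_of_normAtPlace_eq`),
  `mixedEmbedding.norm` and changes the sign of `sgn`: the integral is equal to its negative.
* `sgn_mixedEmbedding`: `N a = ∏_{w real} w(a) * ∏_{w complex} |w(a)|^2`
  (`Algebra.norm_eq_prod_embeddings`: pair the complex embeddings).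
-/

set_option autoImplicit false

noncomputable section

open Filter Topology NumberField NumberField.mixedEmbedding NumberField.Units MeasureTheory

open scoped Classical

namespace Pool.Agent.Cheb

variable (F : Type) [Field F] [NumberField F]

end Pool.Agent.Cheb
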