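import Mathlib

/-!
# The Euler product for complex weights

`Pool.Agent.H62D.Zms` (`W_f569db_h62/NTA.lean`, `NTB.lean`) is the same for weights in `ℝ≥0∞`;
`Zms_lt_top` gives the absolute convergence of the sum over the multisets.

Proof of `euler_multiset`.  (1) Summability of `∏_{a ∈ m} ‖w a‖` over the multisets `m`:
`Zms_lt_top` (`‖w a‖ ≤ 1/2 < 1`, `∑ ‖w a‖ < ∞`; `ENNReal` version, then
`ENNReal.summable_toReal` or similar).
(2) For a finite set `t` of elements the sum over the multisets with support in `t` is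
`∏_{a ∈ t} (1 - w a)⁻¹` (induction on `t`: a multiset on `insert a t` is a multiset on `t` plus
`n` copies of `a`; geometric series and product of absolutely convergent sums).
(3) For `t` going through the finite sets, the left side converges to the whole sum
(`tendsto_tsum_of_dominated_convergence` with the indicator of the multisets with support in `t`),
and the right side is `exp (-∑_{a ∈ t} log (1 - w a))`, which converges to
`exp (-∑' a, log (1 - w a))` (`‖log (1 - w a)‖ ≤ 2 ‖w a‖`: summable).
-/

set_option autoImplicit false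

noncomputable section

open Filter Topology

namespace Pool.Agent.Cheb

theorem norm_log_one_sub_le {z : ℂ} (hz : ‖z‖ ≤ 1 / 2) : ‖Complex.log (1 - z)‖ ≤ 2 * ‖z‖ := by
  have h : ‖-z‖ ≤ 1 / 2 := by rwa [norm_neg]
  have h1 := Complex.norm_log_one_add_half_le_self h
  rw [norm_neg, ← sub_eq_add_neg] at h1
  have h2 := norm_nonneg z
  linarith

theorem norm_log_one_sub_add_le {z : ℂ} (hz : ‖z‖ ≤ 1 / 2) :
    ‖-Complex.log (1 - z) - z‖ ≤ 2 * ‖z‖ ^ 2 := by
  have h : ‖-z‖ < 1 := by rw [norm_neg]; linarith
  have h1 := Complex.norm_log_one_add_sub_self_le h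
  rw [norm_neg, ← sub_eq_add_neg, sub_neg_eq_add] at h1
  have e : -Complex.log (1 - z) - z = -(Complex.log (1 - z) + z) := by ring
  rw [e, norm_neg]
  refine h1.trans ?_
  have h2 : (1 - ‖z‖)⁻¹ ≤ 2 := by
    rw [inv_le_comm₀ (by linarith) (by norm_num)]
    linarith
  have h3 : 0 ≤ ‖z‖ ^ 2 := sq_nonneg _
  have h4 := mul_le_mul_of_nonneg_left h2 h3
  linarith

end Pool.Agent.Cheb
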