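import Mathlib

/-!
# The Euler product for complex weights

`Pool.Agent.H62D.Zms` (`W_f569db_h62/NTA.lean`, `NTB.lean`) is the same for weights in `ℝ≥0∞`;
`Zms_lt_top` gives the absolute convergence of the sum over the multisets.

Proof of `euler_multiset`.  (1) Summability of `∏_{a ∈ m} ‖w a‖` over the multisets `m`:
`Zms_lt_top` (`‖w a‖ ≤ 1/2 < 1`, `∑ ‖w a‖ < ∞`; `ENNReal` version, then
`ENNReal.summable_toReal` or similar).
(2) For a finite set `t` of elements the sum over the multisets with support in `t` is
`∏_{a ∈ t} (1 - w a)⁻¹` (induction on `t`: a multiset on `insert a t` is a multiset on `t` plus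
`n` copies of `a`; geometric series and product of absolutely convergent sums).
(3) For `t` going through the finite sets, the left side converges to the whole sum
(`tendsto_tsum_of_dominated_convergence` with the indicator of the multisets with support in `t`),
and the right side is `exp (-∑_{a ∈ t} log (1 - w a))`, which converges to
`exp (-∑' a, log (1 - w a))` (`‖log (1 - w a)‖ ≤ 2 ‖w a‖`: summable).
-/

set_option autoImplicit false

noncomputable section

open Filter Topology

namespace Pool.Agent.Cheb

theorem EuB_filter {A : Type} [DecidableEq A] (a : A) (m : Multiset A) :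
    Multiset.replicate (m.count a) a + m.filter (fun b => ¬ b = a) = m := by
  rw [← Multiset.filter_eq' m a]
  exact Multiset.filter_add_not _ _

theorem EuB_hasSum {A : Type} [DecidableEq A] {K : Type} [NormedField K] [CompleteSpace K]
    (w : A → K) (h2 : ∀ a, ‖w a‖ ≤ 1 / 2) (t : Finset A) :
    HasSum (fun m : Multiset A => if m.toFinset ⊆ t then (m.map w).prod else 0)
      (∏ a ∈ t, (1 - w a)⁻¹) ∧
    Summable (fun m : Multiset A => ‖if m.toFinset ⊆ t then (m.map w).prod else 0‖) := by
  induction t using Finset.induction_on with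
  | empty =>
    have h0 : ∀ m : Multiset A, m ≠ 0 →
        (if m.toFinset ⊆ ∅ then (m.map w).prod else 0) = 0 := by
      intro m hm
      rw [if_neg]
      rwa [Finset.subset_empty, Multiset.toFinset_eq_empty]
    constructor
    · have h1 := hasSum_single (f := fun m : Multiset A =>
        if m.toFinset ⊆ ∅ then (m.map w).prod else 0) 0 h0
      simpa using h1
    · refine summable_of_ne_finset_zero (s := {0}) fun m hm => ?_
      rw [h0 m (by simpa using hm), norm_zero]
  | insert a t ha ih =>
    obtain ⟨ih1, ih2⟩ := ih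
    have hwa : ‖w a‖ < 1 := (h2 a).trans_lt (by norm_num)
    have hg1 : HasSum (fun n : ℕ => w a ^ n) (1 - w a)⁻¹ := hasSum_geometric_of_norm_lt_one hwa
    have hg2 : Summable (fun n : ℕ => ‖w a ^ n‖) := summable_norm_geometric_of_norm_lt_one hwa
    set f : Multiset A → K := fun m => if m.toFinset ⊆ t then (m.map w).prod else 0 with hf
    set f' : Multiset A → K := fun m => if m.toFinset ⊆ insert a t then (m.map w).prod else 0
      with hf'
    set F : ℕ × Multiset A → K := fun x => w a ^ x.1 * f x.2 with hF
    have hFn : Summable (fun x => ‖F x‖) := by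
      have := hg2.mul_norm ih2
      exact this
    have hFs : HasSum F ((1 - w a)⁻¹ * ∏ b ∈ t, (1 - w b)⁻¹) := hg1.mul ih1 (hFn.of_norm)
    have hsup : ∀ x : ℕ × Multiset A, F x ≠ 0 → x.2.toFinset ⊆ t := by
      intro x hx
      by_contra h
      apply hx
      rw [hF]
      simp only [hf, if_neg h, mul_zero]
    have hcount : ∀ x : ℕ × Multiset A, F x ≠ 0 → x.2.count a = 0 := by
      intro x hx
      rw [Multiset.count_eq_zero]
      intro h
      exact ha (hsup x hx (Multiset.mem_toFinset.2 h))
    have hval : ∀ x : ℕ × Multiset A, F x ≠ 0 →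
        f' (Multiset.replicate x.1 a + x.2) = F x := by
      intro x hx
      have h1 : (Multiset.replicate x.1 a + x.2).toFinset ⊆ insert a t := by
        intro b hb
        rw [Multiset.mem_toFinset, Multiset.mem_add] at hb
        rcases hb with hb | hb
        · rw [Multiset.eq_of_mem_replicate hb]
          exact Finset.mem_insert_self _ _
        · exact Finset.mem_insert_of_mem (hsup x hx (Multiset.mem_toFinset.2 hb))
      rw [hf', hF]
      simp only [hf, if_pos h1, if_pos (hsup x hx), Multiset.map_add, Multiset.prod_add,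
        Multiset.map_replicate, Multiset.prod_replicate]
    have hinj : ∀ x y : ℕ × Multiset A, F x ≠ 0 → F y ≠ 0 →
        Multiset.replicate x.1 a + x.2 = Multiset.replicate y.1 a + y.2 → x = y := by
      intro x y hx hy hxy
      have h1 := congrArg (Multiset.count a) hxy
      rw [Multiset.count_add, Multiset.count_add, Multiset.count_replicate_self,
        Multiset.count_replicate_self, hcount x hx, hcount y hy, add_zero, add_zero] at h1
      rw [h1] at hxy
      exact Prod.ext h1 (add_left_cancel hxy)
    have hran : ∀ m : Multiset A, f' m ≠ 0 → ∃ x : ℕ × Multiset A, F x ≠ 0 ∧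
        Multiset.replicate x.1 a + x.2 = m := by
      intro m hm
      have hm1 : m.toFinset ⊆ insert a t := by
        by_contra h
        apply hm
        rw [hf']
        exact if_neg h
      have h3 : (m.filter (fun b => ¬ b = a)).toFinset ⊆ t := by
        intro b hb
        rw [Multiset.mem_toFinset, Multiset.mem_filter] at hb
        exact (Finset.mem_insert.1 (hm1 (Multiset.mem_toFinset.2 hb.1))).resolve_left hb.2
      have h4 : F (m.count a, m.filter (fun b => ¬ b = a)) = f' m := by
        have h5 : (m.map w).prod = w a ^ (m.count a) *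
            ((m.filter (fun b => ¬ b = a)).map w).prod := by
          conv_lhs => rw [← EuB_filter a m]
          rw [Multiset.map_add, Multiset.prod_add, Multiset.map_replicate,
            Multiset.prod_replicate]
        rw [hf', hF]
        simp only [hf, if_pos h3, if_pos hm1]
        exact h5.symm
      exact ⟨(m.count a, m.filter (fun b => ¬ b = a)), h4 ▸ hm, EuB_filter a m⟩
    constructor
    · rw [Finset.prod_insert ha]
      refine (hasSum_iff_hasSum_of_ne_zero_bij
        (fun x : Function.support F => Multiset.replicate x.1.1 a + x.1.2) ?_ ?_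
        (fun x => hval x.1 x.2)).2 hFs
      · rintro ⟨x, hx⟩ ⟨y, hy⟩ hxy
        exact Subtype.ext (hinj x y hx hy hxy)
      · intro m hm
        obtain ⟨x, hx, hxm⟩ := hran m hm
        exact ⟨⟨x, hx⟩, hxm⟩
    · have hne : ∀ x : Function.support (fun x => ‖F x‖), F x.1 ≠ 0 := fun x =>
        norm_ne_zero_iff.1 x.2
      refine ((hasSum_iff_hasSum_of_ne_zero_bij
        (fun x : Function.support (fun x => ‖F x‖) => Multiset.replicate x.1.1 a + x.1.2) ?_ ?_
        (fun x => congrArg norm (hval x.1 (hne x)))).2 hFn.hasSum).summable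
      · intro x y hxy
        exact Subtype.ext (hinj x.1 y.1 (hne x) (hne y) hxy)
      · intro m hm
        obtain ⟨x, hx, hxm⟩ := hran m (norm_ne_zero_iff.1 hm)
        exact ⟨⟨x, norm_ne_zero_iff.2 hx⟩, hxm⟩

theorem multiset_summable {A : Type} (w : A → ℂ) (hw : Summable (fun a => ‖w a‖))
    (h2 : ∀ a, ‖w a‖ ≤ 1 / 2) :
    Summable (fun m : Multiset A => ‖(m.map w).prod‖) := by
  classical
  refine summable_of_sum_le (c := Real.exp (2 * ∑' a, ‖w a‖)) (fun m => norm_nonneg _)
    fun s => ?_
  have h2' : ∀ a, ‖(‖w a‖ : ℝ)‖ ≤ 1 / 2 := fun a => by rw [norm_norm]; exact h2 a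
  obtain ⟨t, ht⟩ : ∃ t : Finset A, t = s.biUnion fun m => m.toFinset := ⟨_, rfl⟩
  obtain ⟨h3, -⟩ := EuB_hasSum (K := ℝ) (fun a => ‖w a‖) h2' t
  have h4 : ∀ m ∈ s, ‖(m.map w).prod‖ =
      if m.toFinset ⊆ t then (m.map fun a => ‖w a‖).prod else 0 := by
    intro m hm
    rw [if_pos (by rw [ht]; exact Finset.subset_biUnion_of_mem (fun m : Multiset A => m.toFinset) hm)]
    have := map_multiset_prod (normHom (α := ℂ)) (m.map w)
    rw [Multiset.map_map] at this
    exact this
  rw [Finset.sum_congr rfl h4]
  have h5 : ∀ m ∉ s, 0 ≤ if m.toFinset ⊆ t then (m.map fun a => ‖w a‖).prod else 0 := by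
    intro m _
    split_ifs
    · refine Multiset.prod_nonneg fun x hx => ?_
      obtain ⟨a, -, rfl⟩ := Multiset.mem_map.1 hx
      exact norm_nonneg _
    · exact le_rfl
  refine (sum_le_hasSum s h5 h3).trans ?_
  have h6 : ∀ a ∈ t, (1 - ‖w a‖)⁻¹ ≤ Real.exp (2 * ‖w a‖) := by
    intro a _
    have h7 := norm_nonneg (w a)
    have h8 := h2 a
    have h9 : 0 < 1 - ‖w a‖ := by linarith
    rw [inv_le_iff_one_le_mul₀ h9]
    have h10 := Real.add_one_le_exp (2 * ‖w a‖)
    have h11 : (2 * ‖w a‖ + 1) * (1 - ‖w a‖) ≤ Real.exp (2 * ‖w a‖) * (1 - ‖w a‖) :=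
      mul_le_mul_of_nonneg_right h10 h9.le
    nlinarith
  calc ∏ a ∈ t, (1 - ‖w a‖)⁻¹ ≤ ∏ a ∈ t, Real.exp (2 * ‖w a‖) :=
        Finset.prod_le_prod (fun a _ => inv_nonneg.2 (by linarith [h2 a])) h6
    _ = Real.exp (∑ a ∈ t, 2 * ‖w a‖) := (Real.exp_sum _ _).symm
    _ ≤ Real.exp (2 * ∑' a, ‖w a‖) := by
        refine Real.exp_le_exp.2 ?_
        rw [← Finset.mul_sum]
        exact mul_le_mul_of_nonneg_left (hw.sum_le_tsum t fun a _ => norm_nonneg _) (by norm_num)

/-- The multisets with support in a finite set. -/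
theorem euler_finset {A : Type} [DecidableEq A] (w : A → ℂ) (hw : Summable (fun a => ‖w a‖))
    (h2 : ∀ a, ‖w a‖ ≤ 1 / 2) (t : Finset A) :
    ∑' m : Multiset A, (if m.toFinset ⊆ t then (m.map w).prod else 0) =
      ∏ a ∈ t, (1 - w a)⁻¹ := (EuB_hasSum w h2 t).1.tsum_eq

end Pool.Agent.Cheb
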