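import Pool.Agent.Chebotarev_h15.EuA
import Pool.Agent.Chebotarev_h15.EuB

/-!
# The Euler product for complex weights

`Pool.Agent.H62D.Zms` (`W_f569db_h62/NTA.lean`, `NTB.lean`) is the same for weights in `ℝ≥0∞`;
`Zms_lt_top` gives the absolute convergence of the sum over the multisets.

Proof of `euler_multiset`.  (1) Summability of `∏_{a ∈ m} ‖w a‖` over the multisets `m`:
`Zms_lt_top` (`‖w a‖ ≤ 1/2 < 1`, `∑ ‖w a‖ < ∞`; `ENNReal` version, then
`ENNReal.summable_toReal` or similar).
(2) For a finite set `t` of elements the sum over the multisets with support in `t` is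
`∏_{a ∈ t} (1 - w a)⁻¹` (induction on `t`: a multiset on `insert a t` is a multiset on `t` plus
`n` copies of `a`; geometric series and product of absolutely convergent sums).
(3) For `t` going through the finite sets, the left side converges to the whole sum
(`tendsto_tsum_of_dominated_convergence` with the indicator of the multisets with support in `t`),
and the right side is `exp (-∑_{a ∈ t} log (1 - w a))`, which converges to
`exp (-∑' a, log (1 - w a))` (`‖log (1 - w a)‖ ≤ 2 ‖w a‖`: summable).
-/

set_option autoImplicit false

noncomputable section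

open Filter Topology

namespace Pool.Agent.Cheb

theorem euler_multiset {A : Type} (w : A → ℂ) (hw : Summable (fun a => ‖w a‖))
    (h2 : ∀ a, ‖w a‖ ≤ 1 / 2) :
    ∑' m : Multiset A, (m.map w).prod = Complex.exp (-∑' a, Complex.log (1 - w a)) := by
  classical
  have hs : Summable (fun a => Complex.log (1 - w a)) := by
    refine Summable.of_norm ?_
    exact Summable.of_nonneg_of_le (fun a => norm_nonneg _) (fun a => norm_log_one_sub_le (h2 a))
      (hw.mul_left 2)
  have h1 : Tendsto (fun t : Finset A => ∑' m : Multiset A,
      (if m.toFinset ⊆ t then (m.map w).prod else 0)) atTop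
      (𝓝 (∑' m : Multiset A, (m.map w).prod)) := by
    refine tendsto_tsum_of_dominated_convergence (multiset_summable w hw h2) ?_ ?_
    · intro m
      refine tendsto_const_nhds.congr' ?_
      filter_upwards [eventually_ge_atTop m.toFinset] with t ht
      rw [if_pos ht]
    · refine Eventually.of_forall fun t m => ?_
      split_ifs
      · exact le_rfl
      · rw [norm_zero]
        exact norm_nonneg _
  have h3 : Tendsto (fun t : Finset A => ∏ a ∈ t, (1 - w a)⁻¹) atTop
      (𝓝 (Complex.exp (-∑' a, Complex.log (1 - w a)))) := by
    have h4 : (fun t : Finset A => ∏ a ∈ t, (1 - w a)⁻¹) =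
        fun t => Complex.exp (-∑ a ∈ t, Complex.log (1 - w a)) := by
      funext t
      rw [← Finset.sum_neg_distrib, Complex.exp_sum]
      refine Finset.prod_congr rfl fun a _ => ?_
      have h5 : 1 - w a ≠ 0 := by
        intro h
        have h6 : w a = 1 := (sub_eq_zero.1 h).symm
        have h7 := h2 a
        rw [h6, norm_one] at h7
        norm_num at h7
      rw [Complex.exp_neg, Complex.exp_log h5]
    rw [h4]
    have h5 : Tendsto (fun t : Finset A => ∑ a ∈ t, Complex.log (1 - w a)) atTop
      (𝓝 (∑' a, Complex.log (1 - w a))) := hs.hasSum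
    exact (Complex.continuous_exp.tendsto _).comp h5.neg
  exact tendsto_nhds_unique (h1.congr fun t => euler_finset w hw h2 t) h3

end Pool.Agent.Cheb
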