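import Mathlib

/-!
# The Euler product for complex weights

`Pool.Agent.H62D.Zms` (`W_f569db_h62/NTA.lean`, `NTB.lean`) is the same for weights in `ℝ≥0∞`;
`Zms_lt_top` gives the absolute convergence of the sum over the multisets.

Proof of `euler_multiset`.  (1) Summability of `∏_{a ∈ m} ‖w a‖` over the multisets `m`:
`Zms_lt_top` (`‖w a‖ ≤ 1/2 < 1`, `∑ ‖w a‖ < ∞`; `ENNReal` version, then
`ENNReal.summable_toReal` or similar).
(2) For a finite set `t` of elements the sum over the multisets with support in `t` is
`∏_{a ∈ t} (1 - w a)⁻¹` (induction on `t`: a multiset on `insert a t` is a multiset on `t` plus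
`n` copies of `a`; geometric series and product of absolutely convergent sums).
(3) For `t` going through the finite sets, the left side converges to the whole sum
(`tendsto_tsum_of_dominated_convergence` with the indicator of the multisets with support in `t`),
and the right side is `exp (-∑_{a ∈ t} log (1 - w a))`, which converges to
`exp (-∑' a, log (1 - w a))` (`‖log (1 - w a)‖ ≤ 2 ‖w a‖`: summable).
-/

set_option autoImplicit false

noncomputable section

open Filter Topology

namespace Pool.Agent.Cheb

end Pool.Agent.Cheb
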