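import Mathlib

/-!
# The field `M = K(ζ_m)` over `k`

`m` is a prime number which does not divide the discriminant of `K`.

* `irreducible_cyclotomic`: the cyclotomic polynomial of order `m` is irreducible over `K`:
  `K` and `ℚ(ζ_m)` have coprime discriminants, so they are linearly disjoint over `ℚ` (Mathlib:
  search for `LinearDisjoint` and `discr` in `NumberTheory/NumberField`), so
  `[K(ζ_m) : K] = [ℚ(ζ_m) : ℚ] = m - 1`.  (Or directly: `m` is unramified in `K`, so at a prime `P`
  of `K` over `m`, `v_P(m) = 1` and `cyclotomic m (X + 1)` is an Eisenstein polynomial at `P`: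
  `Polynomial.IsEisensteinAt` over `𝓞 K`, Gauss lemma; `m ∤ discr K` implies `P ^ 2 ∤ (m)`.)
* `exists_cyc`: `M = CyclotomicField m K` with the instances of Mathlib (`CyclotomicField.instAlgebra`,
  `CyclotomicField.instIsScalarTower`, `CyclotomicField.instNumberField`).  `M / k` is Galois:
  every embedding `f` of `M` over `k` into an algebraic closure `Ω` of `M` maps `K` into itself
  (`K / k` normal) and `ζ` to a power of `ζ`, and `M` is generated by `K` and `ζ`.  (For instance:
  `Normal.of...`, or `M` is the splitting field over `k` of `f * (X ^ m - 1)`, where `K` is the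
  splitting field of `f`.)
* `gal_bij`: injective: an automorphism which is the identity on `K` and fixes `ζ` is the identity
  (`IsCyclotomicExtension.adjoin_roots`).  Surjective: by counting: `[M : k] = [K : k] (m - 1)`, or
  `Nat.card` of both sides.
-/

set_option autoImplicit false

noncomputable section

open Filter Topology NumberField IsDedekindDomain
open scoped nonZeroDivisors

namespace Pool.Agent.Cheb

theorem irreducible_cyclotomic (K : Type) [Field K] [NumberField K] (m : ℕ) (hm : m.Prime)
    (hK : ¬ (m : ℤ) ∣ discr K) : Irreducible (Polynomial.cyclotomic m K) := by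
  have := Fact.mk hm
  have : NeZero m := ⟨hm.ne_zero⟩
  let L := CyclotomicField m K
  have hζ : IsPrimitiveRoot (IsCyclotomicExtension.zeta m K L) m :=
    IsCyclotomicExtension.zeta_spec m K L
  set ζ : L := IsCyclotomicExtension.zeta m K L with hζdef
  let K₁ : IntermediateField ℚ L := IntermediateField.adjoin ℚ {ζ}
  have hc1 : IsCyclotomicExtension {m} ℚ K₁ := hζ.intermediateField_adjoin_isCyclotomicExtension ℚ
  let f : K →ₐ[ℚ] L := IsScalarTower.toAlgHom ℚ K L
  let K₂ : IntermediateField ℚ L := f.fieldRange
  have hK2 : discr K₂ = discr K :=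
    (discr_eq_discr_of_algEquiv K (AlgEquiv.ofInjectiveField f)).symm
  have hd1 : (discr K₁).natAbs ∣ m ^ m.totient := by
    rw [IsCyclotomicExtension.Rat.natAbs_discr m K₁]
    exact Nat.div_dvd_of_dvd (Nat.prod_primeFactors_pow_totient_ediv_dvd hm.pos)
  have hgal : IsGalois ℚ K₁ := IsCyclotomicExtension.isGalois {m} ℚ K₁
  have hcop : IsCoprime (discr K₁) (discr K₂) := by
    rw [Int.isCoprime_iff_nat_coprime, hK2]
    refine Nat.Coprime.coprime_dvd_left hd1 (Nat.Coprime.pow_left _ ?_)
    rw [Nat.Prime.coprime_iff_not_dvd hm]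
    intro h
    exact hK (Int.natCast_dvd.2 h)
  have hdis : K₁.LinearDisjoint K₂ := linearDisjoint_of_isGalois_isCoprime_discr L K₁ K₂ hcop
  have hadj : Algebra.adjoin K {ζ} = ⊤ := IsCyclotomicExtension.adjoin_primitive_root_eq_top hζ
  have htop : K₁ ⊔ K₂ = ⊤ := by
    rw [eq_top_iff]
    intro x _
    have hx : x ∈ Algebra.adjoin K {ζ} := by rw [hadj]; exact Algebra.mem_top
    refine Algebra.adjoin_induction (p := fun x _ => x ∈ K₁ ⊔ K₂) ?_ ?_ ?_ ?_ hx
    · intro y hy
      rw [Set.mem_singleton_iff] at hy
      rw [hy]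
      exact (le_sup_left : K₁ ≤ K₁ ⊔ K₂) (IntermediateField.mem_adjoin_simple_self ℚ ζ)
    · intro r
      exact (le_sup_right : K₂ ≤ K₁ ⊔ K₂) ⟨r, rfl⟩
    · intro y z _ _ hy hz
      exact add_mem hy hz
    · intro y z _ _ hy hz
      exact mul_mem hy hz
  have hfin := hdis.finrank_sup
  rw [htop, IntermediateField.finrank_top'] at hfin
  have h1 : Module.finrank ℚ K₁ = m - 1 := by
    rw [IsCyclotomicExtension.finrank K₁ (Polynomial.cyclotomic.irreducible_rat hm.pos),
      Nat.totient_prime hm]
  have h2 : Module.finrank ℚ K₂ = Module.finrank ℚ K :=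
    (AlgEquiv.ofInjectiveField f).toLinearEquiv.finrank_eq.symm
  have h3 : Module.finrank ℚ K * Module.finrank K L = Module.finrank ℚ L :=
    Module.finrank_mul_finrank ℚ K L
  have h4 : Module.finrank K L = m - 1 := by
    have h5 : 0 < Module.finrank ℚ K := Module.finrank_pos
    apply Nat.eq_of_mul_eq_mul_left h5
    rw [h3, hfin, h1, h2, mul_comm]
  have hint : IsIntegral K ζ := Algebra.IsIntegral.isIntegral ζ
  have h6 : (minpoly K ζ).natDegree = m - 1 := by
    rw [← IntermediateField.adjoin.finrank hint]
    have h7 : IntermediateField.adjoin K {ζ} = ⊤ := by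
      rw [← IntermediateField.toSubalgebra_inj, IntermediateField.top_toSubalgebra, eq_top_iff,
        ← hadj]
      exact IntermediateField.algebra_adjoin_le_adjoin K {ζ}
    rw [h7, IntermediateField.finrank_top', h4]
  have h8 : minpoly K ζ ∣ Polynomial.cyclotomic m K := by
    apply minpoly.dvd
    rw [Polynomial.aeval_def, Polynomial.eval₂_eq_eval_map, Polynomial.map_cyclotomic]
    exact hζ.isRoot_cyclotomic hm.pos
  have h9 : minpoly K ζ = Polynomial.cyclotomic m K := by
    symm
    apply Polynomial.eq_of_monic_of_dvd_of_natDegree_le (minpoly.monic hint)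
      (Polynomial.cyclotomic.monic m K) h8
    rw [Polynomial.natDegree_cyclotomic, Nat.totient_prime hm, h6]
  rw [← h9]
  exact minpoly.irreducible hint

variable (k K M : Type) [Field k] [NumberField k] [Field K] [NumberField K] [Field M]
  [NumberField M] [Algebra k K] [Algebra K M] [Algebra k M] [IsScalarTower k K M]
  [IsGalois k K] [IsGalois k M]

/-- `g ↦ (g|_K, ι(g))`. -/
def galMap {m : ℕ} [NeZero m] {ζ : M} (hζ : IsPrimitiveRoot ζ m) :
    Gal(M/k) →* Gal(K/k) × (ZMod m)ˣ :=
  (AlgEquiv.restrictNormalHom K).prod (IsPrimitiveRoot.autToPow k hζ)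

end Pool.Agent.Cheb
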