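import Pool.Agent.Chebotarev_h15.FiA

/-!
# The field `M = K(ζ_m)` over `k`

`m` is a prime number which does not divide the discriminant of `K`.

* `irreducible_cyclotomic`: the cyclotomic polynomial of order `m` is irreducible over `K`:
  `K` and `ℚ(ζ_m)` have coprime discriminants, so they are linearly disjoint over `ℚ` (Mathlib:
  search for `LinearDisjoint` and `discr` in `NumberTheory/NumberField`), so
  `[K(ζ_m) : K] = [ℚ(ζ_m) : ℚ] = m - 1`.  (Or directly: `m` is unramified in `K`, so at a prime `P`
  of `K` over `m`, `v_P(m) = 1` and `cyclotomic m (X + 1)` is an Eisenstein polynomial at `P`: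
  `Polynomial.IsEisensteinAt` over `𝓞 K`, Gauss lemma; `m ∤ discr K` implies `P ^ 2 ∤ (m)`.)
* `exists_cyc`: `M = CyclotomicField m K` with the instances of Mathlib (`CyclotomicField.instAlgebra`,
  `CyclotomicField.instIsScalarTower`, `CyclotomicField.instNumberField`).  `M / k` is Galois:
  every embedding `f` of `M` over `k` into an algebraic closure `Ω` of `M` maps `K` into itself
  (`K / k` normal) and `ζ` to a power of `ζ`, and `M` is generated by `K` and `ζ`.  (For instance:
  `Normal.of...`, or `M` is the splitting field over `k` of `f * (X ^ m - 1)`, where `K` is the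
  splitting field of `f`.)
* `gal_bij`: injective: an automorphism which is the identity on `K` and fixes `ζ` is the identity
  (`IsCyclotomicExtension.adjoin_roots`).  Surjective: by counting: `[M : k] = [K : k] (m - 1)`, or
  `Nat.card` of both sides.
-/

set_option autoImplicit false

noncomputable section

open Filter Topology NumberField IsDedekindDomain
open scoped nonZeroDivisors

namespace Pool.Agent.Cheb

theorem exists_cyc (k K : Type) [Field k] [NumberField k] [Field K] [NumberField K] [Algebra k K]
    [IsGalois k K] (m : ℕ) (hm : m.Prime) (hK : ¬ (m : ℤ) ∣ discr K) :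
    ∃ (M : Type) (_ : Field M) (_ : NumberField M) (_ : Algebra k M) (_ : Algebra K M),
      IsScalarTower k K M ∧ IsGalois k M ∧ IsCyclotomicExtension {m} K M ∧
        Module.finrank K M = m - 1 := by
  haveI : NeZero m := ⟨hm.ne_zero⟩
  have hirr := irreducible_cyclotomic K m hm hK
  refine ⟨CyclotomicField m K, inferInstance, inferInstance, inferInstance, inferInstance,
    inferInstance, ?_, inferInstance, ?_⟩
  · obtain ⟨f, hf, hsp⟩ := IsGalois.is_separable_splitting_field k K
    have hf0 : f ≠ 0 := hf.ne_zero
    have hg0 : (Polynomial.X ^ m - 1 : Polynomial k) ≠ 0 := by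
      have h1 := Polynomial.X_pow_sub_C_ne_zero hm.pos (1 : k)
      rwa [Polynomial.C_1] at h1
    have h2 : (Polynomial.X ^ m - 1 : Polynomial k).map (algebraMap k K) =
        Polynomial.X ^ m - 1 := by
      simp
    haveI h3 : Polynomial.IsSplittingField K (CyclotomicField m K)
        ((Polynomial.X ^ m - 1 : Polynomial k).map (algebraMap k K)) := by
      rw [h2]
      exact IsCyclotomicExtension.isSplittingField_X_pow_sub_one m K (CyclotomicField m K)
    haveI h4 : Polynomial.IsSplittingField k (CyclotomicField m K)
        (f * (Polynomial.X ^ m - 1)) := Polynomial.IsSplittingField.mul (K := K) _ f _ hf0 hg0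
    haveI h5 : Normal k (CyclotomicField m K) := Normal.of_isSplittingField (f * (Polynomial.X ^ m - 1))
    exact ⟨⟩
  · rw [IsCyclotomicExtension.finrank (CyclotomicField m K) hirr, Nat.totient_prime hm]

variable (k K M : Type) [Field k] [NumberField k] [Field K] [NumberField K] [Field M]
  [NumberField M] [Algebra k K] [Algebra K M] [Algebra k M] [IsScalarTower k K M]
  [IsGalois k K] [IsGalois k M]

end Pool.Agent.Cheb
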