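import Pool.Agent.Chebotarev_h15.FiA

/-!
# The field `M = K(ζ_m)` over `k`

`m` is a prime number which does not divide the discriminant of `K`.

* `irreducible_cyclotomic`: the cyclotomic polynomial of order `m` is irreducible over `K`:
  `K` and `ℚ(ζ_m)` have coprime discriminants, so they are linearly disjoint over `ℚ` (Mathlib:
  search for `LinearDisjoint` and `discr` in `NumberTheory/NumberField`), so
  `[K(ζ_m) : K] = [ℚ(ζ_m) : ℚ] = m - 1`.  (Or directly: `m` is unramified in `K`, so at a prime `P`
  of `K` over `m`, `v_P(m) = 1` and `cyclotomic m (X + 1)` is an Eisenstein polynomial at `P`: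
  `Polynomial.IsEisensteinAt` over `𝓞 K`, Gauss lemma; `m ∤ discr K` implies `P ^ 2 ∤ (m)`.)
* `exists_cyc`: `M = CyclotomicField m K` with the instances of Mathlib (`CyclotomicField.instAlgebra`,
  `CyclotomicField.instIsScalarTower`, `CyclotomicField.instNumberField`).  `M / k` is Galois:
  every embedding `f` of `M` over `k` into an algebraic closure `Ω` of `M` maps `K` into itself
  (`K / k` normal) and `ζ` to a power of `ζ`, and `M` is generated by `K` and `ζ`.  (For instance:
  `Normal.of...`, or `M` is the splitting field over `k` of `f * (X ^ m - 1)`, where `K` is the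
  splitting field of `f`.)
* `gal_bij`: injective: an automorphism which is the identity on `K` and fixes `ζ` is the identity
  (`IsCyclotomicExtension.adjoin_roots`).  Surjective: by counting: `[M : k] = [K : k] (m - 1)`, or
  `Nat.card` of both sides.
-/

set_option autoImplicit false

noncomputable section

open Filter Topology NumberField IsDedekindDomain
open scoped nonZeroDivisors

namespace Pool.Agent.Cheb

variable (k K M : Type) [Field k] [NumberField k] [Field K] [NumberField K] [Field M]
  [NumberField M] [Algebra k K] [Algebra K M] [Algebra k M] [IsScalarTower k K M]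
  [IsGalois k K] [IsGalois k M]

theorem FiC_inj (m : ℕ) [NeZero m] (hm : m.Prime) [IsCyclotomicExtension {m} K M]
    {ζ : M} (hζ : IsPrimitiveRoot ζ m) : Function.Injective (galMap k K M hζ) := by
  rw [injective_iff_map_eq_one]
  intro g hg
  have h1 : AlgEquiv.restrictNormalHom K g = 1 := congrArg Prod.fst hg
  have h2 : IsPrimitiveRoot.autToPow k hζ g = 1 := congrArg Prod.snd hg
  have hK : ∀ x : K, g (algebraMap K M x) = algebraMap K M x := by
    intro x
    have h3 := AlgEquiv.restrictNormal_commutes g K x
    have h4 : g.restrictNormal K = 1 := h1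
    rw [h4] at h3
    exact h3.symm
  have hz : g ζ = ζ := by
    have h5 := IsPrimitiveRoot.autToPow_spec k hζ g
    rw [h2] at h5
    haveI : Fact (1 < m) := ⟨hm.one_lt⟩
    rw [Units.val_one, ZMod.val_one, pow_one] at h5
    exact h5.symm
  let G : M →ₐ[K] M := { (g : M →+* M) with commutes' := hK }
  have hG : G = AlgHom.id K M := by
    apply (hζ.powerBasis K).algHom_ext
    show g ζ = ζ
    exact hz
  ext x
  have := DFunLike.congr_fun hG x
  exact this

theorem gal_bij (m : ℕ) [NeZero m] (hm : m.Prime) [IsCyclotomicExtension {m} K M]
    (hM : Module.finrank K M = m - 1) {ζ : M} (hζ : IsPrimitiveRoot ζ m) :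
    Function.Bijective (galMap k K M hζ) := by
  haveI : Fintype (ZMod m)ˣ := inferInstance
  refine (FiC_inj k K M m hm hζ).bijective_of_nat_card_le ?_
  rw [Nat.card_prod, IsGalois.card_aut_eq_finrank, IsGalois.card_aut_eq_finrank,
    Nat.card_eq_fintype_card, ZMod.card_units_eq_totient, Nat.totient_prime hm,
    ← Module.finrank_mul_finrank k K M, hM]

end Pool.Agent.Cheb
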