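import Mathlib

/-!
# The field `M = K(ζ_m)` over `k`

`m` is a prime number which does not divide the discriminant of `K`.

* `irreducible_cyclotomic`: the cyclotomic polynomial of order `m` is irreducible over `K`:
  `K` and `ℚ(ζ_m)` have coprime discriminants, so they are linearly disjoint over `ℚ` (Mathlib:
  search for `LinearDisjoint` and `discr` in `NumberTheory/NumberField`), so
  `[K(ζ_m) : K] = [ℚ(ζ_m) : ℚ] = m - 1`.  (Or directly: `m` is unramified in `K`, so at a prime `P`
  of `K` over `m`, `v_P(m) = 1` and `cyclotomic m (X + 1)` is an Eisenstein polynomial at `P`: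
  `Polynomial.IsEisensteinAt` over `𝓞 K`, Gauss lemma; `m ∤ discr K` implies `P ^ 2 ∤ (m)`.)
* `exists_cyc`: `M = CyclotomicField m K` with the instances of Mathlib (`CyclotomicField.instAlgebra`,
  `CyclotomicField.instIsScalarTower`, `CyclotomicField.instNumberField`).  `M / k` is Galois:
  every embedding `f` of `M` over `k` into an algebraic closure `Ω` of `M` maps `K` into itself
  (`K / k` normal) and `ζ` to a power of `ζ`, and `M` is generated by `K` and `ζ`.  (For instance:
  `Normal.of...`, or `M` is the splitting field over `k` of `f * (X ^ m - 1)`, where `K` is the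
  splitting field of `f`.)
* `gal_bij`: injective: an automorphism which is the identity on `K` and fixes `ζ` is the identity
  (`IsCyclotomicExtension.adjoin_roots`).  Surjective: by counting: `[M : k] = [K : k] (m - 1)`, or
  `Nat.card` of both sides.
-/

set_option autoImplicit false

noncomputable section

open Filter Topology NumberField IsDedekindDomain
open scoped nonZeroDivisors

namespace Pool.Agent.Cheb

variable (k K M : Type) [Field k] [NumberField k] [Field K] [NumberField K] [Field M]
  [NumberField M] [Algebra k K] [Algebra K M] [Algebra k M] [IsScalarTower k K M]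
  [IsGalois k K] [IsGalois k M]

/-- The order of the centralizer in the product with an abelian group. -/
theorem card_centralizer {G A Γ : Type} [Group G] [Finite G] [CommGroup A] [Finite A] [Group Γ]
    (e : Γ →* G × A) (he : Function.Bijective e) (g : Γ) :
    Nat.card (Subgroup.centralizer ({g} : Set Γ)) =
      Nat.card (Subgroup.centralizer ({(e g).1} : Set G)) * Nat.card A := by
  have h1 : ∀ x : Γ, x ∈ Subgroup.centralizer ({g} : Set Γ) ↔
      (e x).1 ∈ Subgroup.centralizer ({(e g).1} : Set G) := by
    intro x
    rw [Subgroup.mem_centralizer_iff, Subgroup.mem_centralizer_iff]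
    simp only [Set.mem_singleton_iff, forall_eq]
    constructor
    · intro h
      have h2 := congrArg (fun y => (e y).1) h
      simpa using h2
    · intro h
      apply he.1
      rw [map_mul, map_mul]
      refine Prod.ext h ?_
      rw [Prod.snd_mul, Prod.snd_mul]
      exact mul_comm _ _
  let e1 : Subgroup.centralizer ({g} : Set Γ) ≃
      Subgroup.centralizer ({(e g).1} : Set G) × A :=
    { toFun := fun x => (⟨(e x.1).1, (h1 x.1).1 x.2⟩, (e x.1).2)
      invFun := fun y => ⟨(Equiv.ofBijective e he).symm (y.1.1, y.2), by
        rw [h1]
        have h3 : e ((Equiv.ofBijective e he).symm (y.1.1, y.2)) = (y.1.1, y.2) :=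
          (Equiv.ofBijective e he).apply_symm_apply _
        rw [h3]
        exact y.1.2⟩
      left_inv := by
        intro x
        apply Subtype.ext
        exact (Equiv.ofBijective e he).symm_apply_apply x.1
      right_inv := by
        intro y
        have h3 : e ((Equiv.ofBijective e he).symm (y.1.1, y.2)) = (y.1.1, y.2) :=
          (Equiv.ofBijective e he).apply_symm_apply _
        refine Prod.ext (Subtype.ext ?_) ?_
        · have h4 : (e ((Equiv.ofBijective e he).symm (y.1.1, y.2))).1 = y.1.1 := by rw [h3]
          exact h4
        · have h4 : (e ((Equiv.ofBijective e he).symm (y.1.1, y.2))).2 = y.2 := by rw [h3]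
          exact h4 }
  rw [Nat.card_congr e1, Nat.card_prod]

theorem orderOf_eq {G A Γ : Type} [Group G] [Finite G] [CommGroup A] [Finite A] [Group Γ]
    (e : Γ →* G × A) (he : Function.Bijective e) (g : Γ)
    (h : orderOf (e g).1 ∣ orderOf (e g).2) :
    orderOf g = orderOf (e g).2 := by
  rw [← orderOf_injective e he.1 g, Prod.orderOf]
  exact Nat.lcm_eq_right h

end Pool.Agent.Cheb
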