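import Mathlib

/-!
# The family `gfun` is nice

`n = finrank ℚ F = finrank ℝ (mixedSpace F)` (`mixedEmbedding.finrank`), `δ` from
`phi_comparable`.

* `hfun_le`: if `phi F x ≠ 0` then `norm x = ∏ (normAtPlace w x)^(mult w) ≥ (δ ‖x‖)^n`.
* `phi_sub`: `|phi F x - phi F y| ≤ C ‖x - y‖ / ‖x‖` whenever `phi F x ≠ 0` and
  `‖x - y‖ ≤ (δ/2) ‖x‖`: then `normAtPlace w y ≥ (1/2) normAtPlace w x` for all `w`, and
  `|log ‖y‖_w - log ‖x‖_w| ≤ 2 ‖x - y‖ / (δ ‖x‖)`; so `logMap y - logMap x` is at most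
  `C ‖x - y‖/‖x‖`, the coordinates are linear functions of `logMap`, and `T` is Lipschitz with
  values in `[0, 1]` (product of factors).  Same estimate for
  `|log (norm y) - log (norm x)|` (`norm_log_sub`).
* `hfun_sub`: let `‖x - y‖ ≤ ‖x‖/2` (so `‖y‖ ≥ ‖x‖/2`).  If `‖x - y‖ > (δ/4) ‖x‖`: trivial by
  `hfun_le`.  Otherwise, if `phi F x ≠ 0` or `phi F y ≠ 0` (exchange the roles: `‖y‖ ≥ ‖x‖/2`),
  use `phi_sub`, `norm_log_sub`, `ε x = ε y` (`IsEps.loc`, as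
  `|x_w - y_w| ≤ ‖x - y‖ < δ ‖x‖ ≤ |x_w|`) and
  `|a^(-s) - b^(-s)| ≤ C a^(-s) |log a - log b|` for `|log a - log b| ≤ C'`.
* `nice_gfun`: `dec` from `hfun_le` (`‖x‖ ≥ 1`); `diff`: for `‖x‖ ≥ R₀ = 4 R + 4` both `‖x‖` and
  `‖y‖` are `≥ 1` and `hfun_sub` applies (and `‖x‖^(-n s) / ‖x‖ ≤ ‖x‖^(-n-1)`), for smaller
  `‖x‖` both values are bounded.
-/

set_option autoImplicit false

noncomputable section

open Filter Topology NumberField NumberField.mixedEmbedding NumberField.Units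

open scoped Classical

namespace Pool.Agent.Cheb

variable (F : Type) [Field F] [NumberField F]

end Pool.Agent.Cheb
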