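import Pool.Agent.Chebotarev_h15.PhiB

/-!
# The family `gfun` is nice

`n = finrank ℚ F = finrank ℝ (mixedSpace F)` (`mixedEmbedding.finrank`), `δ` from
`phi_comparable`.

* `hfun_le`: if `phi F x ≠ 0` then `norm x = ∏ (normAtPlace w x)^(mult w) ≥ (δ ‖x‖)^n`.
* `phi_sub`: `|phi F x - phi F y| ≤ C ‖x - y‖ / ‖x‖` whenever `phi F x ≠ 0` and
  `‖x - y‖ ≤ (δ/2) ‖x‖`: then `normAtPlace w y ≥ (1/2) normAtPlace w x` for all `w`, and
  `|log ‖y‖_w - log ‖x‖_w| ≤ 2 ‖x - y‖ / (δ ‖x‖)`; so `logMap y - logMap x` is at most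
  `C ‖x - y‖/‖x‖`, the coordinates are linear functions of `logMap`, and `T` is Lipschitz with
  values in `[0, 1]` (product of factors).  Same estimate for
  `|log (norm y) - log (norm x)|` (`norm_log_sub`).
* `hfun_sub`: let `‖x - y‖ ≤ ‖x‖/2` (so `‖y‖ ≥ ‖x‖/2`).  If `‖x - y‖ > (δ/4) ‖x‖`: trivial by
  `hfun_le`.  Otherwise, if `phi F x ≠ 0` or `phi F y ≠ 0` (exchange the roles: `‖y‖ ≥ ‖x‖/2`),
  use `phi_sub`, `norm_log_sub`, `ε x = ε y` (`IsEps.loc`, as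
  `|x_w - y_w| ≤ ‖x - y‖ < δ ‖x‖ ≤ |x_w|`) and
  `|a^(-s) - b^(-s)| ≤ C a^(-s) |log a - log b|` for `|log a - log b| ≤ C'`.
* `nice_gfun`: `dec` from `hfun_le` (`‖x‖ ≥ 1`); `diff`: for `‖x‖ ≥ R₀ = 4 R + 4` both `‖x‖` and
  `‖y‖` are `≥ 1` and `hfun_sub` applies (and `‖x‖^(-n s) / ‖x‖ ≤ ‖x‖^(-n-1)`), for smaller
  `‖x‖` both values are bounded.
-/

set_option autoImplicit false

noncomputable section

open Filter Topology NumberField NumberField.mixedEmbedding NumberField.Units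

open scoped Classical

namespace Pool.Agent.Cheb

variable (F : Type) [Field F] [NumberField F]

theorem hfun_le (ε : mixedSpace F → ℝ) (hε : IsEps F ε) :
    ∃ C : ℝ, 0 < C ∧ ∀ s ∈ Set.Icc (1 : ℝ) 2, ∀ x : mixedSpace F, x ≠ 0 →
      |hfun F ε s x| ≤ C * ‖x‖ ^ (-((Module.finrank ℚ F : ℝ) * s)) := by
  obtain ⟨δ₀, hδ₀, hcomp⟩ := phi_comparable F
  obtain ⟨δ, hδ, hδ1, hδδ⟩ : ∃ δ : ℝ, 0 < δ ∧ δ ≤ 1 ∧ δ ≤ δ₀ :=
    ⟨min δ₀ 1, lt_min hδ₀ one_pos, min_le_right _ _, min_le_left _ _⟩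
  obtain ⟨n, hn⟩ : ∃ n : ℕ, n = Module.finrank ℚ F := ⟨_, rfl⟩
  refine ⟨δ ^ (-((n : ℝ) * 2)), Real.rpow_pos_of_pos hδ _, ?_⟩
  intro s hs x hx
  rw [← hn]
  have hx0 : 0 < ‖x‖ := norm_pos_iff.2 hx
  have hRHS : 0 ≤ δ ^ (-((n : ℝ) * 2)) * ‖x‖ ^ (-((n : ℝ) * s)) :=
    mul_nonneg (Real.rpow_nonneg hδ.le _) (Real.rpow_nonneg hx0.le _)
  by_cases hphi : phi F x = 0
  · rw [hfun, hphi, mul_zero, zero_mul, abs_zero]
    exact hRHS
  have hN0 : mixedEmbedding.norm x ≠ 0 := fun h => hphi (phi_of_norm_eq_zero F h)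
  have hNpos : 0 < mixedEmbedding.norm x := lt_of_le_of_ne (mixedEmbedding.norm_nonneg x) hN0.symm
  have hN : (δ * ‖x‖) ^ n ≤ mixedEmbedding.norm x := by
    rw [mixedEmbedding.norm_apply, hn, ← InfinitePlace.sum_mult_eq, ← Finset.prod_pow_eq_pow_sum]
    refine Finset.prod_le_prod (fun w _ => by positivity) fun w _ => ?_
    refine pow_le_pow_left₀ (by positivity) ?_ _
    exact (mul_le_mul_of_nonneg_right hδδ hx0.le).trans (hcomp x hphi w)
  have hpow : mixedEmbedding.norm x ^ (-s) ≤ δ ^ (-((n : ℝ) * 2)) * ‖x‖ ^ (-((n : ℝ) * s)) := by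
    have h1 : mixedEmbedding.norm x ^ (-s) ≤ ((δ * ‖x‖) ^ n) ^ (-s) :=
      Real.rpow_le_rpow_of_nonpos (by positivity) hN (by linarith [hs.1])
    have h2 : ((δ * ‖x‖) ^ n) ^ (-s) = δ ^ (-((n : ℝ) * s)) * ‖x‖ ^ (-((n : ℝ) * s)) := by
      rw [← Real.rpow_natCast, ← Real.rpow_mul (by positivity), mul_neg,
        Real.mul_rpow hδ.le hx0.le]
    have h3 : δ ^ (-((n : ℝ) * s)) ≤ δ ^ (-((n : ℝ) * 2)) := by
      refine Real.rpow_le_rpow_of_exponent_ge hδ hδ1 ?_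
      have : (n : ℝ) * s ≤ n * 2 := mul_le_mul_of_nonneg_left hs.2 (Nat.cast_nonneg n)
      linarith
    rw [h2] at h1
    exact h1.trans (mul_le_mul_of_nonneg_right h3 (Real.rpow_nonneg hx0.le _))
  have hnn : 0 ≤ mixedEmbedding.norm x ^ (-s) := Real.rpow_nonneg hNpos.le _
  rw [hfun, abs_mul, abs_mul, abs_of_nonneg (phi_nonneg F x), abs_of_nonneg hnn]
  calc |ε x| * phi F x * mixedEmbedding.norm x ^ (-s) ≤ 1 * 1 * mixedEmbedding.norm x ^ (-s) := by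
        refine mul_le_mul_of_nonneg_right ?_ hnn
        exact mul_le_mul (hε.bound x) (phi_le_one F x) (phi_nonneg F x) zero_le_one
    _ ≤ _ := by
        rw [one_mul, one_mul]
        exact hpow

theorem hfun_cont (ε : mixedSpace F → ℝ) (x : mixedSpace F) :
    Tendsto (fun s => hfun F ε s x) (𝓝[>] 1) (𝓝 (hfun F ε 1 x)) := by
  by_cases hN0 : mixedEmbedding.norm x = 0
  · have h : ∀ s : ℝ, hfun F ε s x = 0 := by
      intro s
      rw [hfun, phi_of_norm_eq_zero F hN0, mul_zero, zero_mul]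
    simp only [h]
    exact tendsto_const_nhds
  · have hNpos : 0 < mixedEmbedding.norm x :=
      lt_of_le_of_ne (mixedEmbedding.norm_nonneg x) (Ne.symm hN0)
    have hc : Continuous fun s : ℝ => ε x * phi F x * mixedEmbedding.norm x ^ (-s) :=
      continuous_const.mul (Continuous.rpow continuous_const continuous_neg
        fun _ => Or.inl hNpos.ne')
    exact (hc.tendsto 1).mono_left nhdsWithin_le_nhds

end Pool.Agent.Cheb
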