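import Pool.Agent.Chebotarev_h15.PhiB

/-!
# The family `gfun` is nice

`n = finrank ℚ F = finrank ℝ (mixedSpace F)` (`mixedEmbedding.finrank`), `δ` from
`phi_comparable`.

* `hfun_le`: if `phi F x ≠ 0` then `norm x = ∏ (normAtPlace w x)^(mult w) ≥ (δ ‖x‖)^n`.
* `phi_sub`: `|phi F x - phi F y| ≤ C ‖x - y‖ / ‖x‖` whenever `phi F x ≠ 0` and
  `‖x - y‖ ≤ (δ/2) ‖x‖`: then `normAtPlace w y ≥ (1/2) normAtPlace w x` for all `w`, and
  `|log ‖y‖_w - log ‖x‖_w| ≤ 2 ‖x - y‖ / (δ ‖x‖)`; so `logMap y - logMap x` is at most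
  `C ‖x - y‖/‖x‖`, the coordinates are linear functions of `logMap`, and `T` is Lipschitz with
  values in `[0, 1]` (product of factors).  Same estimate for
  `|log (norm y) - log (norm x)|` (`norm_log_sub`).
* `hfun_sub`: let `‖x - y‖ ≤ ‖x‖/2` (so `‖y‖ ≥ ‖x‖/2`).  If `‖x - y‖ > (δ/4) ‖x‖`: trivial by
  `hfun_le`.  Otherwise, if `phi F x ≠ 0` or `phi F y ≠ 0` (exchange the roles: `‖y‖ ≥ ‖x‖/2`),
  use `phi_sub`, `norm_log_sub`, `ε x = ε y` (`IsEps.loc`, as
  `|x_w - y_w| ≤ ‖x - y‖ < δ ‖x‖ ≤ |x_w|`) and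
  `|a^(-s) - b^(-s)| ≤ C a^(-s) |log a - log b|` for `|log a - log b| ≤ C'`.
* `nice_gfun`: `dec` from `hfun_le` (`‖x‖ ≥ 1`); `diff`: for `‖x‖ ≥ R₀ = 4 R + 4` both `‖x‖` and
  `‖y‖` are `≥ 1` and `hfun_sub` applies (and `‖x‖^(-n s) / ‖x‖ ≤ ‖x‖^(-n-1)`), for smaller
  `‖x‖` both values are bounded.
-/

set_option autoImplicit false

noncomputable section

open Filter Topology NumberField NumberField.mixedEmbedding NumberField.Units

open scoped Classical

namespace Pool.Agent.Cheb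

variable (F : Type) [Field F] [NumberField F]

/-- Difference of two products of factors in `[0, 1]`. -/
theorem HfunB_prod {ι : Type} (s : Finset ι) (a b : ι → ℝ) (ha : ∀ i, 0 ≤ a i ∧ a i ≤ 1)
    (hb : ∀ i, 0 ≤ b i ∧ b i ≤ 1) : |∏ i ∈ s, a i - ∏ i ∈ s, b i| ≤ ∑ i ∈ s, |a i - b i| := by
  induction s using Finset.induction_on with
  | empty => simp
  | insert j s hj ih =>
    rw [Finset.prod_insert hj, Finset.prod_insert hj, Finset.sum_insert hj]
    have h1 : a j * ∏ i ∈ s, a i - b j * ∏ i ∈ s, b i =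
        (a j - b j) * ∏ i ∈ s, a i + b j * (∏ i ∈ s, a i - ∏ i ∈ s, b i) := by ring
    rw [h1]
    refine (abs_add_le _ _).trans (add_le_add ?_ ?_)
    · rw [abs_mul, abs_of_nonneg (Finset.prod_nonneg fun i _ => (ha i).1)]
      calc |a j - b j| * ∏ i ∈ s, a i ≤ |a j - b j| * 1 :=
            mul_le_mul_of_nonneg_left
              (Finset.prod_le_one (fun i _ => (ha i).1) fun i _ => (ha i).2) (abs_nonneg _)
        _ = _ := mul_one _
    · rw [abs_mul, abs_of_nonneg (hb j).1]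
      calc b j * |∏ i ∈ s, a i - ∏ i ∈ s, b i| ≤ 1 * |∏ i ∈ s, a i - ∏ i ∈ s, b i| :=
            mul_le_mul_of_nonneg_right (hb j).2 (abs_nonneg _)
        _ ≤ _ := by rw [one_mul]; exact ih

/-- Variation of the logarithm. -/
theorem HfunB_log {a b d : ℝ} (ha : 0 < a) (hab : |a - b| ≤ d) (hd : d ≤ a / 2) :
    0 < b ∧ |Real.log a - Real.log b| ≤ 2 * d / a := by
  have h1 := abs_le.1 hab
  have hb2 : a / 2 ≤ b := by linarith
  have hb : 0 < b := by linarith
  have hd0 : 0 ≤ d := (abs_nonneg _).trans hab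
  refine ⟨hb, ?_⟩
  rw [abs_le]
  constructor
  · -- log b - log a ≤ b / a - 1 ≤ d / a
    have h2 : Real.log (b / a) ≤ b / a - 1 := Real.log_le_sub_one_of_pos (by positivity)
    rw [Real.log_div hb.ne' ha.ne'] at h2
    have h3 : b / a - 1 ≤ 2 * d / a := by
      rw [div_sub_one ha.ne']
      refine div_le_div_of_nonneg_right ?_ ha.le
      linarith
    linarith
  · have h2 : Real.log (a / b) ≤ a / b - 1 := Real.log_le_sub_one_of_pos (by positivity)
    rw [Real.log_div ha.ne' hb.ne'] at h2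
    have h3 : a / b - 1 ≤ 2 * d / a := by
      rw [div_sub_one hb.ne', div_le_div_iff₀ hb ha]
      nlinarith
    linarith

theorem HfunB_norm_le (x : mixedSpace F) (w : InfinitePlace F) : normAtPlace w x ≤ ‖x‖ := by
  rw [norm_eq_sup'_normAtPlace]
  exact Finset.le_sup' (fun w => normAtPlace w x) (Finset.mem_univ w)

theorem HfunB_place (x y : mixedSpace F) (w : InfinitePlace F) :
    |normAtPlace w x - normAtPlace w y| ≤ ‖x - y‖ := by
  have h1 := normAtPlace_add_le w (x - y) y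
  have h2 := normAtPlace_add_le w (y - x) x
  have h3 := HfunB_norm_le F (x - y) w
  have h4 := HfunB_norm_le F (y - x) w
  rw [sub_add_cancel] at h1 h2
  rw [norm_sub_rev] at h4
  rw [abs_le]
  constructor <;> linarith

theorem HfunB_lognorm {x : mixedSpace F} (h0 : mixedEmbedding.norm x ≠ 0) :
    Real.log (mixedEmbedding.norm x) =
        ∑ w : InfinitePlace F, (w.mult : ℝ) * Real.log (normAtPlace w x) := by
  rw [mixedEmbedding.norm_apply, Real.log_prod fun w _ =>
    pow_ne_zero _ (mixedEmbedding.norm_ne_zero_iff.1 h0 w)]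
  exact Finset.sum_congr rfl fun w _ => Real.log_pow _ _

/-- The coordinates are Lipschitz functions of `logMap`. -/
theorem HfunB_coord : ∃ K : Fin (Units.rank F) → ℝ, (∀ i, 0 ≤ K i) ∧
    ∀ x y : mixedSpace F, ∀ i, |coord F x i - coord F y i| ≤ K i * ‖logMap x - logMap y‖ := by
  let L : Fin (Units.rank F) → (dirichletUnitTheorem.logSpace F →L[ℝ] ℝ) := fun i =>
    LinearMap.toContinuousLinearMap
      (((basisUnitLattice F).ofZLatticeBasis ℝ (unitLattice F)).coord i)
  refine ⟨fun i => ‖L i‖, fun i => norm_nonneg _, fun x y i => ?_⟩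
  have h1 : coord F x i - coord F y i = L i (logMap x - logMap y) := by
    rw [map_sub]
    rfl
  rw [h1]
  exact (L i).le_opNorm _

/-- Small relative changes of `x` change `phi` and the logarithm of the norm little. -/
theorem phi_sub : ∃ C δ : ℝ, 0 < C ∧ 0 < δ ∧ δ ≤ 1 ∧ ∀ x y : mixedSpace F, phi F x ≠ 0 →
    ‖x - y‖ ≤ δ * ‖x‖ →
      mixedEmbedding.norm x ≠ 0 ∧ mixedEmbedding.norm y ≠ 0 ∧
      (∀ w, |x.1 w - y.1 w| < |x.1 w|) ∧
      |phi F x - phi F y| ≤ C * (‖x - y‖ / ‖x‖) ∧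
      |Real.log (mixedEmbedding.norm x) - Real.log (mixedEmbedding.norm y)| ≤
        C * (‖x - y‖ / ‖x‖) := by
  obtain ⟨δ₀, hδ₀, hcomp⟩ := phi_comparable F
  obtain ⟨δ, hδ, hδ1, hδδ⟩ : ∃ δ : ℝ, 0 < δ ∧ δ ≤ 1 ∧ δ ≤ δ₀ :=
    ⟨min δ₀ 1, lt_min hδ₀ one_pos, min_le_right _ _, min_le_left _ _⟩
  obtain ⟨K, hK, hcoord⟩ := HfunB_coord F
  set n : ℝ := (Module.finrank ℚ F : ℝ) with hn
  have hn0 : 0 < n := Nat.cast_pos.2 Module.finrank_pos
  have hKs : 0 ≤ ∑ i, K i := Finset.sum_nonneg fun i _ => hK i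
  have hD : 0 < 2 / δ := by positivity
  refine ⟨n * (2 / δ) + (∑ i, K i) * (4 * (2 / δ)), δ / 2, by positivity, by positivity,
    by linarith, ?_⟩
  intro x y hphi hxy
  have hNx : mixedEmbedding.norm x ≠ 0 := fun h => hphi (phi_of_norm_eq_zero F h)
  have hwx : ∀ w, δ * ‖x‖ ≤ normAtPlace w x := fun w =>
    (mul_le_mul_of_nonneg_right hδδ (norm_nonneg _)).trans (hcomp x hphi w)
  have hx0 : 0 < ‖x‖ := by
    refine norm_pos_iff.2 ?_
    rintro rfl
    exact hNx (map_zero _)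
  have hwpos : ∀ w, 0 < normAtPlace w x := fun w => lt_of_lt_of_le (by positivity) (hwx w)
  have hhalf : ∀ w, ‖x - y‖ ≤ normAtPlace w x / 2 := fun w => by
    have := hwx w
    linarith
  have hlog := fun w => HfunB_log (hwpos w) (HfunB_place F x y w) (hhalf w)
  have hNy : mixedEmbedding.norm y ≠ 0 :=
    mixedEmbedding.norm_ne_zero_iff.2 fun w => (hlog w).1.ne'
  set r : ℝ := ‖x - y‖ / ‖x‖ with hr
  have hr0 : 0 ≤ r := by positivity
  have hw : ∀ w, |Real.log (normAtPlace w x) - Real.log (normAtPlace w y)| ≤ 2 / δ * r := by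
    intro w
    refine (hlog w).2.trans ?_
    rw [hr, div_mul_div_comm]
    exact div_le_div_of_nonneg_left (by positivity) (by positivity) (hwx w)
  have hN : |Real.log (mixedEmbedding.norm x) - Real.log (mixedEmbedding.norm y)| ≤
      n * (2 / δ) * r := by
    rw [HfunB_lognorm F hNx, HfunB_lognorm F hNy, ← Finset.sum_sub_distrib]
    refine (Finset.abs_sum_le_sum_abs _ _).trans ?_
    have h2 : ∑ w : InfinitePlace F, (w.mult : ℝ) = n := by
      rw [hn, ← InfinitePlace.sum_mult_eq, Nat.cast_sum]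
    calc ∑ w : InfinitePlace F, |(w.mult : ℝ) * Real.log (normAtPlace w x) -
            (w.mult : ℝ) * Real.log (normAtPlace w y)|
        ≤ ∑ w : InfinitePlace F, (w.mult : ℝ) * (2 / δ * r) := by
          refine Finset.sum_le_sum fun w _ => ?_
          rw [← mul_sub, abs_mul, abs_of_nonneg (Nat.cast_nonneg w.mult)]
          exact mul_le_mul_of_nonneg_left (hw w) (Nat.cast_nonneg _)
      _ = n * (2 / δ) * r := by
          rw [← Finset.sum_mul, h2]
          ring
  have hL : ‖logMap x - logMap y‖ ≤ 4 * (2 / δ) * r := by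
    refine (pi_norm_le_iff_of_nonneg (by positivity)).2 fun w => ?_
    have h1 : (logMap x - logMap y) w = (w.1.mult : ℝ) *
        ((Real.log (normAtPlace w.1 x) - Real.log (normAtPlace w.1 y)) -
          (Real.log (mixedEmbedding.norm x) - Real.log (mixedEmbedding.norm y)) * n⁻¹) := by
      rw [Pi.sub_apply, logMap_apply, logMap_apply]
      ring
    rw [h1, Real.norm_eq_abs, abs_mul, abs_of_nonneg (Nat.cast_nonneg _)]
    have h2 : |(Real.log (normAtPlace w.1 x) - Real.log (normAtPlace w.1 y)) -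
          (Real.log (mixedEmbedding.norm x) - Real.log (mixedEmbedding.norm y)) * n⁻¹| ≤
        2 * (2 / δ * r) := by
      refine (abs_sub _ _).trans ?_
      have h3 := hw w.1
      have h4 : |(Real.log (mixedEmbedding.norm x) - Real.log (mixedEmbedding.norm y)) * n⁻¹| ≤
          2 / δ * r := by
        rw [abs_mul, abs_of_nonneg (inv_nonneg.2 hn0.le)]
        calc _ ≤ n * (2 / δ) * r * n⁻¹ := mul_le_mul_of_nonneg_right hN (inv_nonneg.2 hn0.le)
          _ = 2 / δ * r := by field_simp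
      linarith
    have h5 : ((w.1.mult : ℕ) : ℝ) ≤ 2 := by
      rw [InfinitePlace.mult]
      split_ifs <;> norm_num
    calc (w.1.mult : ℝ) * _ ≤ 2 * (2 * (2 / δ * r)) :=
          mul_le_mul h5 h2 (abs_nonneg _) (by norm_num)
      _ = _ := by ring
  refine ⟨hNx, hNy, fun w => ?_, ?_, ?_⟩
  · have h1 := HfunB_norm_le F (x - y) w.1
    have h2 := hhalf w.1
    have h3 := hwpos w.1
    rw [normAtPlace_apply_of_isReal w.2] at h1 h2 h3
    rw [Real.norm_eq_abs] at h1 h2 h3
    have h4 : |x.1 w - y.1 w| ≤ ‖x - y‖ := h1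
    have h5 : ‖x - y‖ ≤ |x.1 w| / 2 := h2
    have h6 : 0 < |x.1 w| := h3
    linarith
  · have h1 : |phi F x - phi F y| ≤ ∑ i, |coord F x i - coord F y i| := by
      unfold phi
      rw [if_neg hNx, if_neg hNy]
      refine (HfunB_prod _ _ _ (fun i => ⟨T_nonneg _, T_le_one _⟩)
        fun i => ⟨T_nonneg _, T_le_one _⟩).trans ?_
      exact Finset.sum_le_sum fun i _ => T_lip _ _
    refine h1.trans ?_
    calc ∑ i, |coord F x i - coord F y i| ≤ ∑ i, K i * (4 * (2 / δ) * r) := by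
          refine Finset.sum_le_sum fun i _ => (hcoord x y i).trans ?_
          exact mul_le_mul_of_nonneg_left hL (hK i)
      _ = (∑ i, K i) * (4 * (2 / δ)) * r := by
          rw [← Finset.sum_mul]
          ring
      _ ≤ _ := by
          refine mul_le_mul_of_nonneg_right ?_ hr0
          have : 0 ≤ n * (2 / δ) := by positivity
          linarith
  · refine hN.trans (mul_le_mul_of_nonneg_right ?_ hr0)
    have : 0 ≤ (∑ i, K i) * (4 * (2 / δ)) := by positivity
    linarith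

end Pool.Agent.Cheb
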