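import Pool.Agent.Chebotarev_h15.HfunA
import Pool.Agent.Chebotarev_h15.HfunB

/-!
# The family `gfun` is nice

`n = finrank ℚ F = finrank ℝ (mixedSpace F)` (`mixedEmbedding.finrank`), `δ` from
`phi_comparable`.

* `hfun_le`: if `phi F x ≠ 0` then `norm x = ∏ (normAtPlace w x)^(mult w) ≥ (δ ‖x‖)^n`.
* `phi_sub`: `|phi F x - phi F y| ≤ C ‖x - y‖ / ‖x‖` whenever `phi F x ≠ 0` and
  `‖x - y‖ ≤ (δ/2) ‖x‖`: then `normAtPlace w y ≥ (1/2) normAtPlace w x` for all `w`, and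
  `|log ‖y‖_w - log ‖x‖_w| ≤ 2 ‖x - y‖ / (δ ‖x‖)`; so `logMap y - logMap x` is at most
  `C ‖x - y‖/‖x‖`, the coordinates are linear functions of `logMap`, and `T` is Lipschitz with
  values in `[0, 1]` (product of factors).  Same estimate for
  `|log (norm y) - log (norm x)|` (`norm_log_sub`).
* `hfun_sub`: let `‖x - y‖ ≤ ‖x‖/2` (so `‖y‖ ≥ ‖x‖/2`).  If `‖x - y‖ > (δ/4) ‖x‖`: trivial by
  `hfun_le`.  Otherwise, if `phi F x ≠ 0` or `phi F y ≠ 0` (exchange the roles: `‖y‖ ≥ ‖x‖/2`),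
  use `phi_sub`, `norm_log_sub`, `ε x = ε y` (`IsEps.loc`, as
  `|x_w - y_w| ≤ ‖x - y‖ < δ ‖x‖ ≤ |x_w|`) and
  `|a^(-s) - b^(-s)| ≤ C a^(-s) |log a - log b|` for `|log a - log b| ≤ C'`.
* `nice_gfun`: `dec` from `hfun_le` (`‖x‖ ≥ 1`); `diff`: for `‖x‖ ≥ R₀ = 4 R + 4` both `‖x‖` and
  `‖y‖` are `≥ 1` and `hfun_sub` applies (and `‖x‖^(-n s) / ‖x‖ ≤ ‖x‖^(-n-1)`), for smaller
  `‖x‖` both values are bounded.
-/

set_option autoImplicit false

noncomputable section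

open Filter Topology NumberField NumberField.mixedEmbedding NumberField.Units

open scoped Classical

namespace Pool.Agent.Cheb

variable (F : Type) [Field F] [NumberField F]

theorem HfunC_rpow {X Y p : ℝ} (hX : 0 < X) (hY : X / 2 ≤ Y) (hp : 0 ≤ p) :
    Y ^ (-p) ≤ 2 ^ p * X ^ (-p) := by
  have h1 : Y ^ (-p) ≤ (X / 2) ^ (-p) :=
    Real.rpow_le_rpow_of_nonpos (by positivity) hY (by linarith)
  refine h1.trans (le_of_eq ?_)
  rw [Real.div_rpow hX.le (by norm_num), Real.rpow_neg (by norm_num : (0 : ℝ) ≤ 2), div_inv_eq_mul,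
    mul_comm]

/-- The norm is large on the support of `phi`. -/
theorem HfunC_norm : ∃ c : ℝ, 0 < c ∧ ∀ s ∈ Set.Icc (1 : ℝ) 2, ∀ x : mixedSpace F,
    phi F x ≠ 0 → (mixedEmbedding.norm x) ^ (-s) ≤
      c * ‖x‖ ^ (-((Module.finrank ℚ F : ℝ) * s)) := by
  obtain ⟨δ, hδ, h⟩ := phi_comparable F
  obtain ⟨δ', hδ', hδ1, h'⟩ : ∃ δ' : ℝ, 0 < δ' ∧ δ' ≤ 1 ∧ ∀ x : mixedSpace F, phi F x ≠ 0 →
      ∀ w, δ' * ‖x‖ ≤ normAtPlace w x := by
    refine ⟨min δ 1, lt_min hδ one_pos, min_le_right _ _, fun x hx w => ?_⟩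
    exact (mul_le_mul_of_nonneg_right (min_le_left _ _) (norm_nonneg x)).trans (h x hx w)
  refine ⟨δ' ^ (-((Module.finrank ℚ F : ℝ) * 2)), Real.rpow_pos_of_pos hδ' _, ?_⟩
  intro s hs x hx
  have hx0 : x ≠ 0 := by
    rintro rfl
    exact hx (phi_of_norm_eq_zero F (map_zero _))
  have hX : 0 < ‖x‖ := norm_pos_iff.2 hx0
  have hn0 : (0 : ℝ) ≤ (Module.finrank ℚ F : ℝ) := Nat.cast_nonneg _
  have h1 : (δ' * ‖x‖) ^ (Module.finrank ℚ F) ≤ mixedEmbedding.norm x := by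
    rw [mixedEmbedding.norm_apply, ← InfinitePlace.sum_mult_eq, ← Finset.prod_pow_eq_pow_sum]
    refine Finset.prod_le_prod (fun w _ => by positivity) fun w _ => ?_
    exact pow_le_pow_left₀ (by positivity) (h' x hx w) _
  have h2 : 0 < (δ' * ‖x‖) ^ (Module.finrank ℚ F) := by positivity
  have h3 : (mixedEmbedding.norm x) ^ (-s) ≤ ((δ' * ‖x‖) ^ (Module.finrank ℚ F)) ^ (-s) :=
    Real.rpow_le_rpow_of_nonpos h2 h1 (by linarith [hs.1])
  refine h3.trans ?_
  rw [← Real.rpow_natCast, ← Real.rpow_mul (by positivity), Real.mul_rpow hδ'.le hX.le,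
    mul_neg]
  refine mul_le_mul_of_nonneg_right ?_ (Real.rpow_nonneg hX.le _)
  apply Real.rpow_le_rpow_of_exponent_ge hδ' hδ1
  nlinarith [hs.2]

theorem HfunC_exp {u C : ℝ} (hu : |u| ≤ C) : |1 - Real.exp u| ≤ |u| * Real.exp C := by
  have h1 : |Real.exp u - 1| ≤ |u| * Real.exp |u| := by
    have h2 := Real.add_one_le_exp u
    have h3 := Real.add_one_le_exp (-u)
    have h5 := abs_le.1 (le_refl |u|)
    have h6 : 1 ≤ Real.exp |u| := Real.one_le_exp (abs_nonneg u)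
    have h7 := abs_nonneg u
    rw [abs_le]
    constructor
    · nlinarith
    · have h4 : Real.exp u * Real.exp (-u) = 1 := by rw [← Real.exp_add]; simp
      have h8 : Real.exp u - 1 ≤ u * Real.exp u := by
        have := Real.exp_pos u
        nlinarith
      refine h8.trans ?_
      have h9 : Real.exp u ≤ Real.exp |u| := Real.exp_le_exp.2 (le_abs_self u)
      calc u * Real.exp u ≤ |u| * Real.exp u :=
            mul_le_mul_of_nonneg_right (le_abs_self u) (Real.exp_pos u).le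
        _ ≤ |u| * Real.exp |u| := mul_le_mul_of_nonneg_left h9 h7
  rw [abs_sub_comm]
  exact h1.trans (mul_le_mul_of_nonneg_left (Real.exp_le_exp.2 hu) (abs_nonneg u))

/-- The case where `phi F x ≠ 0` and `y` is close to `x`. -/
theorem HfunC_loc (ε : mixedSpace F → ℝ) (hε : IsEps F ε) :
    ∃ C δ : ℝ, 0 < C ∧ 0 < δ ∧ δ ≤ 1 ∧ ∀ s ∈ Set.Icc (1 : ℝ) 2, ∀ x y : mixedSpace F,
      phi F x ≠ 0 → ‖x - y‖ ≤ δ * ‖x‖ →
      |hfun F ε s x - hfun F ε s y| ≤
        C * (‖x - y‖ / ‖x‖) * ‖x‖ ^ (-((Module.finrank ℚ F : ℝ) * s)) := by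
  obtain ⟨C, δ, hC, hδ, hδ1, h⟩ := phi_sub F
  obtain ⟨c, hc, hn⟩ := HfunC_norm F
  refine ⟨(C + 2 * C * Real.exp (2 * C)) * c, δ, by positivity, hδ, hδ1, ?_⟩
  intro s hs x y hx hxy
  obtain ⟨h1, h2, h3, h4, h5⟩ := h x y hx hxy
  have hx0 : x ≠ 0 := by
    rintro rfl
    exact hx (phi_of_norm_eq_zero F (map_zero _))
  have hX : 0 < ‖x‖ := norm_pos_iff.2 hx0
  have hr0 : 0 ≤ ‖x - y‖ / ‖x‖ := by positivity
  have hr1 : ‖x - y‖ / ‖x‖ ≤ 1 := by
    rw [div_le_one hX]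
    exact hxy.trans (mul_le_of_le_one_left hX.le hδ1)
  generalize ‖x - y‖ / ‖x‖ = r at *
  have heps := hε.loc x y h3
  have hbx := hε.bound x
  have hNx : 0 < mixedEmbedding.norm x := lt_of_le_of_ne (mixedEmbedding.norm_nonneg x) h1.symm
  have hNy : 0 < mixedEmbedding.norm y := lt_of_le_of_ne (mixedEmbedding.norm_nonneg y) h2.symm
  have hN := hn s hs x hx
  have hs0 : 0 ≤ s := by linarith [hs.1]
  have e0 : hfun F ε s x - hfun F ε s y = ε x * ((phi F x - phi F y) *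
      (mixedEmbedding.norm x) ^ (-s) + phi F y *
      ((mixedEmbedding.norm x) ^ (-s) - (mixedEmbedding.norm y) ^ (-s))) := by
    unfold hfun
    rw [← heps]
    ring
  have e1 : |(mixedEmbedding.norm x) ^ (-s) - (mixedEmbedding.norm y) ^ (-s)| ≤
      (mixedEmbedding.norm x) ^ (-s) * (2 * C * r * Real.exp (2 * C)) := by
    have e2 : (mixedEmbedding.norm y) ^ (-s) = (mixedEmbedding.norm x) ^ (-s) *
        Real.exp (s * (Real.log (mixedEmbedding.norm x) - Real.log (mixedEmbedding.norm y))) := by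
      rw [Real.rpow_def_of_pos hNx, Real.rpow_def_of_pos hNy, ← Real.exp_add]
      congr 1
      ring
    rw [e2, show (mixedEmbedding.norm x) ^ (-s) - (mixedEmbedding.norm x) ^ (-s) *
        Real.exp (s * (Real.log (mixedEmbedding.norm x) - Real.log (mixedEmbedding.norm y))) =
        (mixedEmbedding.norm x) ^ (-s) * (1 -
        Real.exp (s * (Real.log (mixedEmbedding.norm x) - Real.log (mixedEmbedding.norm y)))) by
        ring, abs_mul, abs_of_pos (Real.rpow_pos_of_pos hNx _)]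
    refine mul_le_mul_of_nonneg_left ?_ (Real.rpow_pos_of_pos hNx _).le
    have e3 : |s * (Real.log (mixedEmbedding.norm x) - Real.log (mixedEmbedding.norm y))| ≤
        2 * C * r := by
      rw [abs_mul, abs_of_nonneg hs0, mul_assoc]
      exact mul_le_mul hs.2 h5 (abs_nonneg _) (by norm_num)
    have e4 : 2 * C * r ≤ 2 * C := by nlinarith
    refine (HfunC_exp (e3.trans e4)).trans ?_
    exact mul_le_mul_of_nonneg_right e3 (Real.exp_pos _).le
  have hphi : |phi F y| ≤ 1 := by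
    rw [abs_of_nonneg (phi_nonneg F y)]
    exact phi_le_one F y
  have hP := (Real.rpow_pos_of_pos hNx (-s)).le
  rw [e0, abs_mul]
  calc |ε x| * |(phi F x - phi F y) * (mixedEmbedding.norm x) ^ (-s) + phi F y *
      ((mixedEmbedding.norm x) ^ (-s) - (mixedEmbedding.norm y) ^ (-s))|
      ≤ 1 * (C * r * (mixedEmbedding.norm x) ^ (-s) + 1 *
        ((mixedEmbedding.norm x) ^ (-s) * (2 * C * r * Real.exp (2 * C)))) := by
        refine mul_le_mul hbx ((abs_add_le _ _).trans (add_le_add ?_ ?_)) (abs_nonneg _) zero_le_one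
        · rw [abs_mul, abs_of_nonneg hP]
          exact mul_le_mul_of_nonneg_right h4 hP
        · rw [abs_mul]
          exact mul_le_mul hphi e1 (abs_nonneg _) zero_le_one
    _ = ((C + 2 * C * Real.exp (2 * C)) * r) * (mixedEmbedding.norm x) ^ (-s) := by ring
    _ ≤ ((C + 2 * C * Real.exp (2 * C)) * r) *
        (c * ‖x‖ ^ (-((Module.finrank ℚ F : ℝ) * s))) :=
        mul_le_mul_of_nonneg_left hN (by positivity)
    _ = _ := by ring

theorem hfun_sub (ε : mixedSpace F → ℝ) (hε : IsEps F ε) :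
    ∃ C : ℝ, 0 < C ∧ ∀ s ∈ Set.Icc (1 : ℝ) 2, ∀ x y : mixedSpace F, x ≠ 0 →
      ‖x - y‖ ≤ ‖x‖ / 2 →
      |hfun F ε s x - hfun F ε s y| ≤
        C * (‖x - y‖ / ‖x‖) * ‖x‖ ^ (-((Module.finrank ℚ F : ℝ) * s)) := by
  obtain ⟨C1, hC1, h1⟩ := hfun_le F ε hε
  obtain ⟨C2, δ, hC2, hδ, hδ1, h2⟩ := HfunC_loc F ε hε
  obtain ⟨A, hA⟩ : ∃ A : ℝ, A = (2 : ℝ) ^ ((Module.finrank ℚ F : ℝ) * 2) := ⟨_, rfl⟩
  have hA0 : 0 < A := by rw [hA]; positivity
  have hn0 : (0 : ℝ) ≤ (Module.finrank ℚ F : ℝ) := Nat.cast_nonneg _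
  refine ⟨C1 * (1 + A) * (2 / δ) + C2 + 2 * C2 * A, by positivity, ?_⟩
  intro s hs x y hx hxy
  have hX : 0 < ‖x‖ := norm_pos_iff.2 hx
  have hY : ‖x‖ / 2 ≤ ‖y‖ := by
    have := norm_sub_norm_le x y
    linarith
  have hY0 : 0 < ‖y‖ := by linarith
  have hy : y ≠ 0 := norm_pos_iff.1 hY0
  have hp0 : 0 ≤ (Module.finrank ℚ F : ℝ) * s := mul_nonneg hn0 (by linarith [hs.1])
  have hYp : ‖y‖ ^ (-((Module.finrank ℚ F : ℝ) * s)) ≤
      A * ‖x‖ ^ (-((Module.finrank ℚ F : ℝ) * s)) := by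
    refine (HfunC_rpow hX hY hp0).trans ?_
    refine mul_le_mul_of_nonneg_right ?_ (Real.rpow_nonneg hX.le _)
    rw [hA]
    exact Real.rpow_le_rpow_of_exponent_le (by norm_num) (mul_le_mul_of_nonneg_left hs.2 hn0)
  obtain ⟨P, hP⟩ : ∃ P : ℝ, P = ‖x‖ ^ (-((Module.finrank ℚ F : ℝ) * s)) := ⟨_, rfl⟩
  have hP0 : 0 < P := by rw [hP]; exact Real.rpow_pos_of_pos hX _
  have hxx := h1 s hs x hx
  have hyy := h1 s hs y hy
  have hr0 : 0 ≤ ‖x - y‖ / ‖x‖ := by positivity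
  rw [← hP] at hYp hxx ⊢
  by_cases hr : δ / 2 < ‖x - y‖ / ‖x‖
  · have e1 : |hfun F ε s x - hfun F ε s y| ≤ C1 * (1 + A) * P := by
      calc |hfun F ε s x - hfun F ε s y| ≤ |hfun F ε s x| + |hfun F ε s y| := abs_sub _ _
        _ ≤ C1 * P + C1 * (A * P) :=
            add_le_add hxx (hyy.trans (mul_le_mul_of_nonneg_left hYp hC1.le))
        _ = _ := by ring
    have e2 : 1 ≤ 2 / δ * (‖x - y‖ / ‖x‖) := by
      have : δ / 2 * (2 / δ) = 1 := by field_simp
      nlinarith [div_pos two_pos hδ]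
    calc |hfun F ε s x - hfun F ε s y| ≤ C1 * (1 + A) * P * 1 := by rw [mul_one]; exact e1
      _ ≤ C1 * (1 + A) * P * (2 / δ * (‖x - y‖ / ‖x‖)) :=
          mul_le_mul_of_nonneg_left e2 (by positivity)
      _ = C1 * (1 + A) * (2 / δ) * (‖x - y‖ / ‖x‖) * P := by ring
      _ ≤ _ := by
          refine mul_le_mul_of_nonneg_right (mul_le_mul_of_nonneg_right ?_ hr0) hP0.le
          have : 0 ≤ C2 + 2 * C2 * A := by positivity
          linarith
  · push Not at hr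
    have hr' : ‖x - y‖ ≤ δ / 2 * ‖x‖ := by
      rwa [div_le_iff₀ hX] at hr
    by_cases hpx : phi F x ≠ 0
    · have e1 := h2 s hs x y hpx (by nlinarith)
      rw [← hP] at e1
      refine e1.trans (mul_le_mul_of_nonneg_right (mul_le_mul_of_nonneg_right ?_ hr0) hP0.le)
      have : 0 ≤ C1 * (1 + A) * (2 / δ) + 2 * C2 * A := by positivity
      linarith
    · by_cases hpy : phi F y ≠ 0
      · have e1 := h2 s hs y x hpy (by rw [norm_sub_rev]; nlinarith)
        rw [abs_sub_comm, norm_sub_rev] at e1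
        refine e1.trans ?_
        have e2 : ‖x - y‖ / ‖y‖ ≤ 2 * (‖x - y‖ / ‖x‖) := by
          rw [div_le_iff₀ hY0]
          have : 2 * (‖x - y‖ / ‖x‖) * ‖y‖ = ‖x - y‖ * (2 * ‖y‖ / ‖x‖) := by ring
          rw [this]
          refine le_mul_of_one_le_right (norm_nonneg _) ?_
          rw [le_div_iff₀ hX]
          linarith
        calc C2 * (‖x - y‖ / ‖y‖) * ‖y‖ ^ (-((Module.finrank ℚ F : ℝ) * s))
            ≤ C2 * (2 * (‖x - y‖ / ‖x‖)) * (A * P) := by
              refine mul_le_mul (mul_le_mul_of_nonneg_left e2 hC2.le) hYp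
                (Real.rpow_nonneg hY0.le _) (by positivity)
          _ = 2 * C2 * A * (‖x - y‖ / ‖x‖) * P := by ring
          _ ≤ _ := by
              refine mul_le_mul_of_nonneg_right (mul_le_mul_of_nonneg_right ?_ hr0) hP0.le
              have : 0 ≤ C1 * (1 + A) * (2 / δ) + C2 := by positivity
              linarith
      · push Not at hpx hpy
        have e1 : hfun F ε s x - hfun F ε s y = 0 := by
          unfold hfun
          rw [hpx, hpy]
          ring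
        rw [e1, abs_zero]
        positivity

end Pool.Agent.Cheb
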