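import Mathlib

/-!
# Sums of a nice family over a coset of a lattice

`n = dim E`, `D` a fundamental domain of `Λ` (bounded, of volume `covolume Λ μ`).

* `Nice.integrable`: `integrable_one_add_norm` (`n * s > n`) and `dec`.
* `Nice.summable`: `ZLattice.summable_norm_sub_rpow` (exponent `-n s < -n = -finrank ℤ Λ`,
  `ZLattice.rank`) with `‖v + x‖ ≤ 1 + ‖v + x‖`; finitely many (at most one) `x` with `v + x = 0`
  do not matter.
* `Nice.smul`: scaling; `(1 + ‖t • x‖) ≥ min 1 t * (1 + ‖x‖)`.
* `Nice.lattice`: for `1 < s ≤ 2`
  `covol * ∑ G s (v + x) - ∫ G s = ∑_x ∫_{y ∈ D} (G s (v + x) - G s (v + x + y)) dy`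
  (`IsAddFundamentalDomain.integral_eq_tsum`, `∫ G s = ∫ G s (v + ·)`), and the right side
  converges for `s → 1+` by dominated convergence: the terms are at most
  `covol * C * (1 + ‖v + x‖)^(-(n + 1))` (`diff` with `R` = a bound of the norm on `D`), summable,
  and each term converges (`tendsto_integral_filter_of_dominated_convergence` on `D`, `cont`).
-/

set_option autoImplicit false

noncomputable section

open Filter Topology MeasureTheory

namespace Pool.Agent.Cheb

variable {E : Type} [NormedAddCommGroup E] [NormedSpace ℝ E] [FiniteDimensional ℝ E]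
  [MeasurableSpace E] [BorelSpace E]

end Pool.Agent.Cheb
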