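import Pool.Agent.Chebotarev_h15.Defs

/-!
# Sums of a nice family over a coset of a lattice

`n = dim E`, `D` a fundamental domain of `Λ` (bounded, of volume `covolume Λ μ`).

* `Nice.integrable`: `integrable_one_add_norm` (`n * s > n`) and `dec`.
* `Nice.summable`: `ZLattice.summable_norm_sub_rpow` (exponent `-n s < -n = -finrank ℤ Λ`,
  `ZLattice.rank`) with `‖v + x‖ ≤ 1 + ‖v + x‖`; finitely many (at most one) `x` with `v + x = 0`
  do not matter.
* `Nice.smul`: scaling; `(1 + ‖t • x‖) ≥ min 1 t * (1 + ‖x‖)`.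
* `Nice.lattice`: for `1 < s ≤ 2`
  `covol * ∑ G s (v + x) - ∫ G s = ∑_x ∫_{y ∈ D} (G s (v + x) - G s (v + x + y)) dy`
  (`IsAddFundamentalDomain.integral_eq_tsum`, `∫ G s = ∫ G s (v + ·)`), and the right side
  converges for `s → 1+` by dominated convergence: the terms are at most
  `covol * C * (1 + ‖v + x‖)^(-(n + 1))` (`diff` with `R` = a bound of the norm on `D`), summable,
  and each term converges (`tendsto_integral_filter_of_dominated_convergence` on `D`, `cont`).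
-/

set_option autoImplicit false

noncomputable section

open Filter Topology MeasureTheory

namespace Pool.Agent.Cheb

variable {E : Type} [NormedAddCommGroup E] [NormedSpace ℝ E] [FiniteDimensional ℝ E]
  [MeasurableSpace E] [BorelSpace E]

omit [FiniteDimensional ℝ E] [MeasurableSpace E] [BorelSpace E] in
/-- `(1 + ‖t x‖)^(-a) ≤ c^(-b) (1 + ‖x‖)^(-a)` for `0 ≤ a ≤ b`, `c = min 1 t`. -/
theorem LatA_pow {t a b : ℝ} (ht : 0 < t) (ha : 0 ≤ a) (hab : a ≤ b) (x : E) :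
    (1 + ‖t • x‖) ^ (-a) ≤ (min 1 t) ^ (-b) * (1 + ‖x‖) ^ (-a) := by
  set c := min 1 t with hc
  have hc0 : 0 < c := lt_min one_pos ht
  have hc1 : c ≤ 1 := min_le_left _ _
  have hct : c ≤ t := min_le_right _ _
  have hx := norm_nonneg x
  have h1 : c * (1 + ‖x‖) ≤ 1 + ‖t • x‖ := by
    rw [norm_smul, Real.norm_eq_abs, abs_of_pos ht]
    nlinarith
  have h2 : (1 + ‖t • x‖) ^ (-a) ≤ (c * (1 + ‖x‖)) ^ (-a) :=
    Real.rpow_le_rpow_of_nonpos (by positivity) h1 (by linarith)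
  refine h2.trans ?_
  rw [Real.mul_rpow hc0.le (by positivity)]
  refine mul_le_mul_of_nonneg_right ?_ (by positivity)
  exact Real.rpow_le_rpow_of_exponent_ge hc0 hc1 (by linarith)

theorem Nice.smul {G : ℝ → E → ℝ} (hG : Nice G) {t : ℝ} (ht : 0 < t) :
    Nice (fun s x => G s (t • x)) := by
  have hn : (0 : ℝ) ≤ (Module.finrank ℝ E : ℝ) := Nat.cast_nonneg _
  refine ⟨fun s hs => (hG.meas s hs).comp (continuous_const_smul t).measurable, ?_, ?_,
    fun x => hG.cont (t • x)⟩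
  · obtain ⟨C, hC⟩ := hG.dec
    refine ⟨|C| * (min 1 t) ^ (-((Module.finrank ℝ E : ℝ) * 2)), fun s hs x => ?_⟩
    have h1 := hC s hs (t • x)
    have h2 := LatA_pow ht (a := (Module.finrank ℝ E : ℝ) * s) (b := (Module.finrank ℝ E : ℝ) * 2)
      (mul_nonneg hn (by linarith [hs.1])) (mul_le_mul_of_nonneg_left hs.2 hn) x
    have h3 : 0 ≤ (1 + ‖t • x‖) ^ (-((Module.finrank ℝ E : ℝ) * s)) := by positivity
    calc |G s (t • x)| ≤ C * (1 + ‖t • x‖) ^ (-((Module.finrank ℝ E : ℝ) * s)) := h1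
      _ ≤ |C| * (1 + ‖t • x‖) ^ (-((Module.finrank ℝ E : ℝ) * s)) :=
          mul_le_mul_of_nonneg_right (le_abs_self C) h3
      _ ≤ |C| * ((min 1 t) ^ (-((Module.finrank ℝ E : ℝ) * 2)) *
            (1 + ‖x‖) ^ (-((Module.finrank ℝ E : ℝ) * s))) :=
          mul_le_mul_of_nonneg_left h2 (abs_nonneg C)
      _ = _ := by ring
  · intro R
    obtain ⟨C, hC⟩ := hG.diff (t * R)
    refine ⟨|C| * (min 1 t) ^ (-((Module.finrank ℝ E : ℝ) + 1)), fun s hs x y hxy => ?_⟩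
    have h0 : ‖t • x - t • y‖ ≤ t * R := by
      rw [← smul_sub, norm_smul, Real.norm_eq_abs, abs_of_pos ht]
      exact mul_le_mul_of_nonneg_left hxy ht.le
    have h1 := hC s hs (t • x) (t • y) h0
    have h2 := LatA_pow ht (a := (Module.finrank ℝ E : ℝ) + 1) (b := (Module.finrank ℝ E : ℝ) + 1)
      (by linarith) le_rfl x
    have h3 : 0 ≤ (1 + ‖t • x‖) ^ (-((Module.finrank ℝ E : ℝ) + 1)) := by positivity
    calc |G s (t • x) - G s (t • y)| ≤ C * (1 + ‖t • x‖) ^ (-((Module.finrank ℝ E : ℝ) + 1)) := h1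
      _ ≤ |C| * (1 + ‖t • x‖) ^ (-((Module.finrank ℝ E : ℝ) + 1)) :=
          mul_le_mul_of_nonneg_right (le_abs_self C) h3
      _ ≤ |C| * ((min 1 t) ^ (-((Module.finrank ℝ E : ℝ) + 1)) *
            (1 + ‖x‖) ^ (-((Module.finrank ℝ E : ℝ) + 1))) :=
          mul_le_mul_of_nonneg_left h2 (abs_nonneg C)
      _ = _ := by ring

theorem Nice.integrable (μ : Measure E) [μ.IsAddHaarMeasure] {G : ℝ → E → ℝ} (hG : Nice G)
    (hn : 0 < Module.finrank ℝ E) {s : ℝ} (hs : 1 < s) (hs2 : s ≤ 2) :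
    Integrable (G s) μ := by
  obtain ⟨C, hC⟩ := hG.dec
  have hs' : s ∈ Set.Icc (1 : ℝ) 2 := ⟨hs.le, hs2⟩
  have hn' : (0 : ℝ) < (Module.finrank ℝ E : ℝ) := by exact_mod_cast hn
  have h1 : Integrable (fun x : E => (1 + ‖x‖) ^ (-((Module.finrank ℝ E : ℝ) * s))) μ :=
    integrable_one_add_norm (by nlinarith)
  refine (h1.const_mul C).mono' (hG.meas s hs').aestronglyMeasurable ?_
  exact Eventually.of_forall fun x => hC s hs' x

theorem Nice.summable {G : ℝ → E → ℝ} (hG : Nice G) (hn : 0 < Module.finrank ℝ E)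
    (Λ : Submodule ℤ E) [DiscreteTopology Λ] [IsZLattice ℝ Λ] (v : E)
    {s : ℝ} (hs : 1 < s) (hs2 : s ≤ 2) :
    Summable (fun x : Λ => G s (v + (x : E))) := by
  obtain ⟨C, hC⟩ := hG.dec
  have hs' : s ∈ Set.Icc (1 : ℝ) 2 := ⟨hs.le, hs2⟩
  have hn' : (0 : ℝ) < (Module.finrank ℝ E : ℝ) := by exact_mod_cast hn
  have hns : 0 < (Module.finrank ℝ E : ℝ) * s := by positivity
  have h1 : Summable fun z : Λ => ‖(z : E) - (-v)‖ ^ (-((Module.finrank ℝ E : ℝ) * s)) := by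
    refine ZLattice.summable_norm_sub_rpow Λ _ ?_ (-v)
    rw [ZLattice.rank ℝ Λ]
    nlinarith
  refine Summable.of_norm_bounded_eventually (h1.mul_left |C|) ?_
  have h2 : {x : Λ | ¬ ‖G s (v + (x : E))‖ ≤
      |C| * ‖(x : E) - (-v)‖ ^ (-((Module.finrank ℝ E : ℝ) * s))} ⊆ {x : Λ | (x : E) = -v} := by
    intro x hx
    by_contra hne
    apply hx
    have h3 : (x : E) - (-v) ≠ 0 := fun h => hne (sub_eq_zero.1 h)
    have h4 : 0 < ‖(x : E) - (-v)‖ := norm_pos_iff.2 h3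
    have h5 : v + (x : E) = (x : E) - (-v) := by
      rw [sub_neg_eq_add, add_comm]
    rw [h5, Real.norm_eq_abs]
    have h6 := hC s hs' ((x : E) - (-v))
    have h7 : (1 + ‖(x : E) - (-v)‖) ^ (-((Module.finrank ℝ E : ℝ) * s)) ≤
        ‖(x : E) - (-v)‖ ^ (-((Module.finrank ℝ E : ℝ) * s)) :=
      Real.rpow_le_rpow_of_nonpos h4 (by linarith) (by linarith)
    have h8 : 0 ≤ (1 + ‖(x : E) - (-v)‖) ^ (-((Module.finrank ℝ E : ℝ) * s)) := by positivity
    calc _ ≤ C * (1 + ‖(x : E) - (-v)‖) ^ (-((Module.finrank ℝ E : ℝ) * s)) := h6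
      _ ≤ |C| * (1 + ‖(x : E) - (-v)‖) ^ (-((Module.finrank ℝ E : ℝ) * s)) :=
          mul_le_mul_of_nonneg_right (le_abs_self C) h8
      _ ≤ _ := mul_le_mul_of_nonneg_left h7 (abs_nonneg C)
  refine Set.Finite.subset (Set.Subsingleton.finite ?_) h2
  intro x hx y hy
  exact Subtype.ext ((show (x : E) = -v from hx).trans (show (y : E) = -v from hy).symm)

end Pool.Agent.Cheb
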