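import Pool.Agent.Chebotarev_h15.EuC
import Pool.Agent.Chebotarev_h15.Sum
import Pool.Agent.W_f569db_h62.NTC

/-!
# The logarithm of the L-series

* `Lser_eq_exp`: unique factorization of ideals (`Pool.Agent.H62D.NTC_bij`: the bijection of
  multisets of primes and nonzero ideals; `NTC_wt` is the model for the multiplicativity of the
  weights: `χ` and the powers are multiplicative) and `euler_multiset`;
  `‖pw F χ s P‖ ≤ N(P)^(-s) ≤ 1/2`.
* `log_sub_bound`: `norm_log_one_sub_add_le` and `∑ N(P)^(-2s) ≤ ∑ N(P)^(-2) < ∞`.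
* `log_cont`: `continuousOn_tsum` on `[s₀, ∞)` for every `s₀ > 1`
  (`‖log (1 - z)‖ ≤ 2 ‖z‖ ≤ 2 N(P)^(-s₀)`; each term is continuous because `1 - z` has positive
  real part).
* `exp_lift`: the limit `ℓ ≠ 0` of `exp (f s)`: near `1`, `‖exp (f s) / ℓ - 1‖ < 1/2`, so
  `h s = f s - Complex.log (exp (f s) / ℓ)` is continuous on `(1, s₀)` with `exp (h s) = ℓ`;
  a continuous function on an interval with values in a discrete set (`h s - h s'` is in
  `2 π i ℤ`) is constant.  So `f` is bounded near `1`.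
-/

set_option autoImplicit false

noncomputable section

open Filter Topology NumberField IsDedekindDomain
open scoped nonZeroDivisors

namespace Pool.Agent.Cheb

/-- The logarithm of the L-series. -/
def logL (F : Type) [Field F] [NumberField F] {m : ℕ} (χ : DirichletCharacter ℂ m) (s : ℝ) : ℂ :=
  -∑' P : HeightOneSpectrum (𝓞 F), Complex.log (1 - pw F χ s P)

variable (F : Type) [Field F] [NumberField F]

theorem LoA_norm_pw {m : ℕ} (χ : DirichletCharacter ℂ m) {s : ℝ} (hs : 1 < s)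
    (P : HeightOneSpectrum (𝓞 F)) : ‖pw F χ s P‖ ≤ 1 / 2 := by
  have h1 : (1 : ℕ) < Ideal.absNorm P.asIdeal := by
    have h0 : Ideal.absNorm P.asIdeal ≠ 0 := by
      rw [Ne, Ideal.absNorm_eq_zero_iff]
      exact P.ne_bot
    have h2 : Ideal.absNorm P.asIdeal ≠ 1 := by
      rw [Ne, Ideal.absNorm_eq_one_iff]
      exact P.isPrime.ne_top
    omega
  have h2 : (2 : ℝ) ≤ (Ideal.absNorm P.asIdeal : ℝ) := by exact_mod_cast h1
  have h3 : ((Ideal.absNorm P.asIdeal : ℝ) ^ (-s)) ≤ 1 / 2 := by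
    calc ((Ideal.absNorm P.asIdeal : ℝ) ^ (-s)) ≤ ((Ideal.absNorm P.asIdeal : ℝ) ^ (-1 : ℝ)) :=
          Real.rpow_le_rpow_of_exponent_le (by linarith) (by linarith)
      _ = ((Ideal.absNorm P.asIdeal : ℝ))⁻¹ := Real.rpow_neg_one _
      _ ≤ (2 : ℝ)⁻¹ := inv_anti₀ (by norm_num) h2
      _ = 1 / 2 := by norm_num
  have h4 : 0 ≤ ((Ideal.absNorm P.asIdeal : ℝ) ^ (-s)) := Real.rpow_nonneg (Nat.cast_nonneg _) _
  unfold pw
  rw [norm_mul, Complex.norm_real, Real.norm_of_nonneg h4]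
  calc ‖χ ((Ideal.absNorm P.asIdeal : ℕ) : ZMod m)‖ * ((Ideal.absNorm P.asIdeal : ℝ) ^ (-s))
      ≤ 1 * (1 / 2) := mul_le_mul (χ.norm_le_one _) h3 h4 zero_le_one
    _ = 1 / 2 := one_mul _

/-- Multisets of primes and nonzero ideals. -/
def LoA_equiv : Multiset (HeightOneSpectrum (𝓞 F)) ≃ (Ideal (𝓞 F))⁰ :=
  Equiv.ofBijective (fun m : Multiset (HeightOneSpectrum (𝓞 F)) =>
      (⟨(m.map HeightOneSpectrum.asIdeal).prod,
        mem_nonZeroDivisors_of_ne_zero (Pool.Agent.H62D.NTC_ne_bot m)⟩ : (Ideal (𝓞 F))⁰)) (by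
    constructor
    · intro m m' h
      have h1 : (m.map HeightOneSpectrum.asIdeal).prod =
          (m'.map HeightOneSpectrum.asIdeal).prod := congrArg Subtype.val h
      exact (Pool.Agent.H62D.NTC_bij F).1 (Subtype.ext h1)
    · rintro ⟨I, hI⟩
      obtain ⟨m, hm⟩ := (Pool.Agent.H62D.NTC_bij F).2 ⟨I, nonZeroDivisors.ne_zero hI⟩
      have h1 : (m.map HeightOneSpectrum.asIdeal).prod = I := congrArg Subtype.val hm
      exact ⟨m, Subtype.ext h1⟩)

theorem LoA_term {m : ℕ} (χ : DirichletCharacter ℂ m) (s : ℝ)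
    (M : Multiset (HeightOneSpectrum (𝓞 F))) :
    Lterm F χ s (LoA_equiv F M) = (M.map (pw F χ s)).prod := by
  have h0 : Lterm F χ s (LoA_equiv F M) =
      χ ((Ideal.absNorm (M.map HeightOneSpectrum.asIdeal).prod : ℕ) : ZMod m) *
        (((Ideal.absNorm (M.map HeightOneSpectrum.asIdeal).prod : ℝ) ^ (-s) : ℝ) : ℂ) := rfl
  rw [h0]
  induction M using Multiset.induction with
  | empty =>
    rw [Multiset.map_zero, Multiset.prod_zero, Multiset.map_zero, Multiset.prod_zero, map_one,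
      Nat.cast_one, Nat.cast_one, Real.one_rpow, map_one, Complex.ofReal_one, one_mul]
  | cons a M ih =>
    rw [Multiset.map_cons, Multiset.prod_cons, Multiset.map_cons, Multiset.prod_cons, map_mul,
      Nat.cast_mul, Nat.cast_mul, Real.mul_rpow (Nat.cast_nonneg _) (Nat.cast_nonneg _), map_mul,
      Complex.ofReal_mul, ← ih rfl]
    unfold pw
    ring

theorem Lser_eq_exp {m : ℕ} (χ : DirichletCharacter ℂ m) {s : ℝ} (hs : 1 < s) :
    Lser F χ s = Complex.exp (logL F χ s) := by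
  unfold Lser logL
  rw [← euler_multiset (pw F χ s) (summable_pw F χ hs) (LoA_norm_pw F χ hs),
    ← Equiv.tsum_eq (LoA_equiv F)]
  exact tsum_congr fun M => LoA_term F χ s M

end Pool.Agent.Cheb
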