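import Pool.Agent.W_f569db_h62.NTD

/-!
# The logarithm of the L-series

* `Lser_eq_exp`: unique factorization of ideals (`Pool.Agent.H62D.NTC_bij`: the bijection of
  multisets of primes and nonzero ideals; `NTC_wt` is the model for the multiplicativity of the
  weights: `χ` and the powers are multiplicative) and `euler_multiset`;
  `‖pw F χ s P‖ ≤ N(P)^(-s) ≤ 1/2`.
* `log_sub_bound`: `norm_log_one_sub_add_le` and `∑ N(P)^(-2s) ≤ ∑ N(P)^(-2) < ∞`.
* `log_cont`: `continuousOn_tsum` on `[s₀, ∞)` for every `s₀ > 1`
  (`‖log (1 - z)‖ ≤ 2 ‖z‖ ≤ 2 N(P)^(-s₀)`; each term is continuous because `1 - z` has positive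
  real part).
* `exp_lift`: the limit `ℓ ≠ 0` of `exp (f s)`: near `1`, `‖exp (f s) / ℓ - 1‖ < 1/2`, so
  `h s = f s - Complex.log (exp (f s) / ℓ)` is continuous on `(1, s₀)` with `exp (h s) = ℓ`;
  a continuous function on an interval with values in a discrete set (`h s - h s'` is in
  `2 π i ℤ`) is constant.  So `f` is bounded near `1`.
-/

set_option autoImplicit false

noncomputable section

open Filter Topology NumberField IsDedekindDomain
open scoped nonZeroDivisors

namespace Pool.Agent.Cheb

variable (F : Type) [Field F] [NumberField F]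

end Pool.Agent.Cheb
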