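import Pool.Agent.Chebotarev_h15.PsB
import Pool.Agent.Chebotarev_h15.PsC

/-!
# Calculus of lower densities

* `LowDens.sum`: `psum_sum_le`.
* `LowDens.limit`: use `η = ε / 2`.
* `hasDensity_of_low`: `psum S / psum univ`: the lower bound from `LowDens S δ` and `psum_univ`
  (`psum univ ~ log (1 / (s - 1)) → ∞`); the upper bound from
  `psum S + psum S' ≤ psum univ + C` (`psum_sum_le` for two sets, or `psum_union_le` and
  `psum_finite`) and `LowDens S' δ'`, `δ + δ' = 1`.  `psum_eq` gives Mathlib's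
  `primeIdealZetaSum`.
-/

set_option autoImplicit false

noncomputable section

open Filter Topology NumberField IsDedekindDomain
open scoped nonZeroDivisors

namespace Pool.Agent.Cheb

variable {F : Type} [Field F] [NumberField F]

theorem LowDens.mono {S S' : Set (HeightOneSpectrum (𝓞 F))} (h : S ⊆ S') {δ : ℝ}
    (hS : LowDens S δ) : LowDens S' δ := by
  intro ε hε
  filter_upwards [hS ε hε, self_mem_nhdsWithin] with s h1 hs
  exact h1.trans (psum_mono h hs)

theorem LowDens.le {S : Set (HeightOneSpectrum (𝓞 F))} {δ δ' : ℝ} (h : δ' ≤ δ)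
    (hS : LowDens S δ) : LowDens S δ' := by
  intro ε hε
  filter_upwards [hS ε hε, log_tendsto.eventually_ge_atTop 0] with s h1 h2
  exact (mul_le_mul_of_nonneg_right (sub_le_sub_right h ε) h2).trans h1

theorem LowDens.sum {ι : Type} [Fintype ι] (A : ι → Set (HeightOneSpectrum (𝓞 F))) (δ : ι → ℝ)
    (B E : Set (HeightOneSpectrum (𝓞 F))) (hE : E.Finite) (hA : ∀ i, A i ⊆ B)
    (hd : ∀ i j, i ≠ j → A i ∩ A j ⊆ E) (h : ∀ i, LowDens (A i) (δ i)) :
    LowDens B (∑ i, δ i) := by
  obtain ⟨C, hC⟩ := psum_sum_le A B E hE hA hd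
  intro ε hε
  have hN : (0 : ℝ) < (Fintype.card ι : ℝ) + 1 := by positivity
  have hε' : 0 < ε / ((Fintype.card ι : ℝ) + 1) := div_pos hε hN
  obtain ⟨η, hη⟩ : ∃ η, η = ε / ((Fintype.card ι : ℝ) + 1) := ⟨_, rfl⟩
  rw [← hη] at hε'
  have hη2 : (Fintype.card ι : ℝ) * η + η = ε := by
    rw [hη]
    field_simp
  have h1 : ∀ᶠ s : ℝ in 𝓝[>] 1, ∀ i, (δ i - η) * Real.log (1 / (s - 1)) ≤ psum (A i) s :=
    eventually_all.2 fun i => h i η hε'
  filter_upwards [h1, self_mem_nhdsWithin, log_tendsto.eventually_ge_atTop (C / η)]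
    with s h2 hs h3
  rw [div_le_iff₀ hε'] at h3
  have h4 := Finset.sum_le_sum fun i (_ : i ∈ Finset.univ) => h2 i
  rw [← Finset.sum_mul, Finset.sum_sub_distrib, Finset.sum_const, Finset.card_univ,
    nsmul_eq_mul] at h4
  have h5 := hC s hs
  have h6 : (∑ i, δ i - ε) * Real.log (1 / (s - 1)) =
      (∑ i, δ i - (Fintype.card ι : ℝ) * η) * Real.log (1 / (s - 1)) -
        Real.log (1 / (s - 1)) * η := by
    rw [← hη2]
    ring
  rw [h6]
  linarith

theorem LowDens.limit {S : Set (HeightOneSpectrum (𝓞 F))} {δ : ℝ}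
    (h : ∀ η : ℝ, 0 < η → LowDens S (δ - η)) : LowDens S δ := by
  intro ε hε
  filter_upwards [h (ε / 2) (by positivity) (ε / 2) (by positivity)] with s h1
  have e : δ - ε / 2 - ε / 2 = δ - ε := by ring
  rwa [e] at h1

theorem hasDensity_of_low {S S' E : Set (HeightOneSpectrum (𝓞 F))} {δ δ' : ℝ}
    (hS : LowDens S δ) (hS' : LowDens S' δ') (h1 : δ + δ' = 1) (hE : E.Finite)
    (hd : S ∩ S' ⊆ E) : NumberField.Set.HasDirichletDensity S δ := by
  obtain ⟨C, hC⟩ := psum_univ F
  have hC' : ∃ C' : ℝ, ∀ s : ℝ, 1 < s →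
      psum S s + psum S' s ≤ psum (Set.univ : Set (HeightOneSpectrum (𝓞 F))) s + C' := by
    obtain ⟨C', h⟩ := psum_sum_le (fun b : Bool => cond b S S') Set.univ E hE
      (fun _ => Set.subset_univ _) (by
        intro i j hij
        cases i <;> cases j
        · exact absurd rfl hij
        · intro x hx
          exact hd ⟨hx.2, hx.1⟩
        · exact hd
        · exact absurd rfl hij)
    refine ⟨C', fun s hs => ?_⟩
    have := h s hs
    rwa [Fintype.sum_bool] at this
  obtain ⟨C', hC'⟩ := hC'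
  -- the two limits
  have hlim1 : Tendsto (fun s : ℝ => psum S s / Real.log (1 / (s - 1))) (𝓝[>] 1) (𝓝 δ) := by
    rw [Metric.tendsto_nhds]
    intro ε hε
    have hε2 : 0 < ε / 4 := by positivity
    filter_upwards [hS _ hε2, hS' _ hε2, hC, self_mem_nhdsWithin,
      log_tendsto.eventually_gt_atTop 0,
      log_tendsto.eventually_ge_atTop ((C + C') / (ε / 4))] with s k1 k2 k3 hs k4 k5
    have k6 := hC' s hs
    rw [div_le_iff₀ hε2] at k5
    have k7 := (abs_le.1 k3).2
    obtain ⟨L, hL⟩ : ∃ L, L = Real.log (1 / (s - 1)) := ⟨_, rfl⟩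
    rw [← hL] at k1 k2 k4 k5 k7 ⊢
    have hδ' : δ' = 1 - δ := by linarith
    rw [hδ'] at k2
    rw [Real.dist_eq, abs_lt]
    constructor
    · have h7 : δ - ε / 4 ≤ psum S s / L := (le_div_iff₀ k4).2 k1
      linarith
    · have h7 : psum S s / L ≤ δ + ε / 2 := by
        rw [div_le_iff₀ k4]
        have e1 : (1 - δ - ε / 4) * L = L - (δ + ε / 4) * L := by ring
        have e2 : (δ + ε / 2) * L = (δ + ε / 4) * L + L * (ε / 4) := by ring
        rw [e1] at k2
        rw [e2]
        linarith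
      linarith
  have hlim2 : Tendsto (fun s : ℝ => psum (Set.univ : Set (HeightOneSpectrum (𝓞 F))) s /
      Real.log (1 / (s - 1))) (𝓝[>] 1) (𝓝 1) := by
    rw [Metric.tendsto_nhds]
    intro ε hε
    have hε2 : 0 < ε / 2 := by positivity
    filter_upwards [hC, log_tendsto.eventually_gt_atTop 0,
      log_tendsto.eventually_ge_atTop (C / (ε / 2))] with s k3 k4 k5
    rw [div_le_iff₀ hε2] at k5
    obtain ⟨L, hL⟩ : ∃ L, L = Real.log (1 / (s - 1)) := ⟨_, rfl⟩
    rw [← hL] at k3 k4 k5 ⊢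
    obtain ⟨k7, k8⟩ := abs_le.1 k3
    rw [Real.dist_eq, abs_lt]
    constructor
    · have h7 : 1 - ε / 2 ≤ psum (Set.univ : Set (HeightOneSpectrum (𝓞 F))) s / L := by
        rw [le_div_iff₀ k4]
        have e1 : (1 - ε / 2) * L = L - L * (ε / 2) := by ring
        rw [e1]
        linarith
      linarith
    · have h7 : psum (Set.univ : Set (HeightOneSpectrum (𝓞 F))) s / L ≤ 1 + ε / 2 := by
        rw [div_le_iff₀ k4]
        have e1 : (1 + ε / 2) * L = L + L * (ε / 2) := by ring
        rw [e1]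
        linarith
      linarith
  have hlim := hlim1.div hlim2 one_ne_zero
  rw [div_one] at hlim
  unfold NumberField.Set.HasDirichletDensity
  refine hlim.congr' ?_
  filter_upwards [log_tendsto.eventually_gt_atTop 0] with s hs
  rw [← psum_eq, ← psum_eq]
  exact div_div_div_cancel_right₀ hs.ne' _ _

end Pool.Agent.Cheb
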