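import Pool.Agent.W_f569db_h62.NTD

/-!
# Transfer of densities

`k ⊆ L ⊆ M`, `g ∈ Gal(M/k)` is the identity on `L` and `g'` is the same automorphism in
`Gal(M/L)`, `C` = the centralizer of `g` in `Gal(M/k)`.

* `isFrob_transfer`: let `Q` be a prime of `M`, `P_L`, `P` the primes below, with
  `N(P_L) = N(P)`; if `g'` is a Frobenius at `Q` for `M / L` then `g` is one for `M / k`
  (`Nat.card` of the residue fields is the norm).
* `card_frob_le`: let `P` be unramified in `M` (all but finitely many are).  The primes `Q` of `M`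
  over `P` at which `g` is a Frobenius: `C` acts on them (`IsArithFrobAt.conj`), transitively: if
  `Q' = h • Q` (`Algebra.IsInvariant.exists_smul_of_under_eq`) then `h g h⁻¹` and `g` are Frobenius
  elements at `Q'`, so equal (`IsArithFrobAt.mul_inv_mem_inertia`, trivial inertia; or
  `AlgHom.IsArithFrobAt.eq_of_isUnramifiedAt`), `h ∈ C`.  The powers of `g` are in the stabilizer
  of `Q` (`IsArithFrobAt.mem_stabilizer`).  So their number is at most `|C| / orderOf g`.
* `transfer`: `psum_le_deg1` for `L`; for a prime `R` of `L` of degree one in `FrobSet L M g'`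
  choose a prime `Q` of `M` above it; different `R` give different `Q`; `R` has the same norm as
  the prime `P` below (`absNorm_eq_of_prime`).  So each `P` outside the finite set is below at most
  `|C| / orderOf g` such `R`: `psum_up_le`.  `LowDens.transfer`, `psum_finite`.
-/

set_option autoImplicit false

noncomputable section

open Filter Topology NumberField IsDedekindDomain
open scoped nonZeroDivisors

namespace Pool.Agent.Cheb

variable (k M : Type) [Field k] [NumberField k] [Field M] [NumberField M] [Algebra k M]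
  [IsGalois k M]

/-- Outside a finite set of primes of `k`, Frobenius elements are unique. -/
theorem frob_unique : ∃ E : Set (HeightOneSpectrum (𝓞 k)), E.Finite ∧
    ∀ P, P ∉ E → ∀ Q : Ideal (𝓞 M), Q.IsPrime → Q.under (𝓞 k) = P.asIdeal →
      ∀ g h : Gal(M/k), IsArithFrobAt (𝓞 k) g Q → IsArithFrobAt (𝓞 k) h Q → g = h := by
  classical
  have hx : ∀ σ : Gal(M/k), σ ≠ 1 → ∃ x : 𝓞 M, σ • x - x ≠ 0 := by
    intro σ hσ
    by_contra hcon
    push Not at hcon
    apply hσ
    ext y
    obtain ⟨a, b, hb, rfl⟩ := IsFractionRing.div_surjective (A := 𝓞 M) y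
    have e1 : ∀ x : 𝓞 M, σ (algebraMap (𝓞 M) M x) = algebraMap (𝓞 M) M x := by
      intro x
      have h1 : algebraMap (𝓞 M) M (σ • x) = σ • algebraMap (𝓞 M) M x :=
        algebraMap.coe_smul' σ x M
      rw [sub_eq_zero.1 (hcon x)] at h1
      exact h1.symm
    rw [map_div₀, e1, e1]
    rfl
  choose! x hx using hx
  obtain ⟨D, hD⟩ : ∃ D : 𝓞 M, D = ∏ σ ∈ Finset.univ.filter (fun σ : Gal(M/k) => σ ≠ 1),
    (σ • x σ - x σ) := ⟨_, rfl⟩
  have hD0 : D ≠ 0 := by
    rw [hD]
    exact Finset.prod_ne_zero_iff.2 fun σ hσ => hx σ (Finset.mem_filter.1 hσ).2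
  have hfin := Ideal.finite_factors (R := 𝓞 M) (I := Ideal.span {D})
    (by rw [Ne, Ideal.zero_eq_bot, Ideal.span_singleton_eq_bot]; exact hD0)
  refine ⟨(fun P : HeightOneSpectrum (𝓞 k) => P.asIdeal) ⁻¹'
    ((fun v : HeightOneSpectrum (𝓞 M) => v.asIdeal.under (𝓞 k)) ''
      {v : HeightOneSpectrum (𝓞 M) | v.asIdeal ∣ Ideal.span {D}}), ?_, ?_⟩
  · exact (hfin.image _).preimage (fun P _ P' _ h => HeightOneSpectrum.ext h)
  · intro P hP Q hQ hQP g h hg hh
    by_contra hne
    have hσ : g * h⁻¹ ≠ 1 := fun e => hne (mul_inv_eq_one.1 e)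
    have hin := hg.mul_inv_mem_inertia hh
    have hmem : D ∈ Q := by
      rw [hD]
      refine Ideal.mem_of_dvd Q (Finset.dvd_prod_of_mem _
        (Finset.mem_filter.2 ⟨Finset.mem_univ _, hσ⟩)) ?_
      exact hin (x (g * h⁻¹))
    have hQ0 : Q ≠ ⊥ := by
      rintro rfl
      exact hD0 (by simpa using hmem)
    apply hP
    rw [Set.mem_preimage]
    refine ⟨⟨Q, hQ, hQ0⟩, ?_, hQP⟩
    show Q ∣ Ideal.span {D}
    rw [Ideal.dvd_span_singleton]
    exact hmem

variable (L : Type) [Field L] [NumberField L] [Algebra k L] [Algebra L M]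
  [IsScalarTower k L M] [IsGalois L M]

end Pool.Agent.Cheb
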