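import Pool.Agent.W_f569db_h62.NTD

/-!
# Transfer of densities

`k ⊆ L ⊆ M`, `g ∈ Gal(M/k)` is the identity on `L` and `g'` is the same automorphism in
`Gal(M/L)`, `C` = the centralizer of `g` in `Gal(M/k)`.

* `isFrob_transfer`: let `Q` be a prime of `M`, `P_L`, `P` the primes below, with
  `N(P_L) = N(P)`; if `g'` is a Frobenius at `Q` for `M / L` then `g` is one for `M / k`
  (`Nat.card` of the residue fields is the norm).
* `card_frob_le`: let `P` be unramified in `M` (all but finitely many are).  The primes `Q` of `M`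
  over `P` at which `g` is a Frobenius: `C` acts on them (`IsArithFrobAt.conj`), transitively: if
  `Q' = h • Q` (`Algebra.IsInvariant.exists_smul_of_under_eq`) then `h g h⁻¹` and `g` are Frobenius
  elements at `Q'`, so equal (`IsArithFrobAt.mul_inv_mem_inertia`, trivial inertia; or
  `AlgHom.IsArithFrobAt.eq_of_isUnramifiedAt`), `h ∈ C`.  The powers of `g` are in the stabilizer
  of `Q` (`IsArithFrobAt.mem_stabilizer`).  So their number is at most `|C| / orderOf g`.
* `transfer`: `psum_le_deg1` for `L`; for a prime `R` of `L` of degree one in `FrobSet L M g'`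
  choose a prime `Q` of `M` above it; different `R` give different `Q`; `R` has the same norm as
  the prime `P` below (`absNorm_eq_of_prime`).  So each `P` outside the finite set is below at most
  `|C| / orderOf g` such `R`: `psum_up_le`.  `LowDens.transfer`, `psum_finite`.
-/

set_option autoImplicit false

noncomputable section

open Filter Topology NumberField IsDedekindDomain
open scoped nonZeroDivisors

namespace Pool.Agent.Cheb

variable (k M : Type) [Field k] [NumberField k] [Field M] [NumberField M] [Algebra k M]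
  [IsGalois k M]

open scoped Pointwise in
theorem TrB_card_frob_le (P : HeightOneSpectrum (𝓞 k))
    (hP : ∀ Q : Ideal (𝓞 M), Q.IsPrime → Q.under (𝓞 k) = P.asIdeal →
      ∀ g h : Gal(M/k), IsArithFrobAt (𝓞 k) g Q → IsArithFrobAt (𝓞 k) h Q → g = h)
    (g : Gal(M/k)) :
    {Q : Ideal (𝓞 M) | Q.IsPrime ∧ Q.under (𝓞 k) = P.asIdeal ∧ IsArithFrobAt (𝓞 k) g Q}.Finite ∧
    {Q : Ideal (𝓞 M) | Q.IsPrime ∧ Q.under (𝓞 k) = P.asIdeal ∧
      IsArithFrobAt (𝓞 k) g Q}.ncard * orderOf g ≤
        Nat.card (Subgroup.centralizer ({g} : Set Gal(M/k))) := by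
  classical
  rcases Set.eq_empty_or_nonempty
    {Q : Ideal (𝓞 M) | Q.IsPrime ∧ Q.under (𝓞 k) = P.asIdeal ∧ IsArithFrobAt (𝓞 k) g Q}
    with h0 | ⟨Q₀, hQ₀p, hQ₀u, hQ₀F⟩
  · rw [h0]
    exact ⟨Set.finite_empty, by simp⟩
  have : Q₀.IsPrime := hQ₀p
  have hS : {Q : Ideal (𝓞 M) | Q.IsPrime ∧ Q.under (𝓞 k) = P.asIdeal ∧
      IsArithFrobAt (𝓞 k) g Q} =
      MulAction.orbit (Subgroup.centralizer ({g} : Set Gal(M/k))) Q₀ := by
    ext Q
    constructor
    · rintro ⟨hQp, hQu, hQF⟩
      have : Q.IsPrime := hQp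
      obtain ⟨τ, hτ⟩ := Algebra.IsInvariant.exists_smul_of_under_eq (𝓞 k) (𝓞 M) Gal(M/k) Q₀ Q
        (hQ₀u.trans hQu.symm)
      have h1 : IsArithFrobAt (𝓞 k) (τ * g * τ⁻¹) Q := by
        rw [hτ]
        exact hQ₀F.conj τ
      have h2 : τ * g * τ⁻¹ = g := hP Q hQp hQu _ _ h1 hQF
      have h3 : τ ∈ Subgroup.centralizer ({g} : Set Gal(M/k)) := by
        rw [Subgroup.mem_centralizer_iff]
        intro x hx
        rw [Set.mem_singleton_iff] at hx
        rw [hx]
        exact (mul_inv_eq_iff_eq_mul.mp h2).symm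
      exact ⟨⟨τ, h3⟩, hτ.symm⟩
    · rintro ⟨⟨τ, hτ⟩, rfl⟩
      have h3 : g * τ = τ * g := Subgroup.mem_centralizer_iff.mp hτ g rfl
      have h2 : τ * g * τ⁻¹ = g := mul_inv_eq_iff_eq_mul.mpr h3.symm
      have h4 : (⟨τ, hτ⟩ : Subgroup.centralizer ({g} : Set Gal(M/k))) • Q₀ = τ • Q₀ := rfl
      refine ⟨?_, ?_, ?_⟩
      · show (τ • Q₀).IsPrime
        infer_instance
      · show (τ • Q₀).under (𝓞 k) = P.asIdeal
        rw [← hQ₀u]
        have : (Q₀.map (MulSemiringAction.toRingEquiv Gal(M/k) (𝓞 M) τ)).under (𝓞 k) =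
            Q₀.under (𝓞 k) := by
          rw [← Ideal.comap_symm, ← Ideal.comap_coe, Ideal.under, Ideal.comap_comap]
          congr 1
          exact (MulSemiringAction.toAlgEquiv (𝓞 k) (𝓞 M) τ).symm.toAlgHom.comp_algebraMap
        exact this
      · show IsArithFrobAt (𝓞 k) g (τ • Q₀)
        have h5 := hQ₀F.conj τ
        rw [h2] at h5
        exact h5
  have hg : g ∈ Subgroup.centralizer ({g} : Set Gal(M/k)) := by
    rw [Subgroup.mem_centralizer_iff]
    intro x hx
    rw [Set.mem_singleton_iff] at hx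
    rw [hx]
  have hgs : (⟨g, hg⟩ : Subgroup.centralizer ({g} : Set Gal(M/k))) ∈
      MulAction.stabilizer (Subgroup.centralizer ({g} : Set Gal(M/k))) Q₀ := by
    rw [MulAction.mem_stabilizer_iff]
    exact MulAction.mem_stabilizer_iff.mp hQ₀F.mem_stabilizer
  rw [hS]
  refine ⟨Set.finite_range _, ?_⟩
  rw [← MulAction.index_stabilizer,
    ← Subgroup.index_mul_card (MulAction.stabilizer
      (Subgroup.centralizer ({g} : Set Gal(M/k))) Q₀)]
  apply Nat.mul_le_mul_left
  rw [← Subgroup.orderOf_mk g hg, ← Nat.card_zpowers]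
  exact Subgroup.card_le_of_le (Subgroup.zpowers_le.mpr hgs)

/-- The number of the primes over `P` at which `g` is a Frobenius. -/
theorem card_frob_le (P : HeightOneSpectrum (𝓞 k))
    (hP : ∀ Q : Ideal (𝓞 M), Q.IsPrime → Q.under (𝓞 k) = P.asIdeal →
      ∀ g h : Gal(M/k), IsArithFrobAt (𝓞 k) g Q → IsArithFrobAt (𝓞 k) h Q → g = h)
    (g : Gal(M/k)) :
    {Q : Ideal (𝓞 M) | Q.IsPrime ∧ Q.under (𝓞 k) = P.asIdeal ∧ IsArithFrobAt (𝓞 k) g Q}.Finite ∧
    {Q : Ideal (𝓞 M) | Q.IsPrime ∧ Q.under (𝓞 k) = P.asIdeal ∧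
      IsArithFrobAt (𝓞 k) g Q}.ncard * orderOf g ≤
        Nat.card (Subgroup.centralizer ({g} : Set Gal(M/k))) :=
  TrB_card_frob_le k M P hP g

variable (L : Type) [Field L] [NumberField L] [Algebra k L] [Algebra L M]
  [IsScalarTower k L M] [IsGalois L M]

end Pool.Agent.Cheb
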