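import Pool.Agent.Chebotarev_h15.PsB
import Pool.Agent.Chebotarev_h15.PsC
import Pool.Agent.Chebotarev_h15.SpD
import Pool.Agent.Chebotarev_h15.TrA
import Pool.Agent.Chebotarev_h15.TrB
import Pool.Agent.Chebotarev_h15.TrC

/-!
# Transfer of densities

`k ⊆ L ⊆ M`, `g ∈ Gal(M/k)` is the identity on `L` and `g'` is the same automorphism in
`Gal(M/L)`, `C` = the centralizer of `g` in `Gal(M/k)`.

* `isFrob_transfer`: let `Q` be a prime of `M`, `P_L`, `P` the primes below, with
  `N(P_L) = N(P)`; if `g'` is a Frobenius at `Q` for `M / L` then `g` is one for `M / k`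
  (`Nat.card` of the residue fields is the norm).
* `card_frob_le`: let `P` be unramified in `M` (all but finitely many are).  The primes `Q` of `M`
  over `P` at which `g` is a Frobenius: `C` acts on them (`IsArithFrobAt.conj`), transitively: if
  `Q' = h • Q` (`Algebra.IsInvariant.exists_smul_of_under_eq`) then `h g h⁻¹` and `g` are Frobenius
  elements at `Q'`, so equal (`IsArithFrobAt.mul_inv_mem_inertia`, trivial inertia; or
  `AlgHom.IsArithFrobAt.eq_of_isUnramifiedAt`), `h ∈ C`.  The powers of `g` are in the stabilizer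
  of `Q` (`IsArithFrobAt.mem_stabilizer`).  So their number is at most `|C| / orderOf g`.
* `transfer`: `psum_le_deg1` for `L`; for a prime `R` of `L` of degree one in `FrobSet L M g'`
  choose a prime `Q` of `M` above it; different `R` give different `Q`; `R` has the same norm as
  the prime `P` below (`absNorm_eq_of_prime`).  So each `P` outside the finite set is below at most
  `|C| / orderOf g` such `R`: `psum_up_le`.  `LowDens.transfer`, `psum_finite`.
-/

set_option autoImplicit false

noncomputable section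

open Filter Topology NumberField IsDedekindDomain
open scoped nonZeroDivisors

namespace Pool.Agent.Cheb

variable (k M : Type) [Field k] [NumberField k] [Field M] [NumberField M] [Algebra k M]
  [IsGalois k M]

variable (L : Type) [Field L] [NumberField L] [Algebra k L] [Algebra L M]
  [IsScalarTower k L M] [IsGalois L M]

theorem transfer (g : Gal(M/k)) (g' : Gal(M/L)) (hg : ∀ x, g' x = g x) (δ : ℝ)
    (h : LowDens (FrobSet L M g') δ) :
    LowDens (FrobSet k M g)
      (δ * orderOf g / Nat.card (Subgroup.centralizer ({g} : Set Gal(M/k)))) := by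
  classical
  obtain ⟨E, hE, hun⟩ := frob_unique k M
  obtain ⟨C₁, hC₁⟩ := psum_le_deg1 L
  set cen := Nat.card (Subgroup.centralizer ({g} : Set Gal(M/k))) with hcen
  have hcen0 : 0 < cen := Nat.card_pos
  have hord : 0 < orderOf g := orderOf_pos g
  have hordR : (0 : ℝ) < orderOf g := by exact_mod_cast hord
  have hcenR : (0 : ℝ) < cen := by exact_mod_cast hcen0
  have hfrob : ∀ R : HeightOneSpectrum (𝓞 L), R ∈ FrobSet L M g' → ∃ Q : Ideal (𝓞 M),
      Q.IsPrime ∧ Q.under (𝓞 L) = R.asIdeal ∧ IsArithFrobAt (𝓞 L) g' Q := fun R hR => hR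
  choose! f hf using hfrob
  set E' : Set (HeightOneSpectrum (𝓞 L)) := ⋃ P ∈ E, Over L P with hE'
  have hE'f : E'.Finite := hE.biUnion fun P _ => (card_over_le k L P).1
  set S' : Set (HeightOneSpectrum (𝓞 L)) := (FrobSet L M g' ∩ deg1 L) \ E' with hS'
  -- the primes below
  have hbelow : ∀ R ∈ S', ∀ P : HeightOneSpectrum (𝓞 k), R ∈ Over L P →
      P ∉ E ∧ (f R).under (𝓞 k) = P.asIdeal ∧ IsArithFrobAt (𝓞 k) g (f R) ∧ (f R).IsPrime := by
    intro R hR P hRP
    obtain ⟨hp, hu, hF⟩ := hf R hR.1.1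
    have h1 := isFrob_transfer k M L g g' hg P R hRP (absNorm_eq_of_prime k L hRP hR.1.2) (f R)
      hu hF
    refine ⟨fun hPE => hR.2 ?_, h1.1, h1.2, hp⟩
    rw [hE', Set.mem_iUnion₂]
    exact ⟨P, hPE, hRP⟩
  have hup : ∀ s : ℝ, 1 < s → psum S' s ≤ (cen / orderOf g : ℕ) * psum (FrobSet k M g \ E) s := by
    intro s hs
    refine psum_up_le k L (FrobSet k M g \ E) S' (cen / orderOf g) (fun R hR => hR.1.2)
      (fun R hR => ?_) (fun P hP => ?_) hs
    · obtain ⟨P, hP⟩ := exists_under k L R
      obtain ⟨h1, h2, h3, h4⟩ := hbelow R hR P hP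
      exact ⟨P, ⟨⟨f R, h4, h2, h3⟩, h1⟩, hP⟩
    · obtain ⟨hfin, hcard⟩ := card_frob_le k M P (fun Q hQ hu g h hg hh =>
        hun P hP.2 Q hQ hu g h hg hh) g
      rw [Nat.le_div_iff_mul_le hord]
      refine le_trans (Nat.mul_le_mul_right _ ?_) hcard
      refine Set.ncard_le_ncard_of_injOn f (fun R hR => ?_) (fun R hR R' hR' hRR => ?_) hfin
      · obtain ⟨_, h2, h3, h4⟩ := hbelow R hR.1 P hR.2
        exact ⟨h4, h2, h3⟩
      · apply HeightOneSpectrum.ext
        rw [← (hf R hR.1.1.1).2.1, ← (hf R' hR'.1.1.1).2.1, hRR]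
  have hc : (0 : ℝ) < (cen : ℝ) / orderOf g := div_pos hcenR hordR
  have hmain := LowDens.transfer (S' := FrobSet k M g) hc h ⟨E'.ncard + C₁, by
    filter_upwards [self_mem_nhdsWithin] with s hs
    have hs' : 1 < s := hs
    have h1 := hC₁ (FrobSet L M g') s hs'
    have h2 : psum (FrobSet L M g' ∩ deg1 L) s ≤ psum S' s + psum E' s := by
      refine (psum_mono (fun R hR => ?_) hs').trans (psum_union_le S' E' hs')
      by_cases hRE : R ∈ E'
      · exact Or.inr hRE
      · exact Or.inl ⟨hR, hRE⟩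
    have h3 := psum_finite hE'f hs'
    have h4 := hup s hs'
    have h5 : psum (FrobSet k M g \ E) s ≤ psum (FrobSet k M g) s :=
      psum_mono Set.diff_subset hs'
    have h6 : ((cen / orderOf g : ℕ) : ℝ) ≤ (cen : ℝ) / orderOf g := Nat.cast_div_le
    have h7 := mul_le_mul h6 h5 (psum_nonneg _ _) hc.le
    linarith⟩
  rwa [div_div_eq_mul_div] at hmain

end Pool.Agent.Cheb
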