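import Pool.Agent.Chebotarev_h15.CbD
import Pool.Agent.Chebotarev_h15.Cross
import Pool.Agent.Chebotarev_h15.FiC
import Pool.Agent.Chebotarev_h15.FiD
import Pool.Agent.Chebotarev_h15.LwA
import Pool.Agent.Chebotarev_h15.TrD

/-!
# The lower bound for one auxiliary prime `m`

`M = K(ζ)`, `galMap : Gal(M/k) ≃ Gal(K/k) × (ZMod m)ˣ`, `σ ∈ Gal(K/k)`.

* `lower_pair`: for `g ∈ Gal(M/k)` with `galMap g = (σ, a)`, `orderOf σ ∣ orderOf a`: if
  `(g ^ j) ζ = ζ` then `a ^ j = 1`, so `orderOf σ ∣ j`, `galMap (g ^ j) = 1`, `g ^ j = 1`; the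
  crossing gives `L` with `M = L(ζ)`, `[M : L] = orderOf g`, `g'`; `cyc_density L M m g'`:
  lower density `1 / orderOf g` over `L`; `transfer`: lower density
  `(1 / orderOf g) * orderOf g / |C_{Gal(M/k)}(g)|` over `k`, and
  `|C_{Gal(M/k)}(g)| = |C(σ)| * (m - 1)` (`card_centralizer`, `Nat.card (ZMod m)ˣ = m - 1`).
* `lower_m`: sum over the `a` with `orderOf σ ∣ orderOf a` (`LowDens.sum`): the sets
  `FrobSet k M g_a` are contained in `FrobSet k K σ` (`frobSet_restrict`) and disjoint outside the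
  primes containing `m` (`frobSet_disjoint`, `finite_mem`).
* `lower`: `n = orderOf σ`; `exists_prime n r (discr K)`, `exists_cyc`, `lower_m` and `count_bad`
  ((ZMod m)ˣ is cyclic of order `m - 1`): the lower density is at least
  `(1 - n / 2 ^ r) / |C(σ)|`; `r → ∞`, `LowDens.limit`, `LowDens.le`.
-/

set_option autoImplicit false

noncomputable section

open Filter Topology NumberField IsDedekindDomain
open scoped nonZeroDivisors

namespace Pool.Agent.Cheb

variable (k K M : Type) [Field k] [NumberField k] [Field K] [NumberField K] [Field M]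
  [NumberField M] [Algebra k K] [Algebra K M] [Algebra k M] [IsScalarTower k K M]
  [IsGalois k K] [IsGalois k M]

theorem LwC_pow (m : ℕ) [NeZero m] {ζ : M} (hζ : IsPrimitiveRoot ζ m) (g : Gal(M/k))
    (h : g ζ = ζ) : IsPrimitiveRoot.autToPow k hζ g = 1 := by
  have h1 := hζ.autToPow_spec k g
  rw [h] at h1
  have h2 : (((IsPrimitiveRoot.autToPow k hζ g : (ZMod m)ˣ) : ZMod m).val) ≡ 1 [MOD m] := by
    have h3 : ζ ^ (((IsPrimitiveRoot.autToPow k hζ g : (ZMod m)ˣ) : ZMod m).val) = ζ ^ 1 := by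
      rw [h1, pow_one]
    have h7 := (hζ.isOfFinOrder (NeZero.ne _)).pow_inj_mod.1 h3
    rwa [← hζ.eq_orderOf] at h7
  have h8 := (ZMod.natCast_eq_natCast_iff _ _ _).2 h2
  rw [ZMod.natCast_val, ZMod.cast_id, Nat.cast_one] at h8
  exact Units.ext h8

theorem lower_pair (m : ℕ) [NeZero m] (hm : m.Prime) [IsCyclotomicExtension {m} K M]
    (hM : Module.finrank K M = m - 1) {ζ : M} (hζ : IsPrimitiveRoot ζ m) (g : Gal(M/k))
    (hg : orderOf (galMap k K M hζ g).1 ∣ orderOf (galMap k K M hζ g).2) :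
    LowDens (FrobSet k M g)
      (1 / (Nat.card (Subgroup.centralizer ({(galMap k K M hζ g).1} : Set Gal(K/k))) *
        (m - 1 : ℕ))) := by
  have hbij := gal_bij k K M m hm hM hζ
  have hcross : ∀ j : ℕ, (g ^ j) ζ = ζ → g ^ j = 1 := by
    intro j hj
    have h1 := LwC_pow k M m hζ (g ^ j) hj
    have h2 : (galMap k K M hζ g).2 ^ j = 1 := by
      rw [← h1, map_pow]
      rfl
    have h3 : (galMap k K M hζ g).1 ^ j = 1 :=
      orderOf_dvd_iff_pow_eq_one.1 (hg.trans (orderOf_dvd_iff_pow_eq_one.2 h2))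
    apply hbij.1
    rw [map_pow, map_one]
    exact Prod.ext h3 h2
  obtain ⟨L, iF, iN, iA, iA', hT, hG, hC, hfin, g', hg'⟩ := crossing k M hζ g hcross
  have h1 : LowDens (FrobSet L M g') (1 / Module.finrank L M) := by
    first
    | exact cyc_density L M m g'
    | exact cyc_density L M g'
  have h2 := transfer k M L g g' hg' _ h1
  have hord : (0 : ℝ) < orderOf g := by exact_mod_cast orderOf_pos g
  have h3 : (1 / (Module.finrank L M : ℝ) * orderOf g) = 1 := by
    rw [hfin, one_div, inv_mul_cancel₀ hord.ne']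
  have hcard : Nat.card (ZMod m)ˣ = m - 1 := by
    rw [Nat.card_eq_fintype_card, ZMod.card_units_eq_totient, Nat.totient_prime hm]
  rw [h3, card_centralizer (galMap k K M hζ) hbij g, hcard, Nat.cast_mul] at h2
  exact h2

theorem lower_m (m : ℕ) [NeZero m] (hm : m.Prime) [IsCyclotomicExtension {m} K M]
    (hM : Module.finrank K M = m - 1) {ζ : M} (hζ : IsPrimitiveRoot ζ m) (σ : Gal(K/k)) :
    LowDens (FrobSet k K σ)
      (Nat.card {a : (ZMod m)ˣ // orderOf σ ∣ orderOf a} /
        (Nat.card (Subgroup.centralizer ({σ} : Set Gal(K/k))) * (m - 1 : ℕ))) := by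
  classical
  have hbij := gal_bij k K M m hm hM hζ
  have hex : ∀ a : {a : (ZMod m)ˣ // orderOf σ ∣ orderOf a},
      ∃ g : Gal(M/k), galMap k K M hζ g = (σ, a.1) := fun a => hbij.2 (σ, a.1)
  choose f hf using hex
  have h1 : ∀ a, LowDens (FrobSet k M (f a))
      (1 / (Nat.card (Subgroup.centralizer ({σ} : Set Gal(K/k))) * (m - 1 : ℕ))) := by
    intro a
    have h2 := lower_pair k K M m hm hM hζ (f a) (by rw [hf a]; exact a.2)
    rwa [hf a] at h2
  have h3 := LowDens.sum (fun a => FrobSet k M (f a)) _ (FrobSet k K σ)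
    {P : HeightOneSpectrum (𝓞 k) | (m : 𝓞 k) ∈ P.asIdeal} (finite_mem k m (NeZero.ne m))
    (fun a => by
      have h4 := frobSet_restrict k K M (f a)
      have h5 : AlgEquiv.restrictNormalHom K (f a) = σ := congrArg Prod.fst (hf a)
      rwa [h5] at h4)
    (fun a b hab => by
      refine frobSet_disjoint k M m hζ (f a) (f b) fun h => hab ?_
      have h5 : IsPrimitiveRoot.autToPow k hζ (f a) = a.1 := congrArg Prod.snd (hf a)
      have h6 : IsPrimitiveRoot.autToPow k hζ (f b) = b.1 := congrArg Prod.snd (hf b)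
      rw [h5, h6] at h
      exact Subtype.ext h) h1
  rw [Finset.sum_const, Finset.card_univ, nsmul_eq_mul, ← Nat.card_eq_fintype_card,
    mul_one_div] at h3
  exact h3

end Pool.Agent.Cheb
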