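import Pool.Agent.Chebotarev_h15.Count
import Pool.Agent.Chebotarev_h15.FiB
import Pool.Agent.Chebotarev_h15.LwC

/-!
# The lower bound

See the module doc of `LwC.lean`, `lower`.
-/

set_option autoImplicit false

noncomputable section

open Filter Topology NumberField IsDedekindDomain
open scoped nonZeroDivisors

namespace Pool.Agent.Cheb

variable (k K : Type) [Field k] [NumberField k] [Field K] [NumberField K] [Algebra k K]
  [IsGalois k K]

theorem LwD_card (A : Type) [Finite A] (p : A → Prop) :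
    Nat.card {a : A // p a} + Nat.card {a : A // ¬ p a} = Nat.card A := by
  classical
  rw [← Nat.card_sum]
  exact Nat.card_congr (Equiv.sumCompl p)

theorem LwD_step (σ : Gal(K/k)) (r : ℕ) (hr : 0 < r) :
    LowDens (FrobSet k K σ)
      ((1 - (orderOf σ : ℝ) / 2 ^ r) /
        Nat.card (Subgroup.centralizer ({σ} : Set Gal(K/k)))) := by
  have hn : 0 < orderOf σ := orderOf_pos σ
  obtain ⟨m, hm, hmK, hmn⟩ := exists_prime (orderOf σ) r hn (discr K) (discr_ne_zero K)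
  haveI : NeZero m := ⟨hm.ne_zero⟩
  haveI : Fact m.Prime := ⟨hm⟩
  obtain ⟨M, iF, iN, iAk, iAK, hT, hG, hC, hfin⟩ := exists_cyc k K m hm hmK
  have hζ : IsPrimitiveRoot (IsCyclotomicExtension.zeta m K M) m :=
    IsCyclotomicExtension.zeta_spec m K M
  have h1 := lower_m k K M m hm hfin hζ σ
  refine h1.le ?_
  have hcard : Nat.card (ZMod m)ˣ = m - 1 := by
    rw [Nat.card_eq_fintype_card, ZMod.card_units]
  have h2 := count_bad (ZMod m)ˣ (orderOf σ) r hn hr (by rw [hcard]; exact hmn)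
  have h3 := LwD_card (ZMod m)ˣ (fun a => orderOf σ ∣ orderOf a)
  rw [hcard] at h2 h3
  obtain ⟨G, hGG⟩ : ∃ G : ℝ, G = (Nat.card {a : (ZMod m)ˣ // orderOf σ ∣ orderOf a} : ℝ) :=
    ⟨_, rfl⟩
  obtain ⟨B, hB⟩ : ∃ B : ℝ, B = (Nat.card {a : (ZMod m)ˣ // ¬ orderOf σ ∣ orderOf a} : ℝ) :=
    ⟨_, rfl⟩
  obtain ⟨q, hq⟩ : ∃ q : ℝ, q = ((m - 1 : ℕ) : ℝ) := ⟨_, rfl⟩
  obtain ⟨c, hc⟩ : ∃ c : ℝ,
      c = (Nat.card (Subgroup.centralizer ({σ} : Set Gal(K/k))) : ℝ) := ⟨_, rfl⟩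
  have h4 : G + B = q := by
    rw [hGG, hB, hq]
    exact_mod_cast h3
  rw [← hB, ← hq] at h2
  rw [← hGG, ← hq, ← hc]
  have hq0 : 0 < q := by
    rw [hq]
    have : 0 < m - 1 := by
      have := hm.two_le
      omega
    exact_mod_cast this
  have hc0 : 0 < c := by
    rw [hc]
    exact_mod_cast Nat.card_pos
  rw [div_le_div_iff₀ hc0 (mul_pos hc0 hq0)]
  have h5 : (1 - (orderOf σ : ℝ) / 2 ^ r) * q ≤ G := by
    have h6 : (orderOf σ : ℝ) / 2 ^ r * q = (orderOf σ : ℝ) * q / 2 ^ r := by ring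
    rw [sub_mul, one_mul, h6]
    linarith
  calc (1 - (orderOf σ : ℝ) / 2 ^ r) * (c * q) = ((1 - (orderOf σ : ℝ) / 2 ^ r) * q) * c := by
        ring
    _ ≤ G * c := mul_le_mul_of_nonneg_right h5 hc0.le

theorem lower (σ : Gal(K/k)) :
    LowDens (FrobSet k K σ)
      (1 / Nat.card (Subgroup.centralizer ({σ} : Set Gal(K/k)))) := by
  refine LowDens.limit fun η hη => ?_
  obtain ⟨r, hr⟩ : ∃ r : ℕ, (orderOf σ : ℝ) / 2 ^ (r + 1) ≤ η := by
    have h1 : Tendsto (fun r : ℕ => (orderOf σ : ℝ) / 2 ^ (r + 1)) atTop (𝓝 0) := by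
      have h2 : Tendsto (fun r : ℕ => (2 : ℝ) ^ (r + 1)) atTop atTop :=
        (tendsto_pow_atTop_atTop_of_one_lt (by norm_num : (1 : ℝ) < 2)).comp
          (tendsto_add_atTop_nat 1)
      exact h2.const_div_atTop _
    exact ((h1.eventually (ge_mem_nhds hη)).exists)
  refine (LwD_step k K σ (r + 1) (Nat.succ_pos r)).le ?_
  have hc1 : (1 : ℝ) ≤ (Nat.card (Subgroup.centralizer ({σ} : Set Gal(K/k))) : ℝ) := by
    exact_mod_cast Nat.card_pos
  rw [sub_div]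
  have h3 : (orderOf σ : ℝ) / 2 ^ (r + 1) /
      (Nat.card (Subgroup.centralizer ({σ} : Set Gal(K/k))) : ℝ) ≤
      (orderOf σ : ℝ) / 2 ^ (r + 1) := div_le_self (by positivity) hc1
  linarith

end Pool.Agent.Cheb
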