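import Pool.Agent.Chebotarev_h15.NormMod
import Pool.Agent.W_f569db_h62.NTD

/-!
# Orthogonality

Case (a): there is `c ∈ 𝓞 F` which is a unit modulo `m` with `χ(N c) ≠ 1`.  Multiplication by `c`
permutes the classes modulo `m`, the norm is multiplicative, so `SS = χ(N c) SS`: `SS = 0`.

Case (b): `χ(N c) = 1` for all `c` which are units modulo `m`.  Then `χ(N A) = χ(N B)` for ideals
`A`, `B` prime to `m` in the same class: take `J'` prime to `m` in the inverse class
(`exists_coprime_rep`), `A J' = (a)`, `a` a unit modulo `m`, so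
`χ(N A) χ(N J') = χ(|N a|) = χ(N a) = 1` (`SignRel` with `ε = 1`), and the same for `B`.
So `g(C) = χ(N (J C))` is multiplicative in `C` (class group): `J C * J C'` is in the class of
`J (C C')`.  The ideal `I` of the hypothesis is prime to `m` (`χ(N I) ≠ 0`), in the class
`(C')⁻¹` for some `C'`, so `g(C') = χ(N I) ≠ 1` and
`∑_C g(C)⁻¹ = ∑_C g(C C')⁻¹ = g(C')⁻¹ ∑_C g(C)⁻¹`: the sum vanishes.
(`χ(N I) ≠ 0` implies that `N I` is prime to `m`, hence `I` is prime to `(m)`: `N I ∈ I`.)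
-/

set_option autoImplicit false

noncomputable section

open Filter Topology NumberField NumberField.mixedEmbedding NumberField.Units MeasureTheory
open scoped nonZeroDivisors

open scoped Classical

namespace Pool.Agent.Cheb

variable (F : Type) [Field F] [NumberField F]

/-- Case (a). -/
theorem SS_eq_zero (m : ℕ) [NeZero m] (χ : DirichletCharacter ℂ m) (c : 𝓞 F)
    (hc : IsUnit (Ideal.Quotient.mk (Ideal.span {(m : 𝓞 F)}) c))
    (h : χ ((Algebra.norm ℤ c : ℤ) : ZMod m) ≠ 1) : SS F χ = 0 := by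
  obtain ⟨u, hu⟩ := hc
  have h1 : ∀ x : 𝓞 F ⧸ Ideal.span {(m : 𝓞 F)}, χ (nq F m (u.mulLeft x)) =
      χ ((Algebra.norm ℤ c : ℤ) : ZMod m) * χ (nq F m x) := by
    intro x
    obtain ⟨y, rfl⟩ := Ideal.Quotient.mk_surjective x
    have h2 : u.mulLeft (Ideal.Quotient.mk (Ideal.span {(m : 𝓞 F)}) y) =
        Ideal.Quotient.mk (Ideal.span {(m : 𝓞 F)}) (c * y) := by
      rw [map_mul, ← hu]
      rfl
    rw [h2, nq_mk, nq_mk, map_mul, Int.cast_mul, map_mul]
  have h2 : SS F χ = χ ((Algebra.norm ℤ c : ℤ) : ZMod m) * SS F χ := by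
    conv_lhs => unfold SS
    rw [← Equiv.tsum_eq u.mulLeft]
    unfold SS
    rw [← tsum_mul_left]
    exact tsum_congr h1
  have h3 : (χ ((Algebra.norm ℤ c : ℤ) : ZMod m) - 1) * SS F χ = 0 := by
    rw [sub_mul, one_mul, ← h2, sub_self]
  exact (mul_eq_zero.1 h3).resolve_left (sub_ne_zero.2 h)

end Pool.Agent.Cheb
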