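import Mathlib

/-!
# The weight `phi` on the mixed space

`n = finrank ℚ F`.

* `phi_smul`: `logMap_real_smul`, `norm_smul`.
* `phi_eq_of_normAtPlace_eq`: `logMap_eq_of_normAtPlace_eq`, `norm_eq_of_normAtPlace_eq`.
* `phi_measurable`: as in Mathlib's `measurableSet_fundamentalCone` (`logMap` is measurable).
* `phi_comparable`: `phi F x ≠ 0` forces `|coord F x i| < 1` for all `i`, so `logMap x` is a sum of
  the basis vectors with bounded coefficients: `|logMap x w| ≤ B` for `w ≠ w₀`.  Since
  `mult w ≥ 1`, `|log ‖x‖_w - (1/n) log (norm x)| ≤ B` for `w ≠ w₀`; and since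
  `log (norm x) = ∑ mult w * log ‖x‖_w` (`mixedEmbedding.norm_apply`), `∑ mult w = n`, also
  `|log ‖x‖_{w₀} - (1/n) log (norm x)| ≤ n B`.  Hence all `normAtPlace w x` are within a factor
  `exp (2 n B)` of each other, and `‖x‖` is the largest of them
  (`mixedEmbedding.norm_eq_sup'_normAtPlace`).
* `hasSum_units`: every unit is `ζ * ∏ η_i^(k_i)` in exactly one way (`ζ` a root of unity, `η` the
  fundamental system: `Units.exist_unique_eq_mul_prod`), `logMap (u • x) = logEmbedding u +
  logMap x` (`logMap_unit_smul`), the coordinates of `logEmbedding (ζ ∏ η_i^(k_i))` are the `k_i`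
  (`basisUnitLattice`, `logEmbedding_fundSystem`), and `hasSum_prod_T`.
-/

set_option autoImplicit false

noncomputable section

open Filter Topology NumberField NumberField.mixedEmbedding NumberField.Units

open scoped Classical

namespace Pool.Agent.Cheb

variable (F : Type) [Field F] [NumberField F]

end Pool.Agent.Cheb
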