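import Pool.Agent.Chebotarev_h15.PhiA

/-!
# The weight `phi` on the mixed space

`n = finrank ℚ F`.

* `phi_smul`: `logMap_real_smul`, `norm_smul`.
* `phi_eq_of_normAtPlace_eq`: `logMap_eq_of_normAtPlace_eq`, `norm_eq_of_normAtPlace_eq`.
* `phi_measurable`: as in Mathlib's `measurableSet_fundamentalCone` (`logMap` is measurable).
* `phi_comparable`: `phi F x ≠ 0` forces `|coord F x i| < 1` for all `i`, so `logMap x` is a sum of
  the basis vectors with bounded coefficients: `|logMap x w| ≤ B` for `w ≠ w₀`.  Since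
  `mult w ≥ 1`, `|log ‖x‖_w - (1/n) log (norm x)| ≤ B` for `w ≠ w₀`; and since
  `log (norm x) = ∑ mult w * log ‖x‖_w` (`mixedEmbedding.norm_apply`), `∑ mult w = n`, also
  `|log ‖x‖_{w₀} - (1/n) log (norm x)| ≤ n B`.  Hence all `normAtPlace w x` are within a factor
  `exp (2 n B)` of each other, and `‖x‖` is the largest of them
  (`mixedEmbedding.norm_eq_sup'_normAtPlace`).
* `hasSum_units`: every unit is `ζ * ∏ η_i^(k_i)` in exactly one way (`ζ` a root of unity, `η` the
  fundamental system: `Units.exist_unique_eq_mul_prod`), `logMap (u • x) = logEmbedding u +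
  logMap x` (`logMap_unit_smul`), the coordinates of `logEmbedding (ζ ∏ η_i^(k_i))` are the `k_i`
  (`basisUnitLattice`, `logEmbedding_fundSystem`), and `hasSum_prod_T`.
-/

set_option autoImplicit false

noncomputable section

open Filter Topology NumberField NumberField.mixedEmbedding NumberField.Units

open scoped Classical

namespace Pool.Agent.Cheb

variable (F : Type) [Field F] [NumberField F]

/-- The basis. -/
def PhiB_bas : Module.Basis (Fin (Units.rank F)) ℝ (dirichletUnitTheorem.logSpace F) :=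
  (basisUnitLattice F).ofZLatticeBasis ℝ (unitLattice F)

theorem PhiB_log (x : mixedSpace F) (hx : phi F x ≠ 0)
    (w : {w : InfinitePlace F // w ≠ dirichletUnitTheorem.w₀}) :
    |logMap x w| ≤ ∑ i, ‖PhiB_bas F i‖ := by
  have h1 : ∀ i, |coord F x i| ≤ 1 := by
    intro i
    by_contra hc
    push Not at hc
    apply hx
    unfold phi
    split_ifs with h0
    · rfl
    · exact Finset.prod_eq_zero (Finset.mem_univ i) (T_eq_zero hc.le)
  have h2 : logMap x = ∑ i, coord F x i • PhiB_bas F i :=
    ((PhiB_bas F).sum_repr (logMap x)).symm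
  rw [h2, Finset.sum_apply]
  refine (Finset.abs_sum_le_sum_abs _ _).trans (Finset.sum_le_sum fun i _ => ?_)
  rw [Pi.smul_apply, smul_eq_mul, abs_mul]
  have h3 : |PhiB_bas F i w| ≤ ‖PhiB_bas F i‖ := norm_le_pi_norm (PhiB_bas F i) w
  calc |coord F x i| * |PhiB_bas F i w| ≤ 1 * ‖PhiB_bas F i‖ :=
        mul_le_mul (h1 i) h3 (abs_nonneg _) zero_le_one
    _ = _ := one_mul _

theorem PhiB_all {x : mixedSpace F} (h0 : mixedEmbedding.norm x ≠ 0) {B : ℝ}
    (hB : ∀ w : {w : InfinitePlace F // w ≠ dirichletUnitTheorem.w₀}, |logMap x w| ≤ B)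
    (hB0 : 0 ≤ B) (w : InfinitePlace F) :
    |Real.log (normAtPlace w x) -
      Real.log (mixedEmbedding.norm x) * (Module.finrank ℚ F : ℝ)⁻¹| ≤
      Fintype.card (InfinitePlace F) * B := by
  set N : ℝ := Real.log (mixedEmbedding.norm x) * (Module.finrank ℚ F : ℝ)⁻¹ with hN
  set L : InfinitePlace F → ℝ := fun w => (w.mult : ℝ) * (Real.log (normAtPlace w x) - N) with hL
  have hn : (Module.finrank ℚ F : ℝ) ≠ 0 := Nat.cast_ne_zero.2 Module.finrank_pos.ne'
  have hsum : ∑ w, L w = 0 := by
    have h1 : Real.log (mixedEmbedding.norm x) =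
        ∑ w : InfinitePlace F, (w.mult : ℝ) * Real.log (normAtPlace w x) := by
      rw [mixedEmbedding.norm_apply, Real.log_prod fun w _ =>
        pow_ne_zero _ (mixedEmbedding.norm_ne_zero_iff.1 h0 w)]
      exact Finset.sum_congr rfl fun w _ => Real.log_pow _ _
    have h2 : ∑ w : InfinitePlace F, (w.mult : ℝ) = Module.finrank ℚ F := by
      exact_mod_cast InfinitePlace.sum_mult_eq (K := F)
    simp only [hL, mul_sub, Finset.sum_sub_distrib]
    rw [← h1, ← Finset.sum_mul, h2, hN]
    field_simp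
    ring
  have hLw : ∀ w : InfinitePlace F, w ≠ dirichletUnitTheorem.w₀ → |L w| ≤ B := fun w hw =>
    hB ⟨w, hw⟩
  have hcard : (1 : ℝ) ≤ Fintype.card (InfinitePlace F) := by
    exact_mod_cast Fintype.card_pos
  have hall : |L w| ≤ Fintype.card (InfinitePlace F) * B := by
    by_cases hw : w = dirichletUnitTheorem.w₀
    · have h1 : L w = -∑ v ∈ Finset.univ.erase w, L v := by
        rw [← Finset.add_sum_erase _ _ (Finset.mem_univ w)] at hsum
        linarith
      rw [h1, abs_neg]
      refine (Finset.abs_sum_le_sum_abs _ _).trans ?_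
      refine (Finset.sum_le_card_nsmul _ _ B fun v hv => hLw v ?_).trans ?_
      · rw [← hw]; exact Finset.ne_of_mem_erase hv
      · rw [nsmul_eq_mul]
        refine mul_le_mul_of_nonneg_right ?_ hB0
        exact_mod_cast (Finset.card_le_univ _)
    · refine (hLw w hw).trans ?_
      nlinarith
  have hm : (1 : ℝ) ≤ w.mult := by exact_mod_cast InfinitePlace.one_le_mult
  have h3 : |L w| = (w.mult : ℝ) * |Real.log (normAtPlace w x) - N| := by
    rw [hL]
    simp only
    rw [abs_mul, abs_of_nonneg (by linarith)]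
  rw [h3] at hall
  refine le_trans ?_ hall
  nlinarith [abs_nonneg (Real.log (normAtPlace w x) - N)]

/-- The support of `phi` lies in a cone where all the absolute values are comparable. -/
theorem phi_comparable : ∃ δ : ℝ, 0 < δ ∧ ∀ x : mixedSpace F, phi F x ≠ 0 →
    ∀ w, δ * ‖x‖ ≤ normAtPlace w x := by
  set B : ℝ := ∑ i, ‖PhiB_bas F i‖ with hB
  have hB0 : 0 ≤ B := Finset.sum_nonneg fun i _ => norm_nonneg _
  set D : ℝ := Fintype.card (InfinitePlace F) * B with hD
  refine ⟨Real.exp (-(2 * D)), Real.exp_pos _, fun x hx w => ?_⟩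
  have h0 : mixedEmbedding.norm x ≠ 0 := by
    intro h
    exact hx (phi_of_norm_eq_zero F h)
  have h1 := PhiB_all F h0 (PhiB_log F x hx) hB0
  have hpos : ∀ v, 0 < normAtPlace v x := fun v =>
    (normAtPlace_nonneg v x).lt_of_ne' (mixedEmbedding.norm_ne_zero_iff.1 h0 v)
  have h2 : ‖x‖ ≤ Real.exp (2 * D) * normAtPlace w x := by
    rw [norm_eq_sup'_normAtPlace]
    refine Finset.sup'_le _ _ fun v _ => ?_
    rw [← Real.exp_log (hpos v), ← Real.exp_log (hpos w), ← Real.exp_add]
    refine Real.exp_le_exp.2 ?_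
    have h3 := abs_le.1 (h1 v)
    have h4 := abs_le.1 (h1 w)
    linarith
  calc Real.exp (-(2 * D)) * ‖x‖ ≤ Real.exp (-(2 * D)) * (Real.exp (2 * D) * normAtPlace w x) :=
        mul_le_mul_of_nonneg_left h2 (Real.exp_pos _).le
    _ = normAtPlace w x := by
        rw [← mul_assoc, ← Real.exp_add, neg_add_cancel, Real.exp_zero, one_mul]

end Pool.Agent.Cheb
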