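import Pool.Agent.Chebotarev_h15.Sum

/-!
# Sums over sets of primes

`psum S s` is monotone and additive in `S` (`s > 1`, `summable_primes`), at most the number of
elements for finite `S`.  `Pool.Agent.T10.d1_asymp` (`W_b4801b_t10/DegOne.lean`): the sum over the
primes of degree one is `log (1 / (s - 1)) + O(1)`; the sum over the other primes is bounded
(`Pool.Agent.T10.DegOne_bad_summable`).
-/

set_option autoImplicit false

noncomputable section

open Filter Topology NumberField IsDedekindDomain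
open scoped nonZeroDivisors

namespace Pool.Agent.Cheb

variable {F : Type} [Field F] [NumberField F]

theorem PsA_ind_nonneg (S : Set (HeightOneSpectrum (𝓞 F))) (s : ℝ) (P : HeightOneSpectrum (𝓞 F)) :
    0 ≤ S.indicator (fun P => (Ideal.absNorm P.asIdeal : ℝ) ^ (-s)) P :=
  Set.indicator_nonneg (fun _ _ => Real.rpow_nonneg (Nat.cast_nonneg _) _) P

theorem PsA_summable (S : Set (HeightOneSpectrum (𝓞 F))) {s : ℝ} (hs : 1 < s) :
    Summable (S.indicator fun P => (Ideal.absNorm P.asIdeal : ℝ) ^ (-s)) :=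
  (summable_primes F hs).indicator S

theorem psum_nonneg (S : Set (HeightOneSpectrum (𝓞 F))) (s : ℝ) : 0 ≤ psum S s :=
  tsum_nonneg (PsA_ind_nonneg S s)

theorem psum_eq (S : Set (HeightOneSpectrum (𝓞 F))) (s : ℝ) :
    psum S s = NumberField.Set.primeIdealZetaSum S s :=
  (tsum_subtype S fun P => (Ideal.absNorm P.asIdeal : ℝ) ^ (-s)).symm

theorem psum_mono {S S' : Set (HeightOneSpectrum (𝓞 F))} (h : S ⊆ S') {s : ℝ} (hs : 1 < s) :
    psum S s ≤ psum S' s :=
  (PsA_summable S hs).tsum_le_tsum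
    (Set.indicator_le_indicator_of_subset h fun _ => Real.rpow_nonneg (Nat.cast_nonneg _) _)
    (PsA_summable S' hs)

theorem psum_union_le (S S' : Set (HeightOneSpectrum (𝓞 F))) {s : ℝ} (hs : 1 < s) :
    psum (S ∪ S') s ≤ psum S s + psum S' s := by
  unfold psum
  rw [← (PsA_summable S hs).tsum_add (PsA_summable S' hs)]
  refine (PsA_summable _ hs).tsum_le_tsum (fun P => ?_)
    ((PsA_summable S hs).add (PsA_summable S' hs))
  have h0 : 0 ≤ (Ideal.absNorm P.asIdeal : ℝ) ^ (-s) := Real.rpow_nonneg (Nat.cast_nonneg _) _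
  by_cases h1 : P ∈ S <;> by_cases h2 : P ∈ S' <;> simp [h1, h2, h0]

theorem psum_finite {E : Set (HeightOneSpectrum (𝓞 F))} (hE : E.Finite) {s : ℝ} (hs : 1 < s) :
    psum E s ≤ E.ncard := by
  rw [psum_eq]
  exact NumberField.Set.primeIdealZetaSum_le_card_of_finite hE (zero_le_one.trans hs.le)

/-- Finitely many sets which are pairwise disjoint outside a finite set. -/
theorem psum_sum_le {ι : Type} [Fintype ι] (A : ι → Set (HeightOneSpectrum (𝓞 F)))
    (B E : Set (HeightOneSpectrum (𝓞 F))) (hE : E.Finite) (hA : ∀ i, A i ⊆ B)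
    (hd : ∀ i j, i ≠ j → A i ∩ A j ⊆ E) :
    ∃ C : ℝ, ∀ s : ℝ, 1 < s → ∑ i, psum (A i) s ≤ psum B s + C := by
  classical
  refine ⟨(Fintype.card ι : ℝ) * E.ncard, fun s hs => ?_⟩
  have h1 : ∑ i, psum (A i) s ≤ psum B s + (Fintype.card ι : ℝ) * psum E s := by
    unfold psum
    rw [← Summable.tsum_finsetSum fun i _ => PsA_summable (A i) hs, ← tsum_mul_left,
      ← (PsA_summable B hs).tsum_add ((PsA_summable E hs).mul_left _)]
    refine (summable_sum fun i _ => PsA_summable (A i) hs).tsum_le_tsum (fun P => ?_)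
      ((PsA_summable B hs).add ((PsA_summable E hs).mul_left _))
    have h0 : 0 ≤ (Ideal.absNorm P.asIdeal : ℝ) ^ (-s) := Real.rpow_nonneg (Nat.cast_nonneg _) _
    by_cases hPE : P ∈ E
    · rw [Set.indicator_of_mem hPE]
      have h2 : ∑ i, (A i).indicator (fun P => (Ideal.absNorm P.asIdeal : ℝ) ^ (-s)) P ≤
          ∑ _i : ι, (Ideal.absNorm P.asIdeal : ℝ) ^ (-s) :=
        Finset.sum_le_sum fun i _ => Set.indicator_le_self' (fun _ _ => h0) P
      rw [Finset.sum_const, Finset.card_univ, nsmul_eq_mul] at h2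
      linarith [PsA_ind_nonneg B s P]
    · rw [Set.indicator_of_notMem hPE, mul_zero, add_zero]
      by_cases hex : ∃ i, P ∈ A i
      · obtain ⟨i, hi⟩ := hex
        rw [Finset.sum_eq_single i, Set.indicator_of_mem hi, Set.indicator_of_mem (hA i hi)]
        · intro j _ hj
          refine Set.indicator_of_notMem (fun hPj => hPE (hd j i hj ⟨hPj, hi⟩)) _
        · intro h
          exact absurd (Finset.mem_univ i) h
      · rw [Finset.sum_eq_zero fun i _ => Set.indicator_of_notMem (fun h => hex ⟨i, h⟩) _]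
        exact PsA_ind_nonneg B s P
  refine h1.trans ?_
  have := mul_le_mul_of_nonneg_left (psum_finite hE hs) (Nat.cast_nonneg (α := ℝ) (Fintype.card ι))
  linarith

end Pool.Agent.Cheb
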