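import Pool.Agent.W_f569db_h62.NTD

/-!
# Sums over sets of primes

`psum S s` is monotone and additive in `S` (`s > 1`, `summable_primes`), at most the number of
elements for finite `S`.  `Pool.Agent.T10.d1_asymp` (`W_b4801b_t10/DegOne.lean`): the sum over the
primes of degree one is `log (1 / (s - 1)) + O(1)`; the sum over the other primes is bounded
(`Pool.Agent.T10.DegOne_bad_summable`).
-/

set_option autoImplicit false

noncomputable section

open Filter Topology NumberField IsDedekindDomain
open scoped nonZeroDivisors

namespace Pool.Agent.Cheb

variable {F : Type} [Field F] [NumberField F]

end Pool.Agent.Cheb
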