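import Pool.Agent.Chebotarev_h15.Defs

/-!
# The tent function

`T t = max 0 (1 - |t|)`; the integer translates of `T` sum to `1`: only the two integers next to
`-t` contribute, with `1 - a` and `a`.  The product version: `hasSum` of a product over
`Fin r → ℤ` by induction on `r` (`Fin.consEquiv`, `HasSum.mul_of_nonneg` / summability of products,
`Fin.prod_univ_succ`).
-/

set_option autoImplicit false

noncomputable section

open Filter Topology

namespace Pool.Agent.Cheb

theorem T_nonneg (t : ℝ) : 0 ≤ T t := le_max_left _ _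

theorem T_le_one (t : ℝ) : T t ≤ 1 := max_le zero_le_one (by linarith [abs_nonneg t])

theorem T_eq_zero {t : ℝ} (h : 1 ≤ |t|) : T t = 0 := max_eq_left (by linarith)

theorem T_lip (a b : ℝ) : |T a - T b| ≤ |a - b| := by
  unfold T
  rw [max_comm 0 (1 - |a|), max_comm 0 (1 - |b|)]
  refine (abs_max_sub_max_le_abs _ _ _).trans ?_
  have h1 : 1 - |a| - (1 - |b|) = |b| - |a| := by ring
  rw [h1, abs_sub_comm a b]
  exact abs_abs_sub_abs_le b a

theorem T_continuous : Continuous T := by
  unfold T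
  fun_prop

theorem hasSum_T (t : ℝ) : HasSum (fun k : ℤ => T (t + k)) 1 := by
  have h1 : HasSum (fun k : ℤ => T (t + k)) (∑ k ∈ ({-⌊t⌋, -⌊t⌋ - 1} : Finset ℤ), T (t + k)) := by
    refine hasSum_sum_of_ne_finset_zero fun k hk => T_eq_zero ?_
    rw [Finset.mem_insert, Finset.mem_singleton, not_or] at hk
    have h2 := Int.floor_le t
    have h3 := Int.lt_floor_add_one t
    rcases lt_or_ge (-⌊t⌋) k with h4 | h4
    · have h5 : -⌊t⌋ + 1 ≤ k := h4
      have h6 : (-(⌊t⌋ : ℝ) + 1) ≤ k := by exact_mod_cast h5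
      rw [le_abs]
      left
      linarith
    · have h5 : k ≤ -⌊t⌋ - 2 := by omega
      have h6 : (k : ℝ) ≤ -(⌊t⌋ : ℝ) - 2 := by exact_mod_cast h5
      rw [le_abs]
      right
      linarith
  have h2 : ∑ k ∈ ({-⌊t⌋, -⌊t⌋ - 1} : Finset ℤ), T (t + k) = 1 := by
    rw [Finset.sum_pair (by omega)]
    have h3 := Int.floor_le t
    have h4 := Int.lt_floor_add_one t
    unfold T
    push_cast
    rw [abs_of_nonneg (by linarith : 0 ≤ t + -(⌊t⌋ : ℝ)),
      abs_of_nonpos (by linarith : t + (-(⌊t⌋ : ℝ) - 1) ≤ 0),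
      max_eq_right (by linarith), max_eq_right (by linarith)]
    ring
  rwa [h2] at h1

theorem hasSum_prod_T (r : ℕ) (c : Fin r → ℝ) :
    HasSum (fun k : Fin r → ℤ => ∏ i, T (c i + k i)) 1 := by
  induction r with
  | zero =>
    have h1 : (fun k : Fin 0 → ℤ => ∏ i, T (c i + k i)) = fun _ => 1 := by
      funext k
      exact Finset.prod_of_isEmpty _
    rw [h1]
    exact hasSum_unique _
  | succ r ih =>
    rw [← (Fin.consEquiv fun _ : Fin (r + 1) => ℤ).hasSum_iff]
    have h1 := hasSum_T (c 0)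
    have h2 := ih fun i => c i.succ
    have n1 : 0 ≤ fun k : ℤ => T (c 0 + k) := fun k => T_nonneg _
    have n2 : 0 ≤ fun k : Fin r → ℤ => ∏ i, T (c i.succ + k i) :=
      fun k => Finset.prod_nonneg fun i _ => T_nonneg _
    have h5 : Summable fun x : ℤ × (Fin r → ℤ) => T (c 0 + x.1) * ∏ i, T (c i.succ + x.2 i) :=
      Summable.mul_of_nonneg (f := fun k : ℤ => T (c 0 + k))
        (g := fun k : Fin r → ℤ => ∏ i, T (c i.succ + k i)) h1.summable h2.summable n1 n2
    have h3 : HasSum (fun x : ℤ × (Fin r → ℤ) => T (c 0 + x.1) * ∏ i, T (c i.succ + x.2 i))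
        (1 * 1) := HasSum.mul (f := fun k : ℤ => T (c 0 + k))
          (g := fun k : Fin r → ℤ => ∏ i, T (c i.succ + k i)) h1 h2 h5
    rw [one_mul] at h3
    have h4 : (fun k : Fin (r + 1) → ℤ => ∏ i, T (c i + k i)) ∘
        (Fin.consEquiv fun _ : Fin (r + 1) => ℤ) =
        fun p : ℤ × (Fin r → ℤ) => T (c 0 + p.1) * ∏ i, T (c i.succ + p.2 i) := by
      funext p
      show ∏ i, T (c i + (Fin.consEquiv fun _ : Fin (r + 1) => ℤ) p i) = _
      rw [Fin.prod_univ_succ]
      rfl
    rw [h4]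
    exact h3

end Pool.Agent.Cheb
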